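import Pool.Agent.Lib.MP_294da1_gt.Types

namespace Pool.Agent.Lib.MP_294da1_gt
open FreeGroup hiding map_mul map_inv map_one

variable {g : ℕ}

lemma fam_union {ι : Type} [Finite ι] (c : ι → F g) (S : ∀ i, Simple (c i)) :
    Fam {h | ∃ i, h ∈ cl (c i)} := by
  refine ⟨?_, ?_, ?_, ?_, fun p q => ?_⟩
  · rintro h ⟨i, hi⟩; exact ⟨i, cl_inv hi⟩
  · rintro h ⟨i, hi⟩ t; exact ⟨i, cl_conj hi t⟩
  · rintro h ⟨i, hi⟩; exact (S i).fam.ne _ hi
  · rintro h ⟨i, hi⟩; exact (S i).fam.prim _ hi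
  · refine (Set.finite_iUnion fun i => (S i).fam.lf p q).subset ?_
    rintro h ⟨⟨i, hi⟩, a⟩
    exact Set.mem_iUnion.2 ⟨i, hi, a⟩

abbrev Sg (g : ℕ) := ((Fin g × Bool) → Z2) × (Lt g × Bool) × (Lt g × Bool) × (Lt g × Bool)

/-- curves pairwise meeting at most once are boundedly many -/
theorem count {ι : Type} [Finite ι] (c : ι → F g) (S : ∀ i, Simple (c i))
    (one : ∀ i j, One (c i) (cl (c j))) :
    ∃ f : ι → Sg g, ∀ i j, f i = f j → cl (c i) = cl (c j) := by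
  choose ε hε using fun i => exists_sig (S i)
  set N : (F g →* Z2) → Set (F g) := fun e => {h | ∃ j : {j // ε j = e}, h ∈ cl (c j.1)} with hN
  have hF : ∀ e, Fam (N e) := fun e => fam_union (fun j : {j // ε j = e} => c j.1) fun j => S j.1
  have hn : ∀ e, Nest (N e) := by
    rintro e h ⟨⟨i, rfl⟩, hi⟩ h' ⟨⟨j, ej⟩, hj⟩
    have s := (S i).of_mem hi
    refine (hε j h s ((one i j).of_mem (S j) hi)).1 ?_ h' hj
    rw [ej]
    exact (hε i h s ((one i i).of_mem (S i) hi)).2 fun u hu => (S i).nest _ hi _ hu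
  have mem : ∀ i, c i ∈ N (ε i) := fun i => ⟨⟨i, rfl⟩, self_mem_cl _⟩
  choose z d hd using fun i => exists_extreme (hF (ε i)) (hn _) (mem i)
  refine ⟨fun i => (fun s => ε i (of s), d i), fun i j e => ?_⟩
  have e1 : ε i = ε j := FreeGroup.ext_hom _ _ fun s => congrFun (congrArg Prod.fst e) s
  have e2 : d i = d j := congrArg Prod.snd e
  have m : ∀ i, (z i)⁻¹ * c i * z i ∈ cl (c i) := fun i => by
    simpa using cl_conj (self_mem_cl (c i)) (z i)⁻¹
  have := Extreme.unique (hn (ε j)) (h := (z i)⁻¹ * c i * z i) ⟨⟨i, e1⟩, m i⟩ ⟨⟨j, rfl⟩, m j⟩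
    (by rw [← e1, ← e2]; exact hd i) (hd j)
  rw [← cl_eq (m i), this, cl_eq (m j)]

theorem exists_cfg (hg : 0 < g) {l : List (MulAut (F g))} (h1 : ∀ τ ∈ l, IsTwist τ)
    (h2 : ∀ σ ∈ l, ∀ τ ∈ l, σ * τ = τ * σ ∨ σ * τ * σ = τ * σ * τ)
    (h3 : l.prod = MulAut.conj (zt g)) (h4 : 1 < l.length) :
    ∃ C : Cfg g (Nat.card (Sg g)), C.w.length = l.length := by
  choose c S T using fun τ : {τ // τ ∈ l} => (h1 τ.1 τ.2).exists_isTw hg
  have one : ∀ i j, One (c i) (cl (c j)) := fun i j => by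
    rcases h2 _ i.2 _ j.2 with e | e
    · intro u hu _ _ s _
      exact absurd (s.cross (S j).fam hu)
        (commute_nc hg (S j) (S i) (T j) (T i) e.symm hu (self_mem_cl _))
    · exact braid_one hg (S i) (S j) (T i) (T j) e
  have nbp : ∀ i, zt g ∉ cl (c i) := fun i hi => by
    have e := (T i).unique (S i) (isTw_zt hg) (cl_eq hi)
    have := sublist_length (List.singleton_sublist.2 i.2)
      (fun τ hτ => (T ⟨τ, hτ⟩).pos hg (S _)) (by simp [e, h3])
    simp at this; omega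
  have : Finite {τ // τ ∈ l} := (List.finite_toSet l).to_subtype
  obtain ⟨f, hf⟩ := count c S one
  have ne : l ≠ [] := by rintro rfl; simp at h4
  have : Nonempty {τ // τ ∈ l} := ⟨⟨_, List.getLast_mem ne⟩⟩
  have inj : Function.Injective (Finite.equivFin (Sg g) ∘ f) :=
    (Finite.equivFin _).injective.comp fun i j e =>
      Subtype.ext ((T i).unique (S i) (T j) (hf i j e).symm)
  obtain ⟨p, hp⟩ := inj.hasLeftInverse
  refine ⟨⟨hg, c ∘ p, fun k => (p k).1, fun _ => S _, fun _ => T _, fun _ _ => one _ _,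
    fun _ => nbp _, l.attach.map (Finite.equivFin (Sg g) ∘ f), by simpa using ne, ?_⟩, by simp⟩
  rw [List.map_map, ← h3]
  congr 1
  conv_rhs => rw [← List.attach_map_subtype_val l]
  exact List.map_congr_left fun i _ => congrArg Subtype.val (hp i)

theorem finite_words (g n : ℕ) : {w : List (Fin n) | ∃ C : Cfg g n, C.w = w}.Finite := by
  have key : ∀ T : Ty n, {w : List (Fin n) | ∃ C : Cfg g n, Real T C.τ ∧ C.w = w}.Finite := by
    intro T
    refine IsAntichain.finite_of_partiallyWellOrderedOn (r := List.SublistForall₂ (· = ·)) ?_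
      ((Set.PartiallyWellOrderedOn.partiallyWellOrderedOn_sublistForall₂ (· = ·)
        (Set.finite_univ.partiallyWellOrderedOn)).mono fun _ _ _ _ => trivial)
    rintro _ ⟨C, a, rfl⟩ _ ⟨C', b, rfl⟩ ne h
    obtain ⟨u, h1, h2⟩ := List.sublistForall₂_iff.1 h
    rw [List.forall₂_eq_eq_eq] at h1
    subst h1
    have := sublist_length (h2.map C'.τ) (fun τ hτ => by
      obtain ⟨i, -, rfl⟩ := List.mem_map.1 hτ
      exact (C'.tw i).pos C'.hg (C'.simple i)) ((a.transfer b _ C.prod).trans C'.prod.symm)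
    exact ne (h2.eq_of_length_le (by simpa using this))
  refine (Set.finite_iUnion key).subset ?_
  rintro _ ⟨C, rfl⟩
  obtain ⟨T, hT⟩ := C.real
  exact Set.mem_iUnion.2 ⟨T, C, hT, rfl⟩

theorem main (g : ℕ) : ∃ N : ℕ, ∀ l : List (MulAut (F g)), (∀ τ ∈ l, IsTwist τ) →
    (∀ σ ∈ l, ∀ τ ∈ l, σ * τ = τ * σ ∨ σ * τ * σ = τ * σ * τ) →
    l.prod = MulAut.conj (gam g g) → l.length ≤ N := by
  rcases Nat.eq_zero_or_pos g with rfl | hg
  · refine ⟨0, fun l h _ _ => ?_⟩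
    cases l with
    | nil => simp
    | cons τ l =>
      obtain ⟨φ, -, ⟨i, -⟩ | ⟨k, a, b, -⟩⟩ := h τ (by simp)
      · exact i.elim0
      · omega
  obtain ⟨N, hN⟩ := ((finite_words g (Nat.card (Sg g))).image List.length).bddAbove
  refine ⟨N + 1, fun l h1 h2 h3 => ?_⟩
  by_cases h4 : 1 < l.length
  · obtain ⟨C, hC⟩ := exists_cfg hg h1 h2 h3 h4
    exact hC ▸ (hN ⟨_, ⟨C, rfl⟩, rfl⟩).trans N.le_succ
  · omega

end Pool.Agent.Lib.MP_294da1_gt
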