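import Pool.Agent.Lib.MP_294da1_gt.Twist

namespace Pool.Agent.Lib.MP_294da1_gt
open FreeGroup hiding map_mul map_inv map_one
open Filter

variable {g : ℕ}

/-- the walls of `C` crossed by the axis of `h` form at most one orbit -/
def One (h : F g) (C : Set (F g)) : Prop :=
  ∀ u ∈ C, ∀ u' ∈ C, SD h u → SD h u' → ∃ k : ℤ, u' = h ^ k * u * (h ^ k)⁻¹

lemma One.of_mem {a b h : F g} (Sb : Simple b) (H : One a (cl b)) (hh : h ∈ cl a) :
    One h (cl b) := by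
  have inv : One a⁻¹ (cl b) := by
    intro u hu u' hu' s s'
    obtain ⟨k, hk⟩ := H _ (cl_inv hu) _ (cl_inv hu') (by simpa using s.inv (Sb.fam.ne _ hu))
      (by simpa using s'.inv (Sb.fam.ne _ hu'))
    exact ⟨-k, by rw [← inv_inj, hk]; group⟩
  have conj : ∀ {a : F g}, One a (cl b) → ∀ t, One (t * a * t⁻¹) (cl b) := by
    intro a H t u hu u' hu' s s'
    obtain ⟨k, hk⟩ := H _ (cl_conj hu t⁻¹) _ (cl_conj hu' t⁻¹)
      (by simpa [mul_assoc] using s.conj t⁻¹) (by simpa [mul_assoc] using s'.conj t⁻¹)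
    refine ⟨k, ?_⟩
    rw [conj_zpow]
    calc u' = t * (t⁻¹ * u' * t⁻¹⁻¹) * t⁻¹ := by group
      _ = _ := by rw [hk]; group
  obtain ⟨t, rfl | rfl⟩ := hh
  · exact conj H t
  · exact conj inv t

lemma sd_comparable {H : Set (F g)} (hH : Fam H) {t s s' : F g} (a : s ∈ H) (b : s' ∈ H)
    (hn : ¬ Cross s s') (c : SD t s) (d : SD t s') : Q s ⊆ Q s' ∨ Q s' ⊆ Q s := by
  obtain ⟨x, hx⟩ := Q_nonempty (hH.ne _ a)
  obtain ⟨y, hy⟩ := exists_not_Q (hH.ne _ a)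
  obtain ⟨n, h1⟩ := d.absorb hH b x
  obtain ⟨m, h2⟩ := d.escape hH b y
  exact comparable hn (c.pow_mem n hx) h1 (fun e => hy (by simpa using c.pow_mem m e)) h2

lemma SD.map {ψ : MulAut (F g)} {f : F g ≃ F g} (hQ : ∀ h x, f x ∈ Q (ψ h) ↔ x ∈ Q h)
    (hf : ∀ t x, f (t * x) = ψ t * f x) {t h : F g} (s : SD t h) : SD (ψ t) (ψ h) := by
  refine ⟨fun x hx => ?_, ?_⟩
  · obtain ⟨x, rfl⟩ := f.surjective x
    rw [← hf, hQ]; exact s.1 _ ((hQ _ _).1 hx)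
  · obtain ⟨x, a, b⟩ := s.2
    exact ⟨f x, mt (hQ _ _).1 a, by rw [← hf, hQ]; exact b⟩

def NN (C : Set (F g)) (w t : F g) : Set (F g) :=
  {s | s ∈ C ∧ Q s ⊆ Q w ∧ Q (t * w * t⁻¹) ⊆ Q s ∧ s ≠ t * w * t⁻¹}

section
variable {C : Set (F g)} (hC : Fam C) {w t : F g} (hw : w ∈ C)
include hC hw

lemma NN_fin : (NN C w t).Finite := by
  obtain ⟨y, hy⟩ := Q_nonempty (hC.ne _ (hC.conj _ hw t))
  obtain ⟨p, hp⟩ := exists_not_Q (hC.ne _ hw)
  exact (hC.lf p y).subset fun s hs => ⟨hs.1, fun e => hp (hs.2.1 e), hs.2.2.1 hy⟩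

lemma NN_sd {s : F g} (hs : s ∈ NN C w t) : SD t s := by
  obtain ⟨a, b, c, d⟩ := hs
  refine ⟨fun x hx => c ((Q_conj _ _ _).2 (b hx)), ?_⟩
  obtain ⟨z, z1, z2⟩ := Set.not_subset.1 fun e => d (hC.inj a (hC.conj _ hw t) e c)
  exact ⟨t⁻¹ * z, fun e => z2 ((Q_conj' _ _ _).2 (b e)), by simpa using z1⟩

lemma NN_uniq {s s' : F g} (hs : s ∈ NN C w t) (hs' : s' ∈ NN C w t) {k : ℤ}
    (e : s' = t ^ k * s * (t ^ k)⁻¹) : s' = s := by
  have key : ∀ {s s' : F g}, s ∈ NN C w t → s' ∈ NN C w t → ∀ {k : ℤ},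
      s' = t ^ k * s * (t ^ k)⁻¹ → 1 ≤ k → False := by
    intro s s' hs hs' k e hk
    refine hs'.2.2.2 (hC.inj hs'.1 (hC.conj _ hw t) ?_ hs'.2.2.1)
    intro x hx
    rw [e] at hx
    have := (NN_sd hC hw hs).chain hk hx
    rw [zpow_one, Q_conj'] at this
    exact (Q_conj' _ _ _).2 (hs.2.1 this)
  rcases lt_trichotomy k 0 with h | h | h
  · exact (key hs' hs (k := -k) (by rw [e]; group) (by omega)).elim
  · simpa [h] using e
  · exact (key hs hs' e h).elim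

lemma NN_exists (hN : Nest C) (sw : SD t w) {s : F g} (hs : s ∈ C) (sd : SD t s) :
    ∃ k : ℤ, t ^ k * s * (t ^ k)⁻¹ ∈ NN C w t := by
  have cmp : ∀ k : ℤ, ¬ Q (t ^ k * s * (t ^ k)⁻¹) ⊆ Q w → Q w ⊆ Q (t ^ k * s * (t ^ k)⁻¹) :=
    fun k h => (sd_comparable hC (hC.conj _ hs _) hw (hN _ (hC.conj _ hs _) _ hw)
      (sd.conj_zpow k) sw).resolve_left h
  obtain ⟨k, k1, k2⟩ := Int.exists_least_of_bdd
    (P := fun k => Q (t ^ k * s * (t ^ k)⁻¹) ⊆ Q w) (by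
      obtain ⟨p, hp⟩ := exists_not_Q (hC.ne _ hw)
      obtain ⟨n, hn⟩ := sd.absorb hC hs p
      refine ⟨-n, fun z hz => ?_⟩
      by_contra hc
      exact hp (hz (sd.chain (not_le.1 hc).le (by rw [Q_conj']; simpa using hn)))) (by
      by_contra hc
      push Not at hc
      obtain ⟨y, hy⟩ := Q_nonempty (hC.ne _ hw)
      obtain ⟨n, hn⟩ := sd.escape hC hs y
      exact hn (by simpa [Q_conj'] using (Q_conj' _ _ _).1 (cmp n (hc n) hy)))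
  have k3 : ¬ Q (t ^ (k - 1) * s * (t ^ (k - 1))⁻¹) ⊆ Q w := fun e => by
    have := k2 _ e; omega
  refine ⟨k, hC.conj _ hs _, k1, fun x hx => ?_, fun e => k3 ?_⟩
  · have := cmp _ k3 ((Q_conj' _ _ _).1 hx)
    rw [Q_conj'] at *
    rwa [show (t ^ (k - 1))⁻¹ * (t⁻¹ * x) = (t ^ k)⁻¹ * x by group] at this
  · have : t ^ (k - 1) * s * (t ^ (k - 1))⁻¹ = w := by
      calc _ = t⁻¹ * (t ^ k * s * (t ^ k)⁻¹) * t := by group
        _ = w := by rw [e]; group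
    rw [this]

end

lemma prod_desc {w : F g} {l : List (F g)} (hl : ∀ m ∈ l, SD m w) {x : F g} (hx : x ∈ Q w) :
    l.prod * x ∈ Q w := by
  induction l with
  | nil => simpa using hx
  | cons m l ih =>
    rw [List.prod_cons, mul_assoc]
    exact (hl m (by simp)).1 _ (ih fun m' h => hl m' (by simp [h]))

lemma ax_list {a b x : F g} (Sa : Simple a) (Sb : Simple b) {m : F g}
    (hm : m ∈ act a (Ax (cl b) a x) \ Ax (cl b) a x) : m ∈ cl b ∧ SD a m := by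
  obtain ⟨a1, a2, a3, a4⟩ := (ax_diff Sb.fam).1 hm
  exact ⟨a1, ((Sb.of_mem a1).cross_sd Sa.ne a2).resolve_right fun e =>
    a3 (by simpa using e.1 _ a4)⟩

lemma ax_exists {a b x u : F g} (Sb : Simple b) (hu : u ∈ cl b) (s : SD a u) :
    ∃ n : ℤ, a ^ n * u * (a ^ n)⁻¹ ∈ act a (Ax (cl b) a x) \ Ax (cl b) a x := by
  obtain ⟨j, j1, j2⟩ := s.exists_cut Sb.fam hu x
  refine ⟨1 - j, (ax_diff Sb.fam).2 ⟨cl_conj hu _, (s.conj_zpow _).cross Sb.fam (cl_conj hu _),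
    ?_, ?_⟩⟩
  · rwa [Q_conj', show (a ^ (1 - j))⁻¹ * x = a ^ (j - 1) * x by group]
  · rwa [Q_conj', show (a ^ (1 - j))⁻¹ * (a * x) = a ^ j * x by group]

theorem braid_one (hg : 0 < g) {a b : F g} {σ τ : MulAut (F g)} (Sa : Simple a) (Sb : Simple b)
    (ha : IsTw a σ) (hb : IsTw b τ) (e : σ * τ * σ = τ * σ * τ) : One a (cl b) := by
  have opa := ha.op hg Sa
  have opb := hb.op hg Sb
  have h1 := ha.map Sa (opa.mul opb)
  rw [e, show τ * σ * τ * (σ * τ)⁻¹ = τ by group] at h1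
  have h2 := h1.det hg (Sa.map (opa.mul opb)) Sb hb
  intro u hu u' hu' s s'
  by_contra hne
  obtain ⟨x, hx⟩ := Q_nonempty Sa.ne
  obtain ⟨k, -, -, T⟩ := hb.lift Sb (vx_ax Sb.fam Sb.nest Sa.ne hx)
  obtain ⟨l, l1, l2, l3⟩ := T a
  obtain ⟨n, hn⟩ := ax_exists (x := x) Sb hu s
  obtain ⟨n', hn'⟩ := ax_exists (x := x) Sb hu' s'
  have hw : a⁻¹ ∈ cl a := cl_inv (self_mem_cl a)
  have hl : ∀ m ∈ l, m ∈ cl b ∧ SD m a⁻¹ := fun m hm => by
    obtain ⟨m1, m2⟩ := ax_list Sa Sb ((l2 m).1 hm)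
    exact ⟨m1, by simpa using (m2.flip Sa (Sb.of_mem m1)).inv Sa.ne⟩
  obtain ⟨b1, b2, l', rfl⟩ : ∃ b1 b2 l', l = b1 :: b2 :: l' := by
    have m1 := (l2 _).2 hn
    have m2 := (l2 _).2 hn'
    match l, m1, m2 with
    | [b], m1, m2 =>
      exfalso
      rw [List.mem_singleton] at m1 m2
      refine hne ⟨n - n', ?_⟩
      calc u' = (a ^ n')⁻¹ * (a ^ n' * u' * (a ^ n')⁻¹) * a ^ n' := by group
        _ = _ := by rw [m2, ← m1]; group
    | b1 :: b2 :: l', _, _ => exact ⟨_, _, _, rfl⟩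
  set a' := k * τ a * k⁻¹ with ha'
  have s1 := (hl b1 (by simp)).2
  have s2 := (hl b2 (by simp)).2
  have sub : ∀ y ∈ Q (a' * a⁻¹ * a'⁻¹), (b1 * b2)⁻¹ * y ∈ Q a⁻¹ := by
    intro y hy
    rw [Q_conj', l3] at hy
    have := prod_desc (l := l') (fun m hm => (hl m (by simp [hm])).2) ((Q_zpow _ _ (-1)).2 hy)
    simpa [mul_assoc] using this
  have sub' : Q (a' * a⁻¹ * a'⁻¹) ⊆ Q (b1 * a⁻¹ * b1⁻¹) := fun y hy => by
    rw [Q_conj']; simpa [mul_assoc] using s2.1 _ (sub y hy)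
  have ss : NN (cl a) a⁻¹ b1 ⊂ NN (cl a) a⁻¹ a' := by
    refine ⟨fun s hs => ⟨hs.1, hs.2.1, sub'.trans hs.2.2.1, fun e => hs.2.2.2 ?_⟩, fun hs => ?_⟩
    · exact Sa.fam.inj hs.1 (cl_conj hw _) (e ▸ sub') hs.2.2.1
    · refine (hs (a := b1 * a⁻¹ * b1⁻¹) ⟨cl_conj hw _, fun y hy => ?_, sub', fun e => ?_⟩).2.2.2 rfl
      · simpa using s1.1 _ ((Q_conj' _ _ _).1 hy)
      · obtain ⟨y, y1, y2⟩ := s2.2
        exact y1 (by simpa [mul_assoc] using sub (b1 * (b2 * y)) (e ▸ (Q_conj _ _ _).2 y2))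
  have m1 : σ a' ∈ cl b1 := by
    rw [cl_eq (hl b1 (by simp)).1, ← h2, ha', map_mul, map_mul, map_inv]
    exact cl_conj (self_mem_cl _) _
  obtain ⟨φ, φ1, φ2, φ3⟩ : ∃ φ : F g → F g, (∀ s ∈ cl a, φ s ∈ cl a) ∧
      (∀ s ∈ cl a, SD a' s → SD b1 (φ s)) ∧
      ∀ s s' (j : ℤ), φ s' = b1 ^ j * φ s * (b1 ^ j)⁻¹ → ∃ j : ℤ, s' = a' ^ j * s * (a' ^ j)⁻¹ := by
    obtain ⟨t, ht⟩ := m1
    set ψ : MulAut (F g) := MulAut.conj t⁻¹ * σ with hψ
    have q1 : ∀ s ∈ cl a, ψ s ∈ cl a := fun s hs => by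
      refine cl_conj ?_ t⁻¹
      rw [← ha.self Sa, ← image_cl]; exact ⟨s, hs, rfl⟩
    have q2 : ∀ s, SD a' s → SD (ψ a') (ψ s) := fun s hs =>
      hs.map (f := σ.toEquiv.trans (Equiv.mulLeft t⁻¹)) (fun h x => (Q_conj t⁻¹ _ _).trans
        (opa.mem h x)) (fun r x => by simp [hψ, mul_assoc])
    rcases ht with ht | ht
    · have q3 : ψ a' = b1 := by simp [hψ, ht, mul_assoc]
      refine ⟨ψ, q1, fun s _ hs => q3 ▸ q2 s hs, fun s s' j e => ⟨j, ψ.injective ?_⟩⟩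
      simp only [map_mul, map_inv, map_zpow, q3, e]
    · have q3 : ψ a' = b1⁻¹ := by simp [hψ, ht, mul_assoc]
      refine ⟨fun s => (ψ s)⁻¹, fun s hs => cl_inv (q1 s hs), fun s hs' hs => ?_,
        fun s s' j e => ⟨-j, ψ.injective ?_⟩⟩
      · simpa [q3] using (q2 s hs).inv (Sa.fam.ne _ (q1 s hs'))
      · simp only [map_mul, map_inv, map_zpow, q3]
        simp only at e
        rw [← inv_inj, e]; group
  have ex : ∀ s ∈ NN (cl a) a⁻¹ a', ∃ j : ℤ, b1 ^ j * φ s * (b1 ^ j)⁻¹ ∈ NN (cl a) a⁻¹ b1 :=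
    fun s hs => NN_exists Sa.fam hw Sa.nest s1 (φ1 s hs.1) (φ2 s hs.1 (NN_sd Sa.fam hw hs))
  choose! j hj using ex
  have c1 := Set.ncard_lt_ncard ss (NN_fin Sa.fam hw)
  have c2 := Set.ncard_le_ncard_of_injOn (fun s => b1 ^ j s * φ s * (b1 ^ j s)⁻¹) hj (by
    intro s hs s' hs' e
    obtain ⟨i, hi⟩ := φ3 s s' (j s - j s') (by
      calc φ s' = (b1 ^ j s')⁻¹ * (b1 ^ j s' * φ s' * (b1 ^ j s')⁻¹) * b1 ^ j s' := by group
        _ = _ := by simp only at e; rw [← e]; group)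
    exact (NN_uniq Sa.fam hw hs hs' hi).symm) (NN_fin Sa.fam hw)
  omega

/-! ### the class mod 2 -/

abbrev Z2 := Multiplicative (ZMod 2)

lemma exists_sig {c : F g} (S : Simple c) : ∃ ε : F g →* Z2, ∀ b, Simple b → One b (cl c) →
    (ε b = 1 ↔ ∀ u ∈ cl c, ¬ Cross b u) := by
  obtain ⟨π, h1, P⟩ := exists_pot_nest S.fam S.nest (fun _ => Multiplicative.ofAdd (1 : ZMod 2))
    (fun _ => by decide)
  have eq : ∀ t {v}, Vx (cl c) v → π (act t v) = π (pv (cl c) t) * π v := fun t v hv => by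
    simpa using P.equiv S.fam h1 t 1 (fun _ => by simp) hv
  refine ⟨MonoidHom.mk' (fun x => π (pv (cl c) x)) fun x y => ?_, fun b Sb hb => ?_⟩
  · rw [← eq x (vx_pv S.fam y), act_pv S.fam]
  obtain ⟨x, hx⟩ := Q_nonempty Sb.ne
  have hw := vx_ax S.fam S.nest Sb.ne hx
  obtain ⟨l, l1, l2, l3⟩ := P.list S.fam hw (hw.act S.fam b)
  rw [eq b hw, mul_comm, mul_right_inj] at l3
  simp only [MonoidHom.mk'_apply, l3]
  match l, l1, l2 with
  | [], _, l2 =>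
    simp only [List.map_nil, List.prod_nil, true_iff]
    intro u hu cr
    obtain ⟨u', a1, a2⟩ : ∃ u' ∈ cl c, SD b u' := by
      rcases (S.of_mem hu).cross_sd Sb.ne cr with e | e
      · exact ⟨u, hu, e⟩
      · exact ⟨u⁻¹, cl_inv hu, by simpa using e.inv (S.fam.ne _ hu)⟩
    obtain ⟨n, hn⟩ := ax_exists (x := x) S a1 a2
    simpa using (l2 _).2 hn
  | [m], _, l2 =>
    obtain ⟨a1, a2⟩ := ax_list Sb S ((l2 m).1 (by simp))
    refine ⟨fun e => absurd e (by simp only [List.map_cons, List.map_nil]; decide),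
      fun e => absurd (a2.cross S.fam a1) (e m a1)⟩
  | m :: m' :: l, l1, l2 =>
    exfalso
    have b1 := (l2 m).1 (by simp)
    have b2 := (l2 m').1 (by simp)
    obtain ⟨a1, a2⟩ := ax_list Sb S b1
    obtain ⟨a3, a4⟩ := ax_list Sb S b2
    obtain ⟨-, -, c1, c2⟩ := (ax_diff S.fam).1 b1
    obtain ⟨-, -, c3, c4⟩ := (ax_diff S.fam).1 b2
    obtain ⟨k, rfl⟩ := hb m a1 m' a3 a2 a4
    rw [Q_conj', ← zpow_neg] at c3 c4
    rcases lt_trichotomy k 0 with h | h | h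
    · exact c3 (a2.zpow_mem (m := 1) (by omega) (by simpa using c2))
    · simp [h] at l1
    · rw [show b ^ (-k) * (b * x) = b ^ (1 - k) * x by group] at c4
      exact c1 (by simpa using a2.zpow_mem (n := 0) (by omega) c4)

end Pool.Agent.Lib.MP_294da1_gt
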