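import Pool.Agent.Lib.MP_294da1_gt.Std

namespace Pool.Agent.Lib.MP_294da1_gt
open FreeGroup hiding map_mul map_inv map_one
open Filter

variable {g : ℕ}

/-- the vertices of the fundamental polygon -/
def vt (d : Lt g × Bool) : F g :=
  (if d.1.2 then co d.1.1 else ci d.1.1) * (if d.2 then of d.1.1 else 1)

def Extreme (N : Set (F g)) (h : F g) (d : (Lt g × Bool) × (Lt g × Bool) × (Lt g × Bool)) : Prop :=
  vt d.1 ∉ Q h ∧ vt d.2.1 ∈ Q h ∧ vt d.2.2 ∈ Q h ∧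
    ∀ h' ∈ N, vt d.2.1 ∈ Q h' → vt d.2.2 ∈ Q h' → Q h' ⊆ Q h → h' = h

lemma Extreme.unique {N : Set (F g)} (hN : Nest N) {h h' : F g} (a : h ∈ N) (b : h' ∈ N) {d}
    (e : Extreme N h d) (e' : Extreme N h' d) : h = h' := by
  rcases comparable (hN _ a _ b) e.2.1 e'.2.1 e.1 e'.1 with s | s
  · exact e'.2.2.2 _ a e.2.1 e.2.2.1 s
  · exact (e.2.2.2 _ b e'.2.1 e'.2.2.1 s).symm

open Classical in
theorem exists_extreme {N : Set (F g)} (hF : Fam N) (hN : Nest N) {h : F g} (hh : h ∈ N) :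
    ∃ z d, Extreme N (z⁻¹ * h * z) d := by
  by_contra hc
  have ne := hF.ne _ hh
  have H : ∀ z p q r, z * vt p ∉ Q h → z * vt q ∈ Q h → z * vt r ∈ Q h →
      ∃ h' ∈ N, z * vt q ∈ Q h' ∧ z * vt r ∈ Q h' ∧ Q h' ⊆ Q h ∧ h' ≠ h := by
    intro z p q r a1 a2 a3
    by_contra hn
    push Not at hn
    have e : ∀ k x, x ∈ Q (z⁻¹ * k * z) ↔ z * x ∈ Q k := fun k x => by
      simpa using Q_conj' z⁻¹ k x
    refine hc ⟨z, (p, q, r), by rwa [e], by rwa [e], by rwa [e], fun h' b1 b2 b3 b4 => ?_⟩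
    rw [← hn (z * h' * z⁻¹) (hF.conj _ b1 z) (by rwa [Q_conj]) (by rwa [Q_conj])
      fun x hx => by simpa using (e _ _).1 (b4 ((Q_conj' _ _ _).1 hx))]
    group
  obtain ⟨x0, s0, h0⟩ : ∃ x s, ¬ (x * of s ∈ Q h ↔ x ∈ Q h) := by
    by_contra hn
    push Not at hn
    obtain ⟨x, hx⟩ := Q_nonempty ne
    obtain ⟨y, hy⟩ := exists_not_Q ne
    exact hy (const_of_gen (fun x => x ∈ Q h) (fun x s => propext (hn x s)) x y ▸ hx)
  obtain ⟨q0, p0, a1, a2, a3, k0, b1, b2, b3, b4⟩ : ∃ q0 p0, q0 ∈ Q h ∧ p0 ∉ Q h ∧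
      ((q0 = x0 ∧ p0 = x0 * of s0) ∨ (q0 = x0 * of s0 ∧ p0 = x0)) ∧
      ∃ h' ∈ N, q0 ∈ Q h' ∧ Q h' ⊆ Q h ∧ h' ≠ h := by
    have e1 : x0 * (co s0)⁻¹ * vt ((s0, true), false) = x0 := by simp [vt]
    have e2 : x0 * (co s0)⁻¹ * vt ((s0, true), true) = x0 * of s0 := by simp [vt, mul_assoc]
    by_cases c : x0 ∈ Q h
    · obtain ⟨h', c1, c2, -, c3⟩ := H (x0 * (co s0)⁻¹) ((s0, true), true) ((s0, true), false)
        ((s0, true), false) (by rw [e2]; tauto) (by rwa [e1]) (by rwa [e1])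
      exact ⟨_, _, c, by tauto, Or.inl ⟨rfl, rfl⟩, h', c1, e1 ▸ c2, c3⟩
    · have c' : x0 * of s0 ∈ Q h := by by_contra e; tauto
      obtain ⟨h', c1, c2, -, c3⟩ := H (x0 * (co s0)⁻¹) ((s0, true), false) ((s0, true), true)
        ((s0, true), true) (by rwa [e1]) (by rwa [e2]) (by rwa [e2])
      exact ⟨_, _, c', c, Or.inr ⟨rfl, rfl⟩, h', c1, e2 ▸ c2, c3⟩
  have fin : {k | k ∈ N ∧ q0 ∈ Q k ∧ Q k ⊆ Q h ∧ k ≠ h}.Finite :=
    (hF.lf p0 q0).subset fun k hk => ⟨hk.1, fun e => a2 (hk.2.2.1 e), hk.2.1⟩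
  obtain ⟨j, ⟨j1, j2, j3, j4⟩, hj⟩ := fin.exists_maximalFor Q _ ⟨k0, b1, b2, b3, b4⟩
  have mx : ∀ k ∈ N, Q k ⊆ Q h → k ≠ h → ∀ q ∈ Q k, q ∈ Q j → Q k ⊆ Q j := by
    intro k k1 k2 k3 q q1 q2
    rcases comparable (hN _ k1 _ j1) q1 q2 (fun e => a2 (k2 e)) (fun e => a2 (j3 e)) with e | e
    · exact e
    · exact hj ⟨k1, e j2, k2, k3⟩ e
  have out : ∀ t, t = h ∨ t = h⁻¹ → t * q0 ∉ Q j := by
    intro t ht hq
    have inv : ∀ x, t * x ∈ Q h ↔ x ∈ Q h := by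
      rcases ht with rfl | rfl
      exacts [Q_self _, Q_self' _]
    have c1 : ∀ t', (∀ x, t' * x ∈ Q h ↔ x ∈ Q h) → t' * h * t'⁻¹ = h →
        (∃ q ∈ Q j, t'⁻¹ * q ∈ Q j) → ∀ x, t'⁻¹ * x ∈ Q j → x ∈ Q j := by
      rintro t' i1 i2 ⟨q, q1, q2⟩ x hx
      refine mx (t' * j * t'⁻¹) (hF.conj _ j1 _) (fun y hy => ?_) (fun e => j4 ?_) q
        ((Q_conj' _ _ _).2 q2) q1 ((Q_conj' _ _ _).2 hx)
      · simpa using (i1 _).2 (j3 ((Q_conj' _ _ _).1 hy))
      · simpa using e.trans i2.symm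
    have i2 : t * h * t⁻¹ = h := by rcases ht with rfl | rfl <;> group
    have d1 := c1 t inv i2 ⟨_, hq, by simpa using j2⟩
    have d2 := c1 t⁻¹ (fun x => by rw [← inv]; simp) (by rcases ht with rfl | rfl <;> group)
      ⟨_, j2, by simpa using hq⟩
    have d3 : ∀ x, t * x ∈ Q j ↔ x ∈ Q j :=
      fun x => ⟨fun e => d2 x (by simpa using e), fun e => d1 _ (by simpa using e)⟩
    have d4 : ∀ x, h * x ∈ Q j ↔ x ∈ Q j := by
      rcases ht with rfl | rfl
      · exact d3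
      · intro x; rw [← d3]; simp
    exact j4 (hF.inj j1 hh j3 fun x hx => inv_arc ne (Q_arc (hF.ne _ j1)) d4 a1 hx j2)
  have arcj := Q_arc (hF.ne _ j1)
  have inI : ∀ q ∈ Q j, o (h * q0) q (h⁻¹ * q0) := by
    intro q hq
    have s1 := Q_step ne a1 a2
    have s2 := Q_step' ne a1 a2
    have o1 := out h (Or.inl rfl)
    have o2 := out h⁻¹ (Or.inr rfl)
    have np : p0 ∉ Q j := fun e => a2 (j3 e)
    refine o_mid (p := p0) ?_ ?_
    · refine (o_total (x := p0) (y := h * q0) (z := q) (fun e => a2 (e ▸ (Q_self _ _).2 a1)) (fun e => o1 (e ▸ hq))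
        (fun e => np (e ▸ hq))).resolve_right fun e => o1 (arcj.conv np hq j2 e s1)
    · refine (o_total (x := p0) (y := q) (z := h⁻¹ * q0) (fun e => np (e ▸ hq)) (fun e => o2 (e ▸ hq))
        (fun e => a2 (e ▸ (Q_self' _ _).2 a1))).resolve_right fun e => o2 (arcj.conv np j2 hq s2 e)
  have outI : ∀ p, p ∉ Q h → ¬ o (h * q0) p (h⁻¹ * q0) := fun p hp e =>
    o_asymm e (o_cyc (o_trans (Q_step ne a1 hp) (Q_step' ne a1 hp)))
  set χ : Set (F g) → F g → ℤ := fun J x => if x ∈ J then 1 else 0 with hχ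
  have := cochain_zero (fun x s => if (x * of s ∈ Q h ↔ x ∈ Q h) then 0
    else χ (Q j) (x * of s) - χ (Q j) x) (fun s => (fc_o (h * q0) (h⁻¹ * q0) (of s)).subset ?_)
    (fun z => ?_) x0 s0
  · rw [if_neg h0] at this
    have np : p0 ∉ Q j := fun e => a2 (j3 e)
    rcases a3 with ⟨rfl, rfl⟩ | ⟨rfl, rfl⟩ <;> simp [hχ, j2, np] at this
  · intro x hx
    simp only [Set.mem_ofPred_eq, hχ] at hx ⊢
    split_ifs at hx with c1 c2 c3 c4
    · exact absurd rfl hx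
    · exact absurd rfl hx
    · exact fun e => outI x (fun e' => c1 ⟨fun _ => e', fun _ => j3 c2⟩) (e.2 (inI _ c2))
    · exact fun e => outI _ (fun e' => c1 ⟨fun _ => j3 c4, fun _ => e'⟩) (e.1 (inI _ c4))
    · exact absurd rfl hx
  · have v1 : ∀ s, z * co s = z * vt ((s, true), false) := fun s => by simp [vt]
    have v2 : ∀ s, z * co s * of s = z * vt ((s, true), true) := fun s => by simp [vt, mul_assoc]
    have v3 : ∀ s, z * ci s = z * vt ((s, false), false) := fun s => by simp [vt]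
    have v4 : ∀ s, z * ci s * of s = z * vt ((s, false), true) := fun s => by simp [vt, mul_assoc]
    simp only [v2, v4]
    simp only [v1, v3]
    by_cases c1 : ∃ q, z * vt q ∈ Q j
    swap
    · push Not at c1
      simp [hχ, c1]
    by_cases c2 : ∃ p, z * vt p ∉ Q h
    swap
    · push Not at c2
      simp [c2]
    obtain ⟨q, hq⟩ := c1
    obtain ⟨p, hp⟩ := c2
    have e : ∀ r, z * vt r ∈ Q j ↔ z * vt r ∈ Q h := fun r => ⟨fun e => j3 e, fun e => by
      obtain ⟨k, k1, k2, k3, k4, k5⟩ := H z p q r hp (j3 hq) e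
      exact mx k k1 k4 k5 _ k2 hq k3⟩
    have t := telescope (χ (Q h)) z
    simp only [v2, v4] at t
    simp only [v1, v3] at t
    rw [show χ (Q h) (z * zt g) - χ (Q h) z = 0 by simp [hχ, Q_zt ne]] at t
    rw [← t]
    refine Finset.sum_congr rfl fun s _ => ?_
    have aux : ∀ A B : Prop, (if (A ↔ B) then (0 : ℤ) else (if A then 1 else 0) -
        (if B then 1 else 0)) = (if A then 1 else 0) - (if B then 1 else 0) := by
      intro A B; by_cases A <;> by_cases B <;> simp [*]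
    simp only [hχ, e]
    congr 1 <;> convert aux _ _

/-! ### positivity -/

structure Pos (τ : MulAut (F g)) : Prop where
  mono : ∀ x y, K 0 x < K 0 y → K 0 (τ x) < K 0 (τ y)
  le : ∀ x, K 0 (τ x) ≤ K 0 x
  lt : ∃ x, K 0 (τ x) < K 0 x

lemma IsTw.pos (hg : 0 < g) {c : F g} {τ : MulAut (F g)} (S : Simple c) (h : IsTw c τ) :
    Pos τ := by
  refine ⟨fun x y e => ?_, fun x => ?_, ?_⟩
  · by_cases hx : x = 1
    · subst hx
      rw [map_one]
      refine K0_one_lt fun e' => ?_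
      rw [map_eq_one_iff _ τ.injective] at e'
      simp [e'] at e
    · have := (h.op hg S 1 x y).2 (o_one.2 ⟨hx, e⟩)
      rw [map_one] at this
      exact (o_one.1 this).2
  · rcases h.le S x with e | e
    · exact (o_one.1 e).2.le
    · rw [e]
  · obtain ⟨x, hx⟩ := h.exists_lt S
    exact ⟨x, (o_one.1 hx).2⟩

lemma Pos.mono_le {τ : MulAut (F g)} (P : Pos τ) {x y : F g} (h : K 0 x ≤ K 0 y) :
    K 0 (τ x) ≤ K 0 (τ y) := by
  rcases h.lt_or_eq with e | e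
  · exact (P.mono _ _ e).le
  · rw [K0_inj.1 e]

lemma sublist_le {u w : List (MulAut (F g))} (h : u.Sublist w) (P : ∀ τ ∈ w, Pos τ) :
    (∀ x, K 0 (w.prod x) ≤ K 0 (u.prod x)) ∧
      (u.length < w.length → ∃ x, K 0 (w.prod x) < K 0 (u.prod x)) := by
  induction h with
  | slnil => simp
  | @cons u w τ _ ih =>
    obtain ⟨i1, -⟩ := ih fun σ hσ => P σ (by simp [hσ])
    have p := P τ (by simp)
    refine ⟨fun x => (p.le _).trans (i1 x), fun _ => ?_⟩
    obtain ⟨y, hy⟩ := p.lt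
    obtain ⟨x, rfl⟩ := w.prod.surjective y
    exact ⟨x, hy.trans_le (i1 x)⟩
  | @cons_cons u w τ _ ih =>
    obtain ⟨i1, i2⟩ := ih fun σ hσ => P σ (by simp [hσ])
    have p := P τ (by simp)
    refine ⟨fun x => p.mono_le (i1 x), fun e => ?_⟩
    obtain ⟨x, hx⟩ := i2 (by simpa using e)
    exact ⟨x, p.mono _ _ hx⟩

lemma sublist_length {u w : List (MulAut (F g))} (h : u.Sublist w) (P : ∀ τ ∈ w, Pos τ)
    (e : u.prod = w.prod) : w.length ≤ u.length := by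
  by_contra hc
  obtain ⟨x, hx⟩ := (sublist_le h P).2 (not_le.1 hc)
  simp [e] at hx

/-! ### configurations -/

structure Cfg (g n : ℕ) where
  hg : 0 < g
  c : Fin n → F g
  τ : Fin n → MulAut (F g)
  simple : ∀ i, Simple (c i)
  tw : ∀ i, IsTw (c i) (τ i)
  one : ∀ i j, One (c i) (cl (c j))
  nbp : ∀ i, zt g ∉ cl (c i)
  w : List (Fin n)
  wne : w ≠ []
  prod : (w.map τ).prod = MulAut.conj (zt g)

namespace Cfg
variable {n : ℕ} (C : Cfg g n)

def H : Set (F g) := {h | ∃ i, h ∈ cl (C.c i)}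

lemma fam : Fam C.H := by
  refine ⟨?_, ?_, ?_, ?_, fun p q => ?_⟩
  · rintro h ⟨i, hi⟩; exact ⟨i, cl_inv hi⟩
  · rintro h ⟨i, hi⟩ t; exact ⟨i, cl_conj hi t⟩
  · rintro h ⟨i, hi⟩; exact (C.simple i).fam.ne _ hi
  · rintro h ⟨i, hi⟩; exact (C.simple i).fam.prim _ hi
  · refine (Set.finite_iUnion fun i => (C.simple i).fam.lf p q).subset ?_
    rintro h ⟨⟨i, hi⟩, a⟩
    exact Set.mem_iUnion.2 ⟨i, hi, a⟩

lemma simple_of {h : F g} (hh : h ∈ C.H) : Simple h := by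
  obtain ⟨i, hi⟩ := hh; exact (C.simple i).of_mem hi

lemma one_of {h : F g} (hh : h ∈ C.H) (j) : One h (cl (C.c j)) := by
  obtain ⟨i, hi⟩ := hh; exact (C.one i j).of_mem (C.simple j) hi

lemma restrict {v : Set (F g)} (hv : Vx C.H v) (i) : Vx (cl (C.c i)) (v ∩ cl (C.c i)) := by
  refine ⟨Set.inter_subset_right, fun h hh => ?_, fun h a h' b => hv.meet _ a.1 _ b.1,
    hv.fin.subset fun h hh => ⟨hh.1.1, hh.2⟩⟩
  simp [hh, cl_inv hh, hv.xor h ⟨i, hh⟩]

lemma ne_zt {h : F g} (hh : h ∈ C.H) (x : F g) : h ≠ x * (zt g)⁻¹ * x⁻¹ := by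
  obtain ⟨i, hi⟩ := hh
  rintro rfl
  exact C.nbp i (by simpa [mul_assoc] using cl_conj (cl_inv hi) x⁻¹)

lemma Q_ne_zt {h : F g} (hh : h ∈ C.H) (x : F g) : Q h ≠ Q (x * (zt g)⁻¹ * x⁻¹) := fun e =>
  C.ne_zt hh x (Q_inj (C.fam.ne _ hh) (C.fam.prim _ hh)
    ((simple_zt C.hg).fam.prim _ (cl_conj (cl_inv (self_mem_cl _)) x)) e)

lemma stab_pv {t : F g} (e : pv C.H t = pv C.H 1) : ∃ m : ℤ, t = zt g ^ m := by
  have h1 : ∀ i, C.τ i t = t := fun i => (C.tw i).fix (by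
    ext k
    refine and_congr_right fun hk => ?_
    have := Set.ext_iff.1 e k
    simpa [pv, show k ∈ C.H from ⟨i, hk⟩] using this)
  have h2 : ∀ l : List (Fin n), (l.map C.τ).prod t = t := by
    intro l
    induction l with
    | nil => simp
    | cons i l ih => simp [ih, h1]
  have h3 := h2 C.w
  rw [C.prod, MulAut.conj_apply] at h3
  refine (simple_zt C.hg).prim t (Q_comm ?_)
  calc t * zt g * t⁻¹ = (zt g * t * (zt g)⁻¹) * zt g * t⁻¹ := by rw [h3]
    _ = _ := by group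

end Cfg

lemma far_side {H v : Set (F g)} (hH : Fam H) (hv : Vx H v) {t : F g} (h1 : t ≠ 1)
    (e : act t v = v) {h x y : F g} (hh : h ∈ v) (hx : x ∉ Q h) (hy : y ∉ Q h) (a : x ∈ Q t) :
    y ∈ Q t := by
  by_contra b
  have ne := hH.ne _ (hv.sub hh)
  have ez : ∀ m : ℤ, act (t ^ m) v = v := by
    intro m
    induction m using Int.induction_on with
    | zero => simpa using act_one
    | succ m ih => rw [zpow_add_one, act_mul, e, ih]
    | pred m ih =>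
      have : act t⁻¹ v = v := by
        conv_lhs => rw [← e, ← act_mul]
        simpa using act_one
      rw [zpow_sub_one, act_mul, this, ih]
  have inj : Function.Injective fun m : ℤ => t ^ m * h * (t ^ m)⁻¹ := by
    intro m m' e'
    by_contra hne
    have k0 : m - m' ≠ 0 := sub_ne_zero.2 hne
    have c : t ^ (m - m') * h * (t ^ (m - m'))⁻¹ = h := by
      simp only at e'
      calc _ = (t ^ m')⁻¹ * (t ^ m * h * (t ^ m)⁻¹) * t ^ m' := by group
        _ = h := by rw [e']; group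
    have n1 : t ^ (m - m') ≠ 1 := fun e => k0 (zpow_eq_one' h1 e)
    have i1 : ∀ z, t ^ (m - m') * z ∈ (Q h)ᶜ ↔ z ∈ (Q h)ᶜ := fun z => not_congr (Q_comm c z)
    have i2 : ∀ z, (t ^ (m - m'))⁻¹ * z ∈ (Q h)ᶜ ↔ z ∈ (Q h)ᶜ := fun z => by rw [← i1]; simp
    have A := (Q_arc ne).compl
    obtain ⟨z, hz⟩ := Q_nonempty ne
    have b' := (Q_inv h1).2 b
    have key : ∀ {x y}, x ∈ Q (t ^ (m - m')) → y ∉ Q (t ^ (m - m')) → x ∉ Q h → y ∉ Q h →
        False := by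
      intro x y a b hx hy
      by_cases d : z ∈ Q (t ^ (m - m'))
      · exact inv_arc n1 A i1 a d hx hz
      · exact inv_arc (by simpa using n1) A i2 ((Q_inv n1).2 b) ((Q_inv n1).2 d) hy hz
    rcases Q_zpow_ne h1 k0 with d | d
    · exact key (d ▸ a) (d ▸ b) hx hy
    · exact key (d ▸ b') (by rw [d, Q_inv h1]; simpa using a) hy hx
  have fin := (((hv.fin' hH x).preimage inj.injOn).image Int.natAbs).insert 0
  obtain ⟨m, hm⟩ := fin.exists_notMem
  simp only [Set.mem_insert_iff, Set.mem_image, Set.mem_preimage, Set.mem_ofPred_eq, not_or,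
    not_exists, not_and] at hm
  have mem : ∀ j : ℤ, j.natAbs = m → t ^ (-j) * x ∈ Q h := fun j hj => by
    by_contra d
    refine hm.2 j ⟨by rw [← ez j]; exact conj_mem_act.2 hh, ?_⟩ hj
    rwa [Q_conj', ← zpow_neg]
  have m0 : (0 : ℤ) < m := by have := hm.1; omega
  refine hx ((Q_arc ne).conv hy (mem (-m) (by simp)) (mem m (by simp)) ?_ ?_)
  · simpa using Q_anti h1 a b (m := 0) (n := - -(m : ℤ)) (by omega)
  · simpa using Q_anti h1 a b (m := -(m : ℤ)) (n := 0) (by omega)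

theorem Cfg.stab {n : ℕ} (C : Cfg g n) {v : Set (F g)} (hv : Vx C.H v) {t : F g} (h1 : t ≠ 1)
    (e : act t v = v) : ∃ z, v = pv C.H z := by
  by_contra hn
  have np : ∀ z, ∃ h ∈ v, z ∉ Q h := by
    intro z
    by_contra hc
    push Not at hc
    exact hn ⟨z, hv.eq_of_sub (vx_pv C.fam z) fun h hh => ⟨hv.sub hh, hc h hh⟩⟩
  have h1' : t⁻¹ ≠ 1 := by simpa using h1
  have far : ∀ s, s = t ∨ s = t⁻¹ → ∀ {h x y : F g}, h ∈ v → x ∉ Q h → y ∉ Q h → x ∈ Q s →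
      y ∈ Q s := by
    rintro s (rfl | rfl) h x y a b c d
    · exact far_side C.fam hv h1 e a b c d
    · rw [Q_inv h1] at *
      exact fun d' => d (far_side C.fam hv h1 e a c b d')
  choose k _ T _ using fun i => (C.tw i).lift (C.simple i) (C.restrict hv i)
  have st : ∀ i s, s = t ∨ s = t⁻¹ → ∀ x ∈ Q s, ∀ p ∉ Q s, k i * C.τ i x ∈ Q s ∧
      (o p (k i * C.τ i x) x ∨ k i * C.τ i x = x) := by
    intro i s hs x hx p hp
    rcases T i x with ⟨-, a⟩ | ⟨h, a1, a2, a3, -⟩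
    · simp only at a; rw [a]; exact ⟨hx, Or.inr rfl⟩
    · refine ⟨far s hs a1.1.1 a2 a3 hx, Or.inl ?_⟩
      refine (((T i).step (C.simple i) (C.restrict hv i) a1 a2).2 p ?_).2
      by_contra d
      exact hp (far s hs a1.1.1 a2 d hx)
  have comp : ∀ l : List (Fin n), ∃ k', ∀ s, s = t ∨ s = t⁻¹ → ∀ x ∈ Q s, ∀ p ∉ Q s,
      k' * (l.map C.τ).prod x ∈ Q s ∧
      (o p (k' * (l.map C.τ).prod x) x ∨ k' * (l.map C.τ).prod x = x) := by
    intro l
    induction l with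
    | nil => exact ⟨1, fun s _ x hx p _ => by simpa using hx⟩
    | cons i l ih =>
      obtain ⟨k', ih⟩ := ih
      refine ⟨k i * C.τ i k', fun s hs x hx p hp => ?_⟩
      obtain ⟨a1, a2⟩ := ih s hs x hx p hp
      obtain ⟨b1, b2⟩ := st i s hs _ a1 p hp
      simp only [List.map_cons, List.prod_cons, MulAut.mul_apply, mul_assoc, ← map_mul]
      refine ⟨b1, ?_⟩
      rcases a2 with a2 | a2
      · rcases b2 with b2 | b2
        · exact Or.inl (o_trans b2 a2)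
        · exact Or.inl (b2.symm ▸ a2)
      · rwa [a2] at b2 ⊢
  obtain ⟨l, j, hl⟩ : ∃ l j, C.w = l ++ [j] :=
    ⟨_, _, (List.dropLast_append_getLast C.wne).symm⟩
  obtain ⟨k', hk⟩ := comp l
  set r := k' * (l.map C.τ).prod (k j) * zt g with hr
  have key : ∀ x, k' * (l.map C.τ).prod (k j * C.τ j x) = r * x * (zt g)⁻¹ := by
    intro x
    have := congrArg (fun σ : MulAut (F g) => σ x) C.prod
    simp only [hl, List.map_append, List.prod_append, List.map_cons, List.map_nil, List.prod_cons,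
      List.prod_nil, mul_one, MulAut.mul_apply, MulAut.conj_apply] at this
    rw [map_mul, this, hr]; group
  have main : ∀ s, s = t ∨ s = t⁻¹ → ∀ x ∈ Q s, ∀ p ∉ Q s, r * x * (zt g)⁻¹ ∈ Q s ∧
      (o p (r * x * (zt g)⁻¹) (k j * C.τ j x) ∨ r * x * (zt g)⁻¹ = k j * C.τ j x) := by
    intro s hs x hx p hp
    rw [← key]
    exact hk s hs _ (st j s hs x hx p hp).1 p hp
  have sne : ∀ s, s = t ∨ s = t⁻¹ → s ≠ 1 := by rintro s (rfl | rfl) <;> assumption
  by_cases hr1 : r = 1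
  · obtain ⟨h, hm⟩ : ∃ h, Mn (v ∩ cl (C.c j)) h := by
      have R := C.restrict hv j
      by_cases c : C.c j ∈ v ∩ cl (C.c j)
      · exact (R.exists_mn (C.simple j).fam c).imp fun _ => And.left
      · exact (R.exists_mn (C.simple j).fam (R.inv_mem (self_mem_cl _) c)).imp fun _ => And.left
    have hH : h ∈ C.H := ⟨j, hm.1.2⟩
    have ne := C.fam.ne _ hH
    obtain ⟨x, hx⟩ := exists_not_Q ne
    obtain ⟨s, hs, hxs⟩ : ∃ s, (s = t ∨ s = t⁻¹) ∧ x ∈ Q s := by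
      by_cases c : x ∈ Q t
      exacts [⟨t, Or.inl rfl, c⟩, ⟨t⁻¹, Or.inr rfl, (Q_inv h1).2 c⟩]
    obtain ⟨p, hp⟩ := exists_not_Q (sne s hs)
    have hp' : p ∈ Q h := by by_contra d; exact hp (far s hs hm.1.1 hx d hxs)
    have a1 := (main s hs x hxs p hp).2
    have a2 := (((T j).step (C.simple j) (C.restrict hv j) hm hx).2 p hp').1
    have a3 : o p (h⁻¹ * x) x := Q_step (by simpa using ne) ((Q_inv ne).2 hx)
      (by simpa [Q_inv ne] using hp')
    rw [hr1, one_mul] at a1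
    have a4 : ¬ o p (x * (zt g)⁻¹) (h⁻¹ * x) := fun d =>
      adj (x * (zt g)⁻¹) (h⁻¹ * x) (by simpa using o_mid d a3)
    have a5 : x * (zt g)⁻¹ = h⁻¹ * x := by
      rcases a1 with a1 | a1 <;> rcases a2 with a2 | a2
      · exact absurd (o_trans a1 a2) a4
      · exact absurd (a2 ▸ a1) a4
      · exact absurd (a1 ▸ a2) a4
      · exact a1.trans a2
    exact C.ne_zt (C.fam.inv _ hH) x (by rw [a5]; simp)
  · have pres : ∀ s, s = t ∨ s = t⁻¹ → ∀ x ∈ Q s, r * x ∈ Q s := by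
      intro s hs x hx
      obtain ⟨p, hp⟩ := exists_not_Q (sne s hs)
      rw [← Q_zt_zpow (sne s hs) _ (-1)]
      simpa using (main s hs x hx p hp).1
    have hr' : r⁻¹ ≠ 1 := by simpa using hr1
    obtain ⟨x, hx⟩ := Q_nonempty hr'
    obtain ⟨s, hs, hxs⟩ : ∃ s, (s = t ∨ s = t⁻¹) ∧ x ∈ Q s := by
      by_cases c : x ∈ Q t
      exacts [⟨t, Or.inl rfl, c⟩, ⟨t⁻¹, Or.inr rfl, (Q_inv h1).2 c⟩]
    have ns := sne s hs
    have inv : ∀ y, r * y ∈ Q s ↔ y ∈ Q s := fun y => ⟨fun a => by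
      by_contra b
      exact (Q_inv ns).1 (pres s⁻¹ (by rcases hs with rfl | rfl <;> simp) y ((Q_inv ns).2 b)) a,
      pres s hs y⟩
    obtain ⟨p, hp⟩ := exists_not_Q ns
    have e1 : Q s = Q r⁻¹ := by
      have inv' : ∀ y, r⁻¹ * y ∈ Q s ↔ y ∈ Q s := fun y => by rw [← inv]; simp
      have s1 : Q r⁻¹ ⊆ Q s := fun y hy => inv_arc hr' (Q_arc ns) inv' hx hy hxs
      refine Set.Subset.antisymm (fun y hy => ?_) s1
      by_contra d
      rw [Q_inv hr1, not_not] at d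
      have : p ∈ Q r := by by_contra d'; exact hp (s1 ((Q_inv hr1).2 d'))
      exact hp (inv_arc hr1 (Q_arc ns) inv d this hy)
    have a1 := (main s hs x hxs p hp).2
    have a2 := (st j s hs x hxs p hp).2
    have a3 : o p x (r * x) := by simpa using Q_step' hr' hx (e1 ▸ hp)
    have a4 : ¬ o p (r * x * (zt g)⁻¹) x := fun d =>
      adj (r * x * (zt g)⁻¹) x (by simpa using o_mid d a3)
    have a5 : r * x * (zt g)⁻¹ = x := by
      rcases a1 with a1 | a1 <;> rcases a2 with a2 | a2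
      · exact absurd (o_trans a1 a2) a4
      · rw [a2] at a1; exact absurd a1 a4
      · exact absurd (a1 ▸ a2) a4
      · exact a1.trans a2
    have a6 : r⁻¹ = x * (zt g)⁻¹ * x⁻¹ := by
      have : r = x * zt g * x⁻¹ := by
        calc r = r * x * (zt g)⁻¹ * zt g * x⁻¹ := by group
          _ = _ := by rw [a5]
      rw [this]; group
    obtain ⟨h, hh, hxh⟩ := np x
    have ne := C.fam.ne _ (hv.sub hh)
    refine C.Q_ne_zt (C.fam.inv _ (hv.sub hh)) x (Set.Subset.antisymm (fun y hy => ?_) fun y hy => ?_)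
    · rw [← a6, ← e1]; exact far s hs hh hxh ((Q_inv ne).1 hy) hxs
    · rw [Q_conj', Q_zt_inv C.hg] at hy
      obtain ⟨m, hm⟩ := hy
      rw [Q_inv ne, show y = x * zt g ^ m by rw [← hm]; simp, Q_zt_zpow ne]
      exact hxh

end Pool.Agent.Lib.MP_294da1_gt
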