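import Pool.Agent.Lib.MP_294da1_gt.Wall

namespace Pool.Agent.Lib.MP_294da1_gt
open FreeGroup hiding map_mul map_inv map_one
open Filter

variable {g : ℕ}

structure Vx (H v : Set (F g)) : Prop where
  sub : v ⊆ H
  xor : ∀ h ∈ H, h ∈ v ↔ h⁻¹ ∉ v
  meet : ∀ h ∈ v, ∀ h' ∈ v, ∃ x, x ∈ Q h ∧ x ∈ Q h'
  fin : {h | h ∈ v ∧ 1 ∉ Q h}.Finite

def pv (H : Set (F g)) (x : F g) : Set (F g) := {h | h ∈ H ∧ x ∈ Q h}

def Mn (v : Set (F g)) (h : F g) : Prop := h ∈ v ∧ ∀ h' ∈ v, Q h' ⊆ Q h → h' = h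

def flp (v : Set (F g)) (h : F g) : Set (F g) := {k | k = h⁻¹ ∨ (k ∈ v ∧ k ≠ h)}

variable {H v v' : Set (F g)} {h h' : F g}

lemma vx_pv (hH : Fam H) (x : F g) : Vx H (pv H x) := by
  refine ⟨fun h hh => hh.1, ?_, fun h a h' b => ⟨x, a.2, b.2⟩, (hH.lf 1 x).subset ?_⟩
  · intro h hh
    simp [pv, hh, hH.inv _ hh, Q_inv (hH.ne _ hh)]
  · rintro h ⟨⟨a, b⟩, c⟩
    exact ⟨a, c, b⟩

lemma Vx.up (hH : Fam H) (hv : Vx H v) (a : h ∈ v) (b : h' ∈ H) (c : Q h ⊆ Q h') : h' ∈ v := by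
  rw [hv.xor _ b]
  intro d
  obtain ⟨x, x1, x2⟩ := hv.meet _ a _ d
  exact (Q_inv (hH.ne _ b)).1 x2 (c x1)

lemma Vx.inv_mem (hv : Vx H v) (a : h ∈ H) (b : h ∉ v) : h⁻¹ ∈ v := by
  by_contra c; exact b ((hv.xor _ a).2 c)

lemma Vx.inv_not_mem (hv : Vx H v) (b : h ∈ v) : h⁻¹ ∉ v := (hv.xor _ (hv.sub b)).1 b

lemma Vx.fin' (hH : Fam H) (hv : Vx H v) (x : F g) : {h | h ∈ v ∧ x ∉ Q h}.Finite := by
  refine (hv.fin.union (hH.lf x 1)).subset ?_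
  rintro h ⟨a, b⟩
  by_cases c : 1 ∈ Q h
  · exact Or.inr ⟨hv.sub a, b, c⟩
  · exact Or.inl ⟨a, c⟩

lemma Vx.diff_fin (hH : Fam H) (hv : Vx H v) (hv' : Vx H v') : (v \ v').Finite := by
  refine (hv.fin.union (hv'.fin.image fun x => x⁻¹)).subset ?_
  rintro h ⟨a, b⟩
  by_cases c : 1 ∈ Q h
  · exact Or.inr ⟨h⁻¹, ⟨hv'.inv_mem (hv.sub a) b, by simpa [Q_inv (hH.ne _ (hv.sub a))]⟩, by simp⟩
  · exact Or.inl ⟨a, c⟩

lemma Vx.eq_of_sub (hv : Vx H v) (hv' : Vx H v') (hs : v ⊆ v') : v = v' := by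
  refine hs.antisymm fun h hh => ?_
  by_contra c
  exact hv'.inv_not_mem hh (hs (hv.inv_mem (hv'.sub hh) c))

lemma Vx.flp (hH : Fam H) (hv : Vx H v) (hm : Mn v h) : Vx H (flp v h) := by
  have hh := hv.sub hm.1
  have key : ∀ k ∈ v, k ≠ h → ∃ x, x ∈ Q h⁻¹ ∧ x ∈ Q k := by
    intro k a b
    by_contra c
    push Not at c
    exact b (hm.2 k a fun x hx => by
      by_contra d; exact c x ((Q_inv (hH.ne _ hh)).2 d) hx)
  refine ⟨?_, ?_, ?_, (hv.fin.insert h⁻¹).subset ?_⟩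
  · rintro k (rfl | ⟨a, -⟩)
    · exact hH.inv _ hh
    · exact hv.sub a
  · intro k hk
    have := hv.xor k hk
    have e1 := ne_inv (hH.ne _ hh)
    simp only [MP_294da1_gt.flp, Set.mem_ofPred_eq, inv_inj]
    by_cases a : k = h
    · subst a; simp [e1]
    by_cases b : k = h⁻¹
    · subst b; simp [e1.symm]
    have : k⁻¹ ≠ h := fun e => b (by rw [← e]; simp)
    tauto
  · rintro k (rfl | ⟨a, b⟩) k' (rfl | ⟨c, d⟩)
    · obtain ⟨x, hx⟩ := Q_nonempty (hH.ne _ (hH.inv _ hh)); exact ⟨x, hx, hx⟩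
    · exact key _ c d
    · obtain ⟨x, hx⟩ := key _ a b; exact ⟨x, hx.symm⟩
    · exact hv.meet _ a _ c
  · rintro k ⟨rfl | ⟨a, -⟩, c⟩
    · exact Or.inl rfl
    · exact Or.inr ⟨a, c⟩

lemma Mn.flp (hH : Fam H) (hv : Vx H v) (hm : Mn v h) : Mn (flp v h) h⁻¹ := by
  refine ⟨Or.inl rfl, ?_⟩
  rintro k (rfl | ⟨a, b⟩) hs
  · rfl
  · obtain ⟨x, x1, x2⟩ := hv.meet _ a _ hm.1
    exact absurd x2 ((Q_inv (hH.ne _ (hv.sub hm.1))).1 (hs x1))

lemma flp_flp (hv : Vx H v) (hm : h ∈ v) : flp (flp v h) h⁻¹ = v := by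
  have := hv.inv_not_mem hm
  ext k
  simp only [flp, Set.mem_ofPred_eq, inv_inv]
  constructor
  · rintro (rfl | ⟨rfl | ⟨a, -⟩, b⟩)
    · exact hm
    · exact absurd rfl b
    · exact a
  · intro a
    by_cases e : k = h
    · exact Or.inl e
    · exact Or.inr ⟨Or.inr ⟨a, e⟩, fun e' => this (e' ▸ a)⟩

lemma Vx.exists_mn (hH : Fam H) (hv : Vx H v) (a : h ∈ v) : ∃ k, Mn v k ∧ Q k ⊆ Q h := by
  obtain ⟨p, hp⟩ := exists_not_Q (hH.ne _ (hv.sub a))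
  have fin : {k | k ∈ v ∧ Q k ⊆ Q h}.Finite :=
    (hv.fin' hH p).subset fun k hk => ⟨hk.1, fun c => hp (hk.2 c)⟩
  obtain ⟨k, ⟨k1, k2⟩, hk⟩ := fin.exists_minimalFor Q _ ⟨h, a, subset_rfl⟩
  exact ⟨k, ⟨k1, fun k' b c => hH.inj (hv.sub b) (hv.sub k1) c (hk ⟨b, c.trans k2⟩ c)⟩, k2⟩

lemma Vx.exists_down (hH : Fam H) (hv : Vx H v) (hv' : Vx H v') (hne : v ≠ v') :
    ∃ k, Mn v k ∧ k ∉ v' := by
  obtain ⟨h, a, b⟩ := Set.not_subset.1 fun hs => hne (hv.eq_of_sub hv' hs)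
  obtain ⟨k, k1, k2⟩ := hv.exists_mn hH a
  exact ⟨k, k1, fun c => b (hv'.up hH c (hv.sub a) k2)⟩

lemma flp_diff (hv : Vx H v) (hv' : Vx H v') (a : h ∈ v) (b : h ∉ v') :
    flp v h \ v' = (v \ v') \ {h} := by
  ext k
  simp only [flp, Set.mem_sdiff, Set.mem_ofPred_eq, Set.mem_singleton_iff]
  constructor
  · rintro ⟨rfl | c, d⟩
    · exact absurd (hv'.inv_mem (hv.sub a) b) d
    · tauto
  · tauto

lemma flp_ncard (hH : Fam H) (hv : Vx H v) (hv' : Vx H v') (a : h ∈ v) (b : h ∉ v') :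
    (flp v h \ v').ncard + 1 = (v \ v').ncard := by
  rw [flp_diff hv hv' a b]
  exact Set.ncard_sdiff_singleton_add_one ⟨a, b⟩ (hv.diff_fin hH hv')

lemma toward (hH : Fam H) (hv' : Vx H v') {R : Set (F g) → Prop} (base : R v')
    (step : ∀ v h, Vx H v → Mn v h → h ∉ v' → R (flp v h) → R v) (hv : Vx H v) : R v := by
  induction hn : (v \ v').ncard using Nat.strong_induction_on generalizing v with
  | _ n ih =>
    by_cases e : v = v'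
    · exact e ▸ base
    obtain ⟨k, k1, k2⟩ := hv.exists_down hH hv' e
    have := flp_ncard hH hv hv' k1.1 k2
    exact step v k hv k1 k2 (ih _ (by omega) (hv.flp hH k1) rfl)

lemma down_cross (hH : Fam H) (hv : Vx H v) (hv' : Vx H v') (a : Mn v h) (b : Mn v h')
    (hne : h ≠ h') (c : h ∉ v') (d : h' ∉ v') : Cross h h' := by
  obtain ⟨x, x1, x2⟩ := hv.meet _ a.1 _ b.1
  obtain ⟨p, p1, p2⟩ := hv'.meet _ (hv'.inv_mem (hv.sub a.1) c) _ (hv'.inv_mem (hv.sub b.1) d)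
  rw [Q_inv (hH.ne _ (hv.sub a.1))] at p1
  rw [Q_inv (hH.ne _ (hv.sub b.1))] at p2
  by_contra hc
  rcases comparable hc x1 x2 p1 p2 with e | e
  · exact hne (b.2 _ a.1 e)
  · exact hne (a.2 _ b.1 e).symm

lemma Cross.ne (c : Cross h h') : h ≠ h' := by rintro rfl; exact not_cross_self _ c

lemma Cross.ne_inv (h1 : h ≠ 1) (c : Cross h h') : h⁻¹ ≠ h' := (c.inv_left h1).ne

lemma Mn.sq (h1 : h ≠ 1) (b : Mn v h') (c : Cross h h') : Mn (MP_294da1_gt.flp v h) h' := by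
  refine ⟨Or.inr ⟨b.1, c.ne.symm⟩, ?_⟩
  rintro k (rfl | ⟨d, -⟩) hs
  · obtain ⟨x, x1, x2⟩ := c.2.2.2
    exact absurd (hs ((Q_inv h1).2 x1)) x2
  · exact b.2 k d hs

lemma flp_comm (h1 : h ≠ 1) (h2 : h' ≠ 1) (c : Cross h h') :
    flp (flp v h) h' = flp (flp v h') h := by
  have a := c.ne_inv h1
  have b := c.symm.ne_inv h2
  ext k
  simp only [flp, Set.mem_ofPred_eq]
  constructor
  · rintro (rfl | ⟨rfl | d, e⟩) <;> tauto
  · rintro (rfl | ⟨rfl | d, e⟩) <;> tauto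

open Classical in
noncomputable def potAux {Γ : Type*} [Group Γ] (v0 : Set (F g)) (ν : Set (F g) → F g → Γ) :
    ℕ → Set (F g) → Γ
  | 0, _ => 1
  | n + 1, v => if h : ∃ k, Mn v k ∧ k ∉ v0 then
      potAux v0 ν n (flp v h.choose) * (ν v h.choose)⁻¹ else 1

theorem exists_pot {Γ : Type*} [Group Γ] (hH : Fam H) {v0 : Set (F g)} (h0 : Vx H v0)
    (ν : Set (F g) → F g → Γ)
    (anti : ∀ v h, Vx H v → Mn v h → ν (flp v h) h⁻¹ = (ν v h)⁻¹)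
    (sq : ∀ v h h', Vx H v → Mn v h → Mn v h' → Cross h h' →
      ν v h * ν (flp v h) h' = ν v h' * ν (flp v h') h) :
    ∃ Ψ : Set (F g) → Γ, Ψ v0 = 1 ∧ ∀ v h, Vx H v → Mn v h → Ψ (flp v h) = Ψ v * ν v h := by
  set Ψ : Set (F g) → Γ := fun v => potAux v0 ν (v \ v0).ncard v with hΨ
  have down : ∀ n v h, (v \ v0).ncard = n → Vx H v → Mn v h → h ∉ v0 →
      Ψ (flp v h) = Ψ v * ν v h := by
    intro n
    induction n using Nat.strong_induction_on with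
    | _ n ih =>
      intro v h hn hv hm hh
      have ex : ∃ k, Mn v k ∧ k ∉ v0 := ⟨h, hm, hh⟩
      obtain ⟨k1, k2⟩ := ex.choose_spec
      have e0 : Ψ v = Ψ (flp v ex.choose) * (ν v ex.choose)⁻¹ := by
        simp only [hΨ]
        rw [← flp_ncard hH hv h0 k1.1 k2, potAux, dif_pos ex]
      generalize ex.choose = k at k1 k2 e0
      by_cases e : h = k
      · subst e; rw [e0]; simp
      have c := down_cross hH hv h0 hm k1 e hh k2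
      have n1 := hH.ne _ (hv.sub hm.1)
      have n2 := hH.ne _ (hv.sub k1.1)
      have d1 := flp_ncard hH hv h0 hm.1 hh
      have d2 := flp_ncard hH hv h0 k1.1 k2
      have i1 := ih _ (by omega) _ k rfl (hv.flp hH hm) (k1.sq n1 c) k2
      have i2 := ih _ (by omega) _ h rfl (hv.flp hH k1) (hm.sq n2 c.symm) hh
      rw [flp_comm n1 n2 c, i2] at i1
      rw [e0, eq_mul_inv_of_mul_eq i1.symm, mul_assoc, mul_assoc, mul_right_inj,
        eq_inv_mul_iff_mul_eq, ← mul_assoc, ← sq v h k hv hm k1 c]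
      simp
  refine ⟨Ψ, by simp [hΨ, potAux], fun v h hv hm => ?_⟩
  by_cases hh : h ∈ v0
  · have := down _ _ _ rfl (hv.flp hH hm) (hm.flp hH hv) (h0.inv_not_mem hh)
    rw [flp_flp hv hm.1, anti v h hv hm] at this
    rw [this]; simp
  · exact down _ v h rfl hv hm hh

def Pot {Γ : Type*} [Group Γ] (H : Set (F g)) (Ψ : Set (F g) → Γ) (χ : F g → Γ) : Prop :=
  ∀ v h, Vx H v → Mn v h → Ψ (flp v h) = Ψ v * χ h⁻¹

lemma Pot.list {Γ : Type*} [Group Γ] {Ψ : Set (F g) → Γ} {χ : F g → Γ} (hH : Fam H)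
    (P : Pot H Ψ χ) (hv : Vx H v) (hv' : Vx H v') :
    ∃ l : List (F g), l.Nodup ∧ (∀ k, k ∈ l ↔ k ∈ v' \ v) ∧ Ψ v' = Ψ v * (l.map χ).prod := by
  refine toward hH hv' (R := fun v => ∃ l : List (F g), l.Nodup ∧ (∀ k, k ∈ l ↔ k ∈ v' \ v) ∧
    Ψ v' = Ψ v * (l.map χ).prod) ⟨[], by simp⟩ ?_ hv
  rintro v h hv hm hh ⟨l, l1, l2, l3⟩
  refine ⟨h⁻¹ :: l, List.nodup_cons.2 ⟨fun c => ((l2 _).1 c).2 (Or.inl rfl), l1⟩, ?_, ?_⟩
  · intro k
    simp only [List.mem_cons, l2, flp, Set.mem_sdiff, Set.mem_ofPred_eq]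
    constructor
    · rintro (rfl | ⟨a, b⟩)
      · exact ⟨hv'.inv_mem (hv.sub hm.1) hh, hv.inv_not_mem hm.1⟩
      · exact ⟨a, fun c => b (Or.inr ⟨c, fun e => hh (e ▸ a)⟩)⟩
    · tauto
  · rw [l3, P v h hv hm]; simp [mul_assoc]

lemma exists_pot_nest {Γ : Type*} [Group Γ] (hH : Fam H) (hN : Nest H) (χ : F g → Γ)
    (hχ : ∀ h, χ h⁻¹ = (χ h)⁻¹) : ∃ Ψ, Ψ (pv H 1) = 1 ∧ Pot H Ψ χ :=
  exists_pot hH (vx_pv hH 1) (fun _ h => χ h⁻¹) (fun _ _ _ _ => hχ _)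
    (fun _ _ _ hv a b c => absurd c (hN _ (hv.sub a.1) _ (hv.sub b.1)))

/-! ### transport -/

section transport
variable {ψ : MulAut (F g)} {f : F g ≃ F g} (hQ : ∀ h x, f x ∈ Q (ψ h) ↔ x ∈ Q h)
include hQ

lemma Q_sub_map : Q (ψ h) ⊆ Q (ψ h') ↔ Q h ⊆ Q h' := by
  constructor
  · intro a x hx; exact (hQ _ _).1 (a ((hQ _ _).2 hx))
  · intro a x hx
    obtain ⟨x, rfl⟩ := f.surjective x
    exact (hQ _ _).2 (a ((hQ _ _).1 hx))

lemma Vx.map (hH : Fam H) (hv : Vx H v) : Vx (ψ '' H) (ψ '' v) := by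
  refine ⟨Set.image_mono hv.sub, ?_, ?_, ((hv.fin' hH (f.symm 1)).image ψ).subset ?_⟩
  · rintro _ ⟨h, hh, rfl⟩
    rw [← map_inv, ψ.injective.mem_set_image, ψ.injective.mem_set_image]
    exact hv.xor h hh
  · rintro _ ⟨h, a, rfl⟩ _ ⟨h', b, rfl⟩
    obtain ⟨x, x1, x2⟩ := hv.meet _ a _ b
    exact ⟨f x, (hQ _ _).2 x1, (hQ _ _).2 x2⟩
  · rintro _ ⟨⟨h, a, rfl⟩, b⟩
    exact ⟨h, ⟨a, by rw [← hQ]; simpa using b⟩, rfl⟩

lemma Mn.map (hm : Mn v h) : Mn (ψ '' v) (ψ h) := by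
  refine ⟨⟨h, hm.1, rfl⟩, ?_⟩
  rintro _ ⟨k, a, rfl⟩ b
  rw [hm.2 k a ((Q_sub_map hQ).1 b)]

lemma pv_map (x : F g) : ψ '' pv H x = pv (ψ '' H) (f x) := by
  ext k
  obtain ⟨k, rfl⟩ := ψ.surjective k
  simp only [ψ.injective.mem_set_image, pv, Set.mem_ofPred_eq, hQ]

omit hQ in
lemma flp_map : ψ '' flp v h = flp (ψ '' v) (ψ h) := by
  ext k
  obtain ⟨k, rfl⟩ := ψ.surjective k
  simp only [ψ.injective.mem_set_image, flp, Set.mem_ofPred_eq, ← map_inv, ψ.injective.eq_iff,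
    Ne]

end transport

def act (t : F g) (v : Set (F g)) : Set (F g) := MulAut.conj t '' v

lemma mem_act {t : F g} : h ∈ act t v ↔ t⁻¹ * h * t ∈ v := by
  constructor
  · rintro ⟨k, a, rfl⟩; simpa [mul_assoc] using a
  · intro a; exact ⟨_, a, by simp [mul_assoc]⟩

lemma conj_mem_act {t : F g} : t * h * t⁻¹ ∈ act t v ↔ h ∈ v := by
  rw [mem_act]; simp [mul_assoc]

lemma act_one : act 1 v = v := by ext; simp [mem_act]

lemma act_mul (s t : F g) : act (s * t) v = act s (act t v) := by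
  ext; simp [mem_act, mul_assoc]

lemma conjQ (t : F g) : ∀ h x, Equiv.mulLeft t x ∈ Q (MulAut.conj t h) ↔ x ∈ Q h := Q_conj t

lemma Fam.act_eq (hH : Fam H) (t : F g) : MulAut.conj t '' H = H := by
  ext k
  change k ∈ act t H ↔ _
  rw [mem_act]
  exact ⟨fun a => by simpa [mul_assoc] using hH.conj _ a t, fun a => by
    simpa using hH.conj _ a t⁻¹⟩

lemma Vx.act (hH : Fam H) (hv : Vx H v) (t : F g) : Vx H (act t v) := by
  have := hv.map (conjQ t) hH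
  rwa [hH.act_eq] at this

lemma Mn.act (hm : Mn v h) (t : F g) : Mn (act t v) (t * h * t⁻¹) := hm.map (conjQ t)

lemma act_flp (t : F g) : act t (flp v h) = flp (act t v) (t * h * t⁻¹) := flp_map

lemma act_pv (hH : Fam H) (t x : F g) : act t (pv H x) = pv H (t * x) := by
  have := pv_map (H := H) (conjQ t) x
  rwa [hH.act_eq] at this

lemma Pot.equiv {Γ : Type*} [Group Γ] {Ψ : Set (F g) → Γ} {χ : F g → Γ} (hH : Fam H)
    (P : Pot H Ψ χ) (h1 : Ψ (pv H 1) = 1) (t : F g) (r : Γ)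
    (hχ : ∀ h, χ (t * h * t⁻¹) = r * χ h * r⁻¹) (hv : Vx H v) :
    Ψ (act t v) = Ψ (pv H t) * r * Ψ v * r⁻¹ := by
  refine toward hH (vx_pv hH 1) (R := fun v => Ψ (act t v) = Ψ (pv H t) * r * Ψ v * r⁻¹)
    (by simp [act_pv hH, h1]) ?_ hv
  intro v h hv hm _ e
  rw [act_flp, P _ _ (hv.act hH t) (hm.act t), P _ _ hv hm,
    show (t * h * t⁻¹)⁻¹ = t * h⁻¹ * t⁻¹ by group, hχ] at e
  rw [eq_mul_inv_of_mul_eq e]; group

/-! ### a vertex on the axis of an element -/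

def Ax (H : Set (F g)) (t x : F g) : Set (F g) :=
  {h | h ∈ H ∧ ((Cross t h ∧ x ∈ Q h) ∨ (¬ Cross t h ∧ (Q t ⊆ Q h ∨ (Q t)ᶜ ⊂ Q h)))}

lemma vx_ax (hH : Fam H) (hN : Nest H) {t x : F g} (h1 : t ≠ 1) (hx : x ∈ Q t) :
    Vx H (Ax H t x) := by
  obtain ⟨p, hp⟩ := exists_not_Q h1
  refine ⟨fun h hh => hh.1, ?_, ?_, ((hH.lf 1 x).union (hH.lf x (t * x))).subset ?_⟩
  · intro h hh
    have n := hH.ne _ hh
    have e : Cross t h⁻¹ ↔ Cross t h :=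
      ⟨fun c => by simpa using c.inv_right (by simpa using n), fun c => c.inv_right n⟩
    have e2 : Q h⁻¹ = (Q h)ᶜ := by ext; simp [Q_inv n]
    simp only [Ax, Set.mem_ofPred_eq, hh, hH.inv _ hh, true_and, e, e2, Set.mem_compl_iff]
    by_cases c : Cross t h
    · simp [c]
    simp only [c, false_and, not_false_eq_true, true_and, false_or, Set.ssubset_def,
      Set.compl_subset_compl]
    constructor
    · rintro (a | ⟨a, b⟩) (d | ⟨d, d'⟩)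
      · exact d hx (a hx)
      · exact d' a
      · exact b (Set.subset_compl_comm.1 d)
      · exact hp (d (a hp))
    · intro a
      by_contra b
      simp only [not_or, not_and, not_not] at a b
      apply c
      have a2 : ¬ Q h ⊆ Q t := fun d => b.1 (a.2 d)
      have b2 : ¬ (Q t)ᶜ ⊆ Q h := fun d => a.1 (Set.subset_compl_comm.1 (b.2 d))
      obtain ⟨x1, y1, z1⟩ := Set.not_subset.1 a.1
      obtain ⟨x2, y2, z2⟩ := Set.not_subset.1 b.1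
      obtain ⟨x3, y3, z3⟩ := Set.not_subset.1 a2
      obtain ⟨x4, y4, z4⟩ := Set.not_subset.1 b2
      exact ⟨⟨x1, y1, by simpa using z1⟩, ⟨x2, y2, z2⟩, ⟨x3, z3, y3⟩, x4, y4, z4⟩
  · have big : ∀ h ∈ Ax H t x, (∃ y ∈ Q t, y ∈ Q h) ∧
        ((Cross t h ∧ x ∈ Q h) ∨ Q t ⊆ Q h ∨ (Q t)ᶜ ⊆ Q h) := by
      rintro h ⟨-, ⟨a, b⟩ | ⟨-, a | a⟩⟩
      · exact ⟨⟨x, hx, b⟩, Or.inl ⟨a, b⟩⟩
      · exact ⟨⟨x, hx, a hx⟩, Or.inr (Or.inl a)⟩
      · obtain ⟨y, y1, y2⟩ := Set.not_subset.1 a.2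
        exact ⟨⟨y, by simpa using y2, y1⟩, Or.inr (Or.inr a.1)⟩
    intro h a h' b
    obtain ⟨⟨y, y1, y2⟩, a'⟩ := big h a
    obtain ⟨⟨z, z1, z2⟩, b'⟩ := big h' b
    rcases a' with ⟨a1, a2⟩ | a1 | a1
    · rcases b' with ⟨b1, b2⟩ | b1 | b1
      · exact ⟨x, a2, b2⟩
      · exact ⟨y, y2, b1 y1⟩
      · obtain ⟨w, w1, w2⟩ := a1.2.2.1; exact ⟨w, w2, b1 w1⟩
    · exact ⟨z, a1 z1, z2⟩
    · rcases b' with ⟨b1, b2⟩ | b1 | b1
      · obtain ⟨w, w1, w2⟩ := b1.2.2.1; exact ⟨w, a1 w1, w2⟩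
      · exact ⟨y, y2, b1 y1⟩
      · exact ⟨p, a1 hp, b1 hp⟩
  · rintro h ⟨⟨a, b⟩, c⟩
    by_cases d : x ∈ Q h
    · exact Or.inl ⟨a, c, d⟩
    refine Or.inr ⟨a, d, ?_⟩
    rcases b with b | ⟨b, e | e⟩
    · exact absurd b.2 d
    · exact absurd (e hx) d
    by_contra d'
    have a' := hH.conj _ a t
    obtain ⟨y, y1, y2⟩ := Set.not_subset.1 e.2
    have ni : ¬ ∀ x, t * x ∈ Q h ↔ x ∈ Q h := fun hi =>
      d (inv_arc h1 (Q_arc (hH.ne _ a)) hi (by simpa using y2) hx y1)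
    have hp' : t * p ∉ Q t := mt (Q_self _ _).1 hp
    rcases comparable (hN _ a _ a') (e.1 hp') ((Q_conj _ _ _).2 (e.1 hp)) d'
      (mt (Q_conj _ _ _).1 d) with hs | hs
    · have a2 : ∀ x ∈ Q h, t⁻¹ * x ∈ Q h := fun x hx => (Q_conj' _ _ _).1 (hs hx)
      suffices sd : SD t⁻¹ h from
        b (by simpa using (sd.cross hH a).inv_left (by simpa using h1))
      refine ⟨a2, ?_⟩
      by_contra hc
      push Not at hc
      exact ni fun x => ⟨fun hx => by simpa using a2 _ hx, fun hx => by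
        by_contra h'; exact hc _ h' (by simpa using hx)⟩
    · have a2 : ∀ x ∈ Q h, t * x ∈ Q h := fun x hx => hs ((Q_conj _ _ _).2 hx)
      refine b (SD.cross hH a ⟨a2, ?_⟩)
      by_contra hc
      push Not at hc
      exact ni fun x => ⟨fun hx => by by_contra h'; exact hc _ h' hx, a2 x⟩

lemma ax_diff (hH : Fam H) {t x k : F g} :
    k ∈ act t (Ax H t x) \ Ax H t x ↔ k ∈ H ∧ Cross t k ∧ x ∉ Q k ∧ t * x ∈ Q k := by
  obtain ⟨k, rfl⟩ : ∃ k', k = t * k' * t⁻¹ := ⟨t⁻¹ * k * t, by group⟩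
  have e0 : t * t * t⁻¹ = t := by group
  have e1 : t * k * t⁻¹ ∈ H ↔ k ∈ H := by rw [← hH.act_eq t]; exact conj_mem_act.trans (by
    rw [hH.act_eq])
  have e2 : Cross t (t * k * t⁻¹) ↔ Cross t k := by rw [← cross_conj t t k, e0]
  have e3 : Q t ⊆ Q (t * k * t⁻¹) ↔ Q t ⊆ Q k := by
    have := Q_sub_map (h := t) (h' := k) (conjQ t)
    simpa [e0] using this
  have e4 : (Q t)ᶜ ⊂ Q (t * k * t⁻¹) ↔ (Q t)ᶜ ⊂ Q k := by
    simp only [Set.ssubset_def, Set.subset_def, Set.mem_compl_iff]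
    refine and_congr ?_ (not_congr ?_) <;>
      exact (Equiv.mulLeft t).forall_congr_right.symm.trans (by simp [Q_conj, Q_self])
  simp only [Set.mem_sdiff, conj_mem_act, Ax, Set.mem_ofPred_eq, e1, e2, e3, e4, Q_conj]
  tauto

end Pool.Agent.Lib.MP_294da1_gt
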