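import Mathlib

namespace Pool.Agent.Lib.MP_294da1_gt

/-- the free group on `a i`, `b i` (fundamental group of the genus `g` surface with one boundary
component, base point on the boundary) -/
abbrev F (g : ℕ) := FreeGroup (Fin g × Bool)

def a {g : ℕ} (i : Fin g) : F g := FreeGroup.of (i, false)

def b {g : ℕ} (i : Fin g) : F g := FreeGroup.of (i, true)

/-- product of the commutators of the first `h` handles; `gam g g` is the boundary loop -/
def gam (g h : ℕ) : F g :=
  (((List.finRange g).take h).map fun i => a i * b i * (a i)⁻¹ * (b i)⁻¹).prod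

/-- the twist along the nonseparating curve `a i` -/
def tA {g : ℕ} (i : Fin g) : F g →* F g :=
  FreeGroup.lift fun s => if s = (i, true) then b i * (a i)⁻¹ else FreeGroup.of s

/-- the twist along the separating curve cutting off the first `h` handles -/
def tS (g h : ℕ) : F g →* F g :=
  FreeGroup.lift fun s =>
    if s.1.val < h then gam g h * FreeGroup.of s * (gam g h)⁻¹ else FreeGroup.of s

/-- conjugates of the standard twists by automorphisms fixing the boundary loop -/
def IsTwist {g : ℕ} (τ : MulAut (F g)) : Prop :=
  ∃ φ : MulAut (F g), φ (gam g g) = gam g g ∧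
    ((∃ i, ∀ x, τ (φ x) = φ (tA i x)) ∨ ∃ h, 1 ≤ h ∧ h ≤ g ∧ ∀ x, τ (φ x) = φ (tS g h x))

end Pool.Agent.Lib.MP_294da1_gt
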