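import Pool.Agent.Lib.MP_294da1_gt.Order

namespace Pool.Agent.Lib.MP_294da1_gt
open FreeGroup Filter

variable {g : ℕ}

lemma hd_mul_L {y : F g} {m : Lt g} (h1 : y ≠ 1) (h2 : y ≠ L (linv m)) :
    hd (y * L m) = hd y := by
  induction y using red_ind with
  | h1 => exact absurd rfl h1
  | h2 l y hy ih =>
    rw [hd_L_mul hy, mul_assoc]
    apply hd_L_mul
    by_cases e1 : y = 1
    · subst e1
      rw [one_mul, hd_L]
      intro h
      apply h2
      rw [pos_inj h]; simp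
    by_cases e2 : y = L (linv m)
    · rw [e2, L_linv, inv_mul_cancel]; have := pos_pos (linv l); simp; omega
    rw [ih e1 e2]; exact hy

lemma hd_concat {h x : F g} (h1 : h ≠ 1) (h2 : hd x ≠ hd h⁻¹) :
    hd (h * x) = hd h ∧ norm (h * x) = norm h + norm x := by
  induction h using red_ind with
  | h1 => exact absurd rfl h1
  | h2 l y hy ih =>
    rw [hd_L_mul hy, norm_L_mul hy, mul_assoc]
    by_cases e1 : y = 1
    · subst e1
      rw [mul_one, ← L_linv, hd_L] at h2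
      rw [one_mul, hd_L_mul h2, norm_L_mul h2]; simp [add_comm]
    have e2 : hd (L l * y)⁻¹ = hd y⁻¹ := by
      rw [mul_inv_rev, ← L_linv]
      apply hd_mul_L (by simpa using e1)
      intro h
      apply hy
      rw [linv_linv, inv_eq_iff_eq_inv, ← L_linv] at h
      rw [h, hd_L]
    rw [e2] at h2
    obtain ⟨i1, i2⟩ := ih e1 h2
    have : hd (y * x) ≠ pos (linv l) := by rw [i1]; exact hy
    rw [hd_L_mul this, norm_L_mul this, i2]
    exact ⟨rfl, by ring⟩

/-- words that always take the smallest possible turn -/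
inductive Ch : ℕ → F g → ℕ → Prop
  | nil (p : ℕ) : Ch p 1 p
  | cons {p p' : ℕ} {l : Lt g} {x : F g} : pos l = p + 1 → Ch (pos (linv l)) x p' →
      Ch p (L l * x) p'

lemma Ch.mul {p p' p'' : ℕ} {x y : F g} (h1 : Ch p x p') (h2 : Ch p' y p'') :
    Ch p (x * y) p'' := by
  induction h1 with
  | nil p => simpa using h2
  | cons hl _ ih => rw [mul_assoc]; exact Ch.cons hl (ih h2)

lemma Ch.one {p : ℕ} {l : Lt g} (h : pos l = p + 1) : Ch p (L l) (pos (linv l)) := by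
  simpa using Ch.cons h (Ch.nil _)

lemma Ch.hd_ne {p p' : ℕ} {x : F g} (h : Ch p x p') {y : F g} (hy : hd y ≠ p') :
    hd (x * y) ≠ p := by
  induction h with
  | nil p => simpa using hy
  | cons hl _ ih => rw [mul_assoc, hd_L_mul (ih hy)]; omega

lemma Ch.le {p p' : ℕ} {x : F g} (h : Ch p x p') (hp : p ≤ 4 * g) : p' ≤ 4 * g := by
  induction h with
  | nil p => exact hp
  | cons hl _ ih => exact ih (pos_le _)

lemma Ch.low {p p' : ℕ} {x : F g} (h : Ch p x p') (hp : p ≤ 4 * g) {y : F g} (hy : hd y ≠ p')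
    {t : F g} (ht : hd t ≠ p) (hlt : K p t < K p (x * y)) :
    ∃ y', t = x * y' ∧ hd y' ≠ p' ∧ K p' y' < K p' y := by
  induction h generalizing t with
  | nil p => exact ⟨t, by simp, ht, by simpa using hlt⟩
  | @cons p p' l x hl hx ih =>
    have h1 := hx.hd_ne hy
    rw [mul_assoc, K_lt hp, hd_L_mul h1, tl_L_mul h1] at hlt
    have := hd_le t
    rcases hlt with hlt | ⟨h2, h3⟩
    · exfalso; unfold rk at hlt; split_ifs at hlt <;> omega
    · obtain ⟨t', rfl, ht'⟩ := decomp h2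
      rw [tl_L_mul ht'] at h3
      obtain ⟨y', rfl, h4⟩ := ih (pos_le _) hy ht' h3
      exact ⟨y', by group, h4⟩

lemma Ch.lt {p p' : ℕ} {x : F g} (h : Ch p x p') (hp : p ≤ 4 * g) {y y' : F g} (hy : hd y ≠ p')
    (hy' : hd y' ≠ p') (hlt : K p' y < K p' y') : K p (x * y) < K p (x * y') := by
  induction h with
  | nil p => simpa using hlt
  | @cons p p' l x hl hx ih =>
    have h1 := hx.hd_ne hy
    have h2 := hx.hd_ne hy'
    rw [mul_assoc, mul_assoc, K_lt hp, hd_L_mul h1, tl_L_mul h1, hd_L_mul h2, tl_L_mul h2]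
    exact Or.inr ⟨rfl, ih (pos_le _) hy hy' hlt⟩

lemma Ch.hd_inv {p p' : ℕ} {x : F g} (h : Ch p x p') : (x = 1 ∧ p = p') ∨ hd x⁻¹ = p' := by
  induction h with
  | nil p => exact Or.inl ⟨rfl, rfl⟩
  | @cons p p' l x hl hx ih =>
    right
    rw [mul_inv_rev, ← L_linv]
    by_cases e : x = 1
    · subst e
      rcases ih with ⟨-, ih⟩ | ih
      · simp [hd_L, ih]
      · exfalso
        simp only [inv_one, hd_one] at ih
        generalize hq : pos (linv l) = q at hx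
        generalize he : (1 : F g) = e at hx
        have key : ∀ {q q' : ℕ} {e : F g}, Ch q e q' → 1 ≤ q → 1 ≤ q' := by
          intro q q' e h
          induction h with
          | nil p => exact id
          | cons _ _ ih => exact fun _ => ih (pos_pos _)
        have := key hx (hq ▸ pos_pos _)
        omega
    rcases ih with ⟨e', -⟩ | ih
    · exact absurd e' e
    rw [hd_mul_L (by simpa using e), ih]
    intro h
    rw [linv_linv, inv_eq_iff_eq_inv, ← L_linv] at h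
    have h0 : hd (1 : F g) ≠ p' := by
      rw [← ih, hd_one]; intro h'; exact e (by simpa using hd_eq_zero.1 h'.symm)
    have := hx.hd_ne h0
    rw [mul_one, h, hd_L] at this
    exact this rfl

lemma a_eq (i : Fin g) : a i = L ((i, false), true) := rfl
lemma b_eq (i : Fin g) : b i = L ((i, true), true) := rfl
lemma a_inv (i : Fin g) : (a i)⁻¹ = L ((i, false), false) := (L_false _).symm
lemma b_inv (i : Fin g) : (b i)⁻¹ = L ((i, true), false) := (L_false _).symm

@[simp] lemma gam_zero : gam g 0 = 1 := by simp [gam]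

lemma gam_succ (i : Fin g) :
    gam g (i + 1) = gam g i * (a i * b i * (a i)⁻¹ * (b i)⁻¹) := by
  unfold gam
  rw [List.take_add_one, List.map_append, List.prod_append]
  simp

lemma ch1 (i : Fin g) : Ch (4 * i) (a i) (4 * i + 3) := Ch.one (l := ((i, false), true)) rfl
lemma ch2 (i : Fin g) : Ch (4 * i + 3) (b i) (4 * i + 2) := Ch.one (l := ((i, true), true)) rfl
lemma ch3 (i : Fin g) : Ch (4 * i + 2) (a i)⁻¹ (4 * i + 1) := by
  rw [a_inv]; exact Ch.one (l := ((i, false), false)) rfl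
lemma ch4 (i : Fin g) : Ch (4 * i + 1) (b i)⁻¹ (4 * (i + 1)) := by
  rw [b_inv]; exact Ch.one (l := ((i, true), false)) rfl

lemma ch_gam {h h' : ℕ} (h1 : h ≤ h') (h2 : h' ≤ g) :
    Ch (4 * h) ((gam g h)⁻¹ * gam g h') (4 * h') := by
  induction h', h1 using Nat.le_induction with
  | base => simpa using Ch.nil _
  | succ n hn ih =>
    have := gam_succ (g := g) ⟨n, by omega⟩
    simp only at this
    rw [this, ← mul_assoc]
    exact (ih (by omega)).mul ((((ch1 ⟨n, by omega⟩).mul (ch2 _)).mul (ch3 _)).mul (ch4 _))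

lemma ch_gam0 {h : ℕ} (h2 : h ≤ g) : Ch 0 (gam g h) (4 * h) := by
  simpa using ch_gam (Nat.zero_le h) h2

/-- the boundary loop -/
abbrev zt (g : ℕ) : F g := gam g g

lemma zt_split (l : Lt g) : ∃ u v : F g, ∃ p, zt g = u * (L l * v) ∧ Ch 0 u p ∧ pos l = p + 1 ∧
    Ch (pos (linv l)) v (4 * g) := by
  obtain ⟨⟨i, s⟩, e⟩ := l
  have h0 := ch_gam0 (g := g) (h := i) i.2.le
  have h1 := ch_gam (g := g) (h := i + 1) i.2 le_rfl
  have hz : zt g = gam g i * (a i * b i * (a i)⁻¹ * (b i)⁻¹) * ((gam g (i + 1))⁻¹ * gam g g) := by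
    rw [← gam_succ]; group
  cases s <;> cases e
  · refine ⟨gam g i * a i * b i, (b i)⁻¹ * ((gam g (i + 1))⁻¹ * gam g g), _, ?_,
      (h0.mul (ch1 i)).mul (ch2 i), rfl, (ch4 i).mul h1⟩
    rw [hz, ← a_inv]; group
  · refine ⟨gam g i, b i * (a i)⁻¹ * (b i)⁻¹ * ((gam g (i + 1))⁻¹ * gam g g), _, ?_,
      h0, rfl, (((ch2 i).mul (ch3 i)).mul (ch4 i)).mul h1⟩
    rw [hz, ← a_eq]; group
  · refine ⟨gam g i * a i * b i * (a i)⁻¹, (gam g (i + 1))⁻¹ * gam g g, _, ?_,
      ((h0.mul (ch1 i)).mul (ch2 i)).mul (ch3 i), rfl, h1⟩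
    rw [hz, ← b_inv]; group
  · refine ⟨gam g i * a i, (a i)⁻¹ * (b i)⁻¹ * ((gam g (i + 1))⁻¹ * gam g g), _, ?_,
      h0.mul (ch1 i), rfl, ((ch3 i).mul (ch4 i)).mul h1⟩
    rw [hz, ← b_eq]; group

lemma exists_enter (l : Lt g) : ∃ t : F g, hd t ≠ pos l ∧ hd (t * zt g) = pos l := by
  obtain ⟨u, v, p, hz, hu, hl, hv⟩ := zt_split l
  refine ⟨u⁻¹, ?_, ?_⟩
  · rcases hu.hd_inv with ⟨rfl, h⟩ | h
    · simp; omega
    · omega
  · rw [hz, inv_mul_cancel_left]
    have := hv.hd_ne (y := 1) (by have := pos_pos l; have := pos_le l; simp; omega)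
    exact hd_L_mul (by simpa using this)

lemma adj (x t : F g) : ¬ o x t (x * zt g) := by
  intro h
  have h1 : o 1 (x⁻¹ * t) (zt g) := by
    have := (o_mul x⁻¹ _ _ _).2 h
    simpa using this
  rcases Nat.eq_zero_or_pos g with rfl | hg
  · exact o_ne13 h1 (by simp [zt])
  obtain ⟨h2, h3⟩ := o_one.1 h1
  obtain ⟨y, -, h4, h5⟩ := (ch_gam0 (le_refl g)).low (Nat.zero_le _) (y := 1)
    (by simp; omega) (t := x⁻¹ * t) (fun h => h2 (hd_eq_zero.1 h)) (by simpa using h3)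
  rw [K_lt le_rfl] at h5
  have := hd_le y
  rcases h5 with h5 | ⟨-, h5⟩
  · simp only [hd_one, rk] at h5; split_ifs at h5 <;> omega
  · simp at h5

/-! ### arcs -/

def Arc (J : Set (F g)) : Prop :=
  ∀ ⦃x y p q : F g⦄, x ∈ J → y ∈ J → p ∉ J → q ∉ J → o p x y → o q x y

lemma Arc.compl {J : Set (F g)} (hJ : Arc J) : Arc Jᶜ := by
  intro x y p q hx hy hp hq h
  simp only [Set.mem_compl_iff, not_not] at hx hy hp hq
  by_contra h'
  have h1 : o q y x := by
    rcases o_total (x := q) (y := x) (z := y) (fun e => hx (e ▸ hq)) (o_ne23 h)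
      (fun e => hy (e ▸ hq)) with h1 | h1
    · exact absurd h1 h'
    · exact h1
  have h2 : o x q p := o_trans (o_cyc' h1) (o_cyc h)
  have h3 : o y p q := o_trans (o_cyc' h) (o_cyc h1)
  exact o_asymm h3 (hJ hq hp hx hy h2)

lemma Arc.conv {J : Set (F g)} (hJ : Arc J) {p x y x' : F g} (hp : p ∉ J) (hx : x ∈ J)
    (hx' : x' ∈ J) (h1 : o p x y) (h2 : o p y x') : y ∈ J := by
  by_contra hy
  exact o_asymm (hJ hx hx' hp hy (o_trans h1 h2)) (o_cyc (o_mid h1 h2))

lemma Arc.preimage {J : Set (F g)} (hJ : Arc J) {f : F g → F g}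
    (hf : ∀ x y z, o (f x) (f y) (f z) ↔ o x y z) : Arc (f ⁻¹' J) := by
  intro x y p q hx hy hp hq h
  exact (hf _ _ _).1 (hJ hx hy hp hq ((hf _ _ _).2 h))

lemma arc_of_lower {J : Set (F g)} (r : F g → F g → Prop)
    (tot : ∀ x y, x ≠ y → r x y ∨ r y x) (comp : ∀ x y z, r x y → r y z → o x y z)
    (low : ∀ x y, r y x → x ∈ J → y ∈ J) : Arc J := by
  have key : ∀ x q, x ∈ J → q ∉ J → r x q := fun x q hx hq =>
    (tot x q (fun e => hq (e ▸ hx))).resolve_right fun h => hq (low _ _ h hx)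
  intro x y p q hx hy hp hq h
  rcases tot x y (o_ne23 h) with h1 | h1
  · exact o_cyc' (comp _ _ _ h1 (key _ _ hy hq))
  · exact absurd (o_cyc' (comp _ _ _ h1 (key _ _ hx hp))) (o_asymm h)

lemma arc_hd (q : ℕ) (hq : q ≤ 4 * g) : Arc {x : F g | hd x = q} := by
  refine arc_of_lower (fun x y => K q x < K q y) ?_ ?_ ?_
  · intro x y h
    exact lt_or_gt_of_ne fun e => h (K_inj hq e)
  · intro x y z h1 h2
    rw [o_iff_K hq]; exact Or.inl ⟨h1, h2⟩
  · intro x y h hx
    simp only [Set.mem_ofPred_eq] at *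
    rw [K_lt hq, hx] at h
    rcases h with h | h
    · simp [rk] at h
    · exact h.1

/-! ### north-south dynamics -/

def Q (h : F g) : Set (F g) := {x | o (h * (h * x)) (h * x) x}

structure PP (h : F g) (A : Set (F g)) : Prop where
  ne : h ≠ 1
  arc : Arc A
  fwd : ∀ x ∈ A, h * x ∈ A
  absorb : ∀ x, ∃ n : ℕ, h ^ n * x ∈ A
  escape : ∀ x, ∃ n : ℕ, (h ^ n)⁻¹ * x ∉ A
  step : ∃ t ∈ A, t * zt g ∉ A

lemma pp_red {h : F g} (h1 : h ≠ 1) (h2 : hd h ≠ hd h⁻¹) : PP h {x | hd x ≠ hd h⁻¹} := by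
  have ab : ∀ {h : F g}, h ≠ 1 → hd h ≠ hd h⁻¹ → ∀ x, ∃ n : ℕ, hd (h ^ n * x) ≠ hd h⁻¹ := by
    intro h h1 h2 x
    induction hn : norm x using Nat.strong_induction_on generalizing x with
    | _ n ih =>
      by_cases e : hd (h * x) = hd h⁻¹
      · have h3 := (hd_concat (h := h⁻¹) (x := h * x) (by simpa using h1)
          (by rw [e, inv_inv]; exact h2.symm)).2
        have h4 : norm h⁻¹ ≠ 0 := by simpa using h1
        rw [inv_mul_cancel_left] at h3
        obtain ⟨m, hm⟩ := ih _ (by omega) (h * x) rfl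
        exact ⟨m + 1, by rwa [pow_succ, mul_assoc]⟩
      · exact ⟨1, by simpa using e⟩
  refine ⟨h1, (arc_hd _ (hd_le _)).compl, ?_, ab h1 h2, ?_, ?_⟩
  · intro x hx
    simp only [Set.mem_ofPred_eq] at *
    rw [(hd_concat h1 hx).1]; exact h2
  · intro x
    obtain ⟨n, hn⟩ := ab (h := h⁻¹) (by simpa using h1) (by simpa using h2.symm) x
    refine ⟨n + 1, ?_⟩
    simp only [Set.mem_ofPred_eq, not_not]
    rw [pow_succ, mul_inv_rev, mul_assoc, ← inv_pow]
    exact (hd_concat (by simpa using h1) hn).1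
  · rcases hd_cases h⁻¹ with e | ⟨l, hl⟩
    · exact absurd (by simpa using e) h1
    obtain ⟨t, t1, t2⟩ := exists_enter l
    exact ⟨t, by simpa [hl] using t1, by simpa [hl] using t2⟩

lemma PP.conj {h : F g} {A : Set (F g)} (H : PP h A) (u : F g) :
    PP (u * h * u⁻¹) {x | u⁻¹ * x ∈ A} := by
  refine ⟨?_, H.arc.preimage (o_mul u⁻¹), ?_, ?_, ?_, ?_⟩
  · intro e; apply H.ne; simpa [mul_inv_eq_one] using e
  · intro x hx
    have := H.fwd _ hx
    simpa [mul_assoc] using this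
  · intro x
    obtain ⟨n, hn⟩ := H.absorb (u⁻¹ * x)
    exact ⟨n, by rw [conj_pow]; simpa [mul_assoc] using hn⟩
  · intro x
    obtain ⟨n, hn⟩ := H.escape (u⁻¹ * x)
    exact ⟨n, by rw [conj_pow]; simpa [mul_assoc] using hn⟩
  · obtain ⟨t, t1, t2⟩ := H.step
    exact ⟨u * t, by simpa using t1, by simpa [mul_assoc] using t2⟩

lemma exists_pp {h : F g} (h1 : h ≠ 1) : ∃ A, PP h A := by
  induction hn : norm h using Nat.strong_induction_on generalizing h with
  | _ n ih =>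
    by_cases h2 : hd h = hd h⁻¹
    swap
    · exact ⟨_, pp_red h1 h2⟩
    rcases hd_cases h with e | ⟨l, hl⟩
    · exact absurd e h1
    have e1 : norm h⁻¹ = norm ((L l)⁻¹ * h⁻¹) + 1 := by
      rw [← norm_L_mul (hd_strip (h2 ▸ hl))]; simp
    have e2 : hd (h * L l) = pos l := by
      rw [hd_mul_L h1, hl]
      intro e
      rw [e, hd_L] at hl
      exact linv_ne l (pos_inj hl)
    have e3 : norm (h * L l) = norm ((L l)⁻¹ * (h * L l)) + 1 := by
      rw [← norm_L_mul (hd_strip e2)]; simp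
    have e4 : norm ((L l)⁻¹ * h⁻¹) = norm (h * L l) := by
      rw [← norm_inv_eq]; simp
    rw [norm_inv_eq] at e1
    obtain ⟨A, hA⟩ := ih _ (by omega) (h := (L l)⁻¹ * (h * L l))
      (by intro e; apply h1; simpa [inv_mul_eq_one] using e) rfl
    exact ⟨_, by simpa [mul_assoc] using hA.conj (L l)⟩

namespace PP
variable {h : F g} {A : Set (F g)} (H : PP h A)
include H

lemma fwd_pow (n : ℕ) {x : F g} (hx : x ∈ A) : h ^ n * x ∈ A := by
  induction n with
  | zero => simpa using hx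
  | succ n ih => rw [pow_succ', mul_assoc]; exact H.fwd _ ih

lemma ev_out (y : F g) : ∀ᶠ k : ℕ in atTop, (h ^ k)⁻¹ * y ∉ A := by
  obtain ⟨n, hn⟩ := H.escape y
  filter_upwards [eventually_ge_atTop n] with k hk h'
  obtain ⟨m, rfl⟩ := Nat.exists_eq_add_of_le hk
  apply hn
  have := H.fwd_pow m h'
  rwa [show h ^ m * ((h ^ (n + m))⁻¹ * y) = (h ^ n)⁻¹ * y by group] at this

lemma ev_in (k : ℕ) (x : F g) : ∀ᶠ n : ℕ in atTop, (h ^ k)⁻¹ * (h ^ n * x) ∈ A := by
  obtain ⟨n, hn⟩ := H.absorb ((h ^ k)⁻¹ * x)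
  filter_upwards [eventually_ge_atTop n] with m hm
  obtain ⟨m, rfl⟩ := Nat.exists_eq_add_of_le hm
  have := H.fwd_pow m hn
  rwa [show h ^ m * (h ^ n * ((h ^ k)⁻¹ * x)) = (h ^ k)⁻¹ * (h ^ (n + m) * x) by group] at this

end PP

def ee (h y w : F g) : Prop := ∀ᶠ n : ℕ in atTop, o (h ^ n) y w

lemma ee_trans {h x y z : F g} (h1 : ee h x y) (h2 : ee h y z) : ee h x z := by
  filter_upwards [h1, h2] with n a b using o_trans a b

lemma ee_comp {h x y z : F g} (h1 : ee h x y) (h2 : ee h y z) : o x y z := by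
  obtain ⟨n, a, b⟩ := (h1.and h2).exists
  exact o_mid a b

lemma ee_asymm {h x y : F g} (h1 : ee h x y) (h2 : ee h y x) : False :=
  o_ne13 (ee_comp h1 h2) rfl

namespace PP
variable {h : F g} {A : Set (F g)} (H : PP h A)
include H

lemma far {k : ℕ} {y w t : F g} (hy : (h ^ k)⁻¹ * y ∉ A) (hw : (h ^ k)⁻¹ * w ∉ A)
    (ht : (h ^ k)⁻¹ * t ∈ A) : ee h y w ↔ o t y w := by
  have hA : Arc ({x | (h ^ k)⁻¹ * x ∈ A}ᶜ) := (H.arc.preimage (o_mul (h ^ k)⁻¹)).compl
  constructor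
  · intro he
    obtain ⟨n, a, b⟩ := (he.and (H.ev_in k 1)).exists
    exact hA hy hw (by simpa using b) (by simpa using ht) a
  · intro he
    filter_upwards [H.ev_in k 1] with n b
    exact hA hy hw (by simpa using ht) (by simpa using b) he

lemma tot (x y : F g) (hxy : x ≠ y) : ee h x y ∨ ee h y x := by
  obtain ⟨k, a, b⟩ := ((H.ev_out x).and (H.ev_out y)).exists
  obtain ⟨n, c⟩ := (H.ev_in k 1).exists
  rw [H.far a b c, H.far b a c]
  exact o_total (fun e => a (e ▸ c)) hxy (fun e => b (e ▸ c))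

lemma inv {y w : F g} : ee h (h * y) (h * w) ↔ ee h y w := by
  obtain ⟨k, ⟨a, b⟩, c, d⟩ := (((H.ev_out y).and (H.ev_out w)).and
    ((H.ev_out (h * y)).and (H.ev_out (h * w)))).exists
  obtain ⟨n, e⟩ := (H.ev_in k 1).exists
  have e' : (h ^ k)⁻¹ * (h * (h ^ n * 1)) ∈ A := by
    have := H.fwd _ e
    rwa [show h * ((h ^ k)⁻¹ * (h ^ n * 1)) = (h ^ k)⁻¹ * (h * (h ^ n * 1)) by group] at this
  rw [H.far a b e, H.far c d e', o_mul]

lemma inv_pow (n : ℕ) {y w : F g} : ee h (h ^ n * y) (h ^ n * w) ↔ ee h y w := by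
  induction n with
  | zero => simp
  | succ n ih => rw [pow_succ', mul_assoc, mul_assoc, H.inv, ih]

lemma mem_Q {x : F g} : x ∈ Q h ↔ ee h (h * x) x := by
  constructor
  · intro hx
    refine (H.tot _ _ (by simpa using H.ne)).resolve_right fun h1 => ?_
    exact o_asymm (ee_comp h1 (H.inv.2 h1)) (o_cyc' hx)
  · intro hx
    exact ee_comp (H.inv.2 hx) hx

lemma not_mem_Q {x : F g} (hx : x ∉ Q h) : ee h x (h * x) :=
  (H.tot _ _ (by simpa using H.ne)).resolve_left fun h1 => hx (H.mem_Q.2 h1)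

lemma down {x : F g} (hx : ee h (h * x) x) (y : F g) : ∀ᶠ n : ℕ in atTop, ee h (h ^ n * x) y := by
  have h1 : ∀ n : ℕ, ee h (h ^ (n + 1) * x) x := by
    intro n
    induction n with
    | zero => simpa using hx
    | succ n ih => rw [pow_succ', mul_assoc]; exact ee_trans (H.inv.2 ih) hx
  obtain ⟨k, a, b⟩ := ((H.ev_out x).and (H.ev_out y)).exists
  filter_upwards [H.ev_in k x, eventually_ge_atTop 1] with n c hn
  obtain ⟨n, rfl⟩ := Nat.exists_eq_add_of_le' hn
  refine (H.tot (h ^ (n + 1) * x) y (fun e => b (e ▸ c))).resolve_right fun h2 => ?_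
  exact o_asymm (ee_comp h2 (h1 n)) (o_cyc ((H.far b a c).1 (ee_trans h2 (h1 n))))

lemma up {x : F g} (hx : ee h x (h * x)) (y : F g) : ∀ᶠ n : ℕ in atTop, ee h y (h ^ n * x) := by
  have h1 : ∀ n : ℕ, ee h x (h ^ (n + 1) * x) := by
    intro n
    induction n with
    | zero => simpa using hx
    | succ n ih => rw [pow_succ', mul_assoc]; exact ee_trans hx (H.inv.2 ih)
  obtain ⟨k, a, b⟩ := ((H.ev_out x).and (H.ev_out y)).exists
  filter_upwards [H.ev_in k x, eventually_ge_atTop 1] with n c hn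
  obtain ⟨n, rfl⟩ := Nat.exists_eq_add_of_le' hn
  refine (H.tot (h ^ (n + 1) * x) y (fun e => b (e ▸ c))).resolve_left fun h2 => ?_
  exact o_asymm (ee_comp (h1 n) h2) (o_cyc ((H.far a b c).1 (ee_trans (h1 n) h2)))

lemma low (x y : F g) (h1 : ee h y x) (hx : x ∈ Q h) : y ∈ Q h := by
  by_contra hy
  obtain ⟨n, a, b⟩ := ((H.down (H.mem_Q.1 hx) y).and (H.up (H.not_mem_Q hy) x)).exists
  exact ee_asymm h1 (ee_trans (ee_trans b ((H.inv_pow n).2 h1)) a)

lemma below {x p : F g} (hx : x ∈ Q h) (hp : p ∉ Q h) : ee h x p :=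
  (H.tot x p (fun e => hp (e ▸ hx))).resolve_right fun h1 => hp (H.low _ _ h1 hx)

lemma nonempty : (Q h).Nonempty := by
  by_contra hne
  have hall : ∀ x, ee h x (h * x) := fun x => H.not_mem_Q fun hx => hne ⟨x, hx⟩
  obtain ⟨t, t1, t2⟩ := H.step
  have h1 : ee h (t * zt g) t := by
    refine (H.tot (t * zt g) t (fun e => t2 (e.symm ▸ t1))).resolve_right fun h2 => ?_
    have h3 : ∀ n : ℕ, ee h ((h ^ (n + 1))⁻¹ * t) t := by
      intro n
      induction n with
      | zero => simpa using hall (h⁻¹ * t)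
      | succ n ih =>
        refine ee_trans ?_ ih
        have := hall ((h ^ (n + 1 + 1))⁻¹ * t)
        rwa [show h * ((h ^ (n + 1 + 1))⁻¹ * t) = (h ^ (n + 1))⁻¹ * t by group] at this
    obtain ⟨n, a, hn⟩ := ((H.ev_out t).and (eventually_ge_atTop 1)).exists
    obtain ⟨n, rfl⟩ := Nat.exists_eq_add_of_le' hn
    have := (H.far (k := 0) (by simpa using a) (by simpa using t2) (by simpa using t1)).1
      (ee_trans (h3 n) h2)
    exact o_asymm (ee_comp (h3 n) h2) (o_cyc this)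
  exact adj t _ (o_cyc (ee_comp h1 (hall t)))

end PP

lemma Q_arc {h : F g} (h1 : h ≠ 1) : Arc (Q h) := by
  obtain ⟨A, H⟩ := exists_pp h1
  exact arc_of_lower (ee h) H.tot (fun _ _ _ => ee_comp) H.low

lemma Q_nonempty {h : F g} (h1 : h ≠ 1) : (Q h).Nonempty := by
  obtain ⟨A, H⟩ := exists_pp h1
  exact H.nonempty

lemma Q_step {h : F g} (h1 : h ≠ 1) {x p : F g} (hx : x ∈ Q h) (hp : p ∉ Q h) :
    o p (h * x) x := by
  obtain ⟨A, H⟩ := exists_pp h1
  exact o_cyc' (ee_comp (H.mem_Q.1 hx) (H.below hx hp))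

lemma Q_cof {h : F g} (h1 : h ≠ 1) {x y p : F g} (hx : x ∈ Q h) (hy : y ∈ Q h) (hp : p ∉ Q h) :
    ∀ᶠ n : ℕ in atTop, o p (h ^ n * x) y := by
  obtain ⟨A, H⟩ := exists_pp h1
  filter_upwards [H.down (H.mem_Q.1 hx) y] with n hn
  exact o_cyc' (ee_comp hn (H.below hy hp))

lemma Q_inv {h : F g} (h1 : h ≠ 1) {x : F g} : x ∈ Q h⁻¹ ↔ x ∉ Q h := by
  obtain ⟨A, H⟩ := exists_pp h1
  have e : x ∈ Q h⁻¹ ↔ o x (h * x) (h * (h * x)) := by
    rw [Q, Set.mem_ofPred_eq, ← o_mul (h * h)]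
    simp [mul_assoc]
  rw [e]
  constructor
  · intro h2 h3
    exact o_asymm h2 (o_cyc' h3)
  · intro h2
    have := H.not_mem_Q h2
    exact ee_comp this (H.inv.2 this)

end Pool.Agent.Lib.MP_294da1_gt
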