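import Mathlib

namespace Pool.Agent.Lib.MP_294da1_gt

variable {G Z : Type*} [Group G] [MulAction G Z] {P : Z → Z → Prop}

inductive Wk (P : Z → Z → Prop) : ℕ → Z → Z → Prop
  | refl (n : ℕ) (e : Z) : Wk P n e e
  | step {n : ℕ} {e e' e'' : Z} : P e e' → Wk P n e' e'' → Wk P (n + 1) e e''

inductive WkV (P : Z → Z → Prop) (μ : Z → Z → G) : ℕ → Z → Z → G → Prop
  | refl (n : ℕ) (e : Z) : WkV P μ n e e 1
  | step {n : ℕ} {e e' e'' : Z} {γ : G} : P e e' → WkV P μ n e' e'' γ →
      WkV P μ (n + 1) e e'' (μ e e' * γ)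

lemma Wk.mono {n m : ℕ} {e e' : Z} (h : Wk P n e e') (hm : n ≤ m) : Wk P m e e' := by
  induction h generalizing m with
  | refl => exact Wk.refl _ _
  | step a _ ih =>
    obtain ⟨m, rfl⟩ : ∃ k, m = k + 1 := ⟨m - 1, by omega⟩
    exact Wk.step a (ih (by omega))

lemma Wk.trans {n m : ℕ} {e e' e'' : Z} (h : Wk P n e e') (h' : Wk P m e' e'') :
    Wk P (n + m) e e'' := by
  induction h with
  | refl => exact h'.mono (by omega)
  | step a _ ih => exact (Wk.step a (ih h')).mono (by omega)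

lemma Wk.one {e e' : Z} (h : P e e') : Wk P 1 e e' := Wk.step h (Wk.refl _ _)

lemma Wk.symm (hs : ∀ e e', P e e' → P e' e) {n : ℕ} {e e' : Z} (h : Wk P n e e') :
    Wk P n e' e := by
  induction h with
  | refl => exact Wk.refl _ _
  | step a _ ih => exact ih.trans (Wk.one (hs _ _ a))

lemma Wk.smul (hi : ∀ (t : G) e e', P e e' → P (t • e) (t • e')) {n : ℕ} {e e' : Z}
    (h : Wk P n e e') (t : G) : Wk P n (t • e) (t • e') := by
  induction h with
  | refl => exact Wk.refl _ _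
  | step a _ ih => exact Wk.step (hi _ _ _ a) ih

lemma Wk.mul (hi : ∀ (t : G) e e', P e e' → P (t • e) (t • e')) {n m : ℕ} {e : Z} {s t : G}
    (h : Wk P n e (s • e)) (h' : Wk P m e (t • e)) : Wk P (n + m) e ((s * t) • e) := by
  rw [mul_smul]; exact h.trans (h'.smul hi s)

omit [MulAction G Z] in
lemma Wk.exists_val (μ : Z → Z → G) {n : ℕ} {e e' : Z} (h : Wk P n e e') :
    ∃ γ, WkV P μ n e e' γ := by
  induction h with
  | refl => exact ⟨_, WkV.refl _ _⟩
  | step a _ ih => obtain ⟨γ, hγ⟩ := ih; exact ⟨_, WkV.step a hγ⟩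

open Classical in
lemma near (hi : ∀ (t : G) e e', P e e' → P (t • e) (t • e')) (e0 : Z)
    (conn : ∀ e, ∃ n, Wk P n e0 e) (R : Finset Z) (hR : ∀ e, ∃ t : G, t • e ∈ R) (e : Z) :
    ∃ t : G, Wk P R.card e0 (t • e) := by
  have key : ∀ n, (∀ e, ∃ t : G, Wk P n e0 (t • e)) ∨
      n + 1 ≤ (R.filter fun r => ∃ t : G, Wk P n e0 (t • r)).card := by
    intro n
    induction n with
    | zero =>
      obtain ⟨t, ht⟩ := hR e0
      exact Or.inr (Finset.card_pos.2 ⟨_, Finset.mem_filter.2 ⟨ht, t⁻¹, by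
        simpa using Wk.refl _ _⟩⟩)
    | succ n ih =>
      by_cases h : ∀ e, ∃ t : G, Wk P n e0 (t • e)
      · exact Or.inl fun e => (h e).imp fun t ht => ht.mono (by omega)
      right
      refine (Nat.succ_le_succ (ih.resolve_left h)).trans (Finset.card_lt_card ⟨fun r hr => ?_,
        fun hs => h fun e => ?_⟩)
      · obtain ⟨a, t, b⟩ := Finset.mem_filter.1 hr
        exact Finset.mem_filter.2 ⟨a, t, b.mono (by omega)⟩
      · obtain ⟨m, hm⟩ := conn e
        have : ∀ {m e1 e}, Wk P m e1 e → (∃ t : G, Wk P n e0 (t • e1)) →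
            ∃ t : G, Wk P n e0 (t • e) := by
          intro m e1 e h
          induction h with
          | refl => exact id
          | @step _ e1 e2 _ a _ ih =>
            rintro ⟨t, ht⟩
            obtain ⟨s, hs'⟩ := hR e2
            obtain ⟨-, u, hu⟩ := Finset.mem_filter.1 (hs (Finset.mem_filter.2 ⟨hs', t * s⁻¹, by
              simpa [mul_smul] using ht.trans (Wk.one (hi t _ _ a))⟩))
            exact ih ⟨u * s, by rwa [mul_smul]⟩
        exact this hm ⟨1, by simpa using Wk.refl _ _⟩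
  refine (key R.card).resolve_right (fun h => ?_) e
  have := Finset.card_filter_le R fun r => ∃ t : G, Wk P R.card e0 (t • r)
  omega

open Classical in
theorem pres (free : ∀ (t : G) (e : Z), t • e = e → t = 1)
    (hi : ∀ (t : G) e e', P e e' → P (t • e) (t • e')) (hs : ∀ e e', P e e' → P e' e) (e0 : Z)
    (conn : ∀ e, ∃ n, Wk P n e0 e) (B V L : ℕ) (R : Finset Z) (hB : R.card ≤ B)
    (hR : ∀ e, ∃ t : G, t • e ∈ R) (hV : ∀ e, {e' | P e e'}.Finite ∧ {e' | P e e'}.ncard ≤ V)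
    (hne : ∃ e', P e0 e')
    (SC : ∀ μ : Z → Z → G, (∀ e γ, WkV P μ L e e γ → γ = 1) →
      ∃ Φ : Z → G, ∀ e e', P e e' → Φ e' = Φ e * μ e e') :
    ∃ y : Fin (B * V) → G,
      (∀ y' : Fin (B * V) → G, (∀ w : List (Fin (B * V)), w.length ≤ L + B + 2 →
        (w.map y).prod = 1 → (w.map y').prod = 1) → ∃ θ : G →* G, ∀ i, θ (y i) = y' i) ∧
      (∀ n t, Wk P n e0 (t • e0) → ∃ w : List (Fin (B * V)), w.length ≤ n ∧ (w.map y).prod = t) ∧
      ∀ i, Wk P (2 * B + 1) e0 (y i • e0) := by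
  have ex : ∀ q : MulAction.orbitRel.Quotient G Z, ∃ r : Z, Quotient.mk'' r = q ∧ Wk P B e0 r ∧
      (q = Quotient.mk'' e0 → r = e0) := by
    intro q
    by_cases h : q = Quotient.mk'' e0
    · exact ⟨e0, h.symm, Wk.refl _ _, fun _ => rfl⟩
    obtain ⟨e, rfl⟩ := q.exists_rep
    obtain ⟨t, ht⟩ := near hi e0 conn R hR e
    exact ⟨t • e, Quotient.sound' ⟨t, rfl⟩, ht.mono hB, fun h' => absurd h' h⟩
  choose ρ ρ1 ρ2 ρ3 using ex
  set rep : Z → Z := fun e => ρ (Quotient.mk'' e) with hrep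
  have exa : ∀ e, ∃ t : G, t • rep e = e := fun e => Quotient.exact' (ρ1 (Quotient.mk'' e)).symm
  choose a ha using exa
  have rs : ∀ (t : G) e, rep (t • e) = rep e := fun t e => by
    simp only [hrep]; congr 1; exact Quotient.sound' ⟨t, rfl⟩
  have as : ∀ (t : G) e, a (t • e) = t * a e := fun t e => by
    have := free ((t * a e)⁻¹ * a (t • e)) (rep e) (by
      rw [mul_smul, ← rs t e, ha, rs, inv_smul_eq_iff, mul_smul, ha])
    exact (inv_mul_eq_one.1 this).symm
  have a0 : a e0 = 1 := free _ e0 (by have := ha e0; rwa [show rep e0 = e0 from ρ3 _ rfl] at this)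
  have ar : ∀ e, a (rep e) = 1 := fun e => by
    have := as (a e) (rep e)
    rw [ha] at this
    simpa using this
  set lam : Z → Z → G := fun e e' => (a e)⁻¹ * a e' with hlam
  have li : ∀ (t : G) e e', lam (t • e) (t • e') = lam e e' := fun t e e' => by
    simp [hlam, as, mul_assoc]
  set Y : Finset G := R.biUnion fun r => (hV r).1.toFinset.image (lam r) with hY
  have mY : ∀ s, s ∈ Y ↔ ∃ e e', P e e' ∧ lam e e' = s := fun s => by
    simp only [hY, Finset.mem_biUnion, Finset.mem_image, Set.Finite.mem_toFinset,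
      Set.mem_ofPred_eq]
    constructor
    · rintro ⟨r, -, e', h1, h2⟩; exact ⟨r, e', h1, h2⟩
    · rintro ⟨e, e', h1, h2⟩
      obtain ⟨t, ht⟩ := hR e
      exact ⟨_, ht, _, hi t _ _ h1, by rw [li, h2]⟩
  have cY : Y.card ≤ B * V := (Finset.card_biUnion_le_card_mul _ _ V fun r _ =>
    Finset.card_image_le.trans (by rw [← Set.ncard_eq_toFinset_card _ (hV r).1]; exact (hV r).2)).trans
      (Nat.mul_le_mul_right _ hB)
  obtain ⟨e1, he1⟩ := hne
  have : Nonempty Y := ⟨⟨_, (mY _).2 ⟨_, _, he1, rfl⟩⟩⟩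
  obtain ⟨emb⟩ : Nonempty (Y ↪ Fin (B * V)) :=
    Function.Embedding.nonempty_of_card_le (by simpa using cY)
  set y : Fin (B * V) → G := fun i => (Function.invFun emb i : Y) with hy
  set idx : G → Fin (B * V) := fun s => if h : s ∈ Y then emb ⟨s, h⟩ else emb (Classical.arbitrary _)
    with hidx
  have yi : ∀ s ∈ Y, y (idx s) = s := fun s h => by
    simp only [hy, hidx, dif_pos h, Function.leftInverse_invFun emb.injective ⟨s, h⟩]
  have wv : ∀ (y' : Fin (B * V) → G) {n e e' γ},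
      WkV P (fun e e' => y' (idx (lam e e'))) n e e' γ → ∃ w : List (Fin (B * V)),
        w.length ≤ n ∧ (w.map y).prod = lam e e' ∧ (w.map y').prod = γ := by
    intro y' n e e' γ h
    induction h with
    | refl => exact ⟨[], by simp [hlam]⟩
    | @step _ e e' _ _ p _ ih =>
      obtain ⟨w, w1, w2, w3⟩ := ih
      refine ⟨idx (lam e e') :: w, by simpa using w1, ?_, by simp [w3]⟩
      rw [List.map_cons, List.prod_cons, w2, yi _ ((mY _).2 ⟨_, _, p, rfl⟩)]
      simp [hlam]
  refine ⟨y, fun y' hy' => ?_, fun n t h => ?_, fun i => ?_⟩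
  · obtain ⟨Φ0, h0⟩ := SC (fun e e' => y' (idx (lam e e'))) fun e γ h => by
      obtain ⟨w, w1, w2, w3⟩ := wv y' h
      rw [← w3]; exact hy' w (by omega) (by simp [w2, hlam])
    set Φ : Z → G := fun e => (Φ0 e0)⁻¹ * Φ0 e with hΦ
    have h1 : ∀ e e', P e e' → Φ e' = Φ e * y' (idx (lam e e')) := fun e e' p => by
      simp only [hΦ, h0 e e' p, mul_assoc]
    have h2 : ∀ {n e e' γ}, WkV P (fun e e' => y' (idx (lam e e'))) n e e' γ →
        Φ e' = Φ e * γ := by
      intro n e e' γ h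
      induction h with
      | refl => simp
      | step p _ ih => rw [ih, h1 _ _ p, mul_assoc]
    have h3 : ∀ (t : G) e, Φ (t • e) = Φ (t • e0) * Φ e := by
      intro t e
      obtain ⟨m, hm⟩ := conn e
      have : ∀ {m e1 e}, Wk P m e1 e → Φ (t • e1) = Φ (t • e0) * Φ e1 →
          Φ (t • e) = Φ (t • e0) * Φ e := by
        intro m e1 e h
        induction h with
        | refl => exact id
        | step p _ ih =>
          intro h
          exact ih (by rw [h1 _ _ (hi t _ _ p), h1 _ _ p, h, li, mul_assoc])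
      exact this hm (by simp [hΦ])
    have h4 : ∀ e, Φ (rep e) = 1 := fun e => by
      obtain ⟨γ, hγ⟩ := (ρ2 (Quotient.mk'' e)).exists_val fun e e' => y' (idx (lam e e'))
      obtain ⟨w, w1, w2, w3⟩ := wv y' hγ
      have := hy' w (by omega) (by rw [w2]; change (a e0)⁻¹ * a (rep e) = 1; simp [a0, ar])
      change Φ (ρ _) = 1
      rw [h2 hγ, ← w3, this]; simp [hΦ]
    set θ : G →* G := MonoidHom.mk' (fun t => Φ (t • e0)) fun s t => by rw [mul_smul, h3] with hθ
    have h5 : ∀ e, Φ e = θ (a e) := fun e => by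
      conv_lhs => rw [← ha e, h3, h4, mul_one]
      rfl
    refine ⟨θ, fun i => ?_⟩
    obtain ⟨e, e', p, q⟩ := (mY _).1 (Function.invFun emb i).2
    change lam e e' = y i at q
    have m1 : lam e' e ∈ Y := (mY _).2 ⟨_, _, hs _ _ p, rfl⟩
    have m2 : lam e e' ∈ Y := (mY _).2 ⟨_, _, p, rfl⟩
    have r1 := hy' [i, idx (lam e' e)] (by simp) (by simp [yi _ m1, ← q]; simp [hlam])
    have r2 := hy' [idx (lam e e'), idx (lam e' e)] (by simp)
      (by simp [yi _ m1, yi _ m2]; simp [hlam])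
    simp only [List.map_cons, List.map_nil, List.prod_cons, List.prod_nil, mul_one] at r1 r2
    rw [mul_right_cancel (r1.trans r2.symm), ← q]
    simp only [hlam, map_mul, map_inv, ← h5]
    rw [h1 e e' p]; simp [hlam]
  · obtain ⟨γ, hγ⟩ := h.exists_val fun e e' => y (idx (lam e e'))
    obtain ⟨w, w1, w2, -⟩ := wv y hγ
    exact ⟨w, w1, by simp [w2, hlam, as, a0]⟩
  · obtain ⟨e, e', p, q⟩ := (mY _).1 (Function.invFun emb i).2
    change lam e e' = y i at q
    have s1 := hi (a e)⁻¹ _ _ p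
    rw [show (a e)⁻¹ • e = rep e by rw [inv_smul_eq_iff, ha],
      show (a e)⁻¹ • e' = y i • rep e' by rw [← q, hlam]; simp [mul_smul, ha]] at s1
    exact (((ρ2 _).trans (Wk.one s1)).trans (((ρ2 _).symm hs).smul hi (y i))).mono (by omega)

end Pool.Agent.Lib.MP_294da1_gt
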