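import Pool.Agent.Lib.MP_294da1_gt.Count
import Pool.Agent.Lib.MP_294da1_gt.Pres

namespace Pool.Agent.Lib.MP_294da1_gt
open FreeGroup hiding map_mul map_inv map_one
open Filter

variable {g n : ℕ}

lemma agree_nc {H v v' : Set (F g)} (hH : Fam H) (hv : Vx H v) (hv' : Vx H v') {h k : F g}
    (a : Mn v h) (b : Mn v' h) (c : k ∈ v) (d : k ∉ v') : Cross h k := by
  have kH := hv.sub c
  have nk := hH.ne _ kH
  refine ⟨hv.meet _ a.1 _ c, ?_, ?_, ?_⟩
  · by_contra e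
    push Not at e
    exact d (hv'.up hH b.1 kH e)
  · by_contra e
    push Not at e
    exact d (a.2 k c (fun x hx => by by_contra e'; exact e x e' hx) ▸ b.1)
  · by_contra e
    push Not at e
    have := b.2 _ (hv'.inv_mem kH d) fun x hx => by
      by_contra e'; exact (Q_inv nk).1 hx (e x e')
    exact hv.inv_not_mem c (this ▸ a.1)

lemma consec {C : Set (F g)} (hC : Fam C) {h d u : F g} (hu : u ∈ C) (o1 : One h C) (o2 : One d C)
    (s1 : SD h u) (s2 : SD d u) (c : SD d (h * u * h⁻¹) ∨ SD d⁻¹ (h * u * h⁻¹)) :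
    h * u * h⁻¹ = d * u * d⁻¹ := by
  have hu1 := hC.conj _ hu h
  have sub : Q (h * u * h⁻¹) ⊆ Q u := by simpa using s1.chain (m := 0) (n := 1) (by omega)
  have nsub : ¬ Q u ⊆ Q (h * u * h⁻¹) := by
    simpa using s1.chain_lt (m := 0) (n := 1) (by omega)
  have s3 : SD d (h * u * h⁻¹) := c.resolve_right fun e => by
    obtain ⟨y, hy⟩ := Q_nonempty (hC.ne _ hu1)
    obtain ⟨j, hj⟩ := s2.escape hC hu y
    exact hj (sub (by simpa using e.pow_mem j hy))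
  obtain ⟨k, hk⟩ := o2 u hu _ hu1 s2 s3
  have k0 : 0 < k := by
    by_contra e
    exact nsub (by rw [hk]; simpa using s2.chain (not_lt.1 e))
  by_contra hne
  have k1 : 1 < k := by
    by_contra e
    exact hne (by rw [hk, show k = 1 by omega, zpow_one])
  have a1 : Q (h * u * h⁻¹) ⊆ Q (d * u * d⁻¹) := by rw [hk]; simpa using s2.chain k1.le
  have a2 : Q (d * u * d⁻¹) ⊆ Q u := by simpa using s2.chain (m := 0) (n := 1) (by omega)
  have a3 : ¬ Q u ⊆ Q (d * u * d⁻¹) := by simpa using s2.chain_lt (m := 0) (n := 1) (by omega)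
  have a4 : SD h (d * u * d⁻¹) := NN_sd hC hu ⟨hC.conj _ hu d, a2, a1, Ne.symm hne⟩
  obtain ⟨m, hm⟩ := o1 u hu _ (hC.conj _ hu d) s1 a4
  rcases le_or_gt m 0 with e | e
  · exact a3 (by rw [hm]; simpa using s1.chain e)
  · exact hne (hC.inj hu1 (hC.conj _ hu d) a1 (by rw [hm]; simpa using s1.chain (m := 1) e))

namespace Cfg
variable (C : Cfg g n)

lemma no_three {h u d : F g} (hh : h ∈ C.H) (hd : d ∈ C.H) {j} (hu : u ∈ cl (C.c j))
    (s1 : SD h u) (cd : Cross h d) (c0 : Cross d u) (c1 : Cross d (h * u * h⁻¹))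
    (c2 : Cross d (h * (h * u * h⁻¹) * h⁻¹)) : False := by
  have S := C.simple j
  wlog s2 : SD d u generalizing d
  · have nd := C.fam.ne _ hd
    exact this (C.fam.inv _ hd) (cd.inv_right nd) (c0.inv_left nd) (c1.inv_left nd)
      (c2.inv_left nd) (((S.of_mem hu).cross_sd nd c0).resolve_left s2)
  have nd := C.fam.ne _ hd
  have hu1 := cl_conj hu h
  have e1 := consec S.fam hu (C.one_of hh j) (C.one_of hd j) s1 s2
    ((S.of_mem hu1).cross_sd nd c1)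
  have e2 := consec S.fam hu1 (C.one_of hh j) (C.one_of hd j) (by simpa using s1.conj_zpow 1)
    (by rw [e1]; simpa using s2.conj_zpow 1) ((S.of_mem (cl_conj hu1 h)).cross_sd nd c2)
  have nu := S.fam.ne _ hu
  obtain ⟨p, hp⟩ := S.fam.prim _ hu (h⁻¹ * d) (Q_comm (by
    calc _ = h⁻¹ * (d * u * d⁻¹) * h := by group
      _ = u := by rw [← e1]; group))
  obtain ⟨r, hr⟩ := S.fam.prim _ hu (h⁻¹ * (h⁻¹ * d) * h) (Q_comm (by
    calc _ = h⁻¹ * h⁻¹ * (d * (h * u * h⁻¹) * d⁻¹) * h * h := by simp [mul_assoc]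
      _ = u := by rw [← e2]; group))
  have p0 : p ≠ 0 := by
    rintro rfl
    exact cd.ne (by simpa [inv_mul_eq_one] using hp)
  have r0 : r ≠ 0 := by
    rintro rfl
    refine cd.ne (inv_mul_eq_one.1 ?_)
    calc h⁻¹ * d = h * (h⁻¹ * (h⁻¹ * d) * h) * h⁻¹ := by group
      _ = 1 := by rw [hr]; simp
  have q : ∀ x, x ∈ Q (u ^ r) ↔ h * x ∈ Q (u ^ p) := fun x => by
    rw [← hr, hp]; simpa using Q_conj' h⁻¹ (u ^ p) x
  obtain ⟨x, x1, x2⟩ := s1.2
  obtain ⟨y, hy⟩ := Q_nonempty nu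
  have a := q x
  have b := q y
  have := s1.1 y hy
  rcases Q_zpow_ne nu p0 with f | f <;> rcases Q_zpow_ne nu r0 with f' | f' <;>
    rw [f, f'] at a b <;> (try rw [Q_inv nu] at a b) <;> (try rw [Q_inv nu] at a b) <;> tauto

lemma exists_cut {v : Set (F g)} (hv : Vx C.H v) {h u : F g} (hu : u ∈ C.H) (s : SD h u) :
    ∃ m : ℤ, ∀ k : ℤ, h ^ k * u * (h ^ k)⁻¹ ∈ v ↔ k ≤ m := by
  have mem : ∀ k : ℤ, h ^ k * u * (h ^ k)⁻¹ ∈ C.H := fun k => C.fam.conj _ hu _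
  obtain ⟨m, m1, m2⟩ := Int.exists_greatest_of_bdd (P := fun k => h ^ k * u * (h ^ k)⁻¹ ∈ v) (by
    by_contra hc
    push Not at hc
    obtain ⟨j, hj⟩ := s.escape C.fam hu 1
    refine Set.infinite_of_injective_forall_mem (s := {h | h ∈ v ∧ 1 ∉ Q h})
      (f := fun i : ℕ => h ^ ((j : ℤ) + i) * u * (h ^ ((j : ℤ) + i))⁻¹) (fun a b e => ?_)
      (fun i => ⟨?_, fun e => hj ?_⟩) hv.fin
    · have := s.chain_inj e; omega
    · obtain ⟨z, z1, z2⟩ := hc (j + i)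
      exact hv.up C.fam z1 (mem _) (s.chain z2.le)
    · simpa [Q_conj'] using (Q_conj' _ _ _).1 (s.chain (m := j) (by omega) e)) (by
    by_contra hc
    push Not at hc
    obtain ⟨j, hj⟩ := s.absorb C.fam hu 1
    refine Set.infinite_of_injective_forall_mem (s := {h | h ∈ v ∧ 1 ∉ Q h})
      (f := fun i : ℕ => (h ^ (-(j : ℤ) - i) * u * (h ^ (-(j : ℤ) - i))⁻¹)⁻¹) (fun a b e => ?_)
      (fun i => ⟨hv.inv_mem (mem _) (hc _), ?_⟩) hv.fin
    · have := s.chain_inj (inv_injective e); omega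
    · rw [Q_inv (C.fam.ne _ (mem _)), not_not]
      exact s.chain (n := -j) (by omega) (by rw [Q_conj']; simpa using hj))
  exact ⟨m, fun k => ⟨m2 k, fun e => hv.up C.fam m1 (mem k) (s.chain e)⟩⟩

open Classical in
lemma exists_code {h : F g} (hh : h ∈ C.H) : ∃ (N : Set (Set (F g)))
    (code : Set (F g) → Fin n → ZMod 4), (∀ v, Vx C.H v → ∃ k : ℤ, act (h ^ k) v ∈ N) ∧
      ∀ v ∈ N, ∀ v' ∈ N, Vx C.H v → Vx C.H v' → Mn v h → Mn v' h → code v = code v' → v = v' := by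
  have exu : ∀ j, ∃ u, (∃ u ∈ cl (C.c j), SD h u) → u ∈ cl (C.c j) ∧ SD h u := fun j => by
    by_cases e : ∃ u ∈ cl (C.c j), SD h u
    · exact e.imp fun _ a _ => a
    · exact ⟨1, fun a => absurd a e⟩
  choose u hu using exu
  have exm : ∀ v j, ∃ m : ℤ, Vx C.H v → (∃ u ∈ cl (C.c j), SD h u) →
      ∀ k : ℤ, h ^ k * u j * (h ^ k)⁻¹ ∈ v ↔ k ≤ m := fun v j => by
    by_cases e : Vx C.H v ∧ ∃ u ∈ cl (C.c j), SD h u
    · exact (C.exists_cut e.1 ⟨j, (hu j e.2).1⟩ (hu j e.2).2).imp fun _ a _ _ => a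
    · exact ⟨0, fun a b => absurd ⟨a, b⟩ e⟩
  choose m hm using exm
  have det : ∀ v v', Vx C.H v → Vx C.H v' → Mn v h → Mn v' h →
      (∀ j, (∃ u ∈ cl (C.c j), SD h u) → m v j = m v' j) → v = v' := by
    intro v v' hv hv' a b e
    refine hv.eq_of_sub hv' fun k hk => ?_
    by_contra hk'
    obtain ⟨j, hj⟩ := hv.sub hk
    rcases (C.simple_of ⟨j, hj⟩).cross_sd (C.fam.ne _ hh) (agree_nc C.fam hv hv' a b hk hk')
      with s | s
    · have J : ∃ u ∈ cl (C.c j), SD h u := ⟨k, hj, s⟩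
      obtain ⟨i, rfl⟩ := C.one_of hh j _ (hu j J).1 _ hj (hu j J).2 s
      exact hk' ((hm v' j hv' J i).2 (e j J ▸ (hm v j hv J i).1 hk))
    · have s' : SD h k⁻¹ := by simpa using s.inv (C.fam.ne _ ⟨j, hj⟩)
      have J : ∃ u ∈ cl (C.c j), SD h u := ⟨_, cl_inv hj, s'⟩
      obtain ⟨i, hi⟩ := C.one_of hh j _ (hu j J).1 _ (cl_inv hj) (hu j J).2 s'
      have := hv'.inv_mem ⟨j, hj⟩ hk'
      rw [hi, hm v' j hv' J i, ← e j J, ← hm v j hv J i, ← hi] at this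
      exact hv.inv_not_mem hk this
  by_cases J0 : ∃ j0, ∃ u ∈ cl (C.c j0), SD h u
  swap
  · exact ⟨Set.univ, fun _ _ => 0, fun _ _ => ⟨0, trivial⟩, fun v _ v' _ a b c d _ =>
      det v v' a b c d fun j J => absurd ⟨j, J⟩ J0⟩
  obtain ⟨j0, J0⟩ := J0
  obtain ⟨d1, d2⟩ := hu j0 J0
  have dH : u j0 ∈ C.H := ⟨j0, d1⟩
  refine ⟨{v | m v j0 = 0}, fun v j => (m v j : ZMod 4), fun v hv => ⟨-m v j0, ?_⟩, ?_⟩
  · have a := hm _ j0 (hv.act C.fam (h ^ (-m v j0))) J0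
    have b : ∀ k : ℤ, h ^ k * u j0 * (h ^ k)⁻¹ ∈ act (h ^ (-m v j0)) v ↔ k ≤ 0 := fun k => by
      rw [mem_act, show (h ^ (-m v j0))⁻¹ * (h ^ k * u j0 * (h ^ k)⁻¹) * h ^ (-m v j0) =
        h ^ (k + m v j0) * u j0 * (h ^ (k + m v j0))⁻¹ by group, hm v j0 hv J0]
      omega
    exact le_antisymm ((b _).1 ((a _).2 le_rfl)) ((a _).1 ((b _).2 le_rfl))
  have bd : ∀ v v', Vx C.H v → Vx C.H v' → m v j0 = 0 → m v' j0 = 0 → ∀ j,
      (∃ u ∈ cl (C.c j), SD h u) → m v' j ≤ m v j + 3 := by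
    intro v v' hv hv' a b j J
    by_contra hc
    obtain ⟨u1, u2⟩ := hu j J
    have mem : ∀ k : ℤ, h ^ k * u j * (h ^ k)⁻¹ ∈ C.H := fun k => C.fam.conj _ ⟨j, u1⟩ _
    have cr : ∀ s : ℤ, m v j + 1 ≤ s → s ≤ m v j + 3 → Cross (u j0) (h ^ s * u j * (h ^ s)⁻¹) := by
      intro s s1 s2
      by_contra nc
      rcases sd_comparable C.fam dH (mem s) nc d2 (u2.conj_zpow s) with e | e
      · have := hv.up C.fam ((hm v j0 hv J0 0).2 a.ge) (mem s) (by simpa using e)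
        rw [hm v j hv J] at this; omega
      · have := hv'.up C.fam ((hm v' j hv' J (s + 1)).2 (by omega))
          (C.fam.conj _ dH (h ^ (1 : ℤ))) fun x hx => by
            rw [Q_conj', zpow_one]
            apply e
            rw [Q_conj'] at *
            rwa [show (h ^ s)⁻¹ * (h⁻¹ * x) = (h ^ (s + 1))⁻¹ * x by group]
        rw [hm v' j0 hv' J0] at this; omega
    refine C.no_three hh dH (cl_conj u1 (h ^ (m v j + 1))) (u2.conj_zpow _) (d2.cross C.fam dH)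
      (cr _ le_rfl (by omega)) ?_ ?_
    · convert cr (m v j + 2) (by omega) (by omega) using 1; group
    · convert cr (m v j + 3) (by omega) (by omega) using 1; group
  intro v a v' b hv hv' c d e
  refine det v v' hv hv' c d fun j J => ?_
  have e1 := (ZMod.intCast_eq_intCast_iff_dvd_sub _ _ 4).1 (congrFun e j)
  have := bd v v' hv hv' a b j J
  have := bd v' v hv' hv b a j J
  omega

/-- oriented edges of the cube complex -/
def Fl : Type := {e : Set (F g) × F g // Vx C.H e.1 ∧ Mn e.1 e.2}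

instance : MulAction (F g) C.Fl where
  smul t e := ⟨(act t e.1.1, t * e.1.2 * t⁻¹), e.2.1.act C.fam t, e.2.2.act t⟩
  one_smul e := Subtype.ext (Prod.ext act_one (by change 1 * _ * 1⁻¹ = _; simp))
  mul_smul s t e := Subtype.ext (Prod.ext (act_mul s t)
    (by change s * t * _ * _ = s * (t * _ * _) * _; group))

variable {C}

@[simp] lemma smul_fst (t : F g) (e : C.Fl) : (t • e).1.1 = act t e.1.1 := rfl
@[simp] lemma smul_snd (t : F g) (e : C.Fl) : (t • e).1.2 = t * e.1.2 * t⁻¹ := rfl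

lemma Fl.mem (e : C.Fl) : e.1.2 ∈ C.H := e.2.1.sub e.2.2.1

def Fl.rev (e : C.Fl) : C.Fl :=
  ⟨(flp e.1.1 e.1.2, e.1.2⁻¹), e.2.1.flp C.fam e.2.2, e.2.2.flp C.fam e.2.1⟩

lemma Fl.rev_rev (e : C.Fl) : e.rev.rev = e :=
  Subtype.ext (Prod.ext (flp_flp e.2.1 e.2.2.1) (inv_inv _))

lemma Fl.smul_rev (t : F g) (e : C.Fl) : t • e.rev = (t • e).rev :=
  Subtype.ext (Prod.ext (act_flp t) (by change t * _⁻¹ * _ = (t * _ * _)⁻¹; group))

lemma stab_pv' {t z : F g} (e : act t (pv C.H z) = pv C.H z) :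
    ∃ m : ℤ, t = z * zt g ^ m * z⁻¹ := by
  obtain ⟨m, hm⟩ := C.stab_pv (t := z⁻¹ * t * z) (by
    have := congrArg (act z⁻¹) e
    simpa [act_pv C.fam, mul_assoc] using this)
  exact ⟨m, by rw [← hm]; group⟩

lemma free (t : F g) (e : C.Fl) (h : t • e = e) : t = 1 := by
  by_contra ht
  have h1 : act t e.1.1 = e.1.1 := congrArg (fun e : C.Fl => e.1.1) h
  have h2 : t * e.1.2 * t⁻¹ = e.1.2 := congrArg (fun e : C.Fl => e.1.2) h
  obtain ⟨z, hz⟩ := C.stab e.2.1 ht h1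
  obtain ⟨m, hm⟩ := stab_pv' (hz ▸ h1)
  obtain ⟨k, hk⟩ := C.fam.prim _ e.mem t (Q_comm h2)
  have ne := C.fam.ne _ e.mem
  have k0 : k ≠ 0 := by rintro rfl; exact ht (by simpa using hk)
  have m0 : -m ≠ 0 := by rintro e; exact ht (by simp [hm, neg_eq_zero.1 e])
  have nz : z * (zt g)⁻¹ * z⁻¹ ≠ 1 := by simpa [mul_inv_eq_one] using zt_ne_one C.hg
  have e1 : t = (z * (zt g)⁻¹ * z⁻¹) ^ (-m) := by rw [hm, conj_zpow]; group
  have a := Q_zpow_ne ne k0
  have b := Q_zpow_ne nz m0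
  rw [← hk] at a
  rw [← e1] at b
  have c1 := C.Q_ne_zt e.mem z
  have c2 := C.Q_ne_zt (C.fam.inv _ e.mem) z
  rcases a with a | a <;> rcases b with b | b
  · exact c1 (a.symm.trans b)
  · refine c2 (Set.ext fun x => ?_)
    rw [Q_inv ne, ← a, b, Q_inv nz, not_not]
  · exact c2 (a.symm.trans b)
  · refine c1 (Set.ext fun x => ?_)
    rw [← not_iff_not, ← Q_inv ne, ← Q_inv nz, ← a, b]

variable (C)

lemma exists_orbits : ∃ R : Finset C.Fl, R.card ≤ 2 * n * 4 ^ n ∧ ∀ e, ∃ t : F g, t • e ∈ R := by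
  classical
  set h0 : Fin n × Bool → F g := fun p => if p.2 then C.c p.1 else (C.c p.1)⁻¹ with hh0
  have mem : ∀ p, h0 p ∈ C.H := by
    rintro ⟨i, _ | _⟩
    exacts [⟨i, cl_inv (self_mem_cl _)⟩, ⟨i, self_mem_cl _⟩]
  choose N code c1 c2 using fun p => C.exists_code (mem p)
  have ex : ∀ e : C.Fl, ∃ (p : Fin n × Bool) (t : F g), (t • e).1.2 = h0 p ∧ (t • e).1.1 ∈ N p := by
    intro e
    obtain ⟨p, t, ht⟩ : ∃ (p : Fin n × Bool) (t : F g), (t • e).1.2 = h0 p := by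
      obtain ⟨i, t, ht | ht⟩ := e.mem
      · exact ⟨(i, true), t⁻¹, by simp [ht, hh0, mul_assoc]⟩
      · exact ⟨(i, false), t⁻¹, by simp [ht, hh0, mul_assoc]⟩
    obtain ⟨k, hk⟩ := c1 p _ (t • e).2.1
    exact ⟨p, h0 p ^ k * t, by rw [mul_smul, smul_snd, ht]; group, by rwa [mul_smul]⟩
  choose p t e1 e2 using ex
  set f : C.Fl → (Fin n × Bool) × (Fin n → ZMod 4) := fun e => (p e, code (p e) (t e • e).1.1)
  have key : ∀ e e', f e = f e' → t e • e = t e' • e' := by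
    intro e e' h
    have a : p e = p e' := congrArg Prod.fst h
    have b : code (p e) (t e • e).1.1 = code (p e') (t e' • e').1.1 := congrArg Prod.snd h
    refine Subtype.ext (Prod.ext (c2 (p e) _ (e2 e) _ (a ▸ e2 e') (t e • e).2.1 (t e' • e').2.1
      (e1 e ▸ (t e • e).2.2) (a ▸ e1 e' ▸ (t e' • e').2.2) (by rw [b, a])) ?_)
    rw [e1, e1, a]
  by_cases ne : Nonempty C.Fl
  swap
  · exact ⟨∅, by simp, fun e => absurd ⟨e⟩ ne⟩
  refine ⟨Finset.univ.image (Function.invFun f), Finset.card_image_le.trans (by simp [mul_comm]),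
    fun e => ⟨(t (Function.invFun f (f e)))⁻¹ * t e, ?_⟩⟩
  rw [mul_smul, ← key _ e (Function.invFun_eq ⟨e, rfl⟩), inv_smul_smul]
  exact Finset.mem_image_of_mem _ (Finset.mem_univ _)

lemma exists_point : ∃ p : C.Fl → F g, (∀ e, p e ∉ Q e.1.2) ∧ ∀ (t : F g) e, p (t • e) = t * p e := by
  set rep : C.Fl → C.Fl := fun e => (Quotient.mk'' e : MulAction.orbitRel.Quotient (F g) _).out
    with hrep
  have exa : ∀ e, ∃ t : F g, t • rep e = e := fun e =>
    Quotient.exact' (Quotient.out_eq' (Quotient.mk'' e : MulAction.orbitRel.Quotient (F g) _)).symm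
  choose a ha using exa
  have rs : ∀ (t : F g) e, rep (t • e) = rep e := fun t e => by
    simp only [hrep]; congr 1; exact Quotient.sound' ⟨t, rfl⟩
  have as : ∀ (t : F g) e, a (t • e) = t * a e := fun t e => by
    have := free ((t * a e)⁻¹ * a (t • e)) (rep e) (by
      rw [mul_smul, ← rs t e, ha, rs, inv_smul_eq_iff, mul_smul, ha])
    exact (inv_mul_eq_one.1 this).symm
  choose q hq using fun e : C.Fl => exists_not_Q (C.fam.ne _ e.mem)
  refine ⟨fun e => a e * q (rep e), fun e => ?_, fun t e => by simp only [as, rs, mul_assoc]⟩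
  have := hq (rep e)
  rwa [← Q_conj (a e), ← smul_snd, ha] at this

lemma exists_level : ∃ lv : C.Fl → F g → ℤ, (∀ (t : F g) e z, lv (t • e) (t * z) = lv e z) ∧
    (∀ e z (m : ℤ), e.1.1 = pv C.H z → lv e (z * zt g ^ m) = lv e z + m) ∧
    ∀ e e' z, e.1.1 = pv C.H z → e'.1.1 = pv C.H z → Cross e.1.2 e'.1.2 →
      |lv e z - lv e' z| ≤ 2 := by
  obtain ⟨p, p1, p2⟩ := C.exists_point
  have nz := zt_ne_one C.hg
  obtain ⟨y0, h0⟩ := Q_nonempty nz
  have exl : ∀ y, ∃ m : ℤ, y ∈ Q (zt g) → zt g ^ m * y ∈ Iv (zt g * y0) y0 := fun y => by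
    by_cases e : y ∈ Q (zt g)
    · exact (exists_lv nz h0 e).imp fun _ a _ => a
    · exact ⟨0, fun a => absurd a e⟩
  choose lev hlev using exl
  have inQ : ∀ (e : C.Fl) z y, e.1.1 = pv C.H z → y ∉ Q e.1.2 → z⁻¹ * y ∈ Q (zt g) := by
    intro e z y hz hy
    by_contra hc
    obtain ⟨m, hm⟩ := (Q_zt_inv C.hg _).1 ((Q_inv nz).2 hc)
    apply hy
    rw [show y = z * zt g ^ m by rw [← hm]; simp, Q_zt_zpow (C.fam.ne _ e.mem)]
    exact (hz ▸ e.2.2.1 : e.1.2 ∈ pv C.H z).2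
  have near : ∀ (e : C.Fl) z y y', e.1.1 = pv C.H z → y ∉ Q e.1.2 → y' ∉ Q e.1.2 →
      lev (z⁻¹ * y') ≤ lev (z⁻¹ * y) + 1 := by
    intro e z y y' hz hy hy'
    by_contra hc
    set e0 := z⁻¹ • e with he0
    have v0 : e0.1.1 = pv C.H 1 := by simp [he0, hz, act_pv C.fam]
    have ne := C.fam.ne _ e0.mem
    have o1 : 1 ∈ Q e0.1.2 := (v0 ▸ e0.2.2.1 : e0.1.2 ∈ pv C.H 1).2
    obtain ⟨t, t1, t2⟩ := lv_gap (p := 1) nz h0
      ((Q_inv nz).1 ((Q_zt_inv C.hg _).2 ⟨0, by simp⟩)) (hlev _ (inQ e z y hz hy))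
      (hlev _ (inQ e z y' hz hy')) (by omega) (Q_arc ne).compl (by simpa using o1)
      (by rwa [Set.mem_compl_iff, he0, smul_snd, Q_conj])
      (by rwa [Set.mem_compl_iff, he0, smul_snd, Q_conj])
    have v1 : ((zt g)⁻¹ • e0).1.1 = e0.1.1 := by
      rw [smul_fst, v0, act_pv C.fam]
      ext k
      refine and_congr_right fun hk => ?_
      simpa using Q_zt_zpow (C.fam.ne _ hk) 1 (-1)
    have m1 : Mn e0.1.1 ((zt g)⁻¹ • e0).1.2 := v1 ▸ ((zt g)⁻¹ • e0).2.2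
    obtain ⟨x, x1, x2⟩ := e0.2.1.meet _ e0.2.2.1 _ m1.1
    have t3 : t ∉ Q ((zt g)⁻¹ • e0).1.2 := by rw [smul_snd, Q_conj']; simpa using t2
    have : ((zt g)⁻¹ • e0).1.2 = e0.1.2 := by
      rcases comparable ((C.simple_of e0.mem).nc (zt g)⁻¹) x1 x2 t1 t3 with s | s
      · exact (m1.2 _ e0.2.2.1 s).symm
      · exact e0.2.2.2 _ m1.1 s
    exact nz (by simpa using free _ e0 (Subtype.ext (Prod.ext v1 this)))
  refine ⟨fun e z => lev (z⁻¹ * p e), fun t e z => by simp [p2, mul_assoc], fun e z m hz => ?_,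
    fun e e' z hz hz' c => ?_⟩
  · have a := inQ e z _ hz (p1 e)
    refine lv_unique nz h0 (y := (z * zt g ^ m)⁻¹ * p e) (hlev _ ?_) ?_
    · rwa [show (z * zt g ^ m)⁻¹ * p e = zt g ^ (-m) * (z⁻¹ * p e) by group, Q_zpow]
    · convert hlev _ a using 1; group
  · obtain ⟨y, y1, y2⟩ := c.2.2.2
    have := near e z _ _ hz y1 (p1 e)
    have := near e z _ _ hz (p1 e) y1
    have := near e' z _ _ hz' y2 (p1 e')
    have := near e' z _ _ hz' (p1 e') y2
    rw [abs_le]; constructor <;> simp only <;> omega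

end Cfg

end Pool.Agent.Lib.MP_294da1_gt
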