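import Pool.Agent.Lib.MP_294da1_gt.Dyn

namespace Pool.Agent.Lib.MP_294da1_gt
open FreeGroup hiding map_mul map_inv map_one
open Filter

variable {g : ℕ}

/-- finite coboundary -/
def FC (J : Set (F g)) : Prop := ∀ s : F g, {x | ¬ (x ∈ J ↔ x * s ∈ J)}.Finite

lemma fc_of_letters {J : Set (F g)} (h : ∀ l, {x | ¬ (x ∈ J ↔ x * L l ∈ J)}.Finite) : FC J := by
  intro s
  induction s using red_ind with
  | h1 => simp
  | h2 l y _ ih =>
    refine ((h l).union (ih.preimage (f := fun x => x * L l)
      (mul_left_injective _).injOn)).subset ?_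
    intro x hx
    simp only [Set.mem_ofPred_eq, Set.mem_union, Set.mem_preimage, mul_assoc] at *
    tauto

lemma fc_hd (φ : ℕ → Prop) : FC {x : F g | φ (hd x)} := by
  refine fc_of_letters fun l => (Set.toFinite {1, L (linv l)}).subset ?_
  intro x hx
  by_contra h
  simp only [Set.mem_insert_iff, Set.mem_singleton_iff, not_or] at h
  simp [hd_mul_L h.1 h.2] at hx

lemma FC.inter {J J' : Set (F g)} (h : FC J) (h' : FC J') : FC (J ∩ J') := fun s =>
  ((h s).union (h' s)).subset fun x hx => by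
    simp only [Set.mem_ofPred_eq, Set.mem_union, Set.mem_inter_iff] at *; tauto

lemma FC.union {J J' : Set (F g)} (h : FC J) (h' : FC J') : FC (J ∪ J') := fun s =>
  ((h s).union (h' s)).subset fun x hx => by
    simp only [Set.mem_ofPred_eq, Set.mem_union] at *; tauto

lemma FC.smul {J : Set (F g)} (h : FC J) (t : F g) : FC {x | t * x ∈ J} := fun s =>
  ((h s).preimage (f := fun x => t * x) (mul_right_injective _).injOn).subset fun x hx => by
    simpa [mul_assoc] using hx

lemma fc_low {p : ℕ} (hp : p ≤ 4 * g) (y : F g) : FC {x : F g | K p x < K p y} := by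
  induction y using red_ind generalizing p with
  | h1 =>
    have : {x : F g | K p x < K p (1 : F g)} = {x | rk g p (hd x) < rk g p 0} := by
      ext x; simp [K_lt hp]
    rw [this]; exact fc_hd (fun n => rk g p n < rk g p 0)
  | h2 l y hy ih =>
    have : {x : F g | K p x < K p (L l * y)} = {x | rk g p (hd x) < rk g p (pos l)} ∪
        ({x | hd x = pos l} ∩
          {x | (L l)⁻¹ * x ∈ {x | K (pos (linv l)) x < K (pos (linv l)) y}}) := by
      ext x
      simp only [K_lt hp, Set.mem_ofPred_eq, Set.mem_union, Set.mem_inter_iff, hd_L_mul hy,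
        tl_L_mul hy]
      refine or_congr_right (and_congr_right fun h => ?_)
      obtain ⟨x', rfl, hx'⟩ := decomp h
      rw [tl_L_mul hx']; simp
    rw [this]
    exact (fc_hd (fun n => rk g p n < rk g p (pos l))).union
      ((fc_hd (fun n => n = pos l)).inter ((ih (pos_le _)).smul _))

lemma fc_o (p q : F g) : FC {x | o p x q} := by
  have : {x | o p x q} = {x | p⁻¹ * x ∈ ({x | hd x ≠ 0} ∩ {x | K 0 x < K 0 (p⁻¹ * q)})} := by
    ext x
    simp only [Set.mem_ofPred_eq, Set.mem_inter_iff, Ne, hd_eq_zero]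
    rw [← o_one, ← o_mul p⁻¹]; simp
  rw [this]
  exact ((fc_hd (fun n => n ≠ 0)).inter (fc_low (Nat.zero_le _) _)).smul _

lemma fc_single (q : F g) : FC {x | x = q} := by
  have : {x | x = q} = {x | q⁻¹ * x ∈ {x | hd x = 0}} := by
    ext x; simp only [Set.mem_ofPred_eq, hd_eq_zero, inv_mul_eq_one]; exact eq_comm
  rw [this]
  exact (fc_hd (fun n => n = 0)).smul _

lemma norm_mul_L_le {w : F g} {l : Lt g} (h : norm (w * L l) ≤ norm w) : hd w⁻¹ = pos l := by
  by_contra h'
  have := norm_L_mul (l := linv l) (y := w⁻¹) (by simpa using h')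
  rw [L_linv, ← mul_inv_rev, norm_inv_eq, norm_inv_eq] at this
  omega

lemma cycle_zero (ρ : F g →* F g) (Y : Lt g → F g) (hY : ∀ l, ρ (Y l) = L l)
    (η : F g → Lt g → ℤ) (h1 : ∀ z l, η (z * Y l) (linv l) = - η z l)
    (h2 : {p : F g × Lt g | η p.1 p.2 ≠ 0}.Finite) (h3 : ∀ z, ∑ l, η z l = 0) (z l) :
    η z l = 0 := by
  by_contra h
  obtain ⟨⟨z, l⟩, hp, hmax⟩ := h2.exists_maximalFor (fun p => norm (ρ p.1)) _ ⟨(z, l), h⟩
  simp only [Set.mem_ofPred_eq] at hp
  have key : ∀ l', η z l' ≠ 0 → hd (ρ z)⁻¹ = pos l' := by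
    intro l' hl'
    apply norm_mul_L_le
    have hm : (z * Y l', linv l') ∈ {p : F g × Lt g | η p.1 p.2 ≠ 0} := by
      simpa [h1] using hl'
    by_contra hc
    have := hmax hm (by simp only [map_mul, hY]; exact (not_le.1 hc).le)
    simp only [map_mul, hY] at this
    exact hc this
  have := h3 z
  rw [Finset.sum_eq_single l] at this
  · exact hp this
  · intro l' _ hl'
    by_contra h'
    exact hl' (pos_inj ((key l' h').symm.trans (key l hp)))
  · simp

def eta (g : ℕ) : ℕ → F g
  | 0 => 1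
  | n + 1 => if h : n < g then (b ⟨n, h⟩)⁻¹ * a ⟨n, h⟩ * b ⟨n, h⟩ * (a ⟨n, h⟩)⁻¹ * eta g n
      else eta g n

def rho (g : ℕ) : F g →* F g := FreeGroup.lift fun s =>
  if s.2 then (eta g s.1)⁻¹ * (a s.1 * (b s.1)⁻¹ * (a s.1)⁻¹ * b s.1 * (a s.1)⁻¹) * eta g s.1
  else (eta g s.1)⁻¹ * (a s.1 * b s.1 * (a s.1)⁻¹) * eta g s.1

lemma rho_a (i : Fin g) : rho g (a i) = (eta g i)⁻¹ * (a i * b i * (a i)⁻¹) * eta g i := by
  simp [rho, a]

lemma rho_b (i : Fin g) : rho g (b i) =
    (eta g i)⁻¹ * (a i * (b i)⁻¹ * (a i)⁻¹ * b i * (a i)⁻¹) * eta g i := by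
  simp [rho, b]

lemma eta_succ (i : Fin g) : eta g (i + 1) = (b i)⁻¹ * a i * b i * (a i)⁻¹ * eta g i := by
  simp [eta]

lemma rho_gam {n : ℕ} (hn : n ≤ g) : rho g (gam g n) = eta g n := by
  induction n with
  | zero => simp [eta]
  | succ n ih =>
    have h1 := gam_succ (g := g) ⟨n, hn⟩
    have h2 := eta_succ (g := g) ⟨n, hn⟩
    simp only at h1 h2
    rw [h1, h2]
    simp only [map_mul, map_inv, ih (by omega), rho_a, rho_b]
    group

/-- start of the edge `s` run forwards by the boundary word -/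
def co (s : Fin g × Bool) : F g := if s.2 then gam g s.1 * a s.1 else gam g s.1

/-- start of the edge `s` run backwards by the boundary word -/
def ci (s : Fin g × Bool) : F g :=
  if s.2 then gam g (s.1 + 1) else gam g s.1 * a s.1 * b s.1 * (a s.1)⁻¹

lemma cochain_zero (ω : F g → Fin g × Bool → ℤ) (h1 : ∀ s, {x | ω x s ≠ 0}.Finite)
    (h2 : ∀ z, ∑ s, (ω (z * co s) s - ω (z * ci s) s) = 0) (x s) : ω x s = 0 := by
  have := cycle_zero (rho g) (fun l => if l.2 then co l.1 * (ci l.1)⁻¹ else ci l.1 * (co l.1)⁻¹)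
    ?_ (fun z l => if l.2 then ω (z * co l.1) l.1 else - ω (z * ci l.1) l.1) ?_ ?_ ?_
    (x * (co s)⁻¹) (s, true)
  · simpa using this
  · have key : ∀ s : Fin g × Bool, rho g (co s * (ci s)⁻¹) = of s := by
      rintro ⟨i, _ | _⟩
      · simp only [co, ci, Bool.false_eq_true, if_false, map_mul, map_inv, rho_gam i.2.le, rho_a,
          rho_b]
        change _ = a i
        group
      · simp only [co, ci, if_true, map_mul, map_inv, rho_gam i.2.le, rho_gam (n := i + 1) i.2,
          rho_a, eta_succ]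
        change _ = b i
        group
    rintro ⟨s, _ | _⟩
    · rw [L_false, ← key s, ← map_inv]; simp
    · rw [L_true, ← key s]; simp
  · rintro z ⟨s, _ | _⟩ <;> simp [linv, mul_assoc]
  · refine (Set.finite_iUnion fun l : Lt g => ((h1 l.1).image fun x =>
      (x * (if l.2 then co l.1 else ci l.1)⁻¹, l))).subset ?_
    rintro ⟨z, s, _ | _⟩ hz
    · exact Set.mem_iUnion.2 ⟨(s, false), z * ci s, by simpa using hz, by simp⟩
    · exact Set.mem_iUnion.2 ⟨(s, true), z * co s, by simpa using hz, by simp⟩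
  · intro z
    rw [Fintype.sum_prod_type, ← h2 z]
    refine Finset.sum_congr rfl fun s _ => ?_
    simp [sub_eq_add_neg]

lemma telescope (h : F g → ℤ) (z : F g) :
    ∑ s, ((h (z * co s * of s) - h (z * co s)) - (h (z * ci s * of s) - h (z * ci s))) =
      h (z * zt g) - h z := by
  rw [Fintype.sum_prod_type]
  have : ∀ i : Fin g, ∑ e : Bool, ((h (z * co (i, e) * of (i, e)) - h (z * co (i, e))) -
      (h (z * ci (i, e) * of (i, e)) - h (z * ci (i, e)))) =
      h (z * gam g (i + 1)) - h (z * gam g i) := by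
    intro i
    have e1 : z * gam g (i + 1) * b i = z * (gam g i * a i * b i * (a i)⁻¹) := by
      rw [gam_succ]; group
    have e2 : z * (gam g i * a i * b i * (a i)⁻¹) * a i = z * (gam g i * a i) * b i := by group
    have e3 : z * gam g i * a i = z * (gam g i * a i) := by group
    simp only [Fintype.sum_bool, co, ci, if_true, Bool.false_eq_true, if_false]
    change (h (_ * b i) - _ - (h (_ * b i) - _)) + (h (_ * a i) - _ - (h (_ * a i) - _)) = _
    rw [e1, e2, e3]; ring
  rw [Finset.sum_congr rfl fun i _ => this i,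
    Fin.sum_univ_eq_sum_range (fun i => h (z * gam g (i + 1)) - h (z * gam g i)),
    Finset.sum_range_sub (fun i => h (z * gam g i))]
  simp

lemma const_of_gen {X : Type*} (h : F g → X) (H : ∀ x s, h (x * of s) = h x) (x y : F g) :
    h x = h y := by
  have : ∀ y x, h (x * y) = h x := by
    intro y
    induction y using red_ind with
    | h1 => simp
    | h2 l y _ ih =>
      intro x
      rw [← mul_assoc, ih]
      obtain ⟨s, _ | _⟩ := l
      · rw [L_false, ← H _ s]; simp
      · exact H _ s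
  rw [← this (x⁻¹ * y) x]; simp

lemma zt_ne_one (hg : 0 < g) : zt g ≠ 1 := by
  intro h
  obtain ⟨t, t1, t2⟩ := exists_enter (g := g) ((⟨0, hg⟩, true), true)
  rw [h, mul_one] at t2
  exact t1 t2

def Iv (x y : F g) : Set (F g) := {t | o x t y} ∪ {t | t = y}

lemma fc_Iv (x y : F g) : FC (Iv x y) := (fc_o x y).union (fc_single y)

lemma o_succ (hg : 0 < g) {t u : F g} (h1 : u ≠ t) (h2 : u ≠ t * zt g) : o t (t * zt g) u :=
  (o_total (by simpa using zt_ne_one hg) h2.symm h1.symm).resolve_right (adj _ _)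

lemma Iv_jump (hg : 0 < g) {x y : F g} (hxy : x ≠ y) :
    x ∉ Iv x y ∧ x * zt g ∈ Iv x y ∧ y ∈ Iv x y ∧ y * zt g ∉ Iv x y ∧
      ∀ t, t ≠ x → t ≠ y → (t ∈ Iv x y ↔ t * zt g ∈ Iv x y) := by
  simp only [Iv, Set.mem_union, Set.mem_ofPred_eq]
  refine ⟨?_, ?_, Or.inr trivial, ?_, ?_⟩
  · rintro (h | h)
    · exact o_ne12 h rfl
    · exact hxy h
  · by_cases e : x * zt g = y
    · exact Or.inr e
    · exact Or.inl (o_succ hg hxy.symm (Ne.symm e))
  · rintro (h | h)
    · exact adj y x (o_cyc' h)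
    · exact zt_ne_one hg (by simpa using h)
  · intro t h1 h2
    constructor
    · rintro (h | h)
      · by_cases e : t * zt g = y
        · exact Or.inr e
        left
        exact o_cyc (o_trans (o_cyc' h) (o_cyc' (o_succ hg h2.symm (Ne.symm e))))
      · exact absurd h h2
    · rintro (h | h)
      · exact Or.inl (o_trans (o_cyc' (o_succ hg h1.symm (o_ne12 h))) h)
      · left
        have := o_succ hg (t := t) (u := x) h1.symm (by rw [h]; exact hxy)
        rw [h] at this
        exact o_cyc' this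

open Classical in
theorem o_aut (hg : 0 < g) (φ : MulAut (F g)) (hφ : φ (zt g) = zt g) (x y z : F g) :
    o (φ x) (φ y) (φ z) ↔ o x y z := by
  by_cases hxz : x = z
  · subst hxz
    exact ⟨fun h => absurd rfl (o_ne13 h), fun h => absurd rfl (o_ne13 h)⟩
  have hxz' : φ x ≠ φ z := fun e => hxz (φ.injective e)
  obtain ⟨a1, a2, a3, a4, a5⟩ := Iv_jump hg hxz
  obtain ⟨b1, b2, b3, b4, b5⟩ := Iv_jump hg hxz'
  set h : F g → ℤ := fun t => (if t ∈ Iv x z then 1 else 0) -
    (if φ t ∈ Iv (φ x) (φ z) then 1 else 0) with hh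
  have hc : ∀ t s, h (t * of s) - h t = 0 := by
    refine cochain_zero (fun t s => h (t * of s) - h t) ?_ ?_
    · intro s
      refine ((fc_Iv x z (of s)).union ((fc_Iv (φ x) (φ z) (φ (of s))).preimage
        (f := φ) φ.injective.injOn)).subset ?_
      intro t ht
      by_contra hn
      simp only [Set.mem_union, Set.mem_ofPred_eq, Set.mem_preimage, not_or, not_not] at hn
      apply ht
      simp only [hh, map_mul, ← hn.1, ← hn.2, sub_self]
    · intro t
      rw [telescope h t]
      simp only [hh, map_mul, hφ]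
      by_cases e1 : t = x
      · subst e1; simp [a1, a2, b1, b2]
      by_cases e2 : t = z
      · subst e2; simp [a3, a4, b3, b4]
      rw [← a5 t e1 e2, ← b5 (φ t) (fun e => e1 (φ.injective e)) (fun e => e2 (φ.injective e))]
      simp
  have := const_of_gen h (fun t s => sub_eq_zero.1 (hc t s)) y x
  simp only [hh, a1, b1, if_false, sub_self] at this
  by_cases e : y = z
  · subst e
    exact ⟨fun h => absurd rfl (o_ne23 h), fun h => absurd rfl (o_ne23 h)⟩
  have e' : φ y ≠ φ z := fun h => e (φ.injective h)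
  simp only [Iv, Set.mem_union, Set.mem_ofPred_eq, e, e', or_false] at this
  split_ifs at this <;> simp_all

end Pool.Agent.Lib.MP_294da1_gt
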