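import Pool.Agent.Lib.MP_294da1_gt.LbModel

/-! The amplifier: a relation in the genus two shell, checked in the finite model. -/

namespace Pool.Agent.Lib.MP_294da1_gt.Lb

abbrev Lt := Wd × ℕ

def lw (p : Lt) : Wd := p.1 ++ [(p.2, true)] ++ winv p.1

def iw (p : Lt) : Wd := if p.2 = 0 then p.1 ++ [(7, true), (8, true)] ++ winv p.1 else lw p

def L14 : List Lt :=
  [([], 0), ([], 1), ([], 2), ([], 3),
   ([(1, true)], 0),
   ([(2, true)], 3),
   ([(1, true), (2, true)], 3),
   ([(2, true), (1, true)], 0),
   ([(8, true), (1, true)], 0),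
   ([(2, true), (7, false), (1, true)], 8),
   ([(2, true), (8, false), (1, true)], 0),
   ([(1, true), (2, true), (7, false), (1, false)], 0),
   ([(3, false), (2, false), (8, true), (1, true)], 0),
   ([(2, true), (1, true), (3, true), (2, true), (7, false), (1, false)], 0)]

def L15 : List Lt := ([], 4) :: L14

def items : List Lt :=
  [([(2, true), (8, false), (1, true)], 0),
   ([], 2),
   ([(2, true), (8, false), (1, true)], 0),
   ([(2, true), (1, true), (3, true), (2, true), (7, false), (1, false)], 0),
   ([(1, true)], 0),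
   ([(2, true)], 3),
   ([(3, false), (2, false), (8, true), (1, true)], 0),
   ([(8, true), (1, true)], 0),
   ([], 0),
   ([(1, true)], 0),
   ([(2, true), (7, false), (1, true)], 8),
   ([(1, true), (2, true)], 3),
   ([(2, true), (8, false), (1, true)], 0),
   ([(2, true), (1, true)], 0),
   ([(1, true), (2, true), (7, false), (1, false)], 0),
   ([], 1),
   ([], 3),
   ([(1, true)], 0),
   ([(8, true), (1, true)], 0),
   ([], 0),
   ([], 2),
   ([(1, true)], 0),
   ([(1, true), (2, true)], 3),
   ([], 0)]

def cat : List Lt → Wd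
  | [] => []
  | p :: t => iw p ++ cat t

def cnt : List Lt → ℕ
  | [] => 0
  | p :: t => (if p.2 = 0 then 1 else 0) + cnt t

theorem items_sub : ∀ p ∈ items, p ∈ L14 := by decide +kernel

theorem items_cnt : cnt items = 16 := by decide +kernel

theorem L14_sym : ∀ p ∈ L14, (∀ a ∈ p.1, a.1 ∈ [1, 2, 3, 7, 8]) ∧ p.2 ∈ [0, 1, 2, 3, 8] := by
  decide +kernel

set_option maxRecDepth 1000000 in
theorem amp_rel : dw (cat items) idD = dw [(10, true), (9, true), (9, true), (9, true)] idD := by
  decide +kernel

def compatD (D1 D2 : List Wd) : Bool :=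
  decide (comp D1 D2 = comp D2 D1) || decide (comp (comp D1 D2) D1 = comp (comp D2 D1) D2)

theorem amp_pairs :
    (L15.all fun p => L15.all fun q => compatD (dw (lw p) idD) (dw (lw q) idD)) = true := by
  decide +kernel

end Pool.Agent.Lib.MP_294da1_gt.Lb
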