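import Pool.Agent.Lib.MP_294da1_gt.LbSites
import Pool.Agent.Lib.MP_294da1_gt.LbData

/-! Systems of curves meeting at most once, the amplifier step, and long positive words. -/

set_option linter.unusedSimpArgs false

namespace Pool.Agent.Lib.MP_294da1_gt.Lb

def Compat {H : Type*} [Group H] (x z : H) : Prop := x * z = z * x ∨ x * z * x = z * x * z

theorem Compat.symm {H : Type*} [Group H] {x z : H} (h : Compat x z) : Compat z x :=
  h.imp Eq.symm Eq.symm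

theorem Compat.conj {H : Type*} [Group H] {x z f : H} (h : Compat x z) (hf : Commute x f) :
    Compat x (f * z * f⁻¹) := by
  have e1 : x = f * x * f⁻¹ := by rw [← hf.eq]; simp
  rcases h with h | h
  · left
    calc x * (f * z * f⁻¹) = f * (x * z) * f⁻¹ := by rw [← mul_assoc, ← mul_assoc, hf.eq]; group
      _ = f * z * f⁻¹ * (f * x * f⁻¹) := by rw [h]; group
      _ = _ := by rw [← e1]
  · right
    calc x * (f * z * f⁻¹) * x = (f * x * f⁻¹) * (f * z * f⁻¹) * (f * x * f⁻¹) := by rw [← e1]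
      _ = f * (x * z * x) * f⁻¹ := by group
      _ = f * z * f⁻¹ * (f * x * f⁻¹) * (f * z * f⁻¹) := by rw [h]; group
      _ = _ := by rw [← e1]

def Long {H : Type*} [Group H] (C : Set H) (x : H) (N : ℕ) : Prop :=
  ∃ l : List H, (∀ t ∈ l, t ∈ C) ∧ l.prod = x ∧ N ≤ l.length

theorem long_of_pos {H : Type*} [Group H] {C : Set H} {x : H} (h : x ∈ Pos C) : Long C x 0 := by
  obtain ⟨l, hl, e1⟩ := Submonoid.exists_list_of_mem_closure h
  exact ⟨l, hl, e1, Nat.zero_le _⟩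

theorem Long.mul {H : Type*} [Group H] {C : Set H} {x z : H} {N M : ℕ} (h1 : Long C x N)
    (h2 : Long C z M) : Long C (x * z) (N + M) := by
  obtain ⟨l, hl, rfl, hN⟩ := h1
  obtain ⟨l', hl', rfl, hM⟩ := h2
  refine ⟨l ++ l', fun t ht => (List.mem_append.1 ht).elim (hl t) (hl' t), List.prod_append, ?_⟩
  rw [List.length_append]; omega

theorem Long.mono {H : Type*} [Group H] {C C' : Set H} {x : H} {N N' : ℕ} (h : Long C x N)
    (hC : C ⊆ C') (hN : N' ≤ N) : Long C' x N' := by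
  obtain ⟨l, hl, e1, h2⟩ := h
  exact ⟨l, fun t ht => hC (hl t ht), e1, hN.trans h2⟩

theorem long_one {H : Type*} [Group H] {C : Set H} {x : H} (h : x ∈ C) : Long C x 1 :=
  ⟨[x], by simpa using h, by simp, le_rfl⟩

theorem Long.pow {H : Type*} [Group H] {C : Set H} {x : H} (h : Long C x 1) :
    ∀ n, Long C (x ^ n) n
  | 0 => ⟨[], by simp, by simp, le_rfl⟩
  | n+1 => by rw [pow_succ]; exact (h.pow n).mul h

def Gam (h : ℕ) : Subgroup G := Subgroup.closure (Tr h)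

def TC (h : ℕ) : Set G := {x | ∃ f ∈ Gam h, x = f * c 0 * f⁻¹}

def Out (h : ℕ) : Set G :=
  {x | (∃ i, 2*h+1 ≤ i ∧ x = c i) ∨ ∃ j, h+1 ≤ j ∧ (x = y j ∨ x = m j)}

structure Nice (h : ℕ) (C : Set G) : Prop where
  pair : ∀ x ∈ C, ∀ z ∈ C, Compat x z
  ph : ∀ x ∈ C, Compat x (c (2*h))
  out : ∀ x ∈ C, ∀ z ∈ Out h, Commute x z
  tc : ∀ x ∈ C, x ∈ TC h
  ch : Ch (2*h) ⊆ C

theorem tr_mono {h h' : ℕ} (H : h ≤ h') : Tr h ⊆ Tr h' := by
  rintro x (⟨i, hi, e⟩ | ⟨j, h1, h2, e⟩)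
  · exact Or.inl ⟨i, by omega, e⟩
  · exact Or.inr ⟨j, h1, by omega, e⟩

theorem gam_mono {h h' : ℕ} (H : h ≤ h') : Gam h ≤ Gam h' := Subgroup.closure_mono (tr_mono H)

theorem tc_mono {h h' : ℕ} (H : h ≤ h') : TC h ⊆ TC h' :=
  fun _ ⟨f, hf, e1⟩ => ⟨f, gam_mono H hf, e1⟩

theorem tc_conj {h : ℕ} {x f : G} (hx : x ∈ TC h) (hf : f ∈ Gam h) : f * x * f⁻¹ ∈ TC h := by
  obtain ⟨f', hf', rfl⟩ := hx
  exact ⟨f * f', mul_mem hf hf', by group⟩

theorem tc_braid {h : ℕ} {x z : G} (hx : x ∈ TC h) (h1 : x ∈ Gam h) (h2 : z ∈ Gam h)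
    (hb : x * z * x = z * x * z) : z ∈ TC h := by
  have : z = (x * z) * x * (x * z)⁻¹ := by rw [hb]; group
  rw [this]
  exact tc_conj hx (mul_mem h1 h2)

theorem tr_gam {h : ℕ} {x : G} (hx : x ∈ Tr h) : x ∈ Gam h := Subgroup.subset_closure hx

theorem c_gam {h i : ℕ} (H : i < 2*h) : c i ∈ Gam h := tr_gam (Or.inl ⟨i, H, rfl⟩)

theorem c_tc {h : ℕ} : ∀ i, i < 2*h → c i ∈ TC h
  | 0, _ => ⟨1, one_mem _, by simp⟩
  | i+1, H => tc_braid (c_tc i (by omega)) (c_gam (by omega)) (c_gam H) (cb i)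

theorem tr_tc {h : ℕ} : Tr h ⊆ TC h := by
  rintro x hx
  have hg := tr_gam hx
  rcases hx with ⟨i, hi, rfl⟩ | ⟨j, h1, h2, rfl | rfl⟩
  · exact c_tc i hi
  · obtain ⟨k, rfl⟩ : ∃ k, j = k+2 := ⟨j-2, by omega⟩
    exact tc_braid (c_tc (2*k+3) (by omega)) (c_gam (by omega)) hg (yb' k).symm
  · obtain ⟨k, rfl⟩ : ∃ k, j = k+2 := ⟨j-2, by omega⟩
    exact tc_braid (c_tc (2*k+3) (by omega)) (c_gam (by omega)) hg (mb' k).symm

theorem compat_cc (i j : ℕ) : Compat (c i) (c j) := by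
  rcases lt_trichotomy i j with h | rfl | h
  · rcases Nat.eq_or_lt_of_le (Nat.succ_le_of_lt h) with rfl | h'
    · exact Or.inr (cb i)
    · exact Or.inl (cc h').eq
  · exact Or.inl rfl
  · rcases Nat.eq_or_lt_of_le (Nat.succ_le_of_lt h) with rfl | h'
    · exact Or.inr (cb j).symm
    · exact Or.inl (cc h').eq.symm

theorem compat_yc {j : ℕ} (hj : 2 ≤ j) (i : ℕ) : Compat (y j) (c i) := by
  by_cases h : i+1 = 2*j
  · obtain ⟨k, rfl⟩ : ∃ k, j = k+2 := ⟨j-2, by omega⟩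
    obtain rfl : i = 2*k+3 := by omega
    exact Or.inr (yb' k)
  · exact Or.inl (yc h).eq

theorem compat_mc {j : ℕ} (hj : 2 ≤ j) (i : ℕ) : Compat (m j) (c i) := by
  by_cases h : i+1 = 2*j
  · obtain ⟨k, rfl⟩ : ∃ k, j = k+2 := ⟨j-2, by omega⟩
    obtain rfl : i = 2*k+3 := by omega
    exact Or.inr (mb' k)
  · exact Or.inl (mc h).eq

theorem compat_tr_c {h : ℕ} {x : G} (hx : x ∈ Tr h) (i : ℕ) : Compat x (c i) := by
  rcases hx with ⟨j, _, rfl⟩ | ⟨j, h1, _, rfl | rfl⟩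
  · exact compat_cc _ _
  · exact compat_yc h1 _
  · exact compat_mc h1 _

theorem nice_tr (h : ℕ) : Nice h (Tr h) where
  pair := by
    intro x hx z hz
    rcases hz with ⟨i, _, rfl⟩ | ⟨j, h1, h2, hz⟩
    · exact compat_tr_c hx i
    · rcases hx with ⟨i, _, rfl⟩ | ⟨k, _, _, hx⟩
      · exact (compat_tr_c (h := h) (Or.inr ⟨j, h1, h2, hz⟩) i).symm
      · rcases hx with rfl | rfl <;> rcases hz with rfl | rfl
        · exact Or.inl (yy _ _).eq
        · exact Or.inl (ym _ _).eq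
        · exact Or.inl (ym _ _).eq.symm
        · exact Or.inl (mm _ _).eq
  ph := fun x hx => compat_tr_c hx _
  out := by
    rintro x (⟨i, hi, rfl⟩ | ⟨j, h1, h2, rfl | rfl⟩) z (⟨i', hi', rfl⟩ | ⟨j', hj', rfl | rfl⟩)
    · exact cc (by omega)
    · exact (yc (by omega)).symm
    · exact (mc (by omega)).symm
    · exact yc (by omega)
    · exact yy _ _
    · exact ym _ _
    · exact mc (by omega)
    · exact (ym _ _).symm
    · exact mm _ _
  tc := fun x hx => tr_tc hx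
  ch := ch_tr le_rfl

/-! ### the amplifier -/

def lt (h : ℕ) (p : Lt) : G := ev (gen h) (lw p)

theorem lt_eq (h : ℕ) (p : Lt) : lt h p = ev (gen h) p.1 * gen h p.2 * (ev (gen h) p.1)⁻¹ := by
  rw [lt, lw, ev_append, ev_append, ev_winv, ev_single]

theorem ev_mem {H : Type*} [Group H] (ρ : ℕ → H) (K : Subgroup H) :
    ∀ w : Wd, (∀ a ∈ w, ρ a.1 ∈ K) → ev ρ w ∈ K
  | [], _ => one_mem _
  | (s, b) :: t, h => by
    refine mul_mem ?_ (ev_mem ρ K t fun a ha => h a (List.mem_cons_of_mem _ ha))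
    have := h (s, b) List.mem_cons_self
    cases b
    · exact inv_mem this
    · exact this

theorem ev_comm {H : Type*} [Group H] (ρ : ℕ → H) (x : H) (w : Wd)
    (h : ∀ a ∈ w, Commute x (ρ a.1)) : Commute x (ev ρ w) := by
  have := ev_mem ρ (Subgroup.centralizer {x}) w fun a ha =>
    Subgroup.mem_centralizer_singleton_iff.2 (h a ha).symm.eq
  exact (Subgroup.mem_centralizer_singleton_iff.1 this).symm

theorem gen_out (h : ℕ) {s : ℕ} (hs : s ∈ [1, 2, 3, 7, 8]) : gen h s ∈ Out h := by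
  simp only [List.mem_cons, List.not_mem_nil, or_false] at hs
  rcases hs with rfl | rfl | rfl | rfl | rfl
  · exact Or.inl ⟨2*h+1, by omega, rfl⟩
  · exact Or.inl ⟨2*h+2, by omega, rfl⟩
  · exact Or.inl ⟨2*h+3, by omega, rfl⟩
  · exact Or.inr ⟨h+1, le_rfl, Or.inl rfl⟩
  · exact Or.inr ⟨h+1, le_rfl, Or.inr rfl⟩

theorem gen_tr {h : ℕ} (hh : 0 < h) {s : ℕ} (hs : s ∈ [0, 1, 2, 3, 7, 8]) :
    gen h s ∈ Tr (h+2) := by
  simp only [List.mem_cons, List.not_mem_nil, or_false] at hs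
  rcases hs with rfl | rfl | rfl | rfl | rfl | rfl
  · exact Or.inl ⟨2*h, by omega, rfl⟩
  · exact Or.inl ⟨2*h+1, by omega, rfl⟩
  · exact Or.inl ⟨2*h+2, by omega, rfl⟩
  · exact Or.inl ⟨2*h+3, by omega, rfl⟩
  · exact Or.inr ⟨h+1, by omega, by omega, Or.inl rfl⟩
  · exact Or.inr ⟨h+1, by omega, by omega, Or.inr rfl⟩

theorem sym1 {s : ℕ} (hs : s ∈ [1, 2, 3, 7, 8]) : s ∈ [0, 1, 2, 3, 7, 8] := List.mem_cons_of_mem _ hs

theorem sym2 {s : ℕ} (hs : s ∈ [0, 1, 2, 3, 8]) : s ∈ [0, 1, 2, 3, 7, 8] := by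
  simp only [List.mem_cons, List.not_mem_nil, or_false] at hs ⊢
  omega

theorem sym3 {s : ℕ} (hs : s ∈ [0, 1, 2, 3, 8]) (h0 : s ≠ 0) : s ∈ [1, 2, 3, 7, 8] := by
  simp only [List.mem_cons, List.not_mem_nil, or_false] at hs ⊢
  omega

theorem lt_compat {h : ℕ} (hh : 0 < h) {p q : Lt} (hp : p ∈ L15) (hq : q ∈ L15) :
    Compat (lt h p) (lt h q) := by
  have := amp_pairs
  simp only [List.all_eq_true] at this
  have h1 := this p hp q hq
  have mp := models_word h (lw p)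
  have mq := models_word h (lw q)
  simp only [compatD, Bool.or_eq_true, decide_eq_true_eq] at h1
  rcases h1 with h1 | h1
  · exact Or.inl ((mp.mul mq).eq hh (h1 ▸ mq.mul mp))
  · exact Or.inr (((mp.mul mq).mul mp).eq hh (h1 ▸ (mq.mul mp).mul mq))

theorem conj_comm {h : ℕ} {x : G} (hx : ∀ z ∈ Out h, Commute x z) {p : Lt} (hp : p ∈ L14) :
    Commute x (ev (gen h) p.1) :=
  ev_comm _ _ _ fun a ha => hx _ (gen_out h ((L14_sym p hp).1 a ha))

def ext (h : ℕ) (C : Set G) : Set G := C ∪ {x | ∃ p ∈ L14, x = lt h p}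

theorem Nice.ext {h : ℕ} (hh : 0 < h) {C : Set G} (H : Nice h C) : Nice (h+2) (ext h C) := by
  have mixed : ∀ x ∈ C, ∀ p ∈ L14, Compat x (lt h p) := by
    intro x hx p hp
    rw [lt_eq]
    refine Compat.conj ?_ (conj_comm (H.out x hx) hp)
    by_cases h0 : p.2 = 0
    · rw [h0]; exact H.ph x hx
    · exact Or.inl (H.out x hx _ (gen_out h (sym3 (L14_sym p hp).2 h0))).eq
  refine ⟨?_, ?_, ?_, ?_, ?_⟩
  · rintro x (hx | ⟨p, hp, rfl⟩) z (hz | ⟨q, hq, rfl⟩)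
    · exact H.pair x hx z hz
    · exact mixed x hx q hq
    · exact (mixed z hz p hp).symm
    · exact lt_compat hh (List.mem_cons_of_mem _ hp) (List.mem_cons_of_mem _ hq)
  · rintro x (hx | ⟨p, hp, rfl⟩)
    · exact Or.inl (H.out x hx _ (Or.inl ⟨_, by omega, rfl⟩)).eq
    · have := lt_compat hh (List.mem_cons_of_mem _ hp) (q := ([], 4)) List.mem_cons_self
      rw [lt_eq h ([], 4)] at this
      simpa [ev, gen, mul_add] using this
  · rintro x (hx | ⟨p, hp, rfl⟩) z hz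
    · refine H.out x hx z ?_
      rcases hz with ⟨i, hi, e1⟩ | ⟨j, hj, e1⟩
      · exact Or.inl ⟨i, by omega, e1⟩
      · exact Or.inr ⟨j, by omega, e1⟩
    · have hg : ∀ s ∈ [0, 1, 2, 3, 7, 8], Commute z (gen h s) := fun s hs =>
        ((nice_tr (h+2)).out _ (gen_tr hh hs) z hz).symm
      have h1 : Commute z (ev (gen h) p.1) :=
        ev_comm _ _ _ fun a ha => hg _ (sym1 ((L14_sym p hp).1 a ha))
      rw [lt_eq]
      exact ((h1.mul_right (hg _ (sym2 (L14_sym p hp).2))).mul_right h1.inv_right).symm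
  · rintro x (hx | ⟨p, hp, rfl⟩)
    · exact tc_mono (by omega) (H.tc x hx)
    · rw [lt_eq]
      exact tc_conj (tr_tc (gen_tr hh (sym2 (L14_sym p hp).2)))
        (ev_mem _ _ _ fun a ha => tr_gam (gen_tr hh (sym1 ((L14_sym p hp).1 a ha))))
  · rintro x ⟨i, hi, rfl⟩
    by_cases h1 : i < 2*h
    · exact Or.inl (H.ch ⟨i, h1, rfl⟩)
    · right
      obtain rfl | rfl | rfl | rfl : i = 2*h ∨ i = 2*h+1 ∨ i = 2*h+2 ∨ i = 2*h+3 := by omega
      · exact ⟨([], 0), by decide, by simp [lt_eq, ev, gen]⟩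
      · exact ⟨([], 1), by decide, by simp [lt_eq, ev, gen]⟩
      · exact ⟨([], 2), by decide, by simp [lt_eq, ev, gen]⟩
      · exact ⟨([], 3), by decide, by simp [lt_eq, ev, gen]⟩

theorem ch_out {h : ℕ} {W : G} (hW : W ∈ Pos (Ch (2*h))) : ∀ z ∈ Out h, Commute W z :=
  fun z hz => (comm_pos (fun x hx => ((nice_tr h).out x (ch_tr le_rfl hx) z hz).symm) hW).symm

theorem item_eq {h : ℕ} {C : Set G} (hC : Ch (2*h) ⊆ C) {p : Lt} (hp : p ∈ L14) :
    ∃ R ∈ Pos (ext h C), ev (gen h) (iw p) = Z (2*h+1) ^ (if p.2 = 0 then 1 else 0) * R ∧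
      Commute (Z (2*h+1)) (ev (gen h) (iw p)) := by
  have hz := ch_out (Zodd_pos h)
  have hf := conj_comm hz hp
  have hl := conj_comm (ch_out (lam_pos (2*h))) hp
  have hm : lt h p ∈ Pos (ext h C) := pos_of (Or.inr ⟨p, hp, rfl⟩)
  by_cases h0 : p.2 = 0
  · have e1 : ev (gen h) (iw p) = ev (gen h) p.1 * (y (h+1) * m (h+1)) * (ev (gen h) p.1)⁻¹ := by
      rw [iw, if_pos h0, ev_append, ev_append, ev_winv]
      simp [ev, ev1, gen]
    refine ⟨lt h p * lam (2*h) * lt h p, mul_mem (mul_mem hm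
      (pos_mono (hC.trans Set.subset_union_left) (lam_pos _))) hm, ?_, ?_⟩
    · rw [e1, yz, if_pos h0, pow_one, lt_eq, h0,
        show Z (2*(h+1)) = Z (2*h+1) * (c (2*h) * lam (2*h) * c (2*h)) from rfl]
      have e2 : lam (2*h) = ev (gen h) p.1 * lam (2*h) * (ev (gen h) p.1)⁻¹ := by
        rw [← hl.eq]; simp
      conv_rhs => rw [e2]
      rw [← mul_assoc (ev (gen h) p.1), ← hf.eq]
      simp only [gen]
      group
    · rw [e1]
      exact (hf.mul_right ((hz _ (Or.inr ⟨h+1, le_rfl, Or.inl rfl⟩)).mul_right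
        (hz _ (Or.inr ⟨h+1, le_rfl, Or.inr rfl⟩)))).mul_right hf.inv_right
  · have e1 : ev (gen h) (iw p) = lt h p := by rw [iw, if_neg h0, lt]
    refine ⟨lt h p, hm, by rw [e1, if_neg h0, pow_zero, one_mul], ?_⟩
    rw [e1, lt_eq]
    exact (hf.mul_right (hz _ (gen_out h (sym3 (L14_sym p hp).2 h0)))).mul_right hf.inv_right

theorem cat_eq {h : ℕ} {C : Set G} (hC : Ch (2*h) ⊆ C) : ∀ l : List Lt, (∀ p ∈ l, p ∈ L14) →
    ∃ R ∈ Pos (ext h C), ev (gen h) (cat l) = Z (2*h+1) ^ cnt l * R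
  | [], _ => ⟨1, one_mem _, by simp [cat, cnt, ev]⟩
  | p :: t, hl => by
    obtain ⟨R, hR, e1⟩ := cat_eq hC t fun q hq => hl q (List.mem_cons_of_mem _ hq)
    obtain ⟨R', hR', e2, hc⟩ := item_eq hC (hl p List.mem_cons_self)
    refine ⟨R' * R, mul_mem hR' hR, ?_⟩
    rw [cat, cnt, ev_append, e1, ← mul_assoc, ← (hc.pow_left _).eq, e2, add_comm _ (cnt t), pow_add]
    simp only [mul_assoc]

theorem amp {h : ℕ} (hh : 0 < h) {C : Set G} (hC : Ch (2*h) ⊆ C) :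
    ∃ R ∈ Pos (ext h C), T (h+2) = T h ^ 5 * R := by
  obtain ⟨R, hR, e1⟩ := cat_eq hC items items_sub
  refine ⟨R, hR, ?_⟩
  have e2 := word_eq hh amp_rel
  rw [e1, items_cnt] at e2
  have e3 : ev (gen h) [(10, true), (9, true), (9, true), (9, true)] = T h ^ 3 * T (h+2) := by
    rw [← ((TT hh).pow_right 3).eq]
    simp [ev, ev1, gen, pow_succ, mul_assoc]
  have e4 : Z (2*h+1) ^ 16 = T h ^ 3 * T h ^ 5 := by
    rw [T, ← pow_two, ← pow_add, ← pow_mul]
  rw [e3, e4, mul_assoc] at e2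
  exact (mul_left_cancel e2).symm

theorem amp_long {h : ℕ} (hh : 0 < h) {C : Set G} (hC : Ch (2*h) ⊆ C) {k N : ℕ}
    (H : Long C (T h ^ (5*k)) N) : Long (ext h C) (T (h+2) ^ k) N := by
  obtain ⟨R, hR, e1⟩ := amp hh hC
  have hc : Commute (T h ^ 5) R := by
    have : R = (T h ^ 5)⁻¹ * T (h+2) := by rw [e1, inv_mul_cancel_left]
    rw [this]
    exact (Commute.refl _).inv_right.mul_right ((TT hh).symm.pow_left 5)
  rw [e1, hc.mul_pow, ← pow_mul]
  exact (H.mono Set.subset_union_left le_rfl).mul (long_of_pos (pow_mem hR k))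

theorem long_tree (k : ℕ) : Long (Tr (k+2)) (T (k+2) ^ 625) (ack (k+3) 10) := by
  obtain ⟨X, hX, X', hX', e1⟩ := T_ack k
  have h1 : Long (Tr (k+2)) (tok k) 1 :=
    (long_one (C := Tr (k+2)) (Or.inl ⟨2*k+2, by omega, rfl⟩)).mul (long_of_pos (c_tr (by omega)))
  rw [e1]
  simpa using ((long_of_pos hX).mul (h1.pow _)).mul (long_of_pos hX')

theorem long_small (g : ℕ) (hg : 1 ≤ g) : Long (Tr g) (T g ^ 625) 625 := by
  obtain ⟨V, hV, e1⟩ := c_dvT (h := g) (i := 0) (by omega)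
  refine Long.pow ?_ _
  rw [e1]
  exact (long_one (C := Tr g) (Or.inl ⟨0, by omega, rfl⟩)).mul (long_of_pos hV)

theorem four_levels {h N : ℕ} (hh : 0 < h) (H : Long (Tr h) (T h ^ 625) N) :
    ∃ C, Nice (h+8) C ∧ Long C (T (h+8)) N := by
  have n0 := nice_tr h
  have n1 := n0.ext hh
  have n2 := n1.ext (by omega)
  have n3 := n2.ext (by omega)
  have n4 := n3.ext (by omega)
  have l1 := amp_long hh n0.ch (k := 125) H
  have l2 := amp_long (by omega) n1.ch (k := 25) l1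
  have l3 := amp_long (by omega) n2.ch (k := 5) l2
  have l4 := amp_long (by omega) n3.ch (k := 1) l3
  rw [pow_one] at l4
  exact ⟨_, n4, l4⟩

theorem main_G (h : ℕ) : ∃ C, Nice (h+8) C ∧ Long C (T (h+8)) (ack h h) := by
  match h with
  | 0 =>
    obtain ⟨V, hV, e1⟩ := c_dvT (h := 8) (i := 0) (by omega)
    refine ⟨_, nice_tr 8, ?_⟩
    rw [e1, ack_zero]
    exact (long_one (C := Tr 8) (Or.inl ⟨0, by omega, rfl⟩)).mul (long_of_pos hV)
  | 1 => exact four_levels (by omega) ((long_small 1 le_rfl).mono le_rfl (by simp))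
  | k+2 =>
    refine four_levels (by omega) ((long_tree k).mono le_rfl ?_)
    rw [show ack (k+3) 10 = ack (k+2) (ack (k+3) 9) from ack_succ_succ _ _]
    exact ack_mono_right _ ((Nat.le_succ _).trans (lt_ack_left _ _).le)

end Pool.Agent.Lib.MP_294da1_gt.Lb
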