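import Mathlib

/-! The groupoid model: the free group on edges `e k` from one lift of the base point to the other,
for the double cover of a disc branched at points `0, 1, 2, ...`. -/

set_option linter.unusedSimpArgs false

namespace Pool.Agent.Lib.MP_294da1_gt.Lb

abbrev E := FreeGroup ℕ
abbrev G := MulAut E

def e (k : ℕ) : E := FreeGroup.of k

theorem ext_e {φ ψ : G} (h : ∀ k, φ (e k) = ψ (e k)) : φ = ψ := by
  have : (φ : E →* E) = (ψ : E →* E) := FreeGroup.ext_hom _ _ h
  exact MulEquiv.toMonoidHom_injective this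

def mkAut (f f' : ℕ → E) (h1 : ∀ k, FreeGroup.lift f (f' k) = e k)
    (h2 : ∀ k, FreeGroup.lift f' (f k) = e k) : G :=
  MonoidHom.toMulEquiv (FreeGroup.lift f) (FreeGroup.lift f')
    (FreeGroup.ext_hom _ _ fun k => by simpa [e] using h2 k)
    (FreeGroup.ext_hom _ _ fun k => by simpa [e] using h1 k)

theorem mkAut_e (f f' : ℕ → E) (h1 h2) (k : ℕ) : mkAut f f' h1 h2 (e k) = f k := by
  simp [mkAut, e]

theorem mkAut_inv_e (f f' : ℕ → E) (h1 h2) (k : ℕ) : (mkAut f f' h1 h2)⁻¹ (e k) = f' k := by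
  simp [mkAut, e]

theorem lift_e (f : ℕ → E) (k : ℕ) : FreeGroup.lift f (e k) = f k := by simp [e]

/-- chain twists -/
def c (i : ℕ) : G :=
  mkAut (fun k => if k = i then e i * (e (i+1))⁻¹ * e i else if k = i+1 then e i else e k)
    (fun k => if k = i then e (i+1) else if k = i+1 then e (i+1) * (e i)⁻¹ * e (i+1) else e k)
    (fun k => by
      by_cases h1 : k = i
      · subst h1; simp [lift_e]
      · by_cases h2 : k = i+1
        · subst h2; simp [lift_e, mul_assoc]
        · simp [h1, h2, lift_e])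
    (fun k => by
      by_cases h1 : k = i
      · subst h1; simp [lift_e, mul_assoc]
      · by_cases h2 : k = i+1
        · subst h2; simp [lift_e]
        · simp [h1, h2, lift_e])

theorem c_self (i : ℕ) : c i (e i) = e i * (e (i+1))⁻¹ * e i := by simp [c, mkAut_e]
theorem c_succ (i : ℕ) : c i (e (i+1)) = e i := by simp [c, mkAut_e]
theorem c_ne {i k : ℕ} (h1 : k ≠ i) (h2 : k ≠ i+1) : c i (e k) = e k := by
  simp [c, mkAut_e, h1, h2]
theorem c_inv_self (i : ℕ) : (c i)⁻¹ (e i) = e (i+1) := by simp only [c, mkAut_inv_e]; simp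
theorem c_inv_succ (i : ℕ) : (c i)⁻¹ (e (i+1)) = e (i+1) * (e i)⁻¹ * e (i+1) := by
  simp only [c, mkAut_inv_e]; simp
theorem c_inv_ne {i k : ℕ} (h1 : k ≠ i) (h2 : k ≠ i+1) : (c i)⁻¹ (e k) = e k := by
  simp only [c, mkAut_inv_e]; simp [h1, h2]

def al : ℕ → E
  | 0 => 1
  | h+1 => al h * e (2*h) * (e (2*h+1))⁻¹

def be : ℕ → E
  | 0 => 1
  | h+1 => (e (2*h+1))⁻¹ * e (2*h) * be h

theorem framed_al {Φ : Type*} [FunLike Φ E E] [MonoidHomClass Φ E E] (φ : Φ) (A B : E) :
    ∀ h, (∀ k, k < 2*h → φ (e k) = A * e k * B) → φ (al h) = A * al h * A⁻¹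
  | 0, _ => by simp [al]
  | h+1, H => by
    rw [al, map_mul, map_mul, map_inv, framed_al φ A B h (fun k hk => H k (by omega)),
      H _ (by omega), H _ (by omega)]
    group

theorem framed_be {Φ : Type*} [FunLike Φ E E] [MonoidHomClass Φ E E] (φ : Φ) (A B : E) :
    ∀ h, (∀ k, k < 2*h → φ (e k) = A * e k * B) → φ (be h) = B⁻¹ * be h * B
  | 0, _ => by simp [be]
  | h+1, H => by
    rw [be, map_mul, map_mul, map_inv, framed_be φ A B h (fun k hk => H k (by omega)),
      H _ (by omega), H _ (by omega)]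
    group

theorem fix_al (φ : G) (h : ℕ) (H : ∀ k, k < 2*h → φ (e k) = e k) : φ (al h) = al h := by
  simpa using framed_al φ 1 1 h (by simpa using H)

theorem fix_be (φ : G) (h : ℕ) (H : ∀ k, k < 2*h → φ (e k) = e k) : φ (be h) = be h := by
  simpa using framed_be φ 1 1 h (by simpa using H)

theorem lift_al (h : ℕ) (A : E) :
    FreeGroup.lift (fun k => if k < 2*h then A * e k else e k) (al h) = A * al h * A⁻¹ :=
  framed_al _ A 1 h fun k hk => by simp [lift_e, hk]

theorem lift_be (h : ℕ) (B : E) :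
    FreeGroup.lift (fun k => if k < 2*h then e k * B else e k) (be h) = B⁻¹ * be h * B :=
  framed_be _ 1 B h fun k hk => by simp [lift_e, hk]

/-- twist along one lift of the circle round the first `2h` points -/
def y (h : ℕ) : G :=
  mkAut (fun k => if k < 2*h then al h * e k else e k)
    (fun k => if k < 2*h then (al h)⁻¹ * e k else e k)
    (fun k => by
      by_cases h1 : k < 2*h
      · simp only [h1, if_true, map_mul, map_inv, lift_al, lift_e]; group
      · simp [h1, lift_e])
    (fun k => by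
      by_cases h1 : k < 2*h
      · simp only [h1, if_true, map_mul, map_inv, lift_al, lift_e]; group
      · simp [h1, lift_e])

/-- twist along the other lift -/
def m (h : ℕ) : G :=
  mkAut (fun k => if k < 2*h then e k * be h else e k)
    (fun k => if k < 2*h then e k * (be h)⁻¹ else e k)
    (fun k => by
      by_cases h1 : k < 2*h
      · simp only [h1, if_true, map_mul, map_inv, lift_be, lift_e]; group
      · simp [h1, lift_e])
    (fun k => by
      by_cases h1 : k < 2*h
      · simp only [h1, if_true, map_mul, map_inv, lift_be, lift_e]; group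
      · simp [h1, lift_e])

theorem y_lt {h k : ℕ} (H : k < 2*h) : y h (e k) = al h * e k := by simp [y, mkAut_e, H]
theorem y_ge {h k : ℕ} (H : 2*h ≤ k) : y h (e k) = e k := by
  simp [y, mkAut_e, Nat.not_lt.2 H]
theorem m_lt {h k : ℕ} (H : k < 2*h) : m h (e k) = e k * be h := by simp [m, mkAut_e, H]
theorem m_ge {h k : ℕ} (H : 2*h ≤ k) : m h (e k) = e k := by
  simp [m, mkAut_e, Nat.not_lt.2 H]
theorem y_inv_lt {h k : ℕ} (H : k < 2*h) : (y h)⁻¹ (e k) = (al h)⁻¹ * e k := by
  simp only [y, mkAut_inv_e]; simp [H]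
theorem y_inv_ge {h k : ℕ} (H : 2*h ≤ k) : (y h)⁻¹ (e k) = e k := by
  simp only [y, mkAut_inv_e]; simp [Nat.not_lt.2 H]
theorem m_inv_lt {h k : ℕ} (H : k < 2*h) : (m h)⁻¹ (e k) = e k * (be h)⁻¹ := by
  simp only [m, mkAut_inv_e]; simp [H]
theorem m_inv_ge {h k : ℕ} (H : 2*h ≤ k) : (m h)⁻¹ (e k) = e k := by
  simp only [m, mkAut_inv_e]; simp [Nat.not_lt.2 H]

theorem y_al_le {j h : ℕ} (H : j ≤ h) : y h (al j) = al h * al j * (al h)⁻¹ :=
  framed_al _ _ 1 j fun k hk => by rw [y_lt (by omega), mul_one]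
theorem y_be_le {j h : ℕ} (H : j ≤ h) : y h (be j) = be j := by
  simpa using framed_be (y h) (al h) 1 j fun k hk => by rw [y_lt (by omega), mul_one]
theorem m_al_le {j h : ℕ} (H : j ≤ h) : m h (al j) = al j := by
  simpa using framed_al (m h) 1 (be h) j fun k hk => by rw [m_lt (by omega), one_mul]
theorem m_be_le {j h : ℕ} (H : j ≤ h) : m h (be j) = (be h)⁻¹ * be j * be h :=
  framed_be _ 1 _ j fun k hk => by rw [m_lt (by omega), one_mul]

/-- an automorphism fixing `al h`, `be h` and the later edges fixes the later `al`, `be` -/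
theorem fix_later (φ : G) (h : ℕ) (ha : φ (al h) = al h) (hb : φ (be h) = be h)
    (H : ∀ k, 2*h ≤ k → φ (e k) = e k) (j : ℕ) (hj : h ≤ j) :
    φ (al j) = al j ∧ φ (be j) = be j := by
  induction j, hj using Nat.le_induction with
  | base => exact ⟨ha, hb⟩
  | succ j hj ih =>
    simp only [al, be, map_mul, map_inv, ih.1, ih.2, H (2*j) (by omega), H (2*j+1) (by omega),
      and_self]

theorem y_ge_fix {j h : ℕ} (H : h ≤ j) : y h (al j) = al j ∧ y h (be j) = be j :=
  fix_later _ h (by rw [y_al_le le_rfl]; group) (y_be_le le_rfl) (fun _ => y_ge) j H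
theorem m_ge_fix {j h : ℕ} (H : h ≤ j) : m h (al j) = al j ∧ m h (be j) = be j :=
  fix_later _ h (m_al_le le_rfl) (by rw [m_be_le le_rfl]; group) (fun _ => m_ge) j H

theorem y_be (h j : ℕ) : y h (be j) = be j := by
  rcases le_total j h with H | H
  · exact y_be_le H
  · exact (y_ge_fix H).2
theorem m_al (h j : ℕ) : m h (al j) = al j := by
  rcases le_total j h with H | H
  · exact m_al_le H
  · exact (m_ge_fix H).1

theorem c_fix (i : ℕ) : ∀ h, (i+1 ≠ 2*h → c i (al h) = al h ∧ c i (be h) = be h) ∧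
    (i ≠ 2*h → c i (al h * e (2*h)) = al h * e (2*h) ∧ c i (e (2*h) * be h) = e (2*h) * be h)
  | 0 => by
    refine ⟨fun _ => by simp [al, be], fun H => ?_⟩
    simp only [al, be, one_mul, mul_one, and_self]
    exact c_ne (by omega) (by omega)
  | h+1 => by
    obtain ⟨h1, h2⟩ := c_fix i h
    have A : i+1 ≠ 2*(h+1) → c i (al (h+1)) = al (h+1) ∧ c i (be (h+1)) = be (h+1) := by
      intro H
      by_cases hi : i = 2*h
      · subst hi
        obtain ⟨p, q⟩ := h1 (by omega)
        simp only [al, be, map_mul, map_inv, p, q, c_self, c_succ]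
        constructor <;> group
      · obtain ⟨p, q⟩ := h2 hi
        have r : c i (e (2*h+1)) = e (2*h+1) := c_ne (by omega) (by omega)
        constructor
        · rw [al, map_mul, p, map_inv, r]
        · rw [be, mul_assoc, map_mul, q, map_inv, r]
    refine ⟨A, fun H => ?_⟩
    by_cases hi : i + 1 = 2*(h+1)
    · obtain rfl : i = 2*h+1 := by omega
      obtain ⟨p, q⟩ := h2 (by omega)
      have r : c (2*h+1) (e (2*(h+1))) = e (2*h+1) := c_succ (2*h+1)
      have r' : c (2*h+1) (e (2*h+1)) = e (2*h+1) * (e (2*(h+1)))⁻¹ * e (2*h+1) := c_self (2*h+1)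
      constructor
      · rw [al, map_mul, map_mul, p, map_inv, r, r']; group
      · rw [be, mul_assoc (e (2*h+1))⁻¹, map_mul, map_mul, q, map_inv, r, r']; group
    · obtain ⟨p, q⟩ := A hi
      have r : c i (e (2*(h+1))) = e (2*(h+1)) := c_ne (by omega) (by omega)
      rw [map_mul, map_mul, p, q, r]
      exact ⟨rfl, rfl⟩

theorem c_al {i h : ℕ} (H : i+1 ≠ 2*h) : c i (al h) = al h := ((c_fix i h).1 H).1
theorem c_be {i h : ℕ} (H : i+1 ≠ 2*h) : c i (be h) = be h := ((c_fix i h).1 H).2

/-! ### Artin relations -/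

theorem cc {i j : ℕ} (H : i+1 < j) : Commute (c i) (c j) := by
  refine ext_e fun k => ?_
  simp only [MulAut.mul_apply]
  by_cases h1 : k = i
  · subst h1
    rw [c_ne (i := j) (by omega) (by omega), c_self]
    simp only [map_mul, map_inv]
    rw [c_ne (i := j) (by omega) (by omega), c_ne (i := j) (by omega) (by omega)]
  by_cases h2 : k = i+1
  · subst h2
    rw [c_ne (i := j) (by omega) (by omega), c_succ, c_ne (i := j) (by omega) (by omega)]
  by_cases h3 : k = j
  · subst h3
    rw [c_ne (i := i) (by omega) (by omega), c_self]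
    simp only [map_mul, map_inv]
    rw [c_ne (i := i) (by omega) (by omega), c_ne (i := i) (by omega) (by omega)]
  by_cases h4 : k = j+1
  · subst h4
    rw [c_ne (i := i) (by omega) (by omega), c_succ, c_ne (i := i) (by omega) (by omega)]
  rw [c_ne h3 h4, c_ne h1 h2, c_ne h3 h4]

theorem cb (i : ℕ) : c i * c (i+1) * c i = c (i+1) * c i * c (i+1) := by
  have a1 : c (i+1) (e i) = e i := c_ne (by omega) (by omega)
  have a2 : c i (e (i+1+1)) = e (i+1+1) := c_ne (by omega) (by omega)
  refine ext_e fun k => ?_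
  simp only [MulAut.mul_apply]
  by_cases h1 : k = i
  · subst h1
    simp only [map_mul, map_inv, c_self, c_succ, a1, a2]; group
  by_cases h2 : k = i+1
  · subst h2
    simp only [map_mul, map_inv, c_self, c_succ, a1, a2]
  by_cases h3 : k = i+1+1
  · subst h3
    simp only [map_mul, map_inv, c_self, c_succ, a1, a2]
  simp only [c_ne h1 h2, c_ne h2 h3]

theorem yc {h i : ℕ} (H : i+1 ≠ 2*h) : Commute (y h) (c i) := by
  refine ext_e fun k => ?_
  simp only [MulAut.mul_apply]
  by_cases hi : i < 2*h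
  · have hi' : i+1 < 2*h := by omega
    by_cases h1 : k = i
    · subst h1
      simp only [map_mul, map_inv, c_self, y_lt hi, y_lt hi', c_al H]; group
    by_cases h2 : k = i+1
    · subst h2
      simp only [map_mul, map_inv, c_succ, y_lt hi, y_lt hi', c_al H]
    rw [c_ne h1 h2]
    by_cases hk : k < 2*h
    · rw [y_lt hk, map_mul, c_al H, c_ne h1 h2]
    · rw [y_ge (by omega), c_ne h1 h2]
  · have a1 : y h (e i) = e i := y_ge (by omega)
    have a2 : y h (e (i+1)) = e (i+1) := y_ge (by omega)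
    by_cases h1 : k = i
    · subst h1
      simp only [map_mul, map_inv, c_self, a1, a2]
    by_cases h2 : k = i+1
    · subst h2
      simp only [c_succ, a1, a2]
    rw [c_ne h1 h2]
    by_cases hk : k < 2*h
    · rw [y_lt hk, map_mul, c_al H, c_ne h1 h2]
    · rw [y_ge (by omega), c_ne h1 h2]

theorem mc {h i : ℕ} (H : i+1 ≠ 2*h) : Commute (m h) (c i) := by
  refine ext_e fun k => ?_
  simp only [MulAut.mul_apply]
  by_cases hi : i < 2*h
  · have hi' : i+1 < 2*h := by omega
    by_cases h1 : k = i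
    · subst h1
      simp only [map_mul, map_inv, c_self, m_lt hi, m_lt hi', c_be H]; group
    by_cases h2 : k = i+1
    · subst h2
      simp only [map_mul, map_inv, c_succ, m_lt hi, m_lt hi', c_be H]
    rw [c_ne h1 h2]
    by_cases hk : k < 2*h
    · rw [m_lt hk, map_mul, c_be H, c_ne h1 h2]
    · rw [m_ge (by omega), c_ne h1 h2]
  · have a1 : m h (e i) = e i := m_ge (by omega)
    have a2 : m h (e (i+1)) = e (i+1) := m_ge (by omega)
    by_cases h1 : k = i
    · subst h1
      simp only [map_mul, map_inv, c_self, a1, a2]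
    by_cases h2 : k = i+1
    · subst h2
      simp only [c_succ, a1, a2]
    rw [c_ne h1 h2]
    by_cases hk : k < 2*h
    · rw [m_lt hk, map_mul, c_be H, c_ne h1 h2]
    · rw [m_ge (by omega), c_ne h1 h2]

theorem yy_le {j h : ℕ} (H : j ≤ h) : Commute (y j) (y h) := by
  refine ext_e fun k => ?_
  simp only [MulAut.mul_apply]
  by_cases h1 : k < 2*j
  · rw [y_lt (h := h) (by omega), y_lt h1, map_mul, map_mul, (y_ge_fix H).1, y_lt h1, y_al_le H,
      y_lt (h := h) (by omega)]
    group
  · rw [y_ge (h := j) (by omega)]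
    by_cases h2 : k < 2*h
    · rw [y_lt h2, map_mul, (y_ge_fix H).1, y_ge (by omega)]
    · rw [y_ge (by omega), y_ge (by omega)]

theorem mm_le {j h : ℕ} (H : j ≤ h) : Commute (m j) (m h) := by
  refine ext_e fun k => ?_
  simp only [MulAut.mul_apply]
  by_cases h1 : k < 2*j
  · rw [m_lt (h := h) (by omega), m_lt h1, map_mul, map_mul, (m_ge_fix H).2, m_lt h1, m_be_le H,
      m_lt (h := h) (by omega)]
    group
  · rw [m_ge (h := j) (by omega)]
    by_cases h2 : k < 2*h
    · rw [m_lt h2, map_mul, (m_ge_fix H).2, m_ge (by omega)]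
    · rw [m_ge (by omega), m_ge (by omega)]

theorem yy (j h : ℕ) : Commute (y j) (y h) :=
  (le_total j h).elim yy_le fun H => (yy_le H).symm
theorem mm (j h : ℕ) : Commute (m j) (m h) :=
  (le_total j h).elim mm_le fun H => (mm_le H).symm

theorem ym (j h : ℕ) : Commute (y j) (m h) := by
  refine ext_e fun k => ?_
  simp only [MulAut.mul_apply]
  by_cases h1 : k < 2*j <;> by_cases h2 : k < 2*h
  · simp only [y_lt h1, m_lt h2, map_mul, y_be, m_al, mul_assoc]
  · simp only [y_lt h1, m_ge (Nat.not_lt.1 h2), map_mul, m_al]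
  · simp only [y_ge (Nat.not_lt.1 h1), m_lt h2, map_mul, y_be]
  · simp only [y_ge (Nat.not_lt.1 h1), m_ge (Nat.not_lt.1 h2)]

/-! ### Full twists -/

def Q : ℕ → E → E
  | 0, z => z
  | n+1, z => Q n (e n * z⁻¹ * e n)

theorem Q_S : ∀ (n : ℕ) (u z : E), Q n (u * z⁻¹ * u) = Q n u * (Q n z)⁻¹ * Q n u
  | 0, _, _ => rfl
  | n+1, u, z => by
    simp only [Q]
    rw [← Q_S n]
    congr 1
    group

theorem map_Q (φ : G) : ∀ (n : ℕ), (∀ k, k < n → φ (e k) = e k) → ∀ z, φ (Q n z) = Q n (φ z)
  | 0, _, _ => rfl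
  | n+1, H, z => by
    simp only [Q]
    rw [map_Q φ n (fun k hk => H k (by omega)), map_mul, map_mul, map_inv, H n (by omega)]

theorem c_Q {i n : ℕ} (H : i+2 ≤ n) : ∀ z, c i (Q n z) = Q n (c i z) := by
  induction n, H using Nat.le_induction with
  | base =>
    intro z
    simp only [Q]
    rw [map_Q (c i) i (fun k hk => c_ne (by omega) (by omega))]
    congr 1
    simp only [map_mul, map_inv, c_self, c_succ]
    group
  | succ n hn ih =>
    intro z
    simp only [Q]
    rw [ih, map_mul, map_mul, map_inv, c_ne (by omega) (by omega)]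

theorem Q_even : ∀ (h : ℕ) (z : E), Q (2*h) z = al h * z * be h
  | 0, z => by simp [Q, al, be]
  | h+1, z => by
    rw [show 2*(h+1) = 2*h+1+1 by ring]
    simp only [Q]
    rw [Q_even h, al, be]
    group

theorem Q_odd (h : ℕ) (z : E) :
    Q (2*h+1) z = (al h * e (2*h)) * z⁻¹ * (e (2*h) * be h) := by
  simp only [Q]
  rw [Q_even]
  group

def lam : ℕ → G
  | 0 => 1
  | n+1 => c n * lam n * c n

def Z : ℕ → G
  | 0 => 1
  | n+1 => Z n * lam n

theorem lam_e : ∀ n k, lam n (e k) =
    if k < n then Q n (e n) * (e k)⁻¹ * Q n (e n) else if k = n then Q n (e n) else e k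
  | 0, k => by
    by_cases h : k = 0
    · subst h; simp [lam, Q]
    · simp [lam, h]
  | n+1, k => by
    have hq : c n (Q n (e n)) = Q (n+1) (e (n+1)) := by
      rw [map_Q (c n) n (fun k hk => c_ne (by omega) (by omega)), c_self]; rfl
    simp only [lam, MulAut.mul_apply]
    by_cases h1 : k < n
    · rw [c_ne (by omega) (by omega), lam_e n k, if_pos h1, if_pos (by omega)]
      simp only [map_mul, map_inv, hq]
      rw [c_ne (by omega) (by omega)]
    by_cases h2 : k = n
    · subst h2
      rw [c_self, if_pos (by omega)]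
      simp only [map_mul, map_inv]
      rw [lam_e k k, lam_e k (k+1), if_neg h1, if_pos rfl, if_neg (by omega), if_neg (by omega),
        hq, c_succ]
    by_cases h3 : k = n+1
    · subst h3
      rw [c_succ, lam_e n n, if_neg (by omega), if_pos rfl, hq, if_neg (by omega), if_pos rfl]
    rw [c_ne h2 h3, lam_e n k, if_neg h1, if_neg h2, c_ne h2 h3, if_neg (by omega), if_neg h3]

theorem lam_Q {n : ℕ} : ∀ j, j < n → ∀ z, lam j (Q n z) = Q n (lam j z)
  | 0, _, _ => rfl
  | j+1, H, z => by
    simp only [lam, MulAut.mul_apply]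
    rw [c_Q (by omega), lam_Q j (by omega), c_Q (by omega)]

theorem Z_Q {n : ℕ} : ∀ j, j ≤ n → ∀ z, Z j (Q n z) = Q n (Z j z)
  | 0, _, _ => rfl
  | j+1, H, z => by
    simp only [Z, MulAut.mul_apply]
    rw [lam_Q j (by omega), Z_Q j (by omega)]

theorem Z_e : ∀ n k, Z n (e k) = if k < n then Q n (e k) else e k
  | 0, k => by simp [Z]
  | n+1, k => by
    have hq : Z n (Q n (e n)) = Q n (e n) := by
      rw [Z_Q n le_rfl, Z_e n n, if_neg (by omega)]
    simp only [Z, MulAut.mul_apply]
    rw [lam_e]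
    by_cases h1 : k < n
    · rw [if_pos h1, if_pos (by omega)]
      simp only [map_mul, map_inv, hq]
      rw [Z_e n k, if_pos h1, ← Q_S]; rfl
    by_cases h2 : k = n
    · subst h2
      rw [if_neg h1, if_pos rfl, hq, if_pos (by omega)]
      simp [Q]
    rw [if_neg h1, if_neg h2, Z_e n k, if_neg h1, if_neg (by omega)]

theorem Z_lt {n k : ℕ} (H : k < n) : Z n (e k) = Q n (e k) := by rw [Z_e, if_pos H]
theorem Z_ge {n k : ℕ} (H : n ≤ k) : Z n (e k) = e k := by rw [Z_e, if_neg (by omega)]

theorem yz (h : ℕ) : y h * m h = Z (2*h) := by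
  refine ext_e fun k => ?_
  simp only [MulAut.mul_apply]
  by_cases h1 : k < 2*h
  · rw [m_lt h1, map_mul, y_lt h1, y_be, Z_lt h1, Q_even]
  · rw [m_ge (by omega), y_ge (by omega), Z_ge (by omega)]

theorem zc {n i : ℕ} (H : i+2 ≤ n) : Commute (Z n) (c i) := by
  refine ext_e fun k => ?_
  simp only [MulAut.mul_apply]
  by_cases h1 : k = i
  · subst h1
    rw [Z_lt (by omega), c_Q H, c_self, Q_S]
    simp only [map_mul, map_inv]
    rw [Z_lt (by omega), Z_lt (by omega)]
  by_cases h2 : k = i+1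
  · subst h2
    rw [Z_lt (by omega), c_Q H, c_succ, Z_lt (by omega)]
  rw [c_ne h1 h2]
  by_cases h3 : k < n
  · rw [Z_lt h3, c_Q H, c_ne h1 h2]
  · rw [Z_ge (by omega), c_ne h1 h2]

/-- the twist along the separating curve round the first `2h+1` points -/
def T (h : ℕ) : G := Z (2*h+1) * Z (2*h+1)

def pA (h : ℕ) : E := al h * e (2*h) * (e (2*h) * be h)⁻¹
def pB (h : ℕ) : E := (al h * e (2*h))⁻¹ * (e (2*h) * be h)

theorem T_lt {h k : ℕ} (H : k < 2*h+1) : T h (e k) = pA h * e k * pB h := by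
  simp only [T, MulAut.mul_apply]
  rw [Z_lt H, Z_Q _ le_rfl, Z_lt H, Q_odd, Q_odd, pA, pB]
  group

theorem T_ge {h k : ℕ} (H : 2*h+1 ≤ k) : T h (e k) = e k := by
  simp only [T, MulAut.mul_apply]
  rw [Z_ge H, Z_ge H]

end Pool.Agent.Lib.MP_294da1_gt.Lb
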