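import Pool.Agent.Lib.MP_294da1_gt.LbE

/-! A finite model for the mapping classes supported near the points `2h, ..., 2h+5`:
the first `2h` points are collapsed. -/

set_option linter.unusedSimpArgs false

namespace Pool.Agent.Lib.MP_294da1_gt.Lb

abbrev Wd := List (ℕ × Bool)

def ev1 {H : Type*} [Group H] (ρ : ℕ → H) (a : ℕ × Bool) : H := if a.2 then ρ a.1 else (ρ a.1)⁻¹

def ev {H : Type*} [Group H] (ρ : ℕ → H) : Wd → H
  | [] => 1
  | a :: t => ev1 ρ a * ev ρ t

theorem ev_append {H : Type*} [Group H] (ρ : ℕ → H) : ∀ u v : Wd, ev ρ (u ++ v) = ev ρ u * ev ρ v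
  | [], v => by simp [ev]
  | a :: t, v => by simp [ev, ev_append ρ t v, mul_assoc]

def winv : Wd → Wd
  | [] => []
  | a :: t => winv t ++ [(a.1, !a.2)]

theorem ev1_not {H : Type*} [Group H] (ρ : ℕ → H) (a : ℕ × Bool) :
    ev1 ρ (a.1, !a.2) = (ev1 ρ a)⁻¹ := by
  obtain ⟨s, b⟩ := a
  cases b <;> simp [ev1]

theorem ev_winv {H : Type*} [Group H] (ρ : ℕ → H) : ∀ u : Wd, ev ρ (winv u) = (ev ρ u)⁻¹
  | [] => by simp [ev, winv]
  | a :: t => by simp [ev, winv, ev_append, ev_winv ρ t, ev1_not]

def push (a : ℕ × Bool) : Wd → Wd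
  | [] => [a]
  | b :: t => bif Nat.beq a.1 b.1 && xor a.2 b.2 then t else a :: b :: t

theorem ev_push {H : Type*} [Group H] (ρ : ℕ → H) (a : ℕ × Bool) :
    ∀ u : Wd, ev ρ (push a u) = ev1 ρ a * ev ρ u
  | [] => rfl
  | b :: t => by
    obtain ⟨s, p⟩ := a
    obtain ⟨r, q⟩ := b
    simp only [push]
    cases h : (Nat.beq s r && xor p q)
    · rfl
    · simp only [Bool.and_eq_true, Nat.beq_eq] at h
      obtain ⟨rfl, h⟩ := h
      cases p <;> cases q <;> simp [ev, ev1] at h ⊢

def app : Wd → Wd → Wd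
  | [], acc => acc
  | a :: t, acc => push a (app t acc)

def appInv : Wd → Wd → Wd
  | [], acc => acc
  | a :: t, acc => appInv t (push (a.1, !a.2) acc)

theorem ev_app {H : Type*} [Group H] (ρ : ℕ → H) :
    ∀ u acc : Wd, ev ρ (app u acc) = ev ρ u * ev ρ acc
  | [], acc => by simp [app, ev]
  | a :: t, acc => by simp [app, ev, ev_push, ev_app ρ t acc, mul_assoc]

theorem ev_appInv {H : Type*} [Group H] (ρ : ℕ → H) :
    ∀ u acc : Wd, ev ρ (appInv u acc) = (ev ρ u)⁻¹ * ev ρ acc
  | [], acc => by simp [appInv, ev]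
  | a :: t, acc => by simp [appInv, ev, ev_push, ev_appInv ρ t, ev1_not, mul_assoc]

def gt : List Wd → ℕ → ℕ → Wd
  | [], _, s => [(s, true)]
  | w :: _, 0, _ => w
  | _ :: D, n+1, s => gt D n s

def get (D : List Wd) (s : ℕ) : Wd := gt D s s

theorem gt_ge : ∀ (D : List Wd) (n s : ℕ), D.length ≤ n → gt D n s = [(s, true)]
  | [], _, _, _ => by simp [gt]
  | _ :: _, 0, _, h => by simp at h
  | _ :: D, n+1, s, h => by
    simp only [gt]; exact gt_ge D n s (by simpa using h)

theorem gt_lt : ∀ (D : List Wd) (n s : ℕ) (h : n < D.length), gt D n s = D[n]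
  | [], _, _, h => by simp at h
  | _ :: _, 0, _, _ => by simp [gt]
  | _ :: D, n+1, s, h => by
    simp only [gt]; rw [gt_lt D n s (by simpa using h)]; simp

def subst (D : List Wd) : Wd → Wd
  | [] => []
  | a :: t => bif a.2 then app (get D a.1) (subst D t) else appInv (get D a.1) (subst D t)

theorem ev_subst (φ : G) (ρ : ℕ → E) (D : List Wd) (H : ∀ s, φ (ρ s) = ev ρ (get D s)) :
    ∀ w : Wd, φ (ev ρ w) = ev ρ (subst D w)
  | [] => by simp [ev, subst]
  | (s, b) :: t => by
    cases b
    · simp [ev, ev1, subst, ev_appInv, H, ev_subst φ ρ D H t]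
    · simp [ev, ev1, subst, ev_app, H, ev_subst φ ρ D H t]

def comp (D1 D2 : List Wd) : List Wd := [0, 1, 2, 3, 4, 5, 6, 7, 8].map fun s => subst D1 (get D2 s)

def idD : List Wd := [0, 1, 2, 3, 4, 5, 6, 7, 8].map fun s => [(s, true)]

def rho (h k : ℕ) : ℕ → E
  | 0 => al h
  | 1 => be h
  | 2 => e k
  | s+3 => e (2*h+s)

def Models (h : ℕ) (φ : G) (D : List Wd) : Prop :=
  D.length ≤ 9 ∧ ∀ k, k < 2*h → ∀ s, φ (rho h k s) = ev (rho h k) (get D s)

theorem get_map9 (f : ℕ → Wd) (s : ℕ) :
    get ([0, 1, 2, 3, 4, 5, 6, 7, 8].map f) s = if s < 9 then f s else [(s, true)] := by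
  by_cases hs : s < 9
  · rw [if_pos hs]
    interval_cases s <;> rfl
  · rw [if_neg hs]
    exact gt_ge _ _ _ (by simp; omega)

theorem ev_single {H : Type*} [Group H] (ρ : ℕ → H) (s : ℕ) : ev ρ [(s, true)] = ρ s := by
  simp [ev, ev1]

theorem Models.mul {h : ℕ} {φ ψ : G} {D1 D2 : List Wd} (H1 : Models h φ D1) (H2 : Models h ψ D2) :
    Models h (φ * ψ) (comp D1 D2) := by
  refine ⟨by simp [comp], fun k hk s => ?_⟩
  rw [MulAut.mul_apply, H2.2 k hk, ev_subst φ _ D1 (H1.2 k hk), comp, get_map9]
  split_ifs with hs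
  · rfl
  · have a1 : get D1 s = [(s, true)] := gt_ge _ _ _ (by have := H1.1; omega)
    have a2 : get D2 s = [(s, true)] := gt_ge _ _ _ (by have := H2.1; omega)
    rw [a2]
    simp [subst, a1, app, push]

theorem models_one (h : ℕ) : Models h 1 idD := by
  refine ⟨by simp [idD], fun k hk s => ?_⟩
  rw [idD, get_map9, ite_self, ev_single]; rfl

theorem Models.eq {h : ℕ} (hh : 0 < h) {φ ψ : G} {D : List Wd} (H1 : Models h φ D)
    (H2 : Models h ψ D) : φ = ψ := by
  refine ext_e fun k => ?_
  by_cases hk : k < 2*h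
  · exact (H1.2 k hk 2).trans (H2.2 k hk 2).symm
  · obtain ⟨s, rfl⟩ : ∃ s, k = 2*h+s := ⟨k - 2*h, by omega⟩
    exact (H1.2 0 (by omega) (s+3)).trans (H2.2 0 (by omega) (s+3)).symm

theorem Models.inv {h : ℕ} {φ : G} {D D' : List Wd} (H : Models h φ D) (hl : D'.length ≤ 9)
    (hD : comp D D' = idD) : Models h φ⁻¹ D' := by
  refine ⟨hl, fun k hk s => ?_⟩
  rw [MulAut.inv_apply, MulEquiv.symm_apply_eq, ev_subst φ _ D (H.2 k hk)]
  have := congrArg (fun X => get X s) hD
  simp only [comp, idD, get_map9, ite_self] at this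
  split_ifs at this with hs
  · rw [this, ev_single]
  · have a1 : get D s = [(s, true)] := gt_ge _ _ _ (by have := H.1; omega)
    have a2 : get D' s = [(s, true)] := gt_ge _ _ _ (by omega)
    rw [a2]
    simp [subst, a1, app, push, ev_single]

def fr (A B : Wd) (j : ℕ) : List Wd :=
  [0, 1, 2, 3, 4, 5, 6, 7, 8].map fun s =>
    if s = 0 then A ++ [(0, true)] ++ winv A else if s = 1 then winv B ++ [(1, true)] ++ B
    else if s < j + 3 then A ++ [(s, true)] ++ B else [(s, true)]

theorem models_fr {h : ℕ} {φ : G} {A B : Wd} {j : ℕ} (hj : j ≤ 6) (A' B' : E)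
    (hA : ∀ k, ev (rho h k) A = A') (hB : ∀ k, ev (rho h k) B = B')
    (h1 : ∀ k, k < 2*h+j → φ (e k) = A' * e k * B') (h2 : ∀ k, 2*h+j ≤ k → φ (e k) = e k) :
    Models h φ (fr A B j) := by
  refine ⟨by simp [fr], fun k hk s => ?_⟩
  rw [fr, get_map9]
  match s with
  | 0 =>
    simp only [Nat.ofNat_pos, if_true, ev_append, ev_winv, hA, ev_single, rho]
    exact framed_al φ A' B' h fun k hk => h1 k (by omega)
  | 1 =>
    simp only [Nat.one_lt_ofNat, if_true, one_ne_zero, if_false, ev_append, ev_winv, hB, ev_single,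
      rho]
    exact framed_be φ A' B' h fun k hk => h1 k (by omega)
  | 2 =>
    rw [if_pos (by omega), if_neg (by omega), if_neg (by omega), if_pos (by omega)]
    simp only [ev_append, hA, hB, ev_single, rho]
    exact h1 k (by omega)
  | s+3 =>
    by_cases hs : s < j
    · rw [if_pos (by omega), if_neg (by omega), if_neg (by omega), if_pos (by omega)]
      simp only [ev_append, hA, hB, ev_single, rho]
      exact h1 _ (by omega)
    · have : (if s + 3 < 9 then (if s + 3 = 0 then A ++ [(0, true)] ++ winv A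
          else if s + 3 = 1 then winv B ++ [(1, true)] ++ B
          else if s + 3 < j + 3 then A ++ [(s+3, true)] ++ B else [(s+3, true)])
          else [(s+3, true)]) = [(s+3, true)] := by
        split_ifs <;> first | rfl | omega | contradiction
      rw [this, ev_single]
      exact h2 _ (by omega)

def cD (i : ℕ) : List Wd :=
  [0, 1, 2, 3, 4, 5, 6, 7, 8].map fun s =>
    if s = i + 3 then [(i+3, true), (i+4, false), (i+3, true)]
    else if s = i + 4 then [(i+3, true)] else [(s, true)]

theorem models_c (h i : ℕ) (hi : i ≤ 4) : Models h (c (2*h+i)) (cD i) := by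
  refine ⟨by simp [cD], fun k hk s => ?_⟩
  rw [cD, get_map9]
  match s with
  | 0 =>
    rw [if_pos (by omega), if_neg (by omega), if_neg (by omega), ev_single]
    exact c_al (by omega)
  | 1 =>
    rw [if_pos (by omega), if_neg (by omega), if_neg (by omega), ev_single]
    exact c_be (by omega)
  | 2 =>
    rw [if_pos (by omega), if_neg (by omega), if_neg (by omega), ev_single]
    exact c_ne (by omega) (by omega)
  | s+3 =>
    by_cases h1 : s = i
    · subst h1
      rw [if_pos (by omega), if_pos rfl]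
      simp only [ev, ev1, rho, if_true, c_self, Bool.false_eq_true, if_false, mul_one, mul_assoc,
        Nat.add_assoc]
    by_cases h2 : s = i+1
    · subst h2
      rw [if_pos (by omega), if_neg (by omega), if_pos rfl, ev_single]
      exact c_succ (2*h+i)
    have : (if s + 3 < 9 then (if s + 3 = i + 3 then [(i+3, true), (i+4, false), (i+3, true)]
          else if s + 3 = i + 4 then [(i+3, true)] else [(s+3, true)])
          else [(s+3, true)] : Wd) = [(s+3, true)] := by
      split_ifs <;> first | rfl | omega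
    rw [this, ev_single]
    exact c_ne (by omega) (by omega)

/-- the local generators -/
def gen (h : ℕ) : ℕ → G
  | 0 => c (2*h)
  | 1 => c (2*h+1)
  | 2 => c (2*h+2)
  | 3 => c (2*h+3)
  | 4 => c (2*h+4)
  | 5 => y h
  | 6 => m h
  | 7 => y (h+1)
  | 8 => m (h+1)
  | 9 => T h
  | 10 => T (h+2)
  | _+11 => 1

def wA1 : Wd := [(0, true), (3, true), (4, false)]
def wB1 : Wd := [(4, false), (3, true), (1, true)]
def wp0 : Wd := [(0, true), (3, true)]
def wq0 : Wd := [(3, true), (1, true)]
def wp2 : Wd := [(0, true), (3, true), (4, false), (5, true), (6, false), (7, true)]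
def wq2 : Wd := [(7, true), (6, false), (5, true), (4, false), (3, true), (1, true)]

def dat : ℕ → List Wd
  | 0 => cD 0
  | 1 => cD 1
  | 2 => cD 2
  | 3 => cD 3
  | 4 => cD 4
  | 5 => fr [(0, true)] [] 0
  | 6 => fr [] [(1, true)] 0
  | 7 => fr wA1 [] 2
  | 8 => fr [] wB1 2
  | 9 => fr (wp0 ++ winv wq0) (winv wp0 ++ wq0) 1
  | 10 => fr (wp2 ++ winv wq2) (winv wp2 ++ wq2) 5
  | _+11 => idD

def cI (i : ℕ) : List Wd :=
  [0, 1, 2, 3, 4, 5, 6, 7, 8].map fun s =>
    if s = i + 4 then [(i+4, true), (i+3, false), (i+4, true)]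
    else if s = i + 3 then [(i+4, true)] else [(s, true)]

def datI : ℕ → List Wd
  | 0 => cI 0
  | 1 => cI 1
  | 2 => cI 2
  | 3 => cI 3
  | 4 => cI 4
  | 5 => fr [(0, false)] [] 0
  | 6 => fr [] [(1, false)] 0
  | 7 => fr (winv wA1) [] 2
  | 8 => fr [] (winv wB1) 2
  | 9 => fr (winv (wp0 ++ winv wq0)) (winv (winv wp0 ++ wq0)) 1
  | 10 => fr (winv (wp2 ++ winv wq2)) (winv (winv wp2 ++ wq2)) 5
  | _+11 => idD

theorem models_gen (h : ℕ) : ∀ s, Models h (gen h s) (dat s)
  | 0 => models_c h 0 (by omega)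
  | 1 => models_c h 1 (by omega)
  | 2 => models_c h 2 (by omega)
  | 3 => models_c h 3 (by omega)
  | 4 => models_c h 4 (by omega)
  | 5 => models_fr (by omega) (al h) 1 (fun k => ev_single _ _) (fun k => rfl)
      (fun k hk => by rw [mul_one]; exact y_lt hk) (fun k hk => y_ge hk)
  | 6 => models_fr (by omega) 1 (be h) (fun k => rfl) (fun k => ev_single _ _)
      (fun k hk => by rw [one_mul]; exact m_lt hk) (fun k hk => m_ge hk)
  | 7 => models_fr (by omega) (al (h+1)) 1
      (fun k => by simp [wA1, ev, ev1, rho, al, mul_assoc]) (fun k => rfl)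
      (fun k hk => by rw [mul_one]; exact y_lt (by omega)) (fun k hk => y_ge (by omega))
  | 8 => models_fr (by omega) 1 (be (h+1)) (fun k => rfl)
      (fun k => by simp [wB1, ev, ev1, rho, be, mul_assoc])
      (fun k hk => by rw [one_mul]; exact m_lt (by omega)) (fun k hk => m_ge (by omega))
  | 9 => models_fr (by omega) (pA h) (pB h)
      (fun k => by simp [wp0, wq0, ev_append, ev_winv, ev, ev1, rho, pA, mul_assoc])
      (fun k => by simp [wp0, wq0, ev_append, ev_winv, ev, ev1, rho, pB, mul_assoc])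
      (fun k hk => T_lt hk) (fun k hk => T_ge hk)
  | 10 => models_fr (by omega) (pA (h+2)) (pB (h+2))
      (fun k => by
        simp [wp2, wq2, ev_append, ev_winv, ev, ev1, rho, pA, al, be, mul_assoc, mul_add,
          add_assoc])
      (fun k => by
        simp [wp2, wq2, ev_append, ev_winv, ev, ev1, rho, pB, al, be, mul_assoc, mul_add,
          add_assoc])
      (fun k hk => T_lt (by omega)) (fun k hk => T_ge (by omega))
  | _+11 => models_one h

theorem models_genI (h : ℕ) : ∀ s, Models h (gen h s)⁻¹ (datI s)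
  | 0 => (models_gen h 0).inv (by decide) (by decide +kernel)
  | 1 => (models_gen h 1).inv (by decide) (by decide +kernel)
  | 2 => (models_gen h 2).inv (by decide) (by decide +kernel)
  | 3 => (models_gen h 3).inv (by decide) (by decide +kernel)
  | 4 => (models_gen h 4).inv (by decide) (by decide +kernel)
  | 5 => (models_gen h 5).inv (by decide) (by decide +kernel)
  | 6 => (models_gen h 6).inv (by decide) (by decide +kernel)
  | 7 => (models_gen h 7).inv (by decide) (by decide +kernel)
  | 8 => (models_gen h 8).inv (by decide) (by decide +kernel)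
  | 9 => (models_gen h 9).inv (by decide) (by decide +kernel)
  | 10 => (models_gen h 10).inv (by decide) (by decide +kernel)
  | _+11 => by simpa [gen, datI] using models_one h

def dw : Wd → List Wd → List Wd
  | [], acc => acc
  | a :: t, acc => dw t (comp acc (bif a.2 then dat a.1 else datI a.1))

theorem models_dw (h : ℕ) : ∀ (w : Wd) (φ : G) (acc : List Wd), Models h φ acc →
    Models h (φ * ev (gen h) w) (dw w acc)
  | [], φ, acc, H => by simpa [ev, dw] using H
  | (s, b) :: t, φ, acc, H => by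
    rw [ev, ← mul_assoc, dw]
    refine models_dw h t _ _ (H.mul ?_)
    cases b
    · exact models_genI h s
    · exact models_gen h s

theorem models_word (h : ℕ) (w : Wd) : Models h (ev (gen h) w) (dw w idD) := by
  simpa using models_dw h w 1 idD (models_one h)

theorem word_eq {h : ℕ} (hh : 0 < h) {u v : Wd} (H : dw u idD = dw v idD) :
    ev (gen h) u = ev (gen h) v :=
  (models_word h u).eq hh (H ▸ models_word h v)

theorem yb {h : ℕ} (hh : 0 < h) :
    y (h+1) * c (2*h+1) * y (h+1) = c (2*h+1) * y (h+1) * c (2*h+1) := by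
  simpa [ev, ev1, gen, mul_assoc] using
    word_eq hh (u := [(7, true), (1, true), (7, true)]) (v := [(1, true), (7, true), (1, true)])
      (by decide +kernel)

theorem mb {h : ℕ} (hh : 0 < h) :
    m (h+1) * c (2*h+1) * m (h+1) = c (2*h+1) * m (h+1) * c (2*h+1) := by
  simpa [ev, ev1, gen, mul_assoc] using
    word_eq hh (u := [(8, true), (1, true), (8, true)]) (v := [(1, true), (8, true), (1, true)])
      (by decide +kernel)

theorem Ty {h : ℕ} (hh : 0 < h) : Commute (T h) (y h) := by
  simpa [Commute, SemiconjBy, ev, ev1, gen, mul_assoc] using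
    word_eq hh (u := [(9, true), (5, true)]) (v := [(5, true), (9, true)]) (by decide +kernel)

theorem Tm {h : ℕ} (hh : 0 < h) : Commute (T h) (m h) := by
  simpa [Commute, SemiconjBy, ev, ev1, gen, mul_assoc] using
    word_eq hh (u := [(9, true), (6, true)]) (v := [(6, true), (9, true)]) (by decide +kernel)

theorem TT {h : ℕ} (hh : 0 < h) : Commute (T (h+2)) (T h) := by
  simpa [Commute, SemiconjBy, ev, ev1, gen, mul_assoc] using
    word_eq hh (u := [(10, true), (9, true)]) (v := [(9, true), (10, true)]) (by decide +kernel)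

end Pool.Agent.Lib.MP_294da1_gt.Lb
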