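import Pool.Agent.Lib.MP_294da1_gt.LbModel

/-! Rows of sites: the recursion that produces Ackermann growth inside the tree system. -/

set_option linter.unusedSimpArgs false

namespace Pool.Agent.Lib.MP_294da1_gt.Lb

section Abstract
variable {H : Type*} [Group H]

abbrev Pos (S : Set H) : Submonoid H := Submonoid.closure S

theorem pos_of {S : Set H} {x : H} (h : x ∈ S) : x ∈ Pos S := Submonoid.subset_closure h

theorem pos_mono {S S' : Set H} (h : S ⊆ S') {x : H} (hx : x ∈ Pos S) : x ∈ Pos S' :=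
  Submonoid.closure_mono h hx

theorem comm_pos {S : Set H} {z : H} (h : ∀ x ∈ S, Commute z x) {W : H} (hW : W ∈ Pos S) :
    Commute z W := by
  induction hW using Submonoid.closure_induction with
  | mem x hx => exact h x hx
  | one => exact Commute.one_right z
  | mul x x' _ _ h1 h2 => exact h1.mul_right h2

def Dv (S : Set H) (x z : H) : Prop := ∃ V ∈ Pos S, z = x * V

theorem Dv.mul {S : Set H} {x z W : H} (h : Dv S x z) (hW : W ∈ Pos S) : Dv S x (z * W) := by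
  obtain ⟨V, hV, rfl⟩ := h
  exact ⟨V * W, mul_mem hV hW, mul_assoc _ _ _⟩

theorem Dv.mono {S S' : Set H} (hS : S ⊆ S') {x z : H} (h : Dv S x z) : Dv S' x z := by
  obtain ⟨V, hV, rfl⟩ := h
  exact ⟨V, pos_mono hS hV, rfl⟩

theorem word_dv {S : Set H} {z : H} : ∀ l : List H, (∀ x ∈ l, Dv S x z ∧ Commute z x) →
    Dv S l.prod (z ^ l.length)
  | [], _ => ⟨1, one_mem _, by simp⟩
  | x :: l, h => by
    obtain ⟨V', hV', e'⟩ := word_dv l fun t ht => h t (List.mem_cons_of_mem _ ht)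
    obtain ⟨⟨V, hV, e1⟩, hc⟩ := h x List.mem_cons_self
    refine ⟨V' * V, mul_mem hV' hV, ?_⟩
    rw [List.length_cons, List.prod_cons, pow_succ]
    calc z ^ l.length * z = z ^ l.length * (x * V) := by rw [← e1]
      _ = x * z ^ l.length * V := by rw [← mul_assoc, (hc.pow_left _).eq]
      _ = _ := by rw [e']; simp only [mul_assoc]

theorem cyc {z X R : H} (h : z = X * R) (hc : Commute z X) : z = R * X := by
  have : X * z = X * (R * X) := by rw [← hc.eq, ← mul_assoc, ← h]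
  exact mul_left_cancel this

theorem br {p q : H} (h : p * q * p = q * p * q) : SemiconjBy (q * p) q p := by
  unfold SemiconjBy
  rw [← h, mul_assoc]

theorem swap1 {p q w : H} (hp : p * w * p = w * p * w) (hq : q * w * q = w * q * w) :
    SemiconjBy (w * p * q * w) q p := by
  unfold SemiconjBy
  calc w * p * q * w * q = w * p * (q * w * q) := by simp only [mul_assoc]
    _ = (w * p * w) * q * w := by rw [hq]; simp only [mul_assoc]
    _ = _ := by rw [← hp]; simp only [mul_assoc]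

theorem row {θ A B Y M W : H} (hA : θ * Y = A * θ) (hB : θ * B = M * θ) (h1 : Commute A B)
    (h2 : Commute A W) (h3 : Commute M W) (h4 : Commute A M) (r : ℕ) :
    (θ * (A * B * W)) ^ (r+2) = (θ * B * W * M) * (θ * (Y * M * W)) ^ r * (θ * Y * W * A) := by
  have e1 : θ * (A * B * W) = (θ * B * W) * A := by
    rw [h1.eq, mul_assoc B, h2.eq]; simp only [mul_assoc]
  have e2 : A * (θ * B * W) = M * (θ * Y * W) := by
    rw [hB, hA, ← mul_assoc, ← mul_assoc, h4.eq]; simp only [mul_assoc]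
  have e3 : θ * Y * W * M = θ * (Y * M * W) := by
    rw [mul_assoc _ W, ← h3.eq]; simp only [mul_assoc]
  rw [e1, pow_succ, ← mul_assoc, mul_pow_mul, e2, pow_succ, ← mul_assoc _ M, mul_pow_mul, e3]
  simp only [mul_assoc]

end Abstract

def Ch (n : ℕ) : Set G := {x | ∃ i, i < n ∧ x = c i}

/-- letters disjoint from the pair `y h`, `m h` and inside it -/
def Low (h : ℕ) : Set G :=
  {x | (∃ i, i+2 ≤ 2*h ∧ x = c i) ∨ ∃ j, 2 ≤ j ∧ j < h ∧ (x = y j ∨ x = m j)}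

/-- the tree system of genus `h` -/
def Tr (h : ℕ) : Set G :=
  {x | (∃ i, i < 2*h ∧ x = c i) ∨ ∃ j, 2 ≤ j ∧ j ≤ h ∧ (x = y j ∨ x = m j)}

theorem ch_mono {n n' : ℕ} (h : n ≤ n') : Ch n ⊆ Ch n' :=
  fun _ ⟨i, hi, e⟩ => ⟨i, by omega, e⟩
theorem ch_low {n h : ℕ} (H : n+1 ≤ 2*h) : Ch n ⊆ Low h :=
  fun _ ⟨i, hi, e⟩ => Or.inl ⟨i, by omega, e⟩
theorem ch_tr {n h : ℕ} (H : n ≤ 2*h) : Ch n ⊆ Tr h :=
  fun _ ⟨i, hi, e⟩ => Or.inl ⟨i, by omega, e⟩
theorem low_tr (h : ℕ) : Low h ⊆ Tr h := by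
  rintro x (⟨i, hi, e⟩ | ⟨j, h1, h2, e⟩)
  · exact Or.inl ⟨i, by omega, e⟩
  · exact Or.inr ⟨j, h1, by omega, e⟩
theorem tr_low (h : ℕ) : Tr h ⊆ Low (h+1) := by
  rintro x (⟨i, hi, e⟩ | ⟨j, h1, h2, e⟩)
  · exact Or.inl ⟨i, by omega, e⟩
  · exact Or.inr ⟨j, h1, by omega, e⟩

theorem c_pos {i n : ℕ} (h : i < n) : c i ∈ Pos (Ch n) := pos_of ⟨i, h, rfl⟩
theorem c_low {i h : ℕ} (H : i+2 ≤ 2*h) : c i ∈ Pos (Low h) := pos_of (Or.inl ⟨i, H, rfl⟩)
theorem c_tr {i h : ℕ} (H : i < 2*h) : c i ∈ Pos (Tr h) := pos_of (Or.inl ⟨i, H, rfl⟩)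
theorem y_tr {h : ℕ} (H : 2 ≤ h) : y h ∈ Pos (Tr h) := pos_of (Or.inr ⟨h, H, le_rfl, Or.inl rfl⟩)
theorem m_tr {h : ℕ} (H : 2 ≤ h) : m h ∈ Pos (Tr h) := pos_of (Or.inr ⟨h, H, le_rfl, Or.inr rfl⟩)

theorem lam_pos : ∀ n, lam n ∈ Pos (Ch n)
  | 0 => one_mem _
  | n+1 => mul_mem (mul_mem (c_pos (by omega)) (pos_mono (ch_mono (by omega)) (lam_pos n)))
      (c_pos (by omega))

theorem Z_pos : ∀ n, Z (n+1) ∈ Pos (Ch n)
  | 0 => by simp [Z, lam]
  | n+1 => mul_mem (pos_mono (ch_mono (by omega)) (Z_pos n)) (lam_pos (n+1))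

theorem Z_pos' {n j : ℕ} (h : n ≤ j+1) : Z n ∈ Pos (Ch j) := by
  cases n with
  | zero => exact one_mem _
  | succ n => exact pos_mono (ch_mono (by omega)) (Z_pos n)

theorem c_ch {i n : ℕ} (h : n < i) {W : G} (hW : W ∈ Pos (Ch n)) : Commute (c i) W :=
  comm_pos (by rintro x ⟨j, hj, rfl⟩; exact (cc (by omega)).symm) hW

theorem Z_ch {n j : ℕ} (h : j+1 ≤ n) {W : G} (hW : W ∈ Pos (Ch j)) : Commute (Z n) W :=
  comm_pos (by rintro x ⟨i, hi, rfl⟩; exact zc (by omega)) hW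

theorem y_low {h : ℕ} {W : G} (hW : W ∈ Pos (Low h)) : Commute (y h) W :=
  comm_pos (by
    rintro x (⟨i, hi, rfl⟩ | ⟨j, _, _, rfl | rfl⟩)
    · exact yc (by omega)
    · exact yy _ _
    · exact ym _ _) hW

theorem m_low {h : ℕ} {W : G} (hW : W ∈ Pos (Low h)) : Commute (m h) W :=
  comm_pos (by
    rintro x (⟨i, hi, rfl⟩ | ⟨j, _, _, rfl | rfl⟩)
    · exact mc (by omega)
    · exact (ym _ _).symm
    · exact mm _ _) hW

theorem Z_low {h : ℕ} {W : G} (hW : W ∈ Pos (Low h)) : Commute (Z (2*h)) W := by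
  rw [← yz]; exact (y_low hW).mul_left (m_low hW)

theorem Z_lam (n : ℕ) : Commute (Z n) (lam n) := by
  have h1 : Commute (Z (n+1)) (Z n) := Z_ch (j := n) le_rfl (Z_pos' (by omega))
  have h2 : lam n = (Z n)⁻¹ * Z (n+1) := by simp [Z]
  rw [h2]
  exact (Commute.refl _).inv_right.mul_right h1.symm

theorem c_dv {i n : ℕ} (h : i+1 ≤ n) : Dv (Ch n) (c i) (Z (n+1)) := by
  induction n, h using Nat.le_induction with
  | base =>
    refine ⟨Z (i+1) * c i * lam i, mul_mem (mul_mem (Z_pos' (by omega)) (c_pos (by omega)))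
      (pos_mono (ch_mono (by omega)) (lam_pos i)), ?_⟩
    have e1 : Z (i+1+1) = (Z (i+1) * c i * lam i) * c i := by
      rw [Z, lam]; simp only [mul_assoc]
    have hc : Commute (Z (i+1+1)) (Z (i+1) * c i * lam i) := by
      have : Z (i+1) * c i * lam i = Z (i+1+1) * (c i)⁻¹ := by rw [e1]; simp
      rw [this]
      exact (Commute.refl _).mul_right (zc le_rfl).inv_right
    exact cyc e1 hc
  | succ n hn ih => exact (ih.mono (ch_mono (by omega))).mul (lam_pos (n+1))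

def Mw : ℕ → G
  | 0 => 1
  | n+1 => c n * c (n+1) * Mw n * c (n+1) * c n

theorem Mw_pos : ∀ n, Mw n ∈ Pos (Ch (n+1))
  | 0 => one_mem _
  | n+1 => mul_mem (mul_mem (mul_mem (mul_mem (c_pos (by omega)) (c_pos (by omega)))
      (pos_mono (ch_mono (by omega)) (Mw_pos n))) (c_pos (by omega))) (c_pos (by omega))

theorem lam_lam : ∀ n, lam n * lam (n+1) = c n ^ 2 * Mw n
  | 0 => by simp [lam, Mw, pow_two]
  | n+1 => by
    have ih := lam_lam n
    have hb := cb n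
    have hc : Commute (c (n+1)) (lam n) := c_ch (by omega) (lam_pos n)
    rw [lam] at ih
    rw [lam, lam, lam, Mw]
    generalize lam n = U at *
    generalize c n = d at *
    generalize c (n+1) = a at *
    generalize Mw n = M at *
    calc d * U * d * (a * (d * U * d) * a) = d * U * (d * a * d) * U * d * a := by
          simp only [mul_assoc]
      _ = d * (U * a) * d * (a * U) * d * a := by rw [hb]; simp only [mul_assoc]
      _ = d * (a * U) * d * (U * a) * d * a := by rw [hc.eq]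
      _ = d * a * U * d * U * (a * d * a) := by simp only [mul_assoc]
      _ = d * a * (U * (d * U * d)) * a * d := by rw [← hb]; simp only [mul_assoc]
      _ = (d * a * d) * d * M * a * d := by rw [ih, pow_two]; simp only [mul_assoc]
      _ = (a * d * a) * d * M * a * d := by rw [hb]
      _ = a * (d * a * d) * M * a * d := by simp only [mul_assoc]
      _ = a * (a * d * a) * M * a * d := by rw [hb]
      _ = _ := by rw [pow_two]; simp only [mul_assoc]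

/-- the token of level `k+2` -/
def tok (k : ℕ) : G := c (2*k+2) * c (2*k)

theorem ab (k : ℕ) : Commute (c (2*k+2)) (c (2*k)) := (cc (by omega)).symm

theorem tok_low (k : ℕ) : tok k ∈ Pos (Low (k+2)) := mul_mem (c_low (by omega)) (c_low (by omega))

theorem Z_tok (k : ℕ) : Dv (Low (k+2)) (tok k ^ 2) (Z (2*(k+2))) := by
  have p0 : Z (2*k) ∈ Pos (Ch (2*k-1)) := Z_pos' (by omega)
  have p1 := Mw_pos (2*k)
  have p2 := Mw_pos (2*k+2)
  refine ⟨Z (2*k) * Mw (2*k) * Mw (2*k+2), mul_mem (mul_mem (pos_mono (ch_low (by omega)) p0)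
    (pos_mono (ch_low (by omega)) p1)) (pos_mono (ch_low (by omega)) p2), ?_⟩
  have e0 : Z (2*(k+2)) = Z (2*k) * (lam (2*k) * lam (2*k+1)) * (lam (2*k+2) * lam (2*k+2+1)) := by
    rw [show 2*(k+2) = 2*k+1+1+1+1 by ring]
    simp only [Z, mul_assoc]
  have c1 : Commute (c (2*k) ^ 2) (Z (2*k)) := by
    rcases Nat.eq_zero_or_pos k with rfl | hk
    · exact Commute.one_right _
    · exact (c_ch (by omega) p0).pow_left 2
  have c2 : Commute (c (2*k+2) ^ 2) (Z (2*k)) := (c_ch (by omega) p0).pow_left 2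
  have c3 : Commute (c (2*k+2) ^ 2) (Mw (2*k)) := (c_ch (by omega) p1).pow_left 2
  have c4 : Commute (c (2*k+2) ^ 2) (c (2*k) ^ 2) := (ab k).pow_pow 2 2
  rw [e0, lam_lam, lam_lam, tok, (ab k).mul_pow]
  calc _ = (Z (2*k) * c (2*k) ^ 2 * Mw (2*k)) * c (2*k+2) ^ 2 * Mw (2*k+2) := by
        simp only [mul_assoc]
    _ = c (2*k+2) ^ 2 * (Z (2*k) * c (2*k) ^ 2 * Mw (2*k)) * Mw (2*k+2) := by
        rw [((c2.mul_right c4).mul_right c3).eq]
    _ = _ := by rw [← c1.eq]; simp only [mul_assoc]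

def P (k u N : ℕ) : Prop := Dv (Low (k+2)) (tok k ^ N) (Z (2*(k+2)) ^ u)

theorem Z_mem_low (h : ℕ) (hh : 0 < h) : Z (2*h) ∈ Pos (Low h) :=
  pos_mono (ch_low (n := 2*h-1) (by omega)) (Z_pos' (by omega))

theorem P.mono {k u N u' N' : ℕ} (h : P k u N) (hu : u ≤ u') (hN : N' ≤ N) : P k u' N' := by
  obtain ⟨V, hV, e1⟩ := h
  obtain ⟨a, rfl⟩ := Nat.exists_eq_add_of_le hu
  obtain ⟨b, rfl⟩ := Nat.exists_eq_add_of_le hN
  refine ⟨tok k ^ b * V * Z (2*(k+2)) ^ a, mul_mem (mul_mem (pow_mem (tok_low k) _) hV)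
    (pow_mem (Z_mem_low _ (by omega)) _), ?_⟩
  rw [pow_add, e1, pow_add]; simp only [mul_assoc]

theorem P_double (k u : ℕ) : P k u (2*u) := by
  obtain ⟨V, hV, e1⟩ := Z_tok k
  refine ⟨V ^ u, pow_mem hV _, ?_⟩
  have hc : Commute (tok k ^ 2) V := by
    have : V = (tok k ^ 2)⁻¹ * Z (2*(k+2)) := by rw [e1]; simp
    rw [this]
    exact (Commute.refl _).inv_right.mul_right (Z_low (pow_mem (tok_low k) 2)).symm
  rw [e1, hc.mul_pow, pow_mul]

/-- the catalyst -/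
def th (k : ℕ) : G :=
  (c (2*k+3) * c (2*k+2) * m (k+2) * c (2*k+3)) * (c (2*k+1) * c (2*k+2)) *
    (c (2*k) * c (2*k+1)) * (c (2*k+3) * m (k+2)) * (y (k+2) * c (2*k+3))

theorem yb' (k : ℕ) : y (k+2) * c (2*k+3) * y (k+2) = c (2*k+3) * y (k+2) * c (2*k+3) :=
  yb (h := k+1) (by omega)
theorem mb' (k : ℕ) : m (k+2) * c (2*k+3) * m (k+2) = c (2*k+3) * m (k+2) * c (2*k+3) :=
  mb (h := k+1) (by omega)

theorem th_a (k : ℕ) : SemiconjBy (th k) (y (k+2)) (c (2*k+2)) := by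
  have s1 := swap1 (cb (2*k+2)) (mb' k)
  have s2 : SemiconjBy (c (2*k+1) * c (2*k+2)) (m (k+2)) (m (k+2)) :=
    ((mc (by omega)).mul_right (mc (by omega))).symm
  have s3 : SemiconjBy (c (2*k) * c (2*k+1)) (m (k+2)) (m (k+2)) :=
    ((mc (by omega)).mul_right (mc (by omega))).symm
  exact (((s1.mul_left s2).mul_left s3).mul_left (br (mb' k))).mul_left (br (yb' k).symm)

theorem th_b (k : ℕ) : SemiconjBy (th k) (c (2*k)) (m (k+2)) := by
  have s1 := swap1 (mb' k) (cb (2*k+2))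
  have hc : Commute (m (k+2)) (c (2*k+2)) := mc (by omega)
  rw [mul_assoc (c _) (m _), hc.eq, ← mul_assoc] at s1
  have s4 : SemiconjBy (c (2*k+3) * m (k+2)) (c (2*k)) (c (2*k)) :=
    ((cc (by omega)).mul_right (mc (by omega)).symm).symm
  have s5 : SemiconjBy (y (k+2) * c (2*k+3)) (c (2*k)) (c (2*k)) :=
    ((yc (by omega)).symm.mul_right (cc (by omega))).symm
  exact (((s1.mul_left (br (cb (2*k+1)).symm)).mul_left (br (cb (2*k)).symm)).mul_left s4).mul_left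
    s5

theorem th_tr (k : ℕ) : th k ∈ Pos (Tr (k+2)) := by
  have := y_tr (h := k+2) (by omega)
  have := m_tr (h := k+2) (by omega)
  unfold th
  repeat' apply mul_mem
  all_goals first | assumption | exact c_tr (by omega)

def Qs (k s N : ℕ) : Prop := ∀ r, ∃ X ∈ Pos (Tr (k+2)), ∃ X' ∈ Pos (Tr (k+2)),
  ∃ W ∈ Pos (Low (k+2)), Commute (c (2*k+2)) W ∧
    (th k * tok k) ^ (r + 2*s) = X * (th k * (tok k ^ N * W)) ^ r * X'

theorem Qs_zero (k : ℕ) : Qs k 0 1 := fun r =>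
  ⟨1, one_mem _, 1, one_mem _, 1, one_mem _, Commute.one_right _, by simp⟩

theorem Qs.step {k s u N : ℕ} (h : Qs k s u) (hP : P k u N) : Qs k (s+1) N := by
  intro r
  obtain ⟨X, hX, X', hX', W, hW, hc, e1⟩ := h (r+2)
  obtain ⟨V, hV, e2⟩ := hP
  have ha : c (2*k+2) ∈ Pos (Low (k+2)) := c_low (by omega)
  have hb : c (2*k) ∈ Pos (Low (k+2)) := c_low (by omega)
  have hrow := row (θ := th k) (A := c (2*k+2) ^ u) (B := c (2*k) ^ u) (Y := y (k+2) ^ u)
    (M := m (k+2) ^ u) (W := W) ((th_a k).pow_right u) ((th_b k).pow_right u)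
    ((ab k).pow_pow u u) (hc.pow_left u) ((m_low hW).pow_left u) ((m_low ha).symm.pow_pow u u) r
  have hW' := pos_mono (low_tr _) hW
  have hy := y_tr (h := k+2) (by omega)
  have hm := m_tr (h := k+2) (by omega)
  refine ⟨X * (th k * c (2*k) ^ u * W * m (k+2) ^ u),
    mul_mem hX (mul_mem (mul_mem (mul_mem (th_tr k) (pow_mem (c_tr (by omega)) _)) hW')
      (pow_mem hm _)),
    (th k * y (k+2) ^ u * W * c (2*k+2) ^ u) * X',
    mul_mem (mul_mem (mul_mem (mul_mem (th_tr k) (pow_mem hy _)) hW')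
      (pow_mem (c_tr (by omega)) _)) hX',
    V * W, mul_mem hV hW, Commute.mul_right ?_ hc, ?_⟩
  · have : V = (tok k ^ N)⁻¹ * Z (2*(k+2)) ^ u := by rw [e2]; simp
    rw [this]
    exact (((Commute.refl _).mul_right (ab k)).pow_right N).inv_right.mul_right
      ((Z_low ha).symm.pow_right u)
  · rw [show r + 2*(s+1) = r + 2 + 2*s by ring, e1, tok, (ab k).mul_pow, hrow,
      ← (ym _ _).mul_pow, yz, e2, tok]
    simp only [mul_assoc]

theorem Qs_pow (k : ℕ) : ∀ s, Qs k s (2^s)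
  | 0 => Qs_zero k
  | s+1 => (Qs_pow k s).step (by rw [pow_succ']; exact P_double k _)

theorem T_c {h i : ℕ} (H : i < 2*h) : Commute (T h) (c i) :=
  (zc (by omega)).mul_left (zc (by omega))

theorem Zodd_pos (h : ℕ) : Z (2*h+1) ∈ Pos (Ch (2*h)) := Z_pos _

theorem c_dvT {h i : ℕ} (H : i < 2*h) : Dv (Tr h) (c i) (T h) :=
  ((c_dv (by omega)).mul (Zodd_pos h)).mono (ch_tr le_rfl)

theorem y_dvT {h : ℕ} (H : 2 ≤ h) : Dv (Tr h) (y h) (T h) := by
  refine ⟨m h * lam (2*h) * Z (2*h+1), mul_mem (mul_mem (m_tr H)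
    (pos_mono (ch_tr le_rfl) (lam_pos _))) (pos_mono (ch_tr le_rfl) (Zodd_pos h)), ?_⟩
  rw [T, ← mul_assoc, ← mul_assoc, yz]; rfl

theorem m_dvT {h : ℕ} (H : 2 ≤ h) : Dv (Tr h) (m h) (T h) := by
  refine ⟨y h * lam (2*h) * Z (2*h+1), mul_mem (mul_mem (y_tr H)
    (pos_mono (ch_tr le_rfl) (lam_pos _))) (pos_mono (ch_tr le_rfl) (Zodd_pos h)), ?_⟩
  rw [T, ← mul_assoc, ← mul_assoc, ← (ym h h).eq, yz]; rfl

theorem eta_dv (k : ℕ) :
    Dv (Tr (k+2)) (th k * tok k) (T (k+2) ^ 14) ∧ Commute (T (k+2)) (th k * tok k) := by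
  have hl : ∀ x ∈ [c (2*k+3), c (2*k+2), m (k+2), c (2*k+3), c (2*k+1), c (2*k+2), c (2*k),
      c (2*k+1), c (2*k+3), m (k+2), y (k+2), c (2*k+3), c (2*k+2), c (2*k)],
      Dv (Tr (k+2)) x (T (k+2)) ∧ Commute (T (k+2)) x := by
    have hc : ∀ i, i < 2*(k+2) → Dv (Tr (k+2)) (c i) (T (k+2)) ∧ Commute (T (k+2)) (c i) :=
      fun i hi => ⟨c_dvT hi, T_c hi⟩
    have hm : Dv (Tr (k+2)) (m (k+2)) (T (k+2)) ∧ Commute (T (k+2)) (m (k+2)) :=
      ⟨m_dvT (by omega), Tm (by omega)⟩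
    have hy : Dv (Tr (k+2)) (y (k+2)) (T (k+2)) ∧ Commute (T (k+2)) (y (k+2)) :=
      ⟨y_dvT (by omega), Ty (by omega)⟩
    simp only [List.forall_mem_cons]
    exact ⟨hc _ (by omega), hc _ (by omega), hm, hc _ (by omega), hc _ (by omega), hc _ (by omega),
      hc _ (by omega), hc _ (by omega), hc _ (by omega), hm, hy, hc _ (by omega), hc _ (by omega),
      hc _ (by omega), by simp⟩
  have e1 : [c (2*k+3), c (2*k+2), m (k+2), c (2*k+3), c (2*k+1), c (2*k+2), c (2*k),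
      c (2*k+1), c (2*k+3), m (k+2), y (k+2), c (2*k+3), c (2*k+2), c (2*k)].prod
      = th k * tok k := by
    simp only [th, tok, List.prod_cons, List.prod_nil, mul_one, mul_assoc]
  rw [← e1]
  exact ⟨word_dv _ hl, Commute.list_prod_right _ _ fun x hx => (hl x hx).2⟩

theorem Qs.T {k s N : ℕ} (h : Qs k s N) : ∃ X ∈ Pos (Tr (k+2)), ∃ X' ∈ Pos (Tr (k+2)),
    T (k+2) ^ (14 * (1 + 2*s)) = X * tok k ^ N * X' := by
  obtain ⟨X, hX, X', hX', W, hW, -, e1⟩ := h 1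
  obtain ⟨⟨V, hV, e2⟩, hc⟩ := eta_dv k
  have hc' : Commute (th k * tok k) V := by
    have : V = (th k * tok k)⁻¹ * Lb.T (k+2) ^ 14 := by rw [e2, inv_mul_cancel_left]
    rw [this]
    exact (Commute.refl _).inv_right.mul_right (hc.symm.pow_right 14)
  refine ⟨X * th k, mul_mem hX (th_tr k), W * X' * V ^ (1 + 2*s),
    mul_mem (mul_mem (pos_mono (low_tr _) hW) hX') (pow_mem hV _), ?_⟩
  rw [pow_mul, e2, hc'.mul_pow, e1]
  simp only [mul_assoc, pow_one]

/-- the shift of tokens -/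
def om (k : ℕ) : G :=
  (c (2*k+3) * c (2*k+2)) * (c (2*k+4) * c (2*k+3)) * (c (2*k+1) * c (2*k)) * (c (2*k+2) * c (2*k+1))

theorem om_tok (k : ℕ) : SemiconjBy (om k) (tok (k+1)) (tok k) := by
  have s3 : SemiconjBy (c (2*k+1) * c (2*k)) (c (2*k+4)) (c (2*k+4)) :=
    (cc (by omega)).mul_left (cc (by omega))
  have s4 : SemiconjBy (c (2*k+2) * c (2*k+1)) (c (2*k+4)) (c (2*k+4)) :=
    (cc (by omega)).mul_left (cc (by omega))
  have t1 : SemiconjBy (c (2*k+3) * c (2*k+2)) (c (2*k)) (c (2*k)) :=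
    ((cc (by omega)).mul_right (cc (by omega))).symm
  have t2 : SemiconjBy (c (2*k+4) * c (2*k+3)) (c (2*k)) (c (2*k)) :=
    ((cc (by omega)).mul_right (cc (by omega))).symm
  have A : SemiconjBy (om k) (c (2*k+4)) (c (2*k+2)) :=
    (((br (cb (2*k+2))).mul_left (br (cb (2*k+3)))).mul_left s3).mul_left s4
  have B : SemiconjBy (om k) (c (2*k+2)) (c (2*k)) :=
    ((t1.mul_left t2).mul_left (br (cb (2*k)))).mul_left (br (cb (2*k+1)))
  exact A.mul_right B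

theorem om_low (k : ℕ) : om k ∈ Pos (Low (k+3)) := by
  unfold om
  repeat' apply mul_mem
  all_goals exact c_low (by omega)

theorem om_dv (k : ℕ) : Dv (Low (k+3)) (om k) (Z (2*(k+3)) ^ 8) := by
  have hl : ∀ x ∈ [c (2*k+3), c (2*k+2), c (2*k+4), c (2*k+3), c (2*k+1), c (2*k), c (2*k+2),
      c (2*k+1)], Dv (Low (k+3)) x (Z (2*(k+3))) ∧ Commute (Z (2*(k+3))) x := by
    intro x hx
    simp only [List.mem_cons, List.not_mem_nil, or_false] at hx
    rcases hx with rfl | rfl | rfl | rfl | rfl | rfl | rfl | rfl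
    all_goals exact ⟨(c_dv (n := 2*k+5) (by omega)).mono (ch_low (by omega)), zc (by omega)⟩
  have e1 : [c (2*k+3), c (2*k+2), c (2*k+4), c (2*k+3), c (2*k+1), c (2*k), c (2*k+2),
      c (2*k+1)].prod = om k := by
    simp only [om, List.prod_cons, List.prod_nil, mul_one, mul_assoc]
  rw [← e1]
  exact word_dv _ hl

theorem Qs.P {k s N : ℕ} (h : Qs k s N) : P (k+1) (2 * (14 * (1 + 2*s)) + 8) N := by
  obtain ⟨X, hX, X', hX', e1⟩ := h.T
  obtain ⟨V, hV, e2⟩ := om_dv k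
  have hX1 : X ∈ Pos (Low (k+3)) := pos_mono (tr_low _) hX
  have hX2 : X' ∈ Pos (Low (k+3)) := pos_mono (tr_low _) hX'
  have hl : lam (2*(k+2)+1) ∈ Pos (Low (k+3)) := pos_mono (ch_low (by omega)) (lam_pos _)
  set q := 14 * (1 + 2*s)
  have e3 : Z (2*(k+3)) ^ (2*q) = Lb.T (k+2) ^ q * lam (2*(k+2)+1) ^ (2*q) := by
    rw [show Z (2*(k+3)) = Z (2*(k+2)+1) * lam (2*(k+2)+1) from rfl, (Z_lam _).mul_pow, pow_mul,
      pow_two, Lb.T]
  have hR : X' * lam (2*(k+2)+1) ^ (2*q) ∈ Pos (Low (k+3)) := mul_mem hX2 (pow_mem hl _)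
  refine ⟨V * (X' * lam (2*(k+2)+1) ^ (2*q)) * (X * om k),
    mul_mem (mul_mem hV hR) (mul_mem hX1 (om_low k)), ?_⟩
  have e4 : Z (2*(k+3)) ^ (2*q+8) =
      (X * om k) * (tok (k+1) ^ N * V * (X' * lam (2*(k+2)+1) ^ (2*q))) := by
    calc Z (2*(k+3)) ^ (2*q+8)
        = X * tok k ^ N * ((X' * lam (2*(k+2)+1) ^ (2*q)) * Z (2*(k+3)) ^ 8) := by
          rw [pow_add, e3, e1]; simp only [mul_assoc]
      _ = X * (tok k ^ N * om k) * V * (X' * lam (2*(k+2)+1) ^ (2*q)) := by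
          rw [← ((Z_low hR).pow_left 8).eq, e2]; simp only [mul_assoc]
      _ = _ := by rw [← ((om_tok k).pow_right N).eq]; simp only [mul_assoc]
  have := cyc e4 ((Z_low (mul_mem hX1 (om_low k))).pow_left _)
  rw [show 2*(k+1+2) = 2*(k+3) from rfl, this]
  simp only [mul_assoc]

theorem Qs_ack {k j : ℕ} (h : ∀ x, P k (64 * (x+15)) (64 * (ack j x + 15))) :
    ∀ x, Qs k (11 + x) (64 * (ack (j+1) x + 15))
  | 0 => (Qs_pow k 10).step (by simpa using h 1)
  | x+1 => (Qs_ack h x).step (by rw [ack_succ_succ]; exact h _)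

theorem P_ack : ∀ k x, P k (64 * (x+15)) (64 * (ack (k+2) x + 15))
  | 0, x => (P_double 0 _).mono le_rfl (by rw [ack_two]; omega)
  | k+1, x => (Qs_ack (P_ack k) x).P.mono (by omega) le_rfl

theorem T_ack (k : ℕ) : ∃ X ∈ Pos (Tr (k+2)), ∃ X' ∈ Pos (Tr (k+2)),
    T (k+2) ^ 625 = X * tok k ^ (ack (k+3) 10) * X' := by
  obtain ⟨X, hX, X', hX', e1⟩ := (Qs_ack (P_ack k) 10).T
  have hT : T (k+2) ∈ Pos (Tr (k+2)) :=
    pos_mono (ch_tr le_rfl) (mul_mem (Zodd_pos _) (Zodd_pos _))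
  refine ⟨X, hX, tok k ^ (63 * ack (k+3) 10 + 960) * X' * T (k+2) ^ 23,
    mul_mem (mul_mem (pow_mem (pos_mono (low_tr _) (tok_low k)) _) hX') (pow_mem hT _), ?_⟩
  rw [show 625 = 14 * (1 + 2 * (11 + 10)) + 23 by norm_num, pow_add, e1,
    show 64 * (ack (k+2+1) 10 + 15) = ack (k+3) 10 + (63 * ack (k+3) 10 + 960) by ring, pow_add]
  simp only [mul_assoc]

end Pool.Agent.Lib.MP_294da1_gt.Lb
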