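import Pool.Agent.Lib.MP_294da1_gt.LbAmp
import Pool.Agent.Lib.MP_294da1_gt.Defs

/-! Transfer from the groupoid model to the fundamental group with its symplectic basis. -/

set_option linter.unusedSimpArgs false

namespace Pool.Agent.Lib.MP_294da1_gt.Lb

def sE (g : ℕ) : F g →* E :=
  FreeGroup.lift fun t => if t.2 then e (2*t.1.val+2) * (e (2*t.1.val+1))⁻¹
    else e (2*t.1.val) * be t.1.val * (e (2*t.1.val+1))⁻¹

theorem sE_a {g : ℕ} (i : Fin g) :
    sE g (a i) = e (2*i.val) * be i.val * (e (2*i.val+1))⁻¹ := by simp [sE, a]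

theorem sE_b {g : ℕ} (i : Fin g) : sE g (b i) = e (2*i.val+2) * (e (2*i.val+1))⁻¹ := by
  simp [sE, b]

theorem ext_F {g : ℕ} {H : Type*} [Group H] {φ ψ : F g →* H} (h1 : ∀ i, φ (a i) = ψ (a i))
    (h2 : ∀ i, φ (b i) = ψ (b i)) : φ = ψ :=
  FreeGroup.ext_hom _ _ fun t => by
    obtain ⟨i, _ | _⟩ := t
    · exact h1 i
    · exact h2 i

def aN (g i : ℕ) : F g := if h : i < g then a ⟨i, h⟩ else 1
def bN (g i : ℕ) : F g := if h : i < g then b ⟨i, h⟩ else 1

def bet (g : ℕ) : ℕ → F g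
  | 0 => 1
  | i+1 => bN g i * bet g i

def rE (g : ℕ) : E →* F g :=
  FreeGroup.lift fun k => if k = 0 then 1 else if k % 2 = 1 then (aN g (k/2))⁻¹ * bet g (k/2)
    else bN g (k/2-1) * (aN g (k/2-1))⁻¹ * bet g (k/2-1)

theorem rE_zero (g : ℕ) : rE g (e 0) = 1 := by simp [rE, e]

theorem rE_odd (g i : ℕ) : rE g (e (2*i+1)) = (aN g i)⁻¹ * bet g i := by
  have h1 : (2*i+1) % 2 = 1 := by omega
  have h2 : (2*i+1) / 2 = i := by omega
  simp only [rE, e, FreeGroup.lift_apply_of, h1, h2]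
  simp

theorem rE_even (g i : ℕ) : rE g (e (2*i+2)) = bN g i * (aN g i)⁻¹ * bet g i := by
  have h1 : (2*i+2) % 2 = 0 := by omega
  have h2 : (2*i+2) / 2 - 1 = i := by omega
  simp only [rE, e, FreeGroup.lift_apply_of, h1, h2]
  simp

theorem q_succ (i : ℕ) :
    e (2*(i+1)) * be (i+1) = e (2*i+2) * (e (2*i+1))⁻¹ * (e (2*i) * be i) := by
  rw [be, mul_add]; simp only [mul_assoc, mul_one]

theorem rE_q (g : ℕ) : ∀ i, rE g (e (2*i) * be i) = bet g i
  | 0 => by simp [be, bet, rE_zero]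
  | i+1 => by
    rw [q_succ, map_mul, rE_q g i, map_mul, map_inv, rE_odd, rE_even, bet]; group

theorem rE_sE {g : ℕ} (x : F g) : rE g (sE g x) = x := by
  have : (rE g).comp (sE g) = MonoidHom.id _ := by
    refine ext_F (fun i => ?_) (fun i => ?_)
    · rw [MonoidHom.comp_apply, sE_a, map_mul, rE_q, map_inv, rE_odd]
      simp [aN]
    · rw [MonoidHom.comp_apply, sE_b, map_mul, map_inv, rE_odd, rE_even]
      simp [bN]
  exact DFunLike.congr_fun this x

theorem sE_inj {g : ℕ} : Function.Injective (sE g) := Function.LeftInverse.injective rE_sE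

def Od (g : ℕ) (z : E) : Prop := z * (e 0)⁻¹ ∈ (sE g).range

theorem Od.div {g : ℕ} {u v : E} (hu : Od g u) (hv : Od g v) : u * v⁻¹ ∈ (sE g).range := by
  have := mul_mem hu (inv_mem hv)
  simpa [mul_assoc] using this

theorem Od.left {g : ℕ} {x v : E} (hx : x ∈ (sE g).range) (hv : Od g v) : Od g (x * v) := by
  unfold Od; rw [mul_assoc]; exact mul_mem hx hv

theorem Od.tern {g : ℕ} {u v w : E} (hu : Od g u) (hv : Od g v) (hw : Od g w) :
    Od g (u * v⁻¹ * w) := Od.left (hu.div hv) hw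

theorem od_q {g : ℕ} : ∀ i, i ≤ g → Od g (e (2*i) * be i)
  | 0, _ => by simp [Od, be]
  | i+1, h => by
    rw [q_succ]
    exact Od.left ⟨b ⟨i, h⟩, sE_b _⟩ (od_q i (by omega))

theorem od_odd {g i : ℕ} (h : i < g) : Od g (e (2*i+1)) := by
  have := Od.left (inv_mem ⟨a ⟨i, h⟩, sE_a _⟩) (od_q i h.le)
  simpa [mul_assoc] using this

theorem od_e {g k : ℕ} (h : k ≤ 2*g) : Od g (e k) := by
  rcases Nat.eq_zero_or_pos k with rfl | hk
  · simp [Od]
  rcases Nat.even_or_odd' k with ⟨i, rfl | rfl⟩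
  · obtain ⟨j, rfl⟩ : ∃ j, i = j+1 := ⟨i-1, by omega⟩
    have := Od.left ⟨b ⟨j, by omega⟩, sE_b _⟩ (od_odd (g := g) (i := j) (by omega))
    simpa [mul_assoc, mul_add] using this
  · exact od_odd (by omega)

theorem al_range {g : ℕ} : ∀ j, j ≤ g → al j ∈ (sE g).range
  | 0, _ => one_mem _
  | j+1, h => by
    rw [al, mul_assoc]
    exact mul_mem (al_range j (by omega)) ((od_e (by omega)).div (od_e (by omega)))

theorem od_be {g : ℕ} : ∀ j, j ≤ g → ∀ z, Od g z → Od g (z * be j)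
  | 0, _, z, hz => by simpa [be] using hz
  | j+1, h, z, hz => by
    rw [be, ← mul_assoc, ← mul_assoc]
    exact od_be j (by omega) _ (hz.tern (od_e (by omega)) (od_e (by omega)))

theorem od_be_inv {g j : ℕ} (h : j ≤ g) {z : E} (hz : Od g z) : Od g (z * (be j)⁻¹) := by
  have := hz.tern (od_be j h _ (od_e (k := 0) (by omega))) (od_e (k := 0) (by omega))
  simpa [mul_assoc] using this

theorem pres {g : ℕ} (φ : G) (H : ∀ k, k ≤ 2*g → Od g (φ (e k))) (x : F g) :
    φ (sE g x) ∈ (sE g).range := by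
  have hq : ∀ i, i ≤ g → Od g (φ (e (2*i) * be i)) := by
    intro i
    induction i with
    | zero => intro _; simpa [be] using H 0 (by omega)
    | succ i ih =>
      intro hi
      rw [q_succ, map_mul, map_mul, map_inv]
      exact (H _ (by omega)).tern (H _ (by omega)) (ih (by omega))
  induction x using FreeGroup.induction_on with
  | C1 => simp
  | of t =>
    obtain ⟨i, _ | _⟩ := t
    · have := sE_a i
      rw [a] at this
      rw [this, map_mul, map_inv]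
      exact (hq _ i.2.le).div (H _ (by omega))
    · have := sE_b i
      rw [b] at this
      rw [this, map_mul, map_inv]
      exact (H _ (by omega)).div (H _ (by omega))
  | inv_of t ih => rw [map_inv, map_inv]; exact inv_mem ih
  | mul x z h1 h2 => rw [map_mul, map_mul]; exact mul_mem h1 h2

def Rel (g : ℕ) (φ : G) (τ : MulAut (F g)) : Prop := ∀ x, φ (sE g x) = sE g (τ x)

theorem Rel.mul {g : ℕ} {φ ψ : G} {τ σ : MulAut (F g)} (h1 : Rel g φ τ) (h2 : Rel g ψ σ) :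
    Rel g (φ * ψ) (τ * σ) := fun x => by
  rw [MulAut.mul_apply, MulAut.mul_apply, h2, h1]

theorem Rel.inv {g : ℕ} {φ : G} {τ : MulAut (F g)} (h : Rel g φ τ) : Rel g φ⁻¹ τ⁻¹ := fun x => by
  rw [MulAut.inv_apply, MulEquiv.symm_apply_eq, h, MulAut.apply_inv_self]

theorem Rel.unique {g : ℕ} {φ : G} {τ σ : MulAut (F g)} (h1 : Rel g φ τ) (h2 : Rel g φ σ) :
    τ = σ := MulEquiv.ext fun x => sE_inj ((h1 x).symm.trans (h2 x))

theorem exists_rel {g : ℕ} (φ : G) (H : ∀ k, k ≤ 2*g → Od g (φ (e k)))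
    (H' : ∀ k, k ≤ 2*g → Od g (φ⁻¹ (e k))) : ∃ τ, Rel g φ τ := by
  have key : ∀ ψ : G, (∀ k, k ≤ 2*g → Od g (ψ (e k))) → ∀ x,
      sE g (rE g (ψ (sE g x))) = ψ (sE g x) := by
    intro ψ hψ x
    obtain ⟨z, hz⟩ := pres ψ hψ x
    rw [← hz, rE_sE]
  refine ⟨MonoidHom.toMulEquiv ((rE g).comp ((φ : E →* E).comp (sE g)))
    ((rE g).comp (((φ⁻¹ : G) : E →* E).comp (sE g))) ?_ ?_, fun x => (key φ H x).symm⟩
  · refine MonoidHom.ext fun x => ?_
    show rE g (φ⁻¹ (sE g (rE g (φ (sE g x))))) = x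
    rw [key φ H, MulAut.inv_apply_self, rE_sE]
  · refine MonoidHom.ext fun x => ?_
    show rE g (φ (sE g (rE g (φ⁻¹ (sE g x))))) = x
    rw [key φ⁻¹ H', MulAut.apply_inv_self, rE_sE]

theorem sE_gam {g : ℕ} : ∀ h, h ≤ g → sE g (gam g h) = pA h
  | 0, _ => by simp [gam, pA, al, be]
  | h+1, H => by
    have ih := sE_gam h (by omega : h ≤ g)
    have e1 : gam g (h+1) = gam g h *
        (a ⟨h, H⟩ * b ⟨h, H⟩ * (a ⟨h, H⟩)⁻¹ * (b ⟨h, H⟩)⁻¹) := by
      unfold gam
      rw [List.take_succ_eq_append_getElem (by simpa using H)]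
      simp
    rw [e1]
    simp only [map_mul, map_inv, ih, sE_a, sE_b, pA, al, be, mul_add, mul_one]
    group

def Good (g : ℕ) : Subgroup G where
  carrier := {φ | ∃ τ, Rel g φ τ ∧ φ (pA g) = pA g}
  one_mem' := ⟨1, fun _ => rfl, rfl⟩
  mul_mem' := by
    rintro φ ψ ⟨τ, h1, e1⟩ ⟨σ, h2, e2⟩
    exact ⟨τ * σ, h1.mul h2, by rw [MulAut.mul_apply, e2, e1]⟩
  inv_mem' := by
    rintro φ ⟨τ, h1, e1⟩
    exact ⟨τ⁻¹, h1.inv, by rw [MulAut.inv_apply, MulEquiv.symm_apply_eq, e1]⟩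

theorem c_good {g i : ℕ} (h : i < 2*g) : c i ∈ Good g := by
  obtain ⟨τ, hτ⟩ := exists_rel (g := g) (c i) (fun k hk => by
      by_cases h1 : k = i
      · subst h1; rw [c_self]; exact (od_e hk).tern (od_e (by omega)) (od_e hk)
      by_cases h2 : k = i+1
      · subst h2; rw [c_succ]; exact od_e (by omega)
      rw [c_ne h1 h2]; exact od_e hk)
    (fun k hk => by
      by_cases h1 : k = i
      · subst h1; rw [c_inv_self]; exact od_e (by omega)
      by_cases h2 : k = i+1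
      · subst h2; rw [c_inv_succ]; exact (od_e hk).tern (od_e (by omega)) (od_e hk)
      rw [c_inv_ne h1 h2]; exact od_e hk)
  obtain ⟨p, q⟩ := (c_fix i g).2 (by omega)
  exact ⟨τ, hτ, by rw [pA, map_mul, map_inv, p, q]⟩

theorem y_good {g j : ℕ} (h : j ≤ g) : y j ∈ Good g := by
  obtain ⟨τ, hτ⟩ := exists_rel (g := g) (y j) (fun k hk => by
      by_cases h1 : k < 2*j
      · rw [y_lt h1]; exact Od.left (al_range j h) (od_e hk)
      · rw [y_ge (by omega)]; exact od_e hk)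
    (fun k hk => by
      by_cases h1 : k < 2*j
      · rw [y_inv_lt h1]; exact Od.left (inv_mem (al_range j h)) (od_e hk)
      · rw [y_inv_ge (by omega)]; exact od_e hk)
  refine ⟨τ, hτ, ?_⟩
  simp only [pA, map_mul, map_inv, (y_ge_fix h).1, (y_ge_fix h).2, y_ge (Nat.mul_le_mul_left 2 h)]

theorem m_good {g j : ℕ} (h : j ≤ g) : m j ∈ Good g := by
  obtain ⟨τ, hτ⟩ := exists_rel (g := g) (m j) (fun k hk => by
      by_cases h1 : k < 2*j
      · rw [m_lt h1]; exact od_be j h _ (od_e hk)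
      · rw [m_ge (by omega)]; exact od_e hk)
    (fun k hk => by
      by_cases h1 : k < 2*j
      · rw [m_inv_lt h1]; exact od_be_inv h (od_e hk)
      · rw [m_inv_ge (by omega)]; exact od_e hk)
  refine ⟨τ, hτ, ?_⟩
  simp only [pA, map_mul, map_inv, (m_ge_fix h).1, (m_ge_fix h).2, m_ge (Nat.mul_le_mul_left 2 h)]

theorem gam_good (g : ℕ) : Gam g ≤ Good g := by
  refine (Subgroup.closure_le _).2 ?_
  rintro x (⟨i, hi, rfl⟩ | ⟨j, _, hj, rfl | rfl⟩)
  · exact c_good hi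
  · exact y_good hj
  · exact m_good hj

theorem c0_tA {g : ℕ} (hg : 0 < g) (x : F g) : c 0 (sE g x) = sE g (tA ⟨0, hg⟩ x) := by
  have : ((c 0 : G) : E →* E).comp (sE g) = (sE g).comp (tA ⟨0, hg⟩) := by
    refine ext_F (fun i => ?_) (fun i => ?_)
    · have e1 : tA ⟨0, hg⟩ (a i) = a i := by simp [tA, a]
      rw [MonoidHom.comp_apply, MonoidHom.comp_apply, e1, sE_a]
      show c 0 _ = _
      by_cases hi : i.val = 0
      · simp only [hi, mul_zero, be, mul_one, map_mul, map_inv, c_self, c_succ]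
        group
      · rw [map_mul, ((c_fix 0 i.val).2 (by omega)).2, map_inv, c_ne (by omega) (by omega)]
    · rw [MonoidHom.comp_apply, MonoidHom.comp_apply, sE_b]
      show c 0 _ = _
      by_cases hi : i = ⟨0, hg⟩
      · subst hi
        have e1 : tA ⟨0, hg⟩ (b ⟨0, hg⟩) = b ⟨0, hg⟩ * (a ⟨0, hg⟩)⁻¹ := by simp [tA, b]
        rw [e1, map_mul, map_mul, map_inv, map_inv, sE_a, sE_b]
        simp only [mul_zero, be, mul_one, c_succ]
        rw [c_ne (by omega) (by omega)]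
        group
      · have e1 : tA ⟨0, hg⟩ (b i) = b i := by simp [tA, b, hi]
        have h0 : i.val ≠ 0 := fun h => hi (Fin.ext h)
        rw [e1, sE_b, map_mul, map_inv, c_ne (by omega) (by omega), c_ne (by omega) (by omega)]
  exact DFunLike.congr_fun this x

theorem rel_T (g : ℕ) : Rel g (T g) (MulAut.conj (gam g g)) := by
  intro x
  have : ((T g : G) : E →* E).comp (sE g) =
      ((MulAut.conj (pA g) : G) : E →* E).comp (sE g) := by
    refine ext_F (fun i => ?_) (fun i => ?_)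
    · rw [MonoidHom.comp_apply, MonoidHom.comp_apply, sE_a]
      show T g _ = pA g * _ * (pA g)⁻¹
      have hi := i.2
      rw [map_mul, map_mul, map_inv, T_lt (by omega), T_lt (by omega),
        framed_be (T g) (pA g) (pB g) _ fun k hk => T_lt (by omega)]
      group
    · rw [MonoidHom.comp_apply, MonoidHom.comp_apply, sE_b]
      show T g _ = pA g * _ * (pA g)⁻¹
      have hi := i.2
      rw [map_mul, map_inv, T_lt (by omega), T_lt (by omega)]
      group
  rw [MulAut.conj_apply, map_mul, map_mul, map_inv, sE_gam g le_rfl]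
  exact DFunLike.congr_fun this x

open Classical in
noncomputable def tr (g : ℕ) (φ : G) : MulAut (F g) := if h : ∃ τ, Rel g φ τ then h.choose else 1

theorem rel_tr {g : ℕ} {φ : G} (h : φ ∈ Good g) : Rel g φ (tr g φ) := by
  obtain ⟨τ, hτ, -⟩ := h
  have h' : ∃ τ, Rel g φ τ := ⟨τ, hτ⟩
  rw [tr, dif_pos h']
  exact h'.choose_spec

theorem tc_good {g : ℕ} (hg : 0 < g) {x : G} (hx : x ∈ TC g) : x ∈ Good g := by
  obtain ⟨f, hf, rfl⟩ := hx
  exact mul_mem (mul_mem (gam_good g hf) (c_good (by omega))) (inv_mem (gam_good g hf))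

theorem tc_twist {g : ℕ} (hg : 0 < g) {x : G} (hx : x ∈ TC g) : IsTwist (tr g x) := by
  have hx' := rel_tr (tc_good hg hx)
  obtain ⟨f, hf, rfl⟩ := hx
  obtain ⟨τ, hτ, e1⟩ := gam_good g hf
  refine ⟨τ, sE_inj (by rw [← hτ, sE_gam g le_rfl, e1]), Or.inl ⟨⟨0, hg⟩, fun z => sE_inj ?_⟩⟩
  rw [← hx', ← hτ, ← hτ, ← c0_tA, MulAut.mul_apply, MulAut.mul_apply, MulAut.inv_apply_self]

theorem rel_prod {g : ℕ} : ∀ l : List G, (∀ x ∈ l, x ∈ Good g) →
    Rel g l.prod (l.map (tr g)).prod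
  | [], _ => fun _ => rfl
  | x :: l, h => by
    rw [List.map_cons, List.prod_cons, List.prod_cons]
    exact (rel_tr (h x List.mem_cons_self)).mul
      (rel_prod l fun z hz => h z (List.mem_cons_of_mem _ hz))

theorem transfer {g N : ℕ} (hg : 0 < g) {C : Set G} (hC : Nice g C) (hL : Long C (T g) N) :
    ∃ l : List (MulAut (F g)), (∀ τ ∈ l, IsTwist τ) ∧
      (∀ σ ∈ l, ∀ τ ∈ l, σ * τ = τ * σ ∨ σ * τ * σ = τ * σ * τ) ∧
      l.prod = MulAut.conj (gam g g) ∧ N ≤ l.length := by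
  obtain ⟨l, hl, e1, hN⟩ := hL
  have hG : ∀ x ∈ l, x ∈ Good g := fun x hx => tc_good hg (hC.tc x (hl x hx))
  refine ⟨l.map (tr g), ?_, ?_, ?_, by simpa using hN⟩
  · intro τ hτ
    obtain ⟨x, hx, rfl⟩ := List.mem_map.1 hτ
    exact tc_twist hg (hC.tc x (hl x hx))
  · intro σ hσ τ hτ
    obtain ⟨x, hx, rfl⟩ := List.mem_map.1 hσ
    obtain ⟨z, hz, rfl⟩ := List.mem_map.1 hτ
    have r1 := rel_tr (hG x hx)
    have r2 := rel_tr (hG z hz)
    rcases hC.pair x (hl x hx) z (hl z hz) with h | h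
    · exact Or.inl ((r1.mul r2).unique (h ▸ r2.mul r1))
    · exact Or.inr (((r1.mul r2).mul r1).unique (h ▸ (r2.mul r1).mul r2))
  · exact (rel_prod l hG).unique (e1 ▸ rel_T g)

theorem ack_lower (h : ℕ) : ∃ l : List (MulAut (F (h+8))), (∀ τ ∈ l, IsTwist τ) ∧
    (∀ σ ∈ l, ∀ τ ∈ l, σ * τ = τ * σ ∨ σ * τ * σ = τ * σ * τ) ∧
    l.prod = MulAut.conj (gam (h+8) (h+8)) ∧ ack h h ≤ l.length := by
  obtain ⟨C, hC, hL⟩ := main_G h
  exact transfer (by omega) hC hL

end Pool.Agent.Lib.MP_294da1_gt.Lb
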