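import Pool.Agent.Lib.MP_294da1_gt.Defs

namespace Pool.Agent.Lib.MP_294da1_gt
open FreeGroup

variable {g : ℕ}

abbrev Lt (g : ℕ) := (Fin g × Bool) × Bool

def pos : Lt g → ℕ
  | ((i, false), true) => 4 * i + 1
  | ((i, true), false) => 4 * i + 2
  | ((i, false), false) => 4 * i + 3
  | ((i, true), true) => 4 * i + 4

lemma pos_pos (l : Lt g) : 1 ≤ pos l := by
  rcases l with ⟨⟨i, _ | _⟩, _ | _⟩ <;> simp [pos]

lemma pos_le (l : Lt g) : pos l ≤ 4 * g := by
  rcases l with ⟨⟨i, _ | _⟩, _ | _⟩ <;> simp only [pos] <;> have := i.2 <;> omega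

lemma pos_inj {l l' : Lt g} (h : pos l = pos l') : l = l' := by
  rcases l with ⟨⟨i, _ | _⟩, _ | _⟩ <;> rcases l' with ⟨⟨j, _ | _⟩, _ | _⟩ <;>
    simp only [pos] at h <;> first | omega | (have : i = j := Fin.ext (by omega); rw [this])

def linv (l : Lt g) : Lt g := (l.1, !l.2)

@[simp] lemma linv_linv (l : Lt g) : linv (linv l) = l := by simp [linv]

lemma linv_ne (l : Lt g) : linv l ≠ l := by
  rcases l with ⟨s, _ | _⟩ <;> simp [linv]

def L (l : Lt g) : F g := mk [l]

lemma L_linv (l : Lt g) : L (linv l) = (L l)⁻¹ := by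
  simp [L, linv, inv_mk, invRev]

lemma L_true (s : Fin g × Bool) : L (s, true) = of s := rfl

lemma L_false (s : Fin g × Bool) : L (s, false) = (of s)⁻¹ := by
  rw [← L_true, ← L_linv]; rfl

lemma mk_cons (l : Lt g) (w : List (Lt g)) : mk (l :: w) = L l * mk w := by
  simp [L, mul_mk]

def rk (g p q : ℕ) : ℕ := if p ≤ q then q - p else q + (4 * g + 1) - p

def hdw : List (Lt g) → ℕ
  | [] => 0
  | l :: _ => pos l

def keyw : ℕ → List (Lt g) → List ℕ
  | p, [] => [rk g p 0]
  | p, l :: w => rk g p (pos l) :: keyw (pos (linv l)) w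

def tlw : List (Lt g) → List ℕ
  | [] => []
  | l :: w => keyw (pos (linv l)) w

def hd (x : F g) : ℕ := hdw x.toWord
def K (p : ℕ) (x : F g) : List ℕ := keyw p x.toWord
def tl (x : F g) : List ℕ := tlw x.toWord

lemma K_eq (p : ℕ) (x : F g) : K p x = rk g p (hd x) :: tl x := by
  unfold K hd tl
  cases x.toWord <;> rfl

lemma hd_le (x : F g) : hd x ≤ 4 * g := by
  unfold hd
  cases x.toWord with
  | nil => simp [hdw]
  | cons l w => exact pos_le l

@[simp] lemma hd_one : hd (1 : F g) = 0 := rfl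
@[simp] lemma tl_one : tl (1 : F g) = [] := rfl

lemma hd_eq_zero {x : F g} : hd x = 0 ↔ x = 1 := by
  constructor
  · intro h
    unfold hd at h
    rw [← toWord_eq_nil_iff]
    cases hx : x.toWord with
    | nil => rfl
    | cons l w => rw [hx] at h; have := pos_pos l; simp [hdw] at h; omega
  · rintro rfl; rfl

lemma hd_cases (x : F g) : x = 1 ∨ ∃ l : Lt g, hd x = pos l := by
  cases hx : x.toWord with
  | nil => left; exact toWord_eq_nil_iff.1 hx
  | cons l w => right; exact ⟨l, by simp [hd, hx, hdw]⟩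

lemma toWord_L_mul {l : Lt g} {y : F g} (h : hd y ≠ pos (linv l)) :
    (L l * y).toWord = l :: y.toWord := by
  have hr : IsReduced (l :: y.toWord) := by
    have hy : IsReduced y.toWord := isReduced_toWord
    unfold hd at h
    cases hx : y.toWord with
    | nil => exact IsReduced.singleton
    | cons m w =>
      rw [hx] at hy h
      refine isReduced_cons_cons.2 ⟨?_, hy⟩
      intro h1
      by_contra h2
      apply h
      have : m = linv l := by
        rcases m with ⟨m1, m2⟩; rcases l with ⟨l1, l2⟩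
        simp only [linv] at *
        subst h1
        cases l2 <;> cases m2 <;> simp_all
      simp [hdw, this]
  conv_lhs => rw [← mk_toWord (x := y), ← mk_cons, toWord_mk]
  exact hr.reduce_eq

lemma hd_L_mul {l : Lt g} {y : F g} (h : hd y ≠ pos (linv l)) : hd (L l * y) = pos l := by
  simp [hd, toWord_L_mul h, hdw]

lemma tl_L_mul {l : Lt g} {y : F g} (h : hd y ≠ pos (linv l)) :
    tl (L l * y) = K (pos (linv l)) y := by
  simp [tl, K, toWord_L_mul h, tlw]

lemma norm_L_mul {l : Lt g} {y : F g} (h : hd y ≠ pos (linv l)) :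
    norm (L l * y) = norm y + 1 := by
  simp [FreeGroup.norm, toWord_L_mul h]

lemma hd_L (l : Lt g) : hd (L l) = pos l := by
  have := hd_L_mul (l := l) (y := 1) (by have := pos_pos (linv l); simp; omega)
  simpa using this

lemma hd_strip {l : Lt g} {x : F g} (h : hd x = pos l) : hd ((L l)⁻¹ * x) ≠ pos (linv l) := by
  have hx : IsReduced x.toWord := isReduced_toWord
  unfold hd at h
  cases hw : x.toWord with
  | nil => rw [hw] at h; have := pos_pos l; simp [hdw] at h; omega
  | cons m w =>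
    rw [hw] at h hx
    have hm : m = l := pos_inj h
    subst hm
    have h1 : (L m)⁻¹ * x = mk w := by
      conv_lhs => rw [← mk_toWord (x := x), hw, mk_cons]
      group
    have h2 : IsReduced w := List.IsChain.tail hx
    rw [h1, hd, toWord_mk, h2.reduce_eq]
    cases w with
    | nil => have := pos_pos (linv m); simp [hdw]; omega
    | cons n w =>
      intro h3
      have h4 : n = linv m := pos_inj h3
      have := (isReduced_cons_cons.1 hx).1
      subst h4
      rcases m with ⟨m1, _ | _⟩ <;> simp [linv] at this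

lemma decomp {l : Lt g} {x : F g} (h : hd x = pos l) :
    ∃ y, x = L l * y ∧ hd y ≠ pos (linv l) :=
  ⟨(L l)⁻¹ * x, by group, hd_strip h⟩

/-- induction on reduced words -/
lemma red_ind {P : F g → Prop} (h1 : P 1)
    (h2 : ∀ l y, hd y ≠ pos (linv l) → P y → P (L l * y)) (x : F g) : P x := by
  induction hn : norm x using Nat.strong_induction_on generalizing x with
  | _ n ih =>
    rcases hd_cases x with rfl | ⟨l, hl⟩
    · exact h1
    · obtain ⟨y, rfl, hy⟩ := decomp hl
      exact h2 l y hy (ih _ (by rw [← hn, norm_L_mul hy]; omega) y rfl)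

lemma rk_inj {p q q' : ℕ} (hp : p ≤ 4 * g) (hq : q ≤ 4 * g) (hq' : q' ≤ 4 * g)
    (h : rk g p q = rk g p q') : q = q' := by
  unfold rk at h; split_ifs at h <;> omega

lemma K_inj {p : ℕ} (hp : p ≤ 4 * g) {x y : F g} (h : K p x = K p y) : x = y := by
  induction x using red_ind generalizing p y with
  | h1 =>
    rw [K_eq, K_eq] at h
    have := rk_inj hp (hd_le _) (hd_le _) (List.cons.inj h).1
    exact (hd_eq_zero.1 this.symm).symm
  | h2 l x hx ih =>
    rw [K_eq, K_eq] at h
    have h1 := rk_inj hp (hd_le _) (hd_le _) (List.cons.inj h).1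
    rw [hd_L_mul hx] at h1
    obtain ⟨y', rfl, hy'⟩ := decomp h1.symm
    have h2 := (List.cons.inj h).2
    rw [tl_L_mul hx, tl_L_mul hy'] at h2
    rw [ih (pos_le _) h2]

lemma K_lt {p : ℕ} (hp : p ≤ 4 * g) {x y : F g} :
    K p x < K p y ↔ rk g p (hd x) < rk g p (hd y) ∨ (hd x = hd y ∧ tl x < tl y) := by
  rw [K_eq, K_eq, List.cons_lt_cons_iff]
  constructor
  · rintro (h | ⟨h, h'⟩)
    · exact Or.inl h
    · exact Or.inr ⟨rk_inj hp (hd_le _) (hd_le _) h, h'⟩
  · rintro (h | ⟨h, h'⟩)
    · exact Or.inl h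
    · exact Or.inr ⟨by rw [h], h'⟩

def cyc (u v w : List ℕ) : Prop := (u < v ∧ v < w) ∨ (v < w ∧ w < u) ∨ (w < u ∧ u < v)

lemma cyc_rot {X : Type*} (f f' : X → List ℕ) (B : X → Prop)
    (h1 : ∀ x y, (B x ↔ B y) → (f x < f y ↔ f' x < f' y))
    (h2 : ∀ x y, B x → ¬ B y → f x < f y ∧ f' y < f' x) (x y z : X) :
    cyc (f x) (f y) (f z) ↔ cyc (f' x) (f' y) (f' z) := by
  have key : ∀ x y, B x → ¬ B y → (f x < f y) ∧ ¬ (f y < f x) ∧ f' y < f' x ∧ ¬ (f' x < f' y) :=
    fun x y hx hy => ⟨(h2 x y hx hy).1, lt_asymm (h2 x y hx hy).1, (h2 x y hx hy).2,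
      lt_asymm (h2 x y hx hy).2⟩
  have e : ∀ x y, (B x ↔ B y) → (f x < f y ↔ f' x < f' y) := h1
  unfold cyc
  by_cases hx : B x <;> by_cases hy : B y <;> by_cases hz : B z
  · rw [e x y (by tauto), e y z (by tauto), e z x (by tauto)]
  · have := key x z hx hz; have := key y z hy hz; have := e x y (by tauto); tauto
  · have := key x y hx hy; have := key z y hz hy; have := e z x (by tauto); tauto
  · have := key x y hx hy; have := key x z hx hz; have := e y z (by tauto); tauto
  · have := key y x hy hx; have := key z x hz hx; have := e y z (by tauto); tauto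
  · have := key y x hy hx; have := key y z hy hz; have := e z x (by tauto); tauto
  · have := key z x hz hx; have := key z y hz hy; have := e x y (by tauto); tauto
  · rw [e x y (by tauto), e y z (by tauto), e z x (by tauto)]

/-- the cyclic order -/
def o (x y z : F g) : Prop := cyc (K 0 x) (K 0 y) (K 0 z)

lemma o_iff_K {p : ℕ} (hp : p ≤ 4 * g) (x y z : F g) :
    o x y z ↔ cyc (K p x) (K p y) (K p z) := by
  refine cyc_rot (K 0) (K p) (fun x => hd x < p) ?_ ?_ x y z
  · intro x y h
    rw [K_lt (Nat.zero_le _), K_lt hp]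
    have := hd_le x; have := hd_le y
    have : rk g 0 (hd x) < rk g 0 (hd y) ↔ rk g p (hd x) < rk g p (hd y) := by
      unfold rk; split_ifs <;> omega
    rw [this]
  · intro x y hx hy
    rw [K_lt (Nat.zero_le _), K_lt hp]
    have := hd_le x; have := hd_le y
    constructor <;> left <;> unfold rk <;> split_ifs <;> omega

lemma o_L (l : Lt g) (x y z : F g) : o (L l * x) (L l * y) (L l * z) ↔ o x y z := by
  rw [o_iff_K (pos_le (linv l)) x, o_iff_K (pos_le l) (L l * x)]
  symm
  have hB : ∀ x : F g, hd x = pos (linv l) →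
      hd (L l * x) ≠ pos l ∧ tl x = K (pos l) (L l * x) := by
    intro x hx
    obtain ⟨y, rfl, hy⟩ := decomp hx
    have : L l * (L (linv l) * y) = y := by rw [L_linv]; group
    rw [this, tl_L_mul hy]
    simpa using hy
  refine cyc_rot (K (pos (linv l))) (fun x => K (pos l) (L l * x))
    (fun x => hd x = pos (linv l)) ?_ ?_ x y z
  · intro x y h
    by_cases hx : hd x = pos (linv l)
    · have hy := h.1 hx
      rw [K_lt (pos_le _), hx, hy, (hB x hx).2, (hB y hy).2]
      simp
    · have hy : hd y ≠ pos (linv l) := fun h' => hx (h.2 h')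
      rw [K_lt (pos_le l), hd_L_mul hx, hd_L_mul hy, tl_L_mul hx, tl_L_mul hy]
      simp
  · intro x y hx hy
    have h1 := (hB x hx).1
    rw [K_lt (pos_le _), K_lt (pos_le _), hx, hd_L_mul hy]
    have := hd_le y; have := hd_le (L l * x); have := pos_le l; have := pos_le (linv l)
    constructor <;> left <;> unfold rk <;> split_ifs <;> omega

lemma o_mul (t x y z : F g) : o (t * x) (t * y) (t * z) ↔ o x y z := by
  induction t using red_ind generalizing x y z with
  | h1 => simp
  | h2 l t _ ih => rw [mul_assoc, mul_assoc, mul_assoc, o_L, ih]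

lemma K0_inj {x y : F g} : K 0 x = K 0 y ↔ x = y :=
  ⟨K_inj (Nat.zero_le _), fun h => by rw [h]⟩

lemma o_cyc {x y z : F g} (h : o x y z) : o y z x := by unfold o cyc at *; tauto

lemma o_cyc' {x y z : F g} (h : o x y z) : o z x y := o_cyc (o_cyc h)

lemma o_asymm {x y z : F g} (h : o x y z) : ¬ o x z y := by
  unfold o cyc at *
  rintro (⟨a, b⟩ | ⟨a, b⟩ | ⟨a, b⟩) <;> rcases h with ⟨c, d⟩ | ⟨c, d⟩ | ⟨c, d⟩ <;> order

lemma o_total {x y z : F g} (h1 : x ≠ y) (h2 : y ≠ z) (h3 : x ≠ z) : o x y z ∨ o x z y := by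
  unfold o cyc
  rw [Ne, ← K0_inj] at h1 h2 h3
  rcases lt_or_gt_of_ne h1 with a | a <;> rcases lt_or_gt_of_ne h2 with b | b <;>
    rcases lt_or_gt_of_ne h3 with c | c <;> tauto

lemma o_trans {p x y z : F g} (h1 : o p x y) (h2 : o p y z) : o p x z := by
  unfold o cyc at *
  rcases h1 with ⟨a, b⟩ | ⟨a, b⟩ | ⟨a, b⟩ <;> rcases h2 with ⟨c, d⟩ | ⟨c, d⟩ | ⟨c, d⟩ <;>
    first
    | (exfalso; order)
    | (left; constructor <;> order)
    | (right; left; constructor <;> order)
    | (right; right; constructor <;> order)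

lemma o_ne12 {x y z : F g} (h : o x y z) : x ≠ y := by
  rintro rfl; exact o_asymm h (o_cyc h)

lemma o_ne23 {x y z : F g} (h : o x y z) : y ≠ z := o_ne12 (o_cyc h)

lemma o_ne13 {x y z : F g} (h : o x y z) : x ≠ z := (o_ne12 (o_cyc' h)).symm

/-- from `p < x < y` and `p < y < z` also `x < y < z` cyclically -/
lemma o_mid {p x y z : F g} (h1 : o p x y) (h2 : o p y z) : o x y z :=
  o_cyc' (o_trans (o_cyc h2) (o_cyc' h1))

lemma K0_one_lt {x : F g} (hx : x ≠ 1) : K 0 (1 : F g) < K 0 x := by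
  rw [K_lt (Nat.zero_le _)]
  left
  have : hd x ≠ 0 := fun h => hx (hd_eq_zero.1 h)
  simp [rk]; omega

lemma o_one {x y : F g} : o 1 x y ↔ x ≠ 1 ∧ K 0 x < K 0 y := by
  constructor
  · intro h
    have h1 := K0_one_lt (o_ne12 h).symm
    have h2 := K0_one_lt (o_ne13 h).symm
    refine ⟨(o_ne12 h).symm, ?_⟩
    unfold o cyc at h
    rcases h with ⟨a, b⟩ | ⟨a, b⟩ | ⟨a, b⟩ <;> order
  · rintro ⟨h1, h2⟩
    exact Or.inl ⟨K0_one_lt h1, h2⟩

end Pool.Agent.Lib.MP_294da1_gt
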