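import Pool.Agent.Lib.MP_294da1_gt.Defs

/-! Sign check: in genus one the chain relation of length 12 satisfies all the hypotheses. -/

namespace Pool.Agent.Lib.MP_294da1_gt

def sA : MulAut (F 1) := MonoidHom.toMulEquiv (tA 0)
  (FreeGroup.lift fun s => if s = (0, true) then b 0 * a 0 else FreeGroup.of s)
  (FreeGroup.ext_hom _ _ (by decide +kernel)) (FreeGroup.ext_hom _ _ (by decide +kernel))

def sB : MulAut (F 1) := MonoidHom.toMulEquiv
  (FreeGroup.lift fun s => if s = (0, false) then a 0 * b 0 else FreeGroup.of s)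
  (FreeGroup.lift fun s => if s = (0, false) then a 0 * (b 0)⁻¹ else FreeGroup.of s)
  (FreeGroup.ext_hom _ _ (by decide +kernel)) (FreeGroup.ext_hom _ _ (by decide +kernel))

lemma aut_ext {g : ℕ} {σ τ : MulAut (F g)} (h : ∀ s, σ (FreeGroup.of s) = τ (FreeGroup.of s)) :
    σ = τ :=
  MulEquiv.toMonoidHom_injective (FreeGroup.ext_hom _ _ h)

lemma braid : sA * sB * sA = sB * sA * sB := aut_ext (by decide +kernel)

theorem sanity : ∃ l : List (MulAut (F 1)), (∀ τ ∈ l, IsTwist τ) ∧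
    (∀ σ ∈ l, ∀ τ ∈ l, σ * τ = τ * σ ∨ σ * τ * σ = τ * σ * τ) ∧
    l.prod = MulAut.conj (gam 1 1) ∧ l.length = 12 := by
  have hA : IsTwist sA := ⟨1, rfl, Or.inl ⟨0, fun _ => rfl⟩⟩
  have hB : IsTwist sB := ⟨sA * sB, by decide +kernel, Or.inl ⟨0, fun x =>
    (congrArg (fun σ : MulAut (F 1) => σ x) braid).symm⟩⟩
  refine ⟨(List.replicate 6 [sA, sB]).flatten, ?_, ?_, aut_ext (by decide +kernel), rfl⟩
  · simp [hA, hB]
  · simp [braid]

end Pool.Agent.Lib.MP_294da1_gt
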