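import Pool.Agent.Lib.MP_294da1_gt.Braid

namespace Pool.Agent.Lib.MP_294da1_gt
open FreeGroup hiding map_mul map_inv map_one
open Filter

variable {g : ℕ}

def Ends (J : Set (F g)) : Set (F g) := {x | ∃ l, ¬ (x ∈ J ↔ x * L l ∈ J)}

lemma closed_all {B : Set (F g)} (h : ∀ x ∈ B, ∀ l, x * L l ∈ B) {x : F g} (hx : x ∈ B) (y : F g) :
    y ∈ B := by
  have : ∀ y, ∀ x ∈ B, x * y ∈ B := by
    intro y
    induction y using red_ind with
    | h1 => simp
    | h2 l y _ ih => intro x hx; rw [← mul_assoc]; exact ih _ (h x hx l)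
  simpa using this (x⁻¹ * y) x hx

lemma ends_aux {J J' : Set (F g)} (h1 : ∀ x ∈ Ends J', x ∉ J) (h2 : ∀ x ∈ Ends J, x ∉ J')
    {x p : F g} (a : x ∈ J) (b : x ∈ J') (c : p ∉ J) : False := by
  refine c (closed_all (B := J ∩ J') ?_ ⟨a, b⟩ p).1
  rintro x ⟨a, b⟩ l
  constructor
  · by_contra e; exact h2 x ⟨l, by tauto⟩ b
  · by_contra e; exact h1 x ⟨l, by tauto⟩ a

lemma ends_compl (J : Set (F g)) : Ends Jᶜ = Ends J := by
  ext x; simp only [Ends, Set.mem_ofPred_eq, Set.mem_compl_iff, not_iff_not]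

lemma nc_of_side {c t : F g} (h1 : ∀ x ∈ Ends (Q c), t⁻¹ * x ∈ Q c ↔ t⁻¹ ∈ Q c)
    (h2 : ∀ x ∈ Ends (Q c), t * x ∈ Q c ↔ t ∈ Q c) : ¬ Cross c (t * c * t⁻¹) := by
  rintro ⟨⟨x1, a1, b1⟩, ⟨x2, a2, b2⟩, ⟨x3, a3, b3⟩, x4, a4, b4⟩
  have e1 : ∀ x ∈ Ends (Q c), x ∈ Q (t * c * t⁻¹) ↔ t⁻¹ ∈ Q c := fun x hx => by
    rw [Q_conj', h1 x hx]
  have e2 : ∀ x ∈ Ends (Q (t * c * t⁻¹)), x ∈ Q c ↔ t ∈ Q c := by
    rintro x ⟨l, hl⟩
    rw [← h2 (t⁻¹ * x) ⟨l, by rwa [Q_conj', Q_conj', ← mul_assoc] at hl⟩]; simp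
  by_cases c1 : t⁻¹ ∈ Q c <;> by_cases c2 : t ∈ Q c
  · exact ends_aux (J := (Q c)ᶜ) (J' := (Q (t * c * t⁻¹))ᶜ)
      (by simpa [ends_compl, c2] using e2) (by simpa [ends_compl, c1] using e1) a4 b4
      (p := x1) (by simpa using a1)
  · exact ends_aux (J := Q c) (J' := (Q (t * c * t⁻¹))ᶜ)
      (by simpa [ends_compl, c2] using e2) (by simpa [ends_compl, c1] using e1) a2 b2 a3
  · exact ends_aux (J := (Q c)ᶜ) (J' := Q (t * c * t⁻¹))
      (by simpa [ends_compl, c2] using e2) (by simpa [ends_compl, c1] using e1) a3 b3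
      (p := x1) (by simpa using a1)
  · exact ends_aux (J := Q c) (J' := Q (t * c * t⁻¹))
      (by simpa [ends_compl, c2] using e2) (by simpa [ends_compl, c1] using e1) a1 b1 a3

section steps
variable {H v v' : Set (F g)} {Γ : Type*} [Group Γ] {Ψ : Set (F g) → Γ} {χ : F g → Γ}

lemma Pot.one_step (hH : Fam H) (P : Pot H Ψ χ) (hv : Vx H v) (hv' : Vx H v') {h : F g}
    (e : ∀ k, k ∈ v \ v' ↔ k = h) : Ψ v' = Ψ v * χ h⁻¹ := by
  have m := (e h).2 rfl
  obtain ⟨k, k1, k2⟩ := hv.exists_down hH hv' (fun e' => m.2 (e' ▸ m.1))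
  obtain rfl := (e k).1 ⟨k1.1, k2⟩
  rw [← P v k hv k1]
  congr 1
  refine ((hv.flp hH k1).eq_of_sub hv' fun x hx => ?_).symm
  by_contra hc
  have : x ∈ flp v k \ v' := ⟨hx, hc⟩
  rw [flp_diff hv hv' k1.1 k2] at this
  exact this.2 ((e x).1 this.1)

lemma Pot.two_step (hH : Fam H) (P : Pot H Ψ χ) (hv : Vx H v) (hv' : Vx H v') {h h' : F g}
    (e : ∀ k, k ∈ v \ v' ↔ k = h ∨ k = h') (hs : Q h ⊆ Q h') (hne : h ≠ h') :
    Ψ v' = Ψ v * χ h⁻¹ * χ h'⁻¹ := by
  have m := (e h).2 (Or.inl rfl)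
  obtain ⟨k, k1, k2⟩ := hv.exists_down hH hv' (fun e' => m.2 (e' ▸ m.1))
  rcases (e k).1 ⟨k1.1, k2⟩ with rfl | rfl
  · rw [← P v k hv k1]
    refine P.one_step hH (hv.flp hH k1) hv' fun x => ?_
    rw [flp_diff hv hv' k1.1 k2, Set.mem_sdiff, e, Set.mem_singleton_iff]
    constructor
    · tauto
    · rintro rfl; exact ⟨Or.inr rfl, hne.symm⟩
  · exact absurd (k1.2 _ m.1 hs) hne

end steps

lemma isTw_of {c : F g} (S : Simple c) {τ : MulAut (F g)} {t : F g →* F g} (ht : ∀ x, τ x = t x)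
    (H : ∀ κ : Set (F g) → F g, κ (pv (cl c) 1) = 1 → Pot (cl c) κ id → ∀ s, ∃ e,
      κ (pv (cl c) (L (s, e))) * L (s, e) = t (L (s, e))) : IsTw c τ := by
  obtain ⟨κ, σ, a1, a2, a3⟩ := exists_tw_hom S
  refine ⟨κ, a1, a2, fun x => ?_⟩
  have : σ = t := FreeGroup.ext_hom _ _ fun s => by
    obtain ⟨e, he⟩ := H κ a1 a2 s
    rw [← a3] at he
    cases e
    · simpa [L_false] using he
    · exact he
  rw [ht, ← a3, this]

/-! ### the nonseparating curve -/

lemma Q_a_base (i : Fin g) {y : F g} (h1 : hd y ≠ 4 * i + 1) (h2 : hd y ≠ 4 * i + 3) :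
    y ∈ Q (a i) ↔ hd y = 4 * i + 2 := by
  have e1 : hd (a i * y) = 4 * i + 1 := hd_L_mul (l := ((i, false), true)) h2
  have h3 : hd (a i * y) ≠ 4 * i + 3 := by omega
  have e2 : hd (a i * (a i * y)) = 4 * i + 1 := hd_L_mul (l := ((i, false), true)) h3
  have t1 : tl (a i * y) = K (4 * i + 3) y := tl_L_mul (l := ((i, false), true)) h2
  have t2 : tl (a i * (a i * y)) = K (4 * i + 3) (a i * y) := tl_L_mul (l := ((i, false), true)) h3
  have hp : 4 * i + 3 ≤ 4 * g := by have := i.2; omega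
  have := hd_le y
  simp only [Q, Set.mem_ofPred_eq, o, cyc, K_lt (Nat.zero_le _), e1, e2, t1, t2, K_lt hp, h1,
    h1.symm, false_and, or_false, true_and, lt_self_iff_false, false_or, rk]
  split_ifs <;> omega

lemma Q_a (i : Fin g) (x : F g) : x ∈ Q (a i) ↔ ∃ n : ℤ, hd (a i ^ n * x) = 4 * i + 2 := by
  have ex : ∃ n : ℤ, hd (a i ^ n * x) ≠ 4 * i + 1 ∧ hd (a i ^ n * x) ≠ 4 * i + 3 := by
    induction x using red_ind with
    | h1 => exact ⟨0, by simp⟩
    | h2 l y hy ih =>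
      obtain ⟨n, hn⟩ := ih
      by_cases e1 : l = ((i, false), true)
      · exact ⟨n - 1, by rwa [e1, ← a_eq, show a i ^ (n - 1) * (a i * y) = a i ^ n * y by group]⟩
      by_cases e2 : l = ((i, false), false)
      · exact ⟨n + 1, by
          rwa [e2, ← a_inv, show a i ^ (n + 1) * ((a i)⁻¹ * y) = a i ^ n * y by group]⟩
      refine ⟨0, ?_⟩
      rw [zpow_zero, one_mul, hd_L_mul hy]
      exact ⟨fun e => e1 (pos_inj e), fun e => e2 (pos_inj e)⟩
  constructor
  · intro hx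
    obtain ⟨n, h1, h2⟩ := ex
    exact ⟨n, (Q_a_base i h1 h2).1 ((Q_zpow _ _ n).2 hx)⟩
  · rintro ⟨n, hn⟩
    exact (Q_zpow _ _ n).1 ((Q_a_base i (by omega) (by omega)).2 hn)

lemma edge_a (i : Fin g) {x : F g} {l : Lt g} (h1 : x ∈ Q (a i)) (h2 : x * L l ∉ Q (a i)) :
    l = ((i, true), true) ∧ ∃ n : ℤ, x * L l = a i ^ n := by
  obtain ⟨n, hn⟩ := (Q_a i x).1 h1
  have e : a i ^ n * x = L (linv l) := by
    by_contra e
    refine h2 ((Q_a i _).2 ⟨n, ?_⟩)
    rw [← mul_assoc, hd_mul_L (fun e => by simp [e] at hn) e, hn]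
  rw [e, hd_L] at hn
  have : linv l = ((i, true), false) := pos_inj hn
  refine ⟨by rw [← linv_linv l, this]; rfl, -n, ?_⟩
  rw [L_linv, ← eq_inv_mul_iff_mul_eq] at e
  rw [e]; group

lemma a_ne_one (i : Fin g) : a i ≠ 1 := of_ne_one _

lemma binv_mem (i : Fin g) : (b i)⁻¹ ∈ Q (a i) :=
  (Q_a i _).2 ⟨0, by rw [zpow_zero, one_mul, b_inv, hd_L]; rfl⟩

lemma one_not_mem (i : Fin g) : 1 ∉ Q (a i) := by
  rw [Q_a_base i (by simp) (by simp)]; simp

lemma side_a (i : Fin g) {t : F g} (ht : ¬ ∃ n : ℤ, t = a i ^ n) :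
    ∀ x ∈ Ends (Q (a i)), t * x ∈ Q (a i) ↔ t ∈ Q (a i) := by
  have s1 : ∀ x, x * a i ∈ Q (a i) ↔ x ∈ Q (a i) := by
    intro x
    constructor
    · intro h; by_contra h'
      simpa using (edge_a i (l := ((i, false), false)) h (by simpa [← a_inv] using h')).1
    · intro h; by_contra h'
      simpa using (edge_a i (l := ((i, false), true)) h h').1
  have s2 : ∀ n : ℤ, t * a i ^ n ∈ Q (a i) ↔ t ∈ Q (a i) := by
    intro n
    induction n using Int.induction_on with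
    | zero => simp
    | succ n ih => rw [zpow_add_one, ← mul_assoc, s1, ih]
    | pred n ih => rw [← s1, zpow_sub_one, ← ih]; simp [mul_assoc]
  have s3 : ∀ n : ℤ, t * (a i ^ n * (b i)⁻¹) ∈ Q (a i) ↔ t ∈ Q (a i) := by
    intro n
    rw [← s2 n]
    constructor
    · intro h; by_contra h'
      obtain ⟨-, m, hm⟩ := edge_a i (l := ((i, true), true)) h
        (by simpa [← b_eq, mul_assoc] using h')
      exact ht ⟨m - n, by rw [zpow_sub, ← hm, ← b_eq]; group⟩
    · intro h; by_contra h'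
      simpa using (edge_a i (l := ((i, true), false)) h
        (by simpa [← b_inv, mul_assoc] using h')).1
  rintro x ⟨l, hl⟩
  by_cases hx : x ∈ Q (a i)
  · obtain ⟨rfl, n, hn⟩ := edge_a i (l := l) hx (by tauto)
    rw [← s3 n, ← hn, ← b_eq]; simp
  · obtain ⟨-, n, hn⟩ := edge_a i (x := x * L l) (l := linv l) (by by_contra e; tauto)
      (by simpa [L_linv] using hx)
    rw [← s2 n, ← hn, L_linv]; simp

lemma simple_a (i : Fin g) : Simple (a i) := by
  refine ⟨a_ne_one i, fun t ht => ?_, fun t => ?_⟩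
  · obtain ⟨-, n, hn⟩ := edge_a i (l := ((i, true), true)) ((ht _).2 (binv_mem i))
      (by simpa [← b_eq] using mt (ht 1).1 (one_not_mem i))
    exact ⟨n, by simpa [← b_eq] using hn⟩
  · by_cases ht : ∃ n : ℤ, t = a i ^ n
    · obtain ⟨n, rfl⟩ := ht
      rw [show a i ^ n * a i * (a i ^ n)⁻¹ = a i by group]
      exact not_cross_self _
    · refine nc_of_side (side_a i ?_) (side_a i ht)
      rintro ⟨n, hn⟩
      exact ht ⟨-n, by rw [zpow_neg, ← hn]; simp⟩

lemma isTw_a (i : Fin g) {τ : MulAut (F g)} (ht : ∀ x, τ x = tA i x) : IsTw (a i) τ := by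
  have S := simple_a i
  refine isTw_of S ht fun κ a1 a2 s => ?_
  by_cases hs : s = (i, true)
  · subst hs
    refine ⟨false, ?_⟩
    rw [a2.one_step S.fam (vx_pv S.fam 1) (vx_pv S.fam _) (h := (a i)⁻¹), a1, L_false, map_inv]
    · simp [tA, b]
    intro k
    simp only [pv, Set.mem_sdiff, Set.mem_ofPred_eq, ← b_inv]
    constructor
    · rintro ⟨⟨⟨t, rfl | rfl⟩, c1⟩, c2⟩
      · simp only [cl_conj (self_mem_cl _), true_and, Q_conj'] at c1 c2
        simpa using (edge_a i (l := ((i, true), false)) c1 (by simpa [← b_inv] using c2)).1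
      · simp only [cl_conj (cl_inv (self_mem_cl _)), true_and, Q_conj', Q_inv (a_ne_one i),
          not_not] at c1 c2
        obtain ⟨-, n, hn⟩ := edge_a i (l := ((i, true), true)) c2 (by simpa [← b_eq] using c1)
        have : t = a i ^ (-n) := by rw [zpow_neg, ← hn, ← b_eq]; simp
        rw [this]; group
    · rintro rfl
      simp [Q_inv (a_ne_one i), binv_mem, one_not_mem, cl_inv (self_mem_cl _)]
  · refine ⟨true, ?_⟩
    have : pv (cl (a i)) (L (s, true)) = pv (cl (a i)) 1 := by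
      have key : ∀ z, z * L (s, true) ∈ Q (a i) ↔ z ∈ Q (a i) := by
        intro z
        constructor
        · intro h; by_contra h'
          simpa [linv] using (edge_a i (l := linv (s, true)) h (by simpa [L_linv] using h')).1
        · intro h; by_contra h'
          exact hs (by simpa using (edge_a i h h').1)
      ext k
      refine and_congr_right ?_
      rintro ⟨t, rfl | rfl⟩ <;> simp [Q_conj', Q_inv (a_ne_one i), key]
    rw [this, a1, L_true]; simp [tA, hs]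

/-! ### the separating curves -/

def Fh (g h : ℕ) : Subgroup (F g) where
  carrier := {x | ∀ l ∈ x.toWord, l.1.1.val < h}
  mul_mem' := fun {x y} hx hy l hl => by
    rcases List.mem_append.1 ((toWord_mul_sublist x y).subset hl) with e | e
    exacts [hx l e, hy l e]
  one_mem' := by simp
  inv_mem' := fun {x} hx l hl => by
    simp only [toWord_inv, invRev, List.mem_reverse, List.mem_map] at hl
    obtain ⟨m, hm, rfl⟩ := hl
    exact hx m hm

lemma pos_inner {h : ℕ} {l : Lt g} : pos l ≤ 4 * h ↔ l.1.1.val < h := by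
  rcases l with ⟨⟨i, _ | _⟩, _ | _⟩ <;> simp only [pos] <;> omega

lemma L_mem_Fh {h : ℕ} {l : Lt g} (hl : l.1.1.val < h) : L l ∈ Fh g h := by
  intro m hm
  have := toWord_L_mul (l := l) (y := 1) (by have := pos_pos (linv l); simp; omega)
  rw [mul_one] at this
  rw [this] at hm
  simp at hm
  rwa [hm]

lemma gam_mem_Fh {h n : ℕ} (hn : n ≤ h) (hg : h ≤ g) : gam g n ∈ Fh g h := by
  induction n with
  | zero => simp
  | succ n ih =>
    have := gam_succ (g := g) ⟨n, by omega⟩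
    simp only at this
    rw [this]
    have ha : a ⟨n, by omega⟩ ∈ Fh g h := L_mem_Fh (l := ((_, false), true)) hn
    have hb : b ⟨n, by omega⟩ ∈ Fh g h := L_mem_Fh (l := ((_, true), true)) hn
    exact mul_mem (ih (by omega)) (mul_mem (mul_mem (mul_mem ha hb) (inv_mem ha)) (inv_mem hb))

lemma hd_Fh {h : ℕ} {u : F g} (hu : u ∈ Fh g h) : hd u ≤ 4 * h := by
  rcases hd_cases u with rfl | ⟨l, hl⟩
  · simp
  obtain ⟨y, rfl, hy⟩ := decomp hl
  rw [hl, pos_inner]
  exact hu l (by simp [toWord_L_mul hy])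

def As (h : ℕ) (y : F g) : Prop := hd y = 0 ∨ 4 * h < hd y

lemma Ch.hd_eq {p p' : ℕ} {x : F g} (h : Ch p x p') (hp : p ≠ p') {y : F g} (hy : hd y ≠ p') :
    hd (x * y) = p + 1 := by
  cases h with
  | nil => exact absurd rfl hp
  | cons hl hx => rw [mul_assoc, hd_L_mul (hx.hd_ne hy), hl]

section
variable {h : ℕ} (h1 : 1 ≤ h) (h2 : h ≤ g)
include h1 h2

lemma gam_ne_one : gam g h ≠ 1 := by
  intro e
  have := (ch_gam0 h2).hd_eq (by omega) (y := 1) (by simp; omega)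
  simp [e] at this

lemma As_mem {y : F g} (hy : As h y) : y ∈ Q (gam g h)⁻¹ := by
  have C := ch_gam0 h2
  have a1 : hd y ≠ 4 * h := by unfold As at hy; omega
  have e1 := C.hd_eq (by omega) a1
  have a2 : hd (gam g h * y) ≠ 4 * h := by omega
  have e2 := C.hd_eq (by omega) a2
  have := hd_le y
  have lt := C.lt (Nat.zero_le _) a1 a2 (by
    rw [K_lt (by omega), e1]; left; unfold As at hy; unfold rk; split_ifs <;> omega)
  rw [Q, Set.mem_ofPred_eq, ← o_mul (gam g h * gam g h)]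
  simp only [mul_assoc, mul_inv_cancel_left]
  rcases hy with hy | hy
  · refine Or.inl ⟨?_, lt⟩
    rw [K_lt (Nat.zero_le _), e1, hy]; left; simp [rk]
  · refine Or.inr (Or.inl ⟨lt, ?_⟩)
    rw [K_lt (Nat.zero_le _), e2]; left; simp [rk]; omega

lemma Q_gam (x : F g) : x ∈ Q (gam g h)⁻¹ ↔ ∃ n : ℤ, As h (gam g h ^ n * x) := by
  have ne : (gam g h)⁻¹ ≠ 1 := by simpa using gam_ne_one h1 h2
  constructor
  · intro hx
    have h0 : gam g h ∈ Q (gam g h)⁻¹ := by
      simpa using (Q_self' _ _).2 (As_mem h1 h2 (y := 1) (Or.inl rfl))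
    obtain ⟨n, hn⟩ := exists_lv ne h0 hx
    refine ⟨-n - 1, ?_⟩
    rcases hn with hn | hn
    · rw [Set.mem_ofPred_eq, inv_mul_cancel, o_one] at hn
      obtain ⟨y, e, y1, y2⟩ := (ch_gam0 h2).low (Nat.zero_le _) (y := 1) (by simp; omega)
        (fun e => hn.1 (hd_eq_zero.1 e)) (by simpa using hn.2)
      have : gam g h ^ (-n - 1) * x = y := by
        rw [← inv_mul_eq_iff_eq_mul] at e
        rw [← e]; group
      rw [this]
      rw [K_lt (by omega)] at y2
      have := hd_le y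
      rcases y2 with y2 | y2
      · simp only [hd_one, rk] at y2; unfold As; split_ifs at y2 <;> omega
      · exact Or.inl y2.1
    · rw [Set.mem_ofPred_eq] at hn
      have : gam g h ^ (-n - 1) * x = 1 := by
        calc _ = (gam g h)⁻¹ * ((gam g h)⁻¹ ^ n * x) := by group
          _ = 1 := by rw [hn]; simp
      rw [this]; exact Or.inl rfl
  · rintro ⟨n, hn⟩
    have := As_mem h1 h2 hn
    rwa [show gam g h ^ n = (gam g h)⁻¹ ^ (-n) by group, Q_zpow] at this

lemma edge_gam {x : F g} {l : Lt g} (a1 : x ∈ Q (gam g h)⁻¹) (a2 : x * L l ∉ Q (gam g h)⁻¹) :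
    (∃ n : ℤ, x = gam g h ^ n) ∧ l.1.1.val < h := by
  obtain ⟨n, hn⟩ := (Q_gam h1 h2 x).1 a1
  have a3 : ¬ As h (gam g h ^ n * x * L l) := fun e =>
    a2 ((Q_gam h1 h2 _).2 ⟨n, by rwa [← mul_assoc]⟩)
  have e : gam g h ^ n * x = 1 := by
    by_contra e
    by_cases e' : gam g h ^ n * x = L (linv l)
    · exact a3 (Or.inl (by rw [e', L_linv]; simp))
    · exact a3 (by unfold As at *; rwa [hd_mul_L e e'])
  refine ⟨⟨-n, by rw [zpow_neg]; exact eq_inv_of_mul_eq_one_right e⟩, ?_⟩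
  rw [e, one_mul, As, hd_L] at a3
  rw [← pos_inner]; omega

lemma side_gam {u : F g} (hu : u ∈ Fh g h) {z : F g} (hz : z ∉ Fh g h) :
    z * u ∈ Q (gam g h)⁻¹ ↔ z ∈ Q (gam g h)⁻¹ := by
  induction u using red_ind generalizing z with
  | h1 => simp
  | h2 l y hy ih =>
    have m1 : L l ∈ Fh g h := L_mem_Fh (hu l (by simp [toWord_L_mul hy]))
    have m2 : z * L l ∉ Fh g h := fun e => hz (by simpa using mul_mem e (inv_mem m1))
    rw [← mul_assoc, ih (by simpa using mul_mem (inv_mem m1) hu) m2]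
    constructor
    · intro e; by_contra e'
      obtain ⟨⟨n, hn⟩, -⟩ := edge_gam h1 h2 (l := linv l) e (by simpa [L_linv] using e')
      exact m2 (hn ▸ zpow_mem (gam_mem_Fh le_rfl h2) n)
    · intro e; by_contra e'
      obtain ⟨⟨n, hn⟩, -⟩ := edge_gam h1 h2 e e'
      exact hz (hn ▸ zpow_mem (gam_mem_Fh le_rfl h2) n)

lemma ends_gam {x : F g} (hx : x ∈ Ends (Q (gam g h)⁻¹)) : x ∈ Fh g h := by
  obtain ⟨l, hl⟩ := hx
  by_cases hx : x ∈ Q (gam g h)⁻¹
  · obtain ⟨⟨n, hn⟩, -⟩ := edge_gam h1 h2 (l := l) hx (by tauto)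
    exact hn ▸ zpow_mem (gam_mem_Fh le_rfl h2) n
  · obtain ⟨⟨n, hn⟩, e⟩ := edge_gam h1 h2 (x := x * L l) (l := linv l) (by by_contra e; tauto)
      (by simpa [L_linv] using hx)
    have := mul_mem (hn ▸ zpow_mem (gam_mem_Fh le_rfl h2) n) (L_mem_Fh e)
    simpa [L_linv] using this

lemma disj_gam {t : F g} (ht : t ∈ Fh g h) (ht' : ¬ ∃ n : ℤ, t = gam g h ^ n) {x : F g}
    (a1 : x ∈ Q (gam g h)⁻¹) : t * x ∉ Q (gam g h)⁻¹ := by
  intro a2
  obtain ⟨n, hn⟩ := (Q_gam h1 h2 _).1 a1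
  obtain ⟨m, hm⟩ := (Q_gam h1 h2 _).1 a2
  have G := gam_mem_Fh le_rfl h2
  set u := gam g h ^ m * t * gam g h ^ (-n) with hu
  have u1 : u ∈ Fh g h := mul_mem (mul_mem (zpow_mem G m) ht) (zpow_mem G _)
  have u2 : u ≠ 1 := fun e => ht' ⟨n - m, by
    calc t = gam g h ^ (-m) * u * gam g h ^ n := by rw [hu]; group
      _ = _ := by rw [e]; group⟩
  have u3 : hd u ≠ 0 := fun e => u2 (hd_eq_zero.1 e)
  have u4 : hd u⁻¹ ≠ 0 := fun e => u2 (by simpa using hd_eq_zero.1 e)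
  have u5 := hd_Fh u1
  have u6 := hd_Fh (inv_mem u1)
  have := (hd_concat u2 (x := gam g h ^ n * x) (by unfold As at hn; omega)).1
  rw [show u * (gam g h ^ n * x) = gam g h ^ m * (t * x) by rw [hu]; group] at this
  unfold As at hm; omega

omit h1 in
lemma L_ne_gam' (l : Lt g) {k : ℕ} (hk : k ≠ 0) : ¬ ∃ n : ℤ, L l ^ k = gam g h ^ n := by
  rintro ⟨n, hn⟩
  let χ : F g →* Multiplicative ℤ := FreeGroup.lift fun _ => Multiplicative.ofAdd 1
  have : ∀ m ≤ g, χ (gam g m) = 1 := by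
    intro m hm
    induction m with
    | zero => simp
    | succ m ih =>
      have := gam_succ (g := g) ⟨m, hm⟩
      simp only at this
      rw [this]; simp [ih (by omega)]
  have e := congrArg χ hn
  rw [map_zpow, this h h2, one_zpow] at e
  obtain ⟨s, _ | _⟩ := l
  · simp [L_false, χ, hk] at e
  · simp [L_true, χ, hk] at e

omit h1 in
lemma L_ne_gam (l : Lt g) : ¬ ∃ n : ℤ, L l = gam g h ^ n := by
  simpa using L_ne_gam' h2 l one_ne_zero

lemma L_not_mem {l : Lt g} (hl : l.1.1.val < h) : L l ∉ Q (gam g h)⁻¹ := by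
  simpa using disj_gam h1 h2 (L_mem_Fh hl) (L_ne_gam h2 l) (As_mem h1 h2 (y := 1) (Or.inl rfl))

lemma simple_gam : Simple (gam g h) := by
  have one := As_mem h1 h2 (y := 1) (Or.inl rfl)
  have S : Simple (gam g h)⁻¹ := by
    refine ⟨by simpa using gam_ne_one h1 h2, fun t ht => ?_, fun t => ?_⟩
    · obtain ⟨⟨n, hn⟩, -⟩ := edge_gam h1 h2 (l := ((⟨0, by omega⟩, true), true))
        ((ht 1).2 one) (by simpa using mt (ht _).1 (L_not_mem h1 h2 (by simp; omega)))
      exact ⟨-n, by simpa using hn⟩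
    · by_cases ht : t ∈ Fh g h
      · by_cases ht' : ∃ n : ℤ, t⁻¹ = gam g h ^ n
        · obtain ⟨n, hn⟩ := ht'
          rw [show t = (gam g h ^ n)⁻¹ by rw [← hn]; simp,
            show (gam g h ^ n)⁻¹ * (gam g h)⁻¹ * (gam g h ^ n)⁻¹⁻¹ = (gam g h)⁻¹ by group]
          exact not_cross_self _
        · rintro ⟨⟨x, x1, x2⟩, -⟩
          exact disj_gam h1 h2 (inv_mem ht) ht' x1 ((Q_conj' _ _ _).1 x2)
      · exact nc_of_side (fun x hx => side_gam h1 h2 (ends_gam h1 h2 hx) (by simpa using ht))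
          (fun x hx => side_gam h1 h2 (ends_gam h1 h2 hx) ht)
  exact S.of_mem ⟨1, Or.inr (by simp)⟩

lemma isTw_gam {τ : MulAut (F g)} (ht : ∀ x, τ x = tS g h x) : IsTw (gam g h) τ := by
  have S := simple_gam h1 h2
  have ne := S.ne
  have one := As_mem h1 h2 (y := 1) (Or.inl rfl)
  have qi : ∀ x, x ∈ Q (gam g h) ↔ x ∉ Q (gam g h)⁻¹ := fun x => by simp [Q_inv ne]
  refine isTw_of S ht fun κ a1 a2 s => ⟨true, ?_⟩
  by_cases hs : s.1.val < h
  · have nm := L_not_mem h1 h2 (l := (s, true)) hs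
    have nm' := L_not_mem h1 h2 (l := linv (s, true)) hs
    rw [L_linv] at nm'
    rw [a2.two_step S.fam (vx_pv S.fam 1) (vx_pv S.fam _) (h := (gam g h)⁻¹)
      (h' := L (s, true) * gam g h * (L (s, true))⁻¹), a1, L_true]
    · simp [tS, hs, mul_assoc]
    · intro k
      simp only [pv, Set.mem_sdiff, Set.mem_ofPred_eq]
      constructor
      · rintro ⟨⟨⟨t, rfl | rfl⟩, c1⟩, c2⟩
        · simp only [cl_conj (self_mem_cl _), true_and, Q_conj', qi, not_not] at c1 c2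
          obtain ⟨⟨n, hn⟩, -⟩ := edge_gam h1 h2 (l := linv (s, true)) c2
            (by simpa [L_linv] using c1)
          have : t = L (s, true) * gam g h ^ (-n) := by rw [zpow_neg, ← hn]; simp
          right; rw [this]; group
        · simp only [cl_conj (cl_inv (self_mem_cl _)), true_and, Q_conj'] at c1 c2
          obtain ⟨⟨n, hn⟩, -⟩ := edge_gam h1 h2 (l := (s, true)) c1 (by simpa using c2)
          have : t = gam g h ^ (-n) := by rw [zpow_neg, ← hn]; simp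
          left; rw [this]; group
      · rintro (rfl | rfl)
        · exact ⟨⟨cl_inv (self_mem_cl _), one⟩, fun e => nm e.2⟩
        · exact ⟨⟨cl_conj (self_mem_cl _) _, by simpa [Q_conj', qi] using nm'⟩,
            fun e => by simpa [Q_conj', qi, one] using e.2⟩
    · intro x hx
      rw [Q_conj', qi, ← L_linv]
      exact disj_gam h1 h2 (L_mem_Fh hs) (L_ne_gam h2 _) hx
    · intro e
      apply nm'
      rw [e, Q_conj', qi, ← L_linv, ← pow_two]
      simpa using disj_gam h1 h2 (pow_mem (L_mem_Fh (l := linv (s, true)) hs) 2)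
        (L_ne_gam' h2 _ two_ne_zero) one
  · have : pv (cl (gam g h)) (L (s, true)) = pv (cl (gam g h)) 1 := by
      have key : ∀ z, z * L (s, true) ∈ Q (gam g h)⁻¹ ↔ z ∈ Q (gam g h)⁻¹ := by
        intro z
        constructor
        · intro h; by_contra h'
          exact hs (edge_gam h1 h2 (l := linv (s, true)) h (by simpa [L_linv] using h')).2
        · intro h; by_contra h'
          exact hs (edge_gam h1 h2 h h').2
      ext k
      refine and_congr_right ?_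
      rintro ⟨t, rfl | rfl⟩ <;> simp only [Q_conj', qi, key, mul_one]
    rw [this, a1, L_true]; simp [tS, hs]

end

lemma simple_zt (hg : 0 < g) : Simple (zt g) := simple_gam hg le_rfl

lemma Q_zt_inv (hg : 0 < g) (x : F g) : x ∈ Q (zt g)⁻¹ ↔ ∃ n : ℤ, x = zt g ^ n := by
  rw [Q_gam hg le_rfl]
  constructor
  · rintro ⟨n, hn | hn⟩
    · exact ⟨-n, by rw [zpow_neg]; exact eq_inv_of_mul_eq_one_right (hd_eq_zero.1 hn)⟩
    · exact absurd (hd_le _) (not_le.2 hn)
  · rintro ⟨n, rfl⟩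
    exact ⟨-n, Or.inl (by simp)⟩

lemma isTw_zt (hg : 0 < g) : IsTw (zt g) (MulAut.conj (zt g)) := by
  refine isTw_gam hg le_rfl fun x => ?_
  have : (MulAut.conj (zt g)).toMonoidHom = tS g g := FreeGroup.ext_hom _ _ fun s => by
    simp [tS]
  rw [← this]; rfl

theorem IsTwist.exists_isTw (hg : 0 < g) {τ : MulAut (F g)} (H : IsTwist τ) :
    ∃ c, Simple c ∧ IsTw c τ := by
  obtain ⟨φ, h0, H⟩ := H
  have op : OP φ := o_aut hg φ h0
  have key : ∀ c, Simple c → IsTw c (φ⁻¹ * τ * φ) → ∃ c, Simple c ∧ IsTw c τ := fun c S T =>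
    ⟨φ c, S.map op, by simpa [mul_assoc] using T.map S op⟩
  rcases H with ⟨i, H⟩ | ⟨h, h1, h2, H⟩
  · exact key _ (simple_a i) (isTw_a i fun x => by simp [H])
  · exact key _ (simple_gam h1 h2) (isTw_gam h1 h2 fun x => by simp [H])

end Pool.Agent.Lib.MP_294da1_gt
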