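import Pool.Agent.Lib.MP_294da1_gt.Cube

namespace Pool.Agent.Lib.MP_294da1_gt
open FreeGroup hiding map_mul map_inv map_one
open Filter

variable {g : ℕ} {c : F g} {τ : MulAut (F g)}

def IsTw (c : F g) (τ : MulAut (F g)) : Prop :=
  ∃ κ : Set (F g) → F g, κ (pv (cl c) 1) = 1 ∧ Pot (cl c) κ id ∧ ∀ x, τ x = κ (pv (cl c) x) * x

lemma exists_tw_hom (S : Simple c) : ∃ κ : Set (F g) → F g, ∃ σ : F g →* F g,
    κ (pv (cl c) 1) = 1 ∧ Pot (cl c) κ id ∧ ∀ x, σ x = κ (pv (cl c) x) * x := by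
  obtain ⟨κ, h1, P⟩ := exists_pot_nest S.fam S.nest id (fun _ => rfl)
  refine ⟨κ, MonoidHom.mk' (fun x => κ (pv (cl c) x) * x) fun x y => ?_, h1, P, fun _ => rfl⟩
  have := P.equiv S.fam h1 x x (fun _ => rfl) (vx_pv S.fam y)
  rw [act_pv S.fam] at this
  simp only [this]; group

lemma IsTw.unique (S : Simple c) {c' : F g} {τ' : MulAut (F g)} (h : IsTw c τ) (h' : IsTw c' τ')
    (e : cl c' = cl c) : τ = τ' := by
  obtain ⟨κ, a1, a2, a3⟩ := h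
  obtain ⟨κ', b1, b2, b3⟩ := h'
  rw [e] at b1 b2 b3
  ext1 x
  rw [a3, b3]
  congr 1
  refine toward S.fam (vx_pv S.fam 1) (R := fun v => κ v = κ' v) (a1.trans b1.symm) ?_
    (vx_pv S.fam x)
  intro v h hv hm _ e
  rw [a2 v h hv hm, b2 v h hv hm] at e
  exact mul_right_cancel e

lemma image_cl (φ : MulAut (F g)) (c : F g) : φ '' cl c = cl (φ c) := by
  ext k
  constructor
  · rintro ⟨_, ⟨t, rfl | rfl⟩, rfl⟩
    · exact ⟨φ t, Or.inl (by simp)⟩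
    · exact ⟨φ t, Or.inr (by simp)⟩
  · rintro ⟨t, rfl | rfl⟩
    · exact ⟨_, ⟨φ.symm t, Or.inl rfl⟩, by simp⟩
    · exact ⟨_, ⟨φ.symm t, Or.inr rfl⟩, by simp⟩

lemma OP.inv {φ : MulAut (F g)} (H : OP φ) : OP φ⁻¹ := fun x y z => by
  rw [← H]; simp

lemma OP.mul {φ ψ : MulAut (F g)} (H : OP φ) (H' : OP ψ) : OP (φ * ψ) := fun x y z => by
  simp only [MulAut.mul_apply]; rw [H, H']

lemma OP.hQ {φ : MulAut (F g)} (H : OP φ) : ∀ h x, φ.toEquiv x ∈ Q (φ h) ↔ x ∈ Q h := H.mem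

lemma Simple.map (S : Simple c) {φ : MulAut (F g)} (H : OP φ) : Simple (φ c) := by
  refine ⟨by simpa using S.ne, fun t ht => ?_, fun t h => ?_⟩
  · obtain ⟨t, rfl⟩ := φ.surjective t
    obtain ⟨n, rfl⟩ := S.prim t fun x => by rw [← H.mem, ← H.mem c x, map_mul, ht]
    exact ⟨n, by simp⟩
  · obtain ⟨t, rfl⟩ := φ.surjective t
    apply S.nc t
    rw [← cross_map φ φ.toEquiv H.hQ]
    simpa using h

lemma IsTw.map (S : Simple c) (h : IsTw c τ) {φ : MulAut (F g)} (H : OP φ) :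
    IsTw (φ c) (φ * τ * φ⁻¹) := by
  obtain ⟨κ, a1, a2, a3⟩ := h
  have e : ∀ x, (φ⁻¹ : MulAut (F g)) '' pv (cl (φ c)) x = pv (cl c) (φ⁻¹ x) := by
    intro x
    have := pv_map (H := cl (φ c)) H.inv.hQ x
    rw [this, image_cl]; simp
  refine ⟨fun v => φ (κ ((φ⁻¹ : MulAut (F g)) '' v)), by simp only [e]; simp [a1], ?_, ?_⟩
  · intro v h hv hm
    have hv' := hv.map H.inv.hQ (S.map H).fam
    rw [image_cl, MulAut.inv_apply_self] at hv'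
    simp only
    rw [flp_map, a2 _ _ hv' (hm.map H.inv.hQ)]
    simp
  · intro x
    simp only [MulAut.mul_apply, e, a3, map_mul, MulAut.apply_inv_self]

lemma mn_unique {H u : Set (F g)} (hN : Nest H) (hu : Vx H u) {h h' y : F g} (a : Mn u h)
    (b : Mn u h') (c : y ∉ Q h) (d : y ∉ Q h') : h = h' := by
  obtain ⟨x, x1, x2⟩ := hu.meet _ a.1 _ b.1
  rcases comparable (hN _ (hu.sub a.1) _ (hu.sub b.1)) x1 x2 c d with e | e
  · exact b.2 _ a.1 e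
  · exact (a.2 _ b.1 e).symm

/-- `T` fixes the region `u` and turns everything beyond its walls -/
def Turn (c : F g) (u : Set (F g)) (T : F g → F g) : Prop :=
  ∀ x, (u = pv (cl c) x ∧ T x = x) ∨ ∃ h, Mn u h ∧ x ∉ Q h ∧ T x ∉ Q h ∧
    ∀ p ∈ Q h, o p (T x) (h⁻¹ * x) ∨ T x = h⁻¹ * x

lemma IsTw.lift (S : Simple c) (h : IsTw c τ) {u : Set (F g)} (hu : Vx (cl c) u) :
    ∃ k, (u = pv (cl c) 1 → k = 1) ∧ Turn c u (fun x => k * τ x) ∧
      ∀ t, ∃ l : List (F g), l.Nodup ∧ (∀ m, m ∈ l ↔ m ∈ act t u \ u) ∧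
        k * τ t * k⁻¹ = l.prod * t := by
  obtain ⟨κ, a1, a2, a3⟩ := h
  refine ⟨(κ u)⁻¹, fun e => by simp [e, a1], fun x => ?_, fun t => ?_⟩
  · refine toward S.fam (vx_pv S.fam x) (R := fun u => (u = pv (cl c) x ∧ (κ u)⁻¹ * τ x = x) ∨
      ∃ h, Mn u h ∧ x ∉ Q h ∧ (κ u)⁻¹ * τ x ∉ Q h ∧ ∀ p ∈ Q h,
        o p ((κ u)⁻¹ * τ x) (h⁻¹ * x) ∨ (κ u)⁻¹ * τ x = h⁻¹ * x) (Or.inl ⟨rfl, by simp [a3]⟩) ?_ hu
    intro u h hu hm hh ih
    have hc := hu.sub hm.1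
    have n := S.fam.ne _ hc
    have hx : x ∉ Q h := fun e => hh ⟨hc, e⟩
    have e : (κ u)⁻¹ * τ x = h⁻¹ * ((κ (flp u h))⁻¹ * τ x) := by
      rw [a2 u h hu hm]; simp [mul_assoc]
    refine Or.inr ⟨h, hm, hx, ?_⟩
    rw [e]
    rcases ih with ⟨-, ih⟩ | ⟨h', m', x', t', ih⟩
    · rw [ih]; exact ⟨mt (Q_self' _ _).1 hx, fun _ _ => Or.inr rfl⟩
    · have hv' := hu.flp S.fam hm
      have c' := hv'.sub m'.1
      have n' := S.fam.ne _ c'
      have m2 : h' ∈ u ∧ h' ≠ h := by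
        rcases m'.1 with e | e
        · rw [e, Q_inv n] at x'; exact absurd hx x'
        · exact e
      obtain ⟨y, y1, y2⟩ := hu.meet _ hm.1 _ m2.1
      have hs : Q h ⊆ Q h' := (comparable (S.nest _ hc _ c') y1 y2 hx x').resolve_right
        fun e => m2.2 (hm.2 _ m2.1 e)
      have t2 : (κ (flp u h))⁻¹ * τ x ∉ Q h := fun e => t' (hs e)
      refine ⟨mt (Q_self' _ _).1 t2, fun p hp => Or.inl ?_⟩
      have s1 : o p (h'⁻¹ * x) x := Q_step (by simpa using n') ((Q_inv n').2 x')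
        (by simpa [Q_inv n'] using hs hp)
      have s2 : o p ((κ (flp u h))⁻¹ * τ x) x := by
        rcases ih p (hs hp) with e | e
        · exact o_trans e s1
        · rwa [e]
      simpa using Q_mono (h := h⁻¹) (by simpa using n) ((Q_inv n).2 t2) ((Q_inv n).2 hx)
        (by simpa [Q_inv n] using hp) 1 s2
  · obtain ⟨l, l1, l2, l3⟩ := a2.list S.fam hu (hu.act S.fam t)
    refine ⟨l, l1, l2, ?_⟩
    rw [a2.equiv S.fam a1 t t (fun _ => rfl) hu, ← a3, List.map_id] at l3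
    rw [← mul_inv_eq_iff_eq_mul, ← inv_mul_eq_iff_eq_mul.2 l3]; group

lemma Turn.step (S : Simple c) {u : Set (F g)} (hu : Vx (cl c) u) {T : F g → F g}
    (hT : Turn c u T) {h x : F g} (hm : Mn u h) (hx : x ∉ Q h) :
    T x ∉ Q h ∧ ∀ p ∈ Q h, (o p (T x) (h⁻¹ * x) ∨ T x = h⁻¹ * x) ∧ o p (T x) x := by
  rcases hT x with ⟨e, -⟩ | ⟨h', a1, a2, a3, a4⟩
  · have := hm.1; rw [e] at this; exact absurd this.2 hx
  obtain rfl := mn_unique S.nest hu hm a1 hx a2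
  have n := S.fam.ne _ (hu.sub hm.1)
  refine ⟨a3, fun p hp => ⟨a4 p hp, ?_⟩⟩
  have s1 : o p (h⁻¹ * x) x := Q_step (by simpa using n) ((Q_inv n).2 hx)
    (by simpa [Q_inv n] using hp)
  rcases a4 p hp with e | e
  · exact o_trans e s1
  · rwa [e]

lemma IsTw.turn (S : Simple c) (h : IsTw c τ) : Turn c (pv (cl c) 1) τ := by
  obtain ⟨k, k1, k2, -⟩ := h.lift S (vx_pv S.fam 1)
  simpa [k1 rfl] using k2

lemma IsTw.le (S : Simple c) (h : IsTw c τ) (x : F g) : o 1 (τ x) x ∨ τ x = x := by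
  rcases h.turn S x with ⟨-, e⟩ | ⟨k, a1, a2, -⟩
  · exact Or.inr e
  · exact Or.inl (((h.turn S).step S (vx_pv S.fam 1) a1 a2).2 1 a1.1.2).2

lemma exists_mn_pv (S : Simple c) : ∃ h, Mn (pv (cl c) 1) h := by
  by_cases e : 1 ∈ Q c
  · obtain ⟨k, hk, -⟩ := (vx_pv S.fam 1).exists_mn S.fam (h := c) ⟨self_mem_cl c, e⟩
    exact ⟨k, hk⟩
  · obtain ⟨k, hk, -⟩ := (vx_pv S.fam 1).exists_mn S.fam (h := c⁻¹)
      ⟨cl_inv (self_mem_cl c), (Q_inv S.ne).2 e⟩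
    exact ⟨k, hk⟩

lemma IsTw.exists_lt (S : Simple c) (h : IsTw c τ) : ∃ x, o 1 (τ x) x := by
  obtain ⟨k, hk⟩ := exists_mn_pv S
  obtain ⟨x, hx⟩ := exists_not_Q (S.fam.ne _ hk.1.1)
  exact ⟨x, (((h.turn S).step S (vx_pv S.fam 1) hk hx).2 1 hk.1.2).2⟩

lemma IsTw.fix (h : IsTw c τ) {x : F g} (e : pv (cl c) x = pv (cl c) 1) : τ x = x := by
  obtain ⟨κ, a1, -, a3⟩ := h
  rw [a3, e, a1, one_mul]

lemma IsTw.op (hg : 0 < g) (S : Simple c) (h : IsTw c τ) : OP τ := by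
  refine o_aut hg τ (h.fix ?_)
  ext k
  refine and_congr_right fun hk => ?_
  simpa using Q_zt (S.fam.ne _ hk) 1

lemma IsTw.wall (S : Simple c) (h : IsTw c τ) {k : F g} (hk : Mn (pv (cl c) 1) k) (y : F g) :
    τ y ∈ Q k⁻¹ ↔ y ∈ Q k⁻¹ := by
  have n := S.fam.ne _ hk.1.1
  rw [Q_inv n, Q_inv n]
  refine ⟨fun a => ?_, fun a => ((h.turn S).step S (vx_pv S.fam 1) hk a).1⟩
  rcases h.turn S y with ⟨-, e⟩ | ⟨k', a1, a2, a3, -⟩
  · rwa [e] at a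
  · rwa [mn_unique S.nest (vx_pv S.fam 1) hk a1 a a3]

lemma det_aux (S : Simple c) (h : IsTw c τ) (op : OP τ) {k x : F g} (hk : Mn (pv (cl c) 1) k)
    (hx : x ∈ Q k⁻¹) {J : Set (F g)} (hJ : Arc J) (h1 : 1 ∉ J) (hxJ : x ∈ J)
    (inv : ∀ y, τ y ∈ J ↔ y ∈ J) : Q k⁻¹ ⊆ J := by
  have n := S.fam.ne _ hk.1.1
  have n' : k⁻¹ ≠ 1 := by simpa using n
  have p1 : 1 ∉ Q k⁻¹ := by simpa [Q_inv n] using hk.1.2
  have pw : ∀ {J : Set (F g)}, (∀ y, τ y ∈ J ↔ y ∈ J) → ∀ (m : ℕ) y, (τ ^ m) y ∈ J ↔ y ∈ J := by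
    intro J inv m
    induction m with
    | zero => simp
    | succ m ih => intro y; rw [pow_succ', MulAut.mul_apply, inv, ih]
  have key : ∀ (m : ℕ), ∀ y ∈ Q k⁻¹, o 1 ((τ ^ m) y) (k⁻¹ ^ m * y) ∨ (τ ^ m) y = k⁻¹ ^ m * y := by
    intro m y hy
    induction m with
    | zero => simp
    | succ m ih =>
      have a := (pw (h.wall S hk) m y).2 hy
      have b := (((h.turn S).step S (vx_pv S.fam 1) hk ((Q_inv n).1 a)).2 1 hk.1.2).1
      rw [pow_succ', MulAut.mul_apply, pow_succ', mul_assoc]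
      rcases ih with ih | ih
      · have d := Q_mono n' a ((Q_pow _ _ m).2 hy) p1 1 ih
        rw [zpow_one] at d
        rcases b with b | b
        · exact Or.inl (o_trans b d)
        · exact Or.inl (b ▸ d)
      · rwa [← ih]
  have cof : ∀ y ∈ Q k⁻¹, ∀ z ∈ Q k⁻¹, ∃ m : ℕ, o 1 ((τ ^ m) y) z := by
    intro y hy z hz
    obtain ⟨m, hm⟩ := (Q_cof n' hy hz p1).exists
    rcases key m y hy with e | e
    · exact ⟨m, o_trans e hm⟩
    · exact ⟨m, e ▸ hm⟩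
  have opm : ∀ m : ℕ, OP (τ ^ m) := by
    intro m
    induction m with
    | zero => intro x y z; simp
    | succ m ih => rw [pow_succ]; exact ih.mul op
  intro y hy
  obtain ⟨m, hm⟩ := cof x hx y hy
  obtain ⟨m', hm'⟩ := cof y hy x hx
  refine hJ.conv h1 ((pw inv m x).2 hxJ) (x' := (τ ^ m')⁻¹ x) ((pw inv m' _).1 (by simpa)) hm ?_
  rw [← opm m']; simpa using hm'

theorem IsTw.det (hg : 0 < g) (S : Simple c) (h : IsTw c τ) {c' : F g} (S' : Simple c')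
    (h' : IsTw c' τ) : cl c = cl c' := by
  obtain ⟨k, hk⟩ := exists_mn_pv S
  have n := S.fam.ne _ hk.1.1
  obtain ⟨x, hx⟩ := exists_not_Q n
  have lt := (((h.turn S).step S (vx_pv S.fam 1) hk hx).2 1 hk.1.2).2
  rcases h'.turn S' x with ⟨-, e⟩ | ⟨k', hk', hx', -⟩
  · exact absurd e (o_ne23 lt)
  have n' := S'.fam.ne _ hk'.1.1
  have op := h.op hg S
  have a := det_aux S h op hk ((Q_inv n).2 hx) (Q_arc (h := k'⁻¹) (by simpa using n'))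
    (by simpa [Q_inv n'] using hk'.1.2) ((Q_inv n').2 hx') (h'.wall S' hk')
  have b := det_aux S' h' op hk' ((Q_inv n').2 hx') (Q_arc (h := k⁻¹) (by simpa using n))
    (by simpa [Q_inv n] using hk.1.2) ((Q_inv n).2 hx) (h.wall S hk)
  have := Q_inj (by simpa using n) (S.fam.prim _ (cl_inv hk.1.1)) (S'.fam.prim _ (cl_inv hk'.1.1))
    (a.antisymm b)
  rw [← cl_eq hk.1.1, ← cl_eq hk'.1.1, inv_inj.1 this]

lemma SD.exists_cut {H : Set (F g)} (hH : Fam H) {t h : F g} (hh : h ∈ H) (s : SD t h) (x : F g) :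
    ∃ j : ℤ, t ^ j * x ∈ Q h ∧ t ^ (j - 1) * x ∉ Q h := by
  obtain ⟨j, j1, j2⟩ := Int.exists_least_of_bdd (P := fun j => t ^ j * x ∈ Q h) (by
    obtain ⟨n, hn⟩ := s.escape hH hh x
    refine ⟨-n, fun z hz => ?_⟩
    by_contra hc
    exact hn (by simpa using s.zpow_mem (not_le.1 hc).le hz)) (by
    obtain ⟨n, hn⟩ := s.absorb hH hh x
    exact ⟨n, by simpa using hn⟩)
  exact ⟨j, j1, fun e => by have := j2 _ e; omega⟩

/-- a twist moves every wall it crosses to a wall crossing it -/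
theorem IsTw.move (hg : 0 < g) (S : Simple c) (h : IsTw c τ) {b : F g} (Sb : Simple b) {m : F g}
    (hm : m ∈ cl c) (cr : Cross b m) : ∃ k, Cross (k * τ b * k⁻¹) b := by
  obtain ⟨x, hx⟩ := Q_nonempty Sb.ne
  have hu := vx_ax S.fam S.nest Sb.ne hx
  obtain ⟨k, -, T, -⟩ := h.lift S hu
  have op := h.op hg S
  have hQ : ∀ b y, k * τ y ∈ Q (k * τ b * k⁻¹) ↔ y ∈ Q b := fun b y => by rw [Q_conj, op.mem]
  have key : ∀ b', (b' = b ∨ b' = b⁻¹) → (∃ y ∈ Q b', k * τ y ∈ Q b') ∧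
      ∃ y, y ∉ Q b' ∧ k * τ y ∈ Q b' := by
    intro b' hb'
    have Sb' : Simple b' := by
      rcases hb' with rfl | rfl
      · exact Sb
      · exact Sb.of_mem (cl_inv (self_mem_cl b))
    have crx : ∀ m, Cross b' m ↔ Cross b m := by
      intro m
      rcases hb' with rfl | rfl
      · rfl
      · exact ⟨fun e => by simpa using e.inv_left (by simpa using Sb.ne),
          fun e => e.inv_left Sb.ne⟩
    obtain ⟨m1, a1, a2⟩ : ∃ m1 ∈ cl c, SD b' m1 := by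
      rcases (S.of_mem hm).cross_sd Sb'.ne ((crx m).2 cr) with e | e
      · exact ⟨m, hm, e⟩
      · exact ⟨m⁻¹, cl_inv hm, by simpa using e.inv (S.fam.ne _ hm)⟩
    obtain ⟨n, hn⟩ := a2.absorb S.fam a1 x
    have a3 := a2.conj_zpow (-n)
    have a4 := cl_conj a1 (b' ^ (-n : ℤ))
    have c3 := a3.cross S.fam a4
    obtain ⟨h0, m0, s0⟩ := hu.exists_mn S.fam (h := b' ^ (-n : ℤ) * m1 * (b' ^ (-n : ℤ))⁻¹)
      ⟨a4, Or.inl ⟨(crx _).1 c3, by rw [Q_conj']; simpa using hn⟩⟩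
    have c0 := hu.sub m0.1
    have n0 := S.fam.ne _ c0
    have cr0 : Cross b' h0 := by
      rw [crx]
      rcases m0.1.2 with e | ⟨-, e | e⟩
      · exact e.1
      · obtain ⟨y, y1, y2⟩ := ((crx _).1 c3).2.1; exact absurd (s0 (e y1)) y2
      · obtain ⟨y, y1, y2⟩ := ((crx _).1 c3).2.2.2; exact absurd (s0 (e.1 y1)) y2
    have sd0 : SD b' h0 := by
      refine ((S.of_mem c0).cross_sd Sb'.ne cr0).resolve_right fun e => ?_
      obtain ⟨y, hy⟩ := Q_nonempty n0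
      obtain ⟨j, hj⟩ := a3.escape S.fam a4 y
      exact hj (s0 (by simpa using e.pow_mem j hy))
    have sd1 : SD h0⁻¹ b' := sd0.flip Sb' (S.of_mem c0)
    obtain ⟨⟨-, -⟩, ⟨y1, y11, y12⟩, ⟨p, p1, p2⟩, y2, y21, y22⟩ := cr0
    have n0' : h0⁻¹ ≠ 1 := by simpa using n0
    have p3 : p ∉ Q h0⁻¹ := by simpa [Q_inv n0] using p2
    have low : ∀ y, y ∉ Q h0 → h0⁻¹ * y ∈ Q b' → k * τ y ∈ Q b' := by
      intro y hy hy'
      obtain ⟨t1, t2⟩ := T.step S hu m0 hy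
      rcases (t2 p p2).1 with e | e
      · obtain ⟨j, hj⟩ := (Q_cof n0' ((Q_inv n0).2 y12) ((Q_inv n0).2 t1) p3).exists
        exact (Q_arc Sb'.ne).conv p1 (sd1.pow_mem j y11) hy' hj e
      · exact e ▸ hy'
    refine ⟨⟨y1, y11, low y1 y12 (sd1.1 _ y11)⟩, ?_⟩
    obtain ⟨j, j1, j2⟩ := sd1.exists_cut Sb'.fam (self_mem_cl b') y2
    refine ⟨_, j2, low _ ?_ ?_⟩
    · rw [← Q_inv n0, Q_zpow, Q_inv n0]; exact y22
    · rwa [show h0⁻¹ * (h0⁻¹ ^ (j - 1) * y2) = h0⁻¹ ^ j * y2 by group]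
  obtain ⟨⟨y1, a1, a2⟩, y2, a3, a4⟩ := key b (Or.inl rfl)
  obtain ⟨⟨y3, a5, a6⟩, y4, a7, a8⟩ := key b⁻¹ (Or.inr rfl)
  rw [Q_inv Sb.ne] at a5 a6 a7 a8
  exact ⟨k, ⟨_, (hQ _ _).2 a1, a2⟩, ⟨_, (hQ _ _).2 (not_not.1 a7), a8⟩,
    ⟨_, mt (hQ _ _).1 a3, a4⟩, _, mt (hQ _ _).1 a5, a6⟩

theorem commute_nc (hg : 0 < g) {a b : F g} {σ τ : MulAut (F g)} (Sa : Simple a) (Sb : Simple b)
    (ha : IsTw a σ) (hb : IsTw b τ) (e : σ * τ = τ * σ) {m m' : F g} (hm : m ∈ cl a)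
    (hm' : m' ∈ cl b) : ¬ Cross m' m := by
  intro cr
  have op := ha.op hg Sa
  have h1 := hb.map Sb op
  rw [e, mul_inv_cancel_right] at h1
  have h2 := h1.det hg (Sb.map op) Sb hb
  obtain ⟨k, hk⟩ := ha.move hg Sa (Sb.of_mem hm') hm cr
  refine Sb.nest _ (cl_conj ?_ k) _ hm' hk
  rw [← h2, ← image_cl]; exact ⟨m', hm', rfl⟩

lemma IsTw.self (S : Simple c) (h : IsTw c τ) : cl (τ c) = cl c := by
  obtain ⟨x, hx⟩ := Q_nonempty S.ne
  obtain ⟨k, -, -, T⟩ := h.lift S (vx_ax S.fam S.nest S.ne hx)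
  obtain ⟨l, -, l2, l3⟩ := T c
  have : l = [] := List.eq_nil_iff_forall_not_mem.2 fun m hm => by
    have := (ax_diff S.fam).1 ((l2 m).1 hm)
    exact S.nest _ (self_mem_cl c) _ this.1 this.2.1
  subst this
  refine cl_eq ⟨k⁻¹, Or.inl ?_⟩
  simp only [List.prod_nil, one_mul] at l3
  calc τ c = k⁻¹ * (k * τ c * k⁻¹) * k⁻¹⁻¹ := by group
    _ = _ := by rw [l3]

end Pool.Agent.Lib.MP_294da1_gt
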