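import Pool.Agent.Lib.MP_294da1_gt.Flag

namespace Pool.Agent.Lib.MP_294da1_gt
open FreeGroup hiding map_mul map_inv map_one
open Filter

variable {g n : ℕ}

namespace Cfg
variable {C : Cfg g n}

structure Lev (lv : C.Fl → F g → ℤ) : Prop where
  inv : ∀ (t : F g) e z, lv (t • e) (t * z) = lv e z
  shift : ∀ e z (m : ℤ), e.1.1 = pv C.H z → lv e (z * zt g ^ m) = lv e z + m
  cross : ∀ e e' z, e.1.1 = pv C.H z → e'.1.1 = pv C.H z → Cross e.1.2 e'.1.2 →
    |lv e z - lv e' z| ≤ 2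

def Close (lv : C.Fl → F g → ℤ) (e e' : C.Fl) : Prop :=
  e.1.1 = e'.1.1 ∧ ∀ z, e.1.1 = pv C.H z → |lv e z - lv e' z| ≤ 2

def PR (lv : C.Fl → F g → ℤ) (e e' : C.Fl) : Prop := Close lv e e' ∨ e' = e.rev

variable {lv : C.Fl → F g → ℤ}

lemma Close.symm {e e' : C.Fl} (h : Close lv e e') : Close lv e' e :=
  ⟨h.1.symm, fun z hz => by rw [abs_sub_comm]; exact h.2 z (h.1.trans hz)⟩

lemma PR.symm (e e' : C.Fl) (h : PR lv e e') : PR lv e' e := by
  rcases h with h | rfl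
  · exact Or.inl h.symm
  · exact Or.inr e.rev_rev.symm

lemma pv_zt (z : F g) (m : ℤ) : pv C.H (z * zt g ^ m) = pv C.H z := by
  ext k
  exact and_congr_right fun hk => Q_zt_zpow (C.fam.ne _ hk) z m

namespace Lev
variable (L : Lev lv)
include L

lemma pr_inv (t : F g) (e e' : C.Fl) (h : PR lv e e') : PR lv (t • e) (t • e') := by
  rcases h with h | rfl
  · refine Or.inl ⟨by simp [h.1], fun z hz => ?_⟩
    have := h.2 (t⁻¹ * z) (by
      have := congrArg (act t⁻¹) hz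
      simpa [← act_mul, act_one, act_pv C.fam] using this)
    rwa [← L.inv t e, ← L.inv t e', mul_inv_cancel_left] at this
  · exact Or.inr (e.smul_rev t)

lemma close_of {e e' : C.Fl} {z : F g} (h1 : e.1.1 = pv C.H z) (h2 : e'.1.1 = pv C.H z)
    (h : |lv e z - lv e' z| ≤ 2) : Close lv e e' := by
  refine ⟨h1.trans h2.symm, fun z' hz' => ?_⟩
  obtain ⟨m, hm⟩ := stab_pv' (C := C) (t := z' * z⁻¹) (z := z) (by
    simp [act_pv C.fam, ← hz', h1])
  have : z' = z * zt g ^ m := by rw [← mul_left_inj z⁻¹, hm]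
  rw [this, L.shift _ _ _ h1, L.shift _ _ _ h2]
  simpa using h

lemma close_cross {e e' : C.Fl} (h : e.1.1 = e'.1.1) (c : Cross e.1.2 e'.1.2) : Close lv e e' :=
  ⟨h, fun z hz => L.cross e e' z hz (h ▸ hz) c⟩

lemma rot {e : C.Fl} {z : F g} (h1 : e.1.1 = pv C.H z) (m : ℤ) :
    ((z * zt g ^ m * z⁻¹) • e).1.1 = pv C.H z ∧
      lv ((z * zt g ^ m * z⁻¹) • e) z = lv e z - m := by
  refine ⟨by simp [h1, act_pv C.fam, pv_zt], ?_⟩
  have := L.inv (z * zt g ^ m * z⁻¹) e (z * zt g ^ (-m))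
  rw [show z * zt g ^ m * z⁻¹ * (z * zt g ^ (-m)) = z by group, L.shift _ _ _ h1] at this
  exact this

lemma valence (R : Finset C.Fl) (hR : ∀ e, ∃ t : F g, t • e ∈ R) (e : C.Fl) :
    {e' | PR lv e e'}.Finite ∧ {e' | PR lv e e'}.ncard ≤ 5 * R.card + 1 := by
  choose t ht using hR
  obtain ⟨d, d1, d2⟩ : ∃ d : C.Fl → ℤ, (∀ e', Close lv e e' → d e' ∈ Finset.Icc (-2 : ℤ) 2) ∧
      ∀ (s : F g) e', Close lv e e' → Close lv e (s • e') → d (s • e') = d e' → s = 1 := by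
    by_cases hp : ∃ z, e.1.1 = pv C.H z
    · obtain ⟨z, hz⟩ := hp
      refine ⟨fun e' => lv e z - lv e' z, fun e' h => by simpa [abs_le] using h.2 z hz,
        fun s e' a b c => ?_⟩
      have a' := a.1.symm.trans hz
      obtain ⟨m, rfl⟩ := stab_pv' (C := C) (t := s) (z := z) (by
        rw [← a', ← smul_fst, ← b.1, a.1])
      simp only [(L.rot a' m).2] at c
      simp [show m = 0 by omega]
    · refine ⟨fun _ => 0, fun _ _ => by simp, fun s e' a b _ => ?_⟩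
      by_contra hs
      exact hp (C.stab e.2.1 hs (by rw [a.1, ← smul_fst, ← b.1, a.1]))
  have inj : Set.InjOn (fun e' => (t e' • e', d e')) {e' | Close lv e e'} := by
    intro a ha b hb h
    have h1 : t a • a = t b • b := congrArg Prod.fst h
    have h2 : d a = d b := congrArg Prod.snd h
    have h3 : a = ((t a)⁻¹ * t b) • b := by rw [mul_smul, ← h1]; simp
    have h4 := d2 ((t a)⁻¹ * t b) b hb (by rw [← h3]; exact ha) (by rw [← h3]; exact h2)
    rw [h3, h4, one_smul]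
  have mp : ∀ e' ∈ {e' | Close lv e e'}, (t e' • e', d e') ∈
      ((R ×ˢ Finset.Icc (-2 : ℤ) 2 : Finset _) : Set (C.Fl × ℤ)) := fun e' h => by
    simpa using ⟨ht e', by simpa using d1 e' h⟩
  have fin : {e' | Close lv e e'}.Finite :=
    Set.Finite.of_finite_image ((Finset.finite_toSet _).subset (by
      rintro _ ⟨e', h, rfl⟩; exact mp e' h)) inj
  have c := Set.ncard_le_ncard_of_injOn _ mp inj (Finset.finite_toSet _)
  rw [Set.ncard_coe_finset, Finset.card_product] at c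
  have e1 : {e' | PR lv e e'} = insert e.rev {e' | Close lv e e'} := by
    ext; simp [PR, or_comm]
  rw [e1]
  refine ⟨fin.insert _, (Set.ncard_insert_le _ _).trans ?_⟩
  simp at c; omega

lemma fiber {e e' : C.Fl} (h : e.1.1 = e'.1.1) : ∃ m, Wk (PR lv) m e e' := by
  by_cases hp : ∃ z, e.1.1 = pv C.H z
  swap
  · exact ⟨1, Wk.one (Or.inl ⟨h, fun z hz => absurd ⟨z, hz⟩ hp⟩)⟩
  obtain ⟨z, hz⟩ := hp
  have st : ∀ m m' : ℤ, |m - m'| ≤ 2 →
      PR lv ((z * zt g ^ m * z⁻¹) • e) ((z * zt g ^ m' * z⁻¹) • e) := fun m m' hm =>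
    Or.inl (L.close_of (L.rot hz m).1 (L.rot hz m').1 (by
      rw [(L.rot hz m).2, (L.rot hz m').2, abs_sub_comm]; convert hm using 2; ring))
  have key : ∀ m : ℤ, ∃ k, Wk (PR lv) k e ((z * zt g ^ m * z⁻¹) • e) := by
    intro m
    induction m using Int.induction_on with
    | zero => exact ⟨0, by simpa using Wk.refl _ _⟩
    | succ m ih => obtain ⟨k, hk⟩ := ih; exact ⟨_, hk.trans (Wk.one (st _ _ (by simp)))⟩
    | pred m ih => obtain ⟨k, hk⟩ := ih; exact ⟨_, hk.trans (Wk.one (st _ _ (by simp)))⟩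
  obtain ⟨k, hk⟩ := key (lv e z - lv e' z)
  exact ⟨_, hk.trans (Wk.one (Or.inl (L.close_of (L.rot hz _).1 (h ▸ hz)
    (by simp [(L.rot hz _).2]))))⟩

lemma conn (e0 e : C.Fl) : ∃ m, Wk (PR lv) m e0 e := by
  refine toward C.fam e0.2.1 (R := fun v => ∀ e : C.Fl, e.1.1 = v → ∃ m, Wk (PR lv) m e0 e)
    (fun e h => L.fiber h.symm) ?_ e.2.1 e rfl
  intro v h hv hm _ ih e he
  obtain ⟨a, ha⟩ := ih (Fl.rev ⟨(v, h), hv, hm⟩) rfl
  obtain ⟨b, hb⟩ := L.fiber (e := ⟨(v, h), hv, hm⟩) he.symm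
  exact ⟨_, (ha.trans (Wk.one (Or.inr (Fl.rev_rev _).symm))).trans hb⟩

lemma sc (μ : C.Fl → C.Fl → F g) (H : ∀ e γ, WkV (PR lv) μ 8 e e γ → γ = 1) :
    ∃ Φ : C.Fl → F g, ∀ e e', PR lv e e' → Φ e' = Φ e * μ e e' := by
  classical
  have r2 : ∀ e e', PR lv e e' → μ e' e = (μ e e')⁻¹ := fun e e' p => by
    have := H _ _ (.step p (.step (PR.symm _ _ p) (.refl _ _)))
    rw [mul_one] at this
    exact eq_inv_of_mul_eq_one_right this
  have r3 : ∀ e e' e'', PR lv e e' → PR lv e' e'' → PR lv e e'' → μ e e'' = μ e e' * μ e' e'' :=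
    fun e e' e'' p q r => by
      have := H _ _ (.step p (.step q (.step (PR.symm _ _ r) (.refl _ _))))
      rw [r2 _ _ r, mul_one, ← mul_assoc, mul_inv_eq_one] at this
      exact this.symm
  have fib : ∀ v, ∃ φ : C.Fl → F g, ∀ e e', e.1.1 = v → Close lv e e' → φ e' = φ e * μ e e' := by
    intro v
    by_cases ne : ∃ e1 : C.Fl, e1.1.1 = v
    swap
    · exact ⟨fun _ => 1, fun e _ h => absurd ⟨e, h⟩ ne⟩
    obtain ⟨e1, rfl⟩ := ne
    by_cases hp : ∃ z, e1.1.1 = pv C.H z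
    swap
    · refine ⟨μ e1, fun e e' h c => r3 _ _ _ (Or.inl ⟨h.symm, fun z hz => absurd ⟨z, hz⟩ hp⟩)
        (Or.inl c) (Or.inl ⟨h.symm.trans c.1, fun z hz => absurd ⟨z, hz⟩ hp⟩)⟩
    obtain ⟨z, hz⟩ := hp
    set E : ℤ → C.Fl := fun k => (z * zt g ^ (lv e1 z - k) * z⁻¹) • e1 with hE
    have E1 : ∀ k, (E k).1.1 = pv C.H z := fun k => (L.rot hz _).1
    have E2 : ∀ k, lv (E k) z = k := fun k => by simp [hE, (L.rot hz _).2]
    have cl : ∀ k (e : C.Fl), e.1.1 = pv C.H z → |k - lv e z| ≤ 2 → PR lv (E k) e :=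
      fun k e h a => Or.inl (L.close_of (E1 k) h (by rwa [E2]))
    have st : ∀ k k', |k - k'| ≤ 2 → PR lv (E k) (E k') := fun k k' a =>
      cl k _ (E1 k') (by rwa [E2])
    obtain ⟨ψ, hψ⟩ : ∃ ψ : ℤ → F g, ∀ k, ψ (k + 1) = ψ k * μ (E k) (E (k + 1)) := by
      refine ⟨fun k => Int.inductionOn' k 0 1 (fun k _ x => x * μ (E k) (E (k + 1)))
        (fun k _ x => x * (μ (E (k - 1)) (E k))⁻¹), fun k => ?_⟩
      rcases le_or_gt 0 k with h | h
      · exact Int.inductionOn'_add_one h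
      · have := Int.inductionOn'_sub_one (motive := fun _ => F g) (zero := 1)
          (succ := fun k _ x => x * μ (E k) (E (k + 1)))
          (pred := fun k _ x => x * (μ (E (k - 1)) (E k))⁻¹) (show k + 1 ≤ 0 by omega)
        simp only [add_sub_cancel_right] at this
        simp [this]
    have up : ∀ k k', k ≤ k' → k' ≤ k + 2 → ψ k' = ψ k * μ (E k) (E k') := by
      intro k k' a b
      obtain rfl | rfl | rfl : k' = k ∨ k' = k + 1 ∨ k' = k + 1 + 1 := by omega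
      · have := r3 _ _ _ (st k' k' (by simp)) (st k' k' (by simp)) (st k' k' (by simp))
        simp [show μ (E k') (E k') = 1 by simpa using this]
      · exact hψ k
      · rw [hψ, hψ, r3 _ _ _ (st k (k + 1) (by simp)) (st (k + 1) (k + 1 + 1) (by simp))
          (st _ _ (by rw [abs_le]; omega)), mul_assoc]
    have all : ∀ k k', |k - k'| ≤ 2 → ψ k' = ψ k * μ (E k) (E k') := by
      intro k k' a
      rcases le_total k k' with b | b
      · exact up k k' b (by rw [abs_le] at a; omega)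
      · rw [up k' k b (by rw [abs_le] at a; omega), r2 _ _ (st k k' a)]; simp
    refine ⟨fun e => ψ (lv e z) * μ (E (lv e z)) e, fun e e' h c => ?_⟩
    have h1 := h.trans hz
    have h2 := c.1.symm.trans h1
    have a := c.2 z h1
    simp only
    rw [all _ _ a, mul_assoc, mul_assoc, ← r3 _ _ _ (st _ _ a) (cl _ _ h2 (by simp)) (cl _ _ h2 a),
      ← r3 _ _ _ (cl _ _ h1 (by simp)) (Or.inl c) (cl _ _ h2 a)]
  choose φ0 hφ0 using fib
  set φ : C.Fl → F g := fun e => φ0 e.1.1 e with hφ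
  have hc : ∀ e e', Close lv e e' → φ e' = φ e * μ e e' := fun e e' c => by
    simp only [hφ, ← c.1]; exact hφ0 _ e e' rfl c
  set N : C.Fl → F g := fun e => φ e * μ e e.rev * (φ e.rev)⁻¹ with hN
  obtain ⟨Ψ, -, hΨ⟩ := exists_pot C.fam (vx_pv C.fam 1)
    (fun v h => if a : Vx C.H v ∧ Mn v h then N ⟨(v, h), a⟩ else 1) (fun v h hv hm => by
      rw [dif_pos (show Vx C.H v ∧ Mn v h from ⟨hv, hm⟩),
        dif_pos (And.intro (hv.flp C.fam hm) (hm.flp C.fam hv))]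
      change N (Fl.rev ⟨(v, h), hv, hm⟩) = _
      simp only [hN, Fl.rev_rev]
      rw [r2 _ _ (Or.inr rfl)]; group) (fun v h h' hv hm hm' c => by
      have n1 := C.fam.ne _ (hv.sub hm.1)
      have n2 := C.fam.ne _ (hv.sub hm'.1)
      rw [dif_pos (And.intro hv hm), dif_pos (And.intro hv hm'),
        dif_pos (And.intro (hv.flp C.fam hm) (hm'.sq n1 c)),
        dif_pos (And.intro (hv.flp C.fam hm') (hm.sq n2 c.symm))]
      set e1 : C.Fl := ⟨(v, h), hv, hm⟩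
      set e2 : C.Fl := ⟨(v, h'), hv, hm'⟩
      set f1 : C.Fl := ⟨(flp v h, h'), hv.flp C.fam hm, hm'.sq n1 c⟩
      set f2 : C.Fl := ⟨(flp v h', h), hv.flp C.fam hm', hm.sq n2 c.symm⟩
      have c1 : Close lv e1 e2 := L.close_cross rfl c
      have c2 : Close lv e1.rev f1 := L.close_cross rfl (c.inv_left n1)
      have c3 : Close lv e2.rev f2 := L.close_cross rfl (c.symm.inv_left n2)
      have c4 : Close lv f1.rev f2.rev := L.close_cross (flp_comm n1 n2 c)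
        ((c.symm.inv_left n2).inv_right n1)
      have oct := H _ _ (.step (Or.inr rfl) (.step (Or.inl c2) (.step (Or.inr rfl)
        (.step (Or.inl c4) (.step (PR.symm _ _ (Or.inr rfl)) (.step (Or.inl c3.symm)
        (.step (PR.symm _ _ (Or.inr rfl)) (.step (Or.inl c1.symm) (.refl _ _)))))))))
      rw [r2 _ _ (Or.inl c3), r2 _ _ (Or.inl c1), r2 f2 _ (Or.inr rfl),
        r2 e2 _ (Or.inr rfl)] at oct
      simp only [hN, hc _ _ c1, hc _ _ c2, hc _ _ c3, hc _ _ c4]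
      have fin := congrArg (fun x => φ e1 * x * (φ e1)⁻¹) oct
      simp only [mul_one, mul_inv_cancel] at fin
      rw [← mul_inv_eq_one, ← fin]
      group)
  refine ⟨fun e => Ψ e.1.1 * φ e, fun e e' p => ?_⟩
  rcases p with c | rfl
  · simp only [c.1, hc _ _ c, mul_assoc]
  · have := hΨ e.1.1 e.1.2 e.2.1 e.2.2
    rw [dif_pos e.2] at this
    change Ψ (flp e.1.1 e.1.2) * _ = _
    rw [this]; simp [hN, mul_assoc]

lemma along {e e' : C.Fl} (h : e.1.2 = e'.1.2) :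
    Wk (PR lv) (3 * (e.1.1 \ e'.1.1).ncard) e e' := by
  refine toward C.fam e'.2.1 (R := fun v => ∀ e : C.Fl, e.1.1 = v → e.1.2 = e'.1.2 →
    Wk (PR lv) (3 * (e.1.1 \ e'.1.1).ncard) e e') (fun e a b => ?_) ?_ e.2.1 e rfl h
  · rw [show e = e' from Subtype.ext (Prod.ext a b)]; exact Wk.refl _ _
  rintro v k hv hm hk ih e rfl b
  have c := agree_nc C.fam hv e'.2.1 e.2.2 (b ▸ e'.2.2) hm.1 hk
  have nk := C.fam.ne _ (hv.sub hm.1)
  have := ih ⟨(flp e.1.1 k, e.1.2), hv.flp C.fam hm, e.2.2.sq nk c.symm⟩ rfl b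
  rw [← flp_ncard C.fam hv e'.2.1 hm.1 hk]
  set e1 : C.Fl := ⟨(e.1.1, k), hv, hm⟩
  set e2 : C.Fl := ⟨(flp e.1.1 k, e.1.2), hv.flp C.fam hm, e.2.2.sq nk c.symm⟩
  have p1 : PR lv e e1 := Or.inl (L.close_cross rfl c)
  have p2 : PR lv e1 e1.rev := Or.inr rfl
  have p3 : PR lv e1.rev e2 := Or.inl (L.close_cross rfl (c.symm.inv_left nk))
  rw [Nat.mul_succ]
  exact Wk.step p1 (.step p2 (.step p3 this))

lemma along_self (e : C.Fl) : Wk (PR lv) (3 * n) e (e.1.2 • e) := by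
  refine (L.along (by simp)).mono (Nat.mul_le_mul_left _ ?_)
  have hv := e.2.1
  have hh := e.mem
  have nh := C.fam.ne _ hh
  have hv' := (e.1.2 • e).2.1
  have sd : ∀ k ∈ e.1.1 \ (e.1.2 • e).1.1, SD e.1.2⁻¹ k := fun k hk => by
    have kH := hv.sub hk.1
    refine ((C.simple_of kH).cross_sd nh (agree_nc C.fam hv hv' e.2.2
      (by simpa using (e.1.2 • e).2.2) hk.1 hk.2)).resolve_left fun s => hk.2 ?_
    rw [smul_fst, mem_act]
    exact hv.up C.fam hk.1 (by simpa using C.fam.conj _ kH e.1.2⁻¹)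
      (by simpa using s.chain (m := -1) (n := 0) (by omega))
  have : Nonempty (Fin n) := ⟨hh.choose⟩
  choose! j hj using fun k (hk : k ∈ C.H) => hk
  have key : ∀ k ∈ e.1.1 \ (e.1.2 • e).1.1, ∀ k' ∈ e.1.1 \ (e.1.2 • e).1.1, ∀ i : ℤ,
      k' = e.1.2⁻¹ ^ i * k * (e.1.2⁻¹ ^ i)⁻¹ → 1 ≤ i → False := fun k hk k' hk' i a b => by
    refine hk.2 ?_
    rw [smul_fst, mem_act]
    exact hv.up C.fam hk'.1 (by simpa using C.fam.conj _ (hv.sub hk.1) e.1.2⁻¹)
      (by rw [a]; simpa using (sd k hk).chain b)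
  have := Set.ncard_le_ncard_of_injOn (t := Set.univ) j (fun _ _ => trivial) (by
    intro k hk k' hk' a
    obtain ⟨i, hi⟩ := C.one_of (C.fam.inv _ hh) (j k) k (hj k (hv.sub hk.1)) k'
      (a ▸ hj k' (hv.sub hk'.1)) (sd k hk) (sd k' hk')
    rcases lt_trichotomy i 0 with h | h | h
    · exact (key k' hk' k hk (-i) (by rw [hi]; group) (by omega)).elim
    · simpa [h] using hi.symm
    · exact (key k hk k' hk' i hi h).elim) Set.finite_univ
  simpa using this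

omit L in
lemma walk_cross {m : ℕ} {e e' : C.Fl} (h : Wk (PR lv) m e e') :
    (e'.1.1 \ e.1.1).ncard ≤ m ∧ ∀ k ∈ e'.1.1 \ e.1.1, ∃ f : C.Fl, f.1.2 = k ∧ Wk (PR lv) m e f := by
  induction h with
  | refl => simp
  | @step m e e1 e' p _ ih =>
    rcases p with c | rfl
    · rw [c.1]
      exact ⟨by omega, fun k hk => (ih.2 k hk).imp fun f hf => ⟨hf.1, .step (Or.inl c) hf.2⟩⟩
    · have sub : e'.1.1 \ e.1.1 ⊆ insert e.1.2⁻¹ (e'.1.1 \ e.rev.1.1) := fun k hk => by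
        by_cases a : k = e.1.2⁻¹
        · exact Or.inl a
        · exact Or.inr ⟨hk.1, fun b => b.elim a fun b => hk.2 b.1⟩
      refine ⟨(Set.ncard_le_ncard sub ((e'.2.1.diff_fin C.fam e.rev.2.1).insert _)).trans
        ((Set.ncard_insert_le _ _).trans (by omega)), fun k hk => ?_⟩
      rcases sub hk with rfl | a
      · exact ⟨e.rev, rfl, .step (Or.inr rfl) (.refl _ _)⟩
      · exact (ih.2 k a).imp fun f hf => ⟨hf.1, .step (Or.inr rfl) hf.2⟩

lemma twist_walk {D : ℕ} {e0 : C.Fl} (h0 : e0.1.1 = pv C.H 1) {y : F g}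
    (h : Wk (PR lv) D e0 (y • e0)) (i) :
    Wk (PR lv) (D * (2 * D + 3 * n) + D) e0 (C.τ i y • e0) := by
  obtain ⟨κ, a1, a2, a3⟩ := C.tw i
  have S := C.simple i
  obtain ⟨l, l1, l2, l3⟩ := a2.list S.fam (vx_pv S.fam 1) (vx_pv S.fam y)
  obtain ⟨w1, w2⟩ := walk_cross h
  simp only [smul_fst, h0, act_pv C.fam, mul_one] at w1 w2
  have sub : ∀ k ∈ l, k ∈ pv C.H y \ pv C.H 1 := fun k hk => by
    obtain ⟨b1, b2⟩ := (l2 k).1 hk
    exact ⟨⟨⟨i, b1.1⟩, b1.2⟩, fun b => b2 ⟨b1.1, b.2⟩⟩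
  have len : l.length ≤ D := by
    classical
    rw [← List.toFinset_card_of_nodup l1, ← Set.ncard_coe_finset]
    exact (Set.ncard_le_ncard (fun k hk => sub k (by simpa using hk))
      ((vx_pv C.fam y).diff_fin C.fam (vx_pv C.fam 1))).trans w1
  have each : ∀ k ∈ l, Wk (PR lv) (2 * D + 3 * n) e0 (k • e0) := fun k hk => by
    obtain ⟨f, rfl, hf⟩ := w2 k (sub k hk)
    exact ((hf.trans (L.along_self f)).trans ((hf.symm PR.symm).smul L.pr_inv _)).mono (by omega)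
  have all : ∀ l : List (F g), (∀ k ∈ l, Wk (PR lv) (2 * D + 3 * n) e0 (k • e0)) →
      Wk (PR lv) (l.length * (2 * D + 3 * n)) e0 (l.prod • e0) := by
    intro l
    induction l with
    | nil => intro _; simpa using Wk.refl _ _
    | cons k l ih =>
      intro hl
      rw [List.prod_cons]
      exact ((hl k (by simp)).mul L.pr_inv (ih fun k' h => hl k' (by simp [h]))).mono
        (by simp [add_mul, add_comm])
  rw [a3, l3, a1, one_mul, List.map_id]
  exact ((all l each).mul L.pr_inv h).mono (Nat.add_le_add_right (Nat.mul_le_mul_right _ len) _)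

end Lev

end Cfg

/-- number of generators -/
def nG (n : ℕ) : ℕ := (2 * n * 4 ^ n) * (5 * (2 * n * 4 ^ n) + 1)

/-- length of words -/
def nW (n : ℕ) : ℕ := (2 * (2 * n * 4 ^ n) + 1) * (2 * (2 * (2 * n * 4 ^ n) + 1) + 3 * n) +
  (2 * (2 * n * 4 ^ n) + 1) + 10

abbrev Wd (n : ℕ) := {w : List (Fin (nG n)) // w.length ≤ nW n}

instance (n : ℕ) : Finite (Wd n) := (List.finite_length_le _ _).to_subtype

abbrev Ty (n : ℕ) := Set (Wd n) × (Fin n → Fin (nG n) → Wd n) × Wd n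

def Real (T : Ty n) (τ : Fin n → MulAut (F g)) : Prop :=
  ∃ y : Fin (nG n) → F g, (∀ w : Wd n, w ∈ T.1 ↔ (w.1.map y).prod = 1) ∧
    (∀ i j, τ i (y j) = ((T.2.1 i j).1.map y).prod) ∧ zt g = (T.2.2.1.map y).prod ∧
    (∀ t, ∃ w : List (Fin (nG n)), (w.map y).prod = t) ∧
    ∀ y' : Fin (nG n) → F g, (∀ w ∈ T.1, (w.1.map y').prod = 1) →
      ∃ θ : F g →* F g, ∀ i, θ (y i) = y' i

theorem Cfg.real (C : Cfg g n) : ∃ T : Ty n, Real T C.τ := by
  obtain ⟨lv, l1, l2, l3⟩ := C.exists_level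
  have L : Cfg.Lev lv := ⟨l1, l2, l3⟩
  obtain ⟨R, R1, R2⟩ := C.exists_orbits
  obtain ⟨e0, h0⟩ : ∃ e0 : C.Fl, e0.1.1 = pv C.H 1 := by
    obtain ⟨i, -⟩ := List.exists_mem_of_ne_nil _ C.wne
    obtain ⟨k, hk⟩ := exists_mn_pv (C.simple i)
    obtain ⟨k', hk', -⟩ := (vx_pv C.fam 1).exists_mn C.fam (h := k) ⟨⟨i, hk.1.1⟩, hk.1.2⟩
    exact ⟨⟨(_, k'), vx_pv C.fam 1, hk'⟩, rfl⟩
  obtain ⟨y, y1, y2, y3⟩ := pres Cfg.free L.pr_inv Cfg.PR.symm e0 (L.conn e0) (2 * n * 4 ^ n)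
    (5 * (2 * n * 4 ^ n) + 1) 8 R R1 R2
    (fun e => ⟨(L.valence R R2 e).1, (L.valence R R2 e).2.trans (by omega)⟩) ⟨_, Or.inr rfl⟩ L.sc
  have ex : ∀ i j, ∃ w : Wd n, C.τ i (y j) = (w.1.map y).prod := fun i j => by
    obtain ⟨w, w1, w2⟩ := y2 _ _ (L.twist_walk h0 (y3 j) i)
    exact ⟨⟨w, w1.trans (by unfold nW; omega)⟩, w2.symm⟩
  choose W hW using ex
  obtain ⟨z, z1, z2⟩ := y2 1 (zt g) (Wk.one (Or.inl (by
    have := L.rot h0 1
    simp only [one_mul, zpow_one, inv_one, mul_one] at this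
    exact L.close_of h0 this.1 (by simp [this.2]))))
  refine ⟨({w | (w.1.map y).prod = 1}, W, ⟨z, z1.trans (by unfold nW; omega)⟩), y,
    fun _ => Iff.rfl, hW, z2.symm, fun t => ?_, fun y' h => y1 y' fun w a b =>
      h ⟨w, a.trans (by unfold nW; omega)⟩ b⟩
  obtain ⟨m, hm⟩ := L.conn e0 (t • e0)
  exact (y2 m t hm).imp fun _ => And.right

theorem Real.transfer {T : Ty n} {τ τ' : Fin n → MulAut (F g)} (h : Real T τ) (h' : Real T τ')
    (w : List (Fin n)) (e : (w.map τ).prod = MulAut.conj (zt g)) :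
    (w.map τ').prod = MulAut.conj (zt g) := by
  obtain ⟨y, -, a2, a3, a4, a5⟩ := h
  obtain ⟨y', b1, b2, b3, b4, -⟩ := h'
  obtain ⟨θ, hθ⟩ := a5 y' fun w hw => (b1 w).1 hw
  have k1 : ∀ u : List (Fin (nG n)), θ (u.map y).prod = (u.map y').prod := fun u => by
    rw [map_list_prod, List.map_map]; congr 2; exact funext hθ
  have k2 : ∀ i x, θ (τ i x) = τ' i (θ x) := fun i x => by
    obtain ⟨u, rfl⟩ := a4 x
    induction u with
    | nil => simp
    | cons j u ih => simp only [List.map_cons, List.prod_cons, map_mul, ih, a2, k1, hθ, b2]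
  have k3 : ∀ (w : List (Fin n)) x, θ ((w.map τ).prod x) = (w.map τ').prod (θ x) := fun w x => by
    induction w with
    | nil => simp
    | cons i w ih => simp [k2, ih]
  ext1 x
  obtain ⟨u, rfl⟩ := b4 x
  have k4 : θ (zt g) = zt g := (congrArg θ a3).trans ((k1 _).trans b3.symm)
  rw [← k1, ← k3, e]; simp [k4]

end Pool.Agent.Lib.MP_294da1_gt
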