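import Pool.Agent.Lib.MP_294da1_gt.Inv

namespace Pool.Agent.Lib.MP_294da1_gt
open FreeGroup hiding map_mul map_inv map_one
open Filter

variable {g : ℕ}

lemma zpow_eq_one' {h : F g} (h1 : h ≠ 1) {n : ℤ} (hn : h ^ n = 1) : n = 0 := by
  by_contra e
  exact h1 ((zpow_left_inj e).1 (hn.trans (one_zpow n).symm))

lemma ne_inv {h : F g} (h1 : h ≠ 1) : h ≠ h⁻¹ := by
  intro e
  have : h ^ (2 : ℤ) = 1 := by rw [zpow_two]; nth_rewrite 2 [e]; simp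
  simpa using zpow_eq_one' h1 this

lemma Q_conj (t h x : F g) : t * x ∈ Q (t * h * t⁻¹) ↔ x ∈ Q h := by
  simp only [Q, Set.mem_ofPred_eq]
  rw [← o_mul t (h * (h * x))]
  simp [mul_assoc]

lemma Q_conj' (t h x : F g) : x ∈ Q (t * h * t⁻¹) ↔ t⁻¹ * x ∈ Q h := by
  rw [← Q_conj t h]; simp

lemma Q_comm {t h : F g} (e : t * h * t⁻¹ = h) (x : F g) : t * x ∈ Q h ↔ x ∈ Q h := by
  rw [← Q_conj t h x, e]

lemma Q_zpow (h x : F g) (n : ℤ) : h ^ n * x ∈ Q h ↔ x ∈ Q h := Q_comm (by group) x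

lemma Q_pow (h x : F g) (n : ℕ) : h ^ n * x ∈ Q h ↔ x ∈ Q h := Q_comm (by group) x

lemma Q_self (h x : F g) : h * x ∈ Q h ↔ x ∈ Q h := Q_comm (by group) x

lemma Q_self' (h x : F g) : h⁻¹ * x ∈ Q h ↔ x ∈ Q h := Q_comm (by group) x

/-- automorphisms preserving the cyclic order -/
def OP (φ : MulAut (F g)) : Prop := ∀ x y z, o (φ x) (φ y) (φ z) ↔ o x y z

lemma OP.mem {φ : MulAut (F g)} (H : OP φ) (h x : F g) : φ x ∈ Q (φ h) ↔ x ∈ Q h := by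
  simp only [Q, Set.mem_ofPred_eq]
  rw [← H (h * (h * x))]
  simp

lemma exists_not_Q {h : F g} (h1 : h ≠ 1) : ∃ p, p ∉ Q h := by
  obtain ⟨p, hp⟩ := Q_nonempty (h := h⁻¹) (by simpa using h1)
  exact ⟨p, (Q_inv h1).1 hp⟩

lemma Q_step' {h : F g} (h1 : h ≠ 1) {x p : F g} (hx : x ∈ Q h) (hp : p ∉ Q h) :
    o p x (h⁻¹ * x) := by
  simpa using Q_step h1 ((Q_self' h x).2 hx) hp

lemma Q_zt {h : F g} (h1 : h ≠ 1) (x : F g) : x * zt g ∈ Q h ↔ x ∈ Q h := by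
  have key : ∀ {h : F g}, h ≠ 1 → x ∈ Q h → x * zt g ∈ Q h := by
    intro h h1 hx
    by_contra hp
    exact adj _ _ (o_cyc (Q_step' h1 hx hp))
  refine ⟨fun hx => ?_, key h1⟩
  by_contra hp
  exact (Q_inv h1).1 (key (by simpa using h1) ((Q_inv h1).2 hp)) hx

lemma Q_zt_zpow {h : F g} (h1 : h ≠ 1) (x : F g) (n : ℤ) : x * zt g ^ n ∈ Q h ↔ x ∈ Q h := by
  induction n using Int.induction_on with
  | zero => simp
  | succ n ih => rw [zpow_add_one, ← mul_assoc, Q_zt h1, ih]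
  | pred n ih => rw [← Q_zt h1, zpow_sub_one, ← ih]; simp [mul_assoc]

lemma Q_mono {h : F g} (h1 : h ≠ 1) {x y p : F g} (hx : x ∈ Q h) (hy : y ∈ Q h) (hp : p ∉ Q h)
    (n : ℤ) (ho : o p x y) : o p (h ^ n * x) (h ^ n * y) :=
  Q_arc h1 ((Q_zpow h x n).2 hx) ((Q_zpow h y n).2 hy) (mt (Q_zpow h p n).1 hp) hp
    ((o_mul _ _ _ _).2 ho)

lemma Q_cof' {h : F g} (h1 : h ≠ 1) {x y p : F g} (hx : x ∈ Q h) (hy : y ∈ Q h) (hp : p ∉ Q h) :
    ∀ᶠ n : ℕ in atTop, o p y ((h ^ n)⁻¹ * x) := by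
  filter_upwards [Q_cof h1 hy hx hp] with n hn
  have := Q_mono h1 ((Q_pow h y n).2 hy) hx hp (-n) hn
  simpa using this

lemma Q_anti {h : F g} (h1 : h ≠ 1) {x p : F g} (hx : x ∈ Q h) (hp : p ∉ Q h) {m n : ℤ}
    (hmn : m < n) : o p (h ^ n * x) (h ^ m * x) := by
  have step : ∀ m : ℤ, o p (h ^ (m + 1) * x) (h ^ m * x) := by
    intro m
    have := Q_step h1 ((Q_zpow h x m).2 hx) hp
    rwa [show h * (h ^ m * x) = h ^ (m + 1) * x by group] at this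
  induction n, (Int.add_one_le_iff.2 hmn) using Int.leInduction with
  | base => exact step m
  | succ n hn ih => exact o_trans (step n) (ih (by omega))

/-- an invariant arc cannot split a side -/
lemma inv_arc {t : F g} (h1 : t ≠ 1) {J : Set (F g)} (hJ : Arc J)
    (hinv : ∀ x, t * x ∈ J ↔ x ∈ J) {x x' : F g} (hx : x ∈ Q t) (hx' : x' ∈ Q t) (h2 : x ∈ J) :
    x' ∈ J := by
  have key : ∀ {J : Set (F g)}, Arc J → (∀ x, t * x ∈ J ↔ x ∈ J) → ∀ {x x' p : F g}, x ∈ Q t →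
      x' ∈ Q t → x ∈ J → p ∉ Q t → p ∉ J → x' ∈ J := by
    intro J hJ hinv x x' p hx hx' h2 hp hp'
    have hpow : ∀ (n : ℕ) x, t ^ n * x ∈ J ↔ x ∈ J := by
      intro n
      induction n with
      | zero => simp
      | succ n ih => intro x; rw [pow_succ', mul_assoc, hinv, ih]
    obtain ⟨n, a, b⟩ := ((Q_cof h1 hx hx' hp).and (Q_cof' h1 hx hx' hp)).exists
    exact hJ.conv hp' ((hpow n x).2 h2) ((hpow n _).1 (by simpa using h2)) a b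
  obtain ⟨p, hp⟩ := exists_not_Q h1
  by_cases hp' : p ∈ J
  · by_contra h3
    exact key hJ.compl (fun x => not_congr (hinv x)) hx' hx h3 hp (by simpa using hp') h2
  · exact key hJ hinv hx hx' h2 hp hp'

lemma Q_zpow_pos {h : F g} (h1 : h ≠ 1) {k : ℤ} (hk : 0 < k) : Q (h ^ k) = Q h := by
  have key : ∀ {h : F g}, h ≠ 1 → ∀ x ∈ Q h, x ∈ Q (h ^ k) := by
    intro h h1 x hx
    obtain ⟨p, hp⟩ := exists_not_Q h1
    have a := Q_anti h1 hx hp hk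
    have b := Q_anti h1 hx hp (show k < k + k by omega)
    rw [zpow_zero, one_mul] at a
    have := o_mid b a
    rwa [zpow_add, mul_assoc] at this
  ext x
  refine ⟨fun hx => ?_, key h1 x⟩
  by_contra hx'
  have := key (h := h⁻¹) (by simpa using h1) x ((Q_inv h1).2 hx')
  rw [inv_zpow, Q_inv (fun e => hk.ne' (zpow_eq_one' h1 e))] at this
  exact this hx

lemma Q_zpow_ne {h : F g} (h1 : h ≠ 1) {k : ℤ} (hk : k ≠ 0) :
    Q (h ^ k) = Q h ∨ Q (h ^ k) = Q h⁻¹ := by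
  rcases lt_or_gt_of_ne hk with hk | hk
  · right
    rw [← Q_zpow_pos (h := h⁻¹) (by simpa using h1) (k := -k) (by omega)]; simp
  · exact Or.inl (Q_zpow_pos h1 hk)

lemma mem_Iv {c x0 y p : F g} (h1 : c ≠ 1) (h0 : x0 ∈ Q c) (hp : p ∉ Q c) :
    y ∈ Iv (c * x0) x0 ↔ y ∈ Q c ∧ o p (c * x0) y ∧ (o p y x0 ∨ y = x0) := by
  have hs := Q_step h1 h0 hp
  constructor
  · rintro (h | h)
    · have hy : y ∈ Q c := by
        by_contra hy
        exact o_asymm h (o_cyc (Q_step h1 h0 hy))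
      have a : o p y x0 := o_cyc (o_trans (o_cyc' hs) (o_cyc' h))
      exact ⟨hy, o_cyc' (o_trans h (o_cyc hs)), Or.inl a⟩
    · rw [Set.mem_ofPred_eq] at h
      subst h
      exact ⟨h0, hs, Or.inr rfl⟩
  · rintro ⟨-, a, b | b⟩
    · exact Or.inl (o_mid a b)
    · exact Or.inr b

lemma exists_lv {c x0 x : F g} (h1 : c ≠ 1) (h0 : x0 ∈ Q c) (hx : x ∈ Q c) :
    ∃ n : ℤ, c ^ n * x ∈ Iv (c * x0) x0 := by
  obtain ⟨p, hp⟩ := exists_not_Q h1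
  obtain ⟨n, hn, hmin⟩ := Int.exists_least_of_bdd
    (P := fun n => o p (c ^ n * x) x0 ∨ c ^ n * x = x0) (by
      obtain ⟨m, hm⟩ := (Q_cof' h1 hx h0 hp).exists
      refine ⟨-m, fun z hz => ?_⟩
      by_contra hc
      have a := Q_anti h1 hx hp (not_le.1 hc)
      rw [zpow_neg, zpow_natCast] at a
      have b := o_trans hm a
      rcases hz with hz | hz
      · exact o_asymm b hz
      · exact o_ne23 b hz.symm)
    (by
      obtain ⟨m, hm⟩ := (Q_cof h1 hx h0 hp).exists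
      exact ⟨m, Or.inl (by simpa using hm)⟩)
  refine ⟨n, (mem_Iv h1 h0 hp).2 ⟨(Q_zpow c x n).2 hx, ?_, hn⟩⟩
  have h2 : ¬ (o p (c ^ (n - 1) * x) x0 ∨ c ^ (n - 1) * x = x0) := fun h => by
    have := hmin _ h; omega
  have hx' := (Q_zpow c x (n - 1)).2 hx
  have h3 : o p x0 (c ^ (n - 1) * x) :=
    (o_total (x := p) (y := x0) (fun e => hp (e ▸ h0)) (fun e => h2 (Or.inr e.symm))
      (fun e => hp (e ▸ hx'))).resolve_right fun h => h2 (Or.inl h)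
  have := Q_mono h1 h0 hx' hp 1 h3
  rwa [zpow_one, show c * (c ^ (n - 1) * x) = c ^ n * x by group] at this

lemma lv_bounds {c x0 y p : F g} (h1 : c ≠ 1) (h0 : x0 ∈ Q c) (hp : p ∉ Q c) {n : ℤ}
    (h : c ^ n * y ∈ Iv (c * x0) x0) :
    y ∈ Q c ∧ o p (c ^ (1 - n) * x0) y ∧ (o p y (c ^ (-n) * x0) ∨ y = c ^ (-n) * x0) := by
  obtain ⟨a, b, d⟩ := (mem_Iv h1 h0 hp).1 h
  refine ⟨(Q_zpow c y n).1 a, ?_, ?_⟩
  · have := Q_mono h1 ((Q_self c x0).2 h0) a hp (-n) b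
    rwa [show c ^ (-n) * (c * x0) = c ^ (1 - n) * x0 by group,
      show c ^ (-n) * (c ^ n * y) = y by group] at this
  · rcases d with d | d
    · have := Q_mono h1 a h0 hp (-n) d
      rw [show c ^ (-n) * (c ^ n * y) = y by group] at this
      exact Or.inl this
    · right; rw [← d]; group

lemma lv_unique {c x0 y : F g} (h1 : c ≠ 1) (h0 : x0 ∈ Q c) {n n' : ℤ}
    (h : c ^ n * y ∈ Iv (c * x0) x0) (h' : c ^ n' * y ∈ Iv (c * x0) x0) : n = n' := by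
  obtain ⟨p, hp⟩ := exists_not_Q h1
  wlog hn : n < n' generalizing n n'
  · by_contra e
    exact e (this h' h (by omega)).symm
  exfalso
  obtain ⟨-, -, a⟩ := lv_bounds h1 h0 hp h
  obtain ⟨-, b, -⟩ := lv_bounds h1 h0 hp h'
  have c1 : o p (c ^ (-n) * x0) y := by
    rcases eq_or_lt_of_le (show 1 - n' ≤ -n by omega) with e | e
    · rwa [← e]
    · exact o_trans (Q_anti h1 h0 hp e) b
  rcases a with a | a
  · exact o_asymm a c1
  · exact o_ne23 c1 a.symm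

lemma lv_gap {c x0 y y' p : F g} (h1 : c ≠ 1) (h0 : x0 ∈ Q c) (hp : p ∉ Q c) {n n' : ℤ}
    (h : c ^ n * y ∈ Iv (c * x0) x0) (h' : c ^ n' * y' ∈ Iv (c * x0) x0) (hn : n + 2 ≤ n')
    {J : Set (F g)} (hJ : Arc J) (hpJ : p ∉ J) (hy : y ∈ J) (hy' : y' ∈ J) :
    ∃ t ∈ J, c * t ∈ J := by
  obtain ⟨-, -, a⟩ := lv_bounds h1 h0 hp h
  obtain ⟨-, b, -⟩ := lv_bounds h1 h0 hp h'
  have c1 : o p (c ^ (-n - 1) * x0) y' := by
    rcases eq_or_lt_of_le (show 1 - n' ≤ -n - 1 by omega) with e | e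
    · rwa [← e]
    · exact o_trans (Q_anti h1 h0 hp e) b
  have c2 : o p (c ^ (-n) * x0) (c ^ (-n - 1) * x0) := Q_anti h1 h0 hp (by omega)
  have c3 : c ^ (-n) * x0 ∈ J := by
    rcases a with a | a
    · exact hJ.conv hpJ hy hy' a (o_trans c2 c1)
    · exact a ▸ hy
  refine ⟨c ^ (-n - 1) * x0, hJ.conv hpJ c3 hy' c2 c1, ?_⟩
  rwa [show c * (c ^ (-n - 1) * x0) = c ^ (-n) * x0 by group]

/-! ### families of walls -/

def Prim (h : F g) : Prop := ∀ t, (∀ x, t * x ∈ Q h ↔ x ∈ Q h) → ∃ n : ℤ, t = h ^ n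

def Cross (h h' : F g) : Prop :=
  (∃ x, x ∈ Q h ∧ x ∈ Q h') ∧ (∃ x, x ∈ Q h ∧ x ∉ Q h') ∧ (∃ x, x ∉ Q h ∧ x ∈ Q h') ∧
    ∃ x, x ∉ Q h ∧ x ∉ Q h'

lemma Cross.symm {h h' : F g} (H : Cross h h') : Cross h' h := by
  obtain ⟨⟨x, a⟩, ⟨y, b⟩, ⟨z, c⟩, ⟨w, d⟩⟩ := H
  exact ⟨⟨x, a.symm⟩, ⟨z, c.symm⟩, ⟨y, b.symm⟩, ⟨w, d.symm⟩⟩

lemma Cross.inv_right {h h' : F g} (h1 : h' ≠ 1) (H : Cross h h') : Cross h h'⁻¹ := by
  unfold Cross at *
  simp only [Q_inv h1, not_not]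
  tauto

lemma Cross.inv_left {h h' : F g} (h1 : h ≠ 1) (H : Cross h h') : Cross h⁻¹ h' :=
  (H.symm.inv_right h1).symm

lemma cross_map (ψ : F g → F g) (f : F g ≃ F g) (hQ : ∀ h x, f x ∈ Q (ψ h) ↔ x ∈ Q h)
    (h h' : F g) : Cross (ψ h) (ψ h') ↔ Cross h h' := by
  unfold Cross
  simp only [← hQ h, ← hQ h']
  refine and_congr ?_ (and_congr ?_ (and_congr ?_ ?_)) <;>
    exact (f.exists_congr_right (q := fun x => _)).symm

lemma cross_conj (t h h' : F g) : Cross (t * h * t⁻¹) (t * h' * t⁻¹) ↔ Cross h h' :=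
  cross_map (fun h => t * h * t⁻¹) (Equiv.mulLeft t) (Q_conj t) h h'

lemma not_cross_self (h : F g) : ¬ Cross h h := fun H => by
  obtain ⟨x, a, b⟩ := H.2.1; exact b a

lemma comparable {h h' : F g} (H : ¬ Cross h h') {x p : F g} (a : x ∈ Q h) (b : x ∈ Q h')
    (c : p ∉ Q h) (d : p ∉ Q h') : Q h ⊆ Q h' ∨ Q h' ⊆ Q h := by
  by_contra hc
  simp only [Set.subset_def, not_or, not_forall] at hc
  obtain ⟨⟨y, y1, y2⟩, z, z1, z2⟩ := hc
  exact H ⟨⟨x, a, b⟩, ⟨y, y1, y2⟩, ⟨z, z2, z1⟩, p, c, d⟩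

lemma Prim.conj {h : F g} (H : Prim h) (t : F g) : Prim (t * h * t⁻¹) := by
  intro s hs
  obtain ⟨n, hn⟩ := H (t⁻¹ * s * t) fun x => by
    rw [← Q_conj t h, ← Q_conj t h x, ← hs (t * x)]; simp [mul_assoc]
  exact ⟨n, by rw [conj_zpow, ← hn]; group⟩

lemma Prim.inv {h : F g} (h1 : h ≠ 1) (H : Prim h) : Prim h⁻¹ := by
  intro s hs
  obtain ⟨n, hn⟩ := H s fun x => by
    have := hs x; rw [Q_inv h1, Q_inv h1] at this; exact not_iff_not.1 this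
  exact ⟨-n, by simpa using hn⟩

lemma Q_inj {h h' : F g} (h1 : h ≠ 1) (p1 : Prim h) (p2 : Prim h')
    (e : Q h = Q h') : h = h' := by
  obtain ⟨k, hk⟩ := p1 h' (by rw [e]; exact Q_self h')
  obtain ⟨m, hm⟩ := p2 h (by rw [← e]; exact Q_self h)
  have : k * m - 1 = 0 := zpow_eq_one' h1 (by rw [zpow_sub, zpow_mul, ← hk, ← hm]; simp)
  rcases Int.eq_one_or_neg_one_of_mul_eq_one (show k * m = 1 by omega) with rfl | rfl
  · simpa using hk.symm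
  · exfalso
    obtain ⟨x, hx⟩ := Q_nonempty h1
    have hx' := hx
    rw [e, hk, zpow_neg_one, Q_inv h1] at hx'
    exact hx' hx

structure Fam (H : Set (F g)) : Prop where
  inv : ∀ h ∈ H, h⁻¹ ∈ H
  conj : ∀ h ∈ H, ∀ t, t * h * t⁻¹ ∈ H
  ne : ∀ h ∈ H, h ≠ 1
  prim : ∀ h ∈ H, Prim h
  lf : ∀ p q, {h | h ∈ H ∧ p ∉ Q h ∧ q ∈ Q h}.Finite

def Nest (H : Set (F g)) : Prop := ∀ h ∈ H, ∀ h' ∈ H, ¬ Cross h h'

lemma Fam.inj {H : Set (F g)} (hH : Fam H) {h h' : F g} (a : h ∈ H) (b : h' ∈ H)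
    (c : Q h ⊆ Q h') (d : Q h' ⊆ Q h) : h = h' :=
  Q_inj (hH.ne _ a) (hH.prim _ a) (hH.prim _ b) (c.antisymm d)

def cl (c : F g) : Set (F g) := {h | ∃ t, h = t * c * t⁻¹ ∨ h = t * c⁻¹ * t⁻¹}

lemma self_mem_cl (c : F g) : c ∈ cl c := ⟨1, Or.inl (by simp)⟩

lemma cl_inv {c h : F g} (H : h ∈ cl c) : h⁻¹ ∈ cl c := by
  obtain ⟨t, rfl | rfl⟩ := H
  · exact ⟨t, Or.inr (by group)⟩
  · exact ⟨t, Or.inl (by group)⟩

lemma cl_conj {c h : F g} (H : h ∈ cl c) (s : F g) : s * h * s⁻¹ ∈ cl c := by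
  obtain ⟨t, rfl | rfl⟩ := H
  · exact ⟨s * t, Or.inl (by group)⟩
  · exact ⟨s * t, Or.inr (by group)⟩

lemma cl_eq {c h : F g} (H : h ∈ cl c) : cl h = cl c := by
  have key : ∀ {c h : F g}, h ∈ cl c → cl h ⊆ cl c := by
    rintro c h H _ ⟨t, rfl | rfl⟩
    · exact cl_conj H t
    · exact cl_conj (cl_inv H) t
  refine (key H).antisymm (key ?_)
  obtain ⟨t, rfl | rfl⟩ := H
  · exact ⟨t⁻¹, Or.inl (by group)⟩
  · exact ⟨t⁻¹, Or.inr (by group)⟩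

lemma lf_conj {c : F g} (h1 : c ≠ 1) (p q : F g) :
    {h | (∃ t, h = t * c * t⁻¹) ∧ p ∉ Q h ∧ q ∈ Q h}.Finite := by
  obtain ⟨x0, h0⟩ := Q_nonempty h1
  refine ((fc_Iv (c * x0) x0 (q⁻¹ * p)).image fun x => q * x⁻¹ * c * (q * x⁻¹)⁻¹).subset ?_
  rintro _ ⟨⟨t, rfl⟩, a, b⟩
  rw [Q_conj'] at a b
  obtain ⟨n, hn⟩ := exists_lv h1 h0 b
  refine ⟨c ^ n * (t⁻¹ * q), ?_, by group⟩
  simp only [Set.mem_ofPred_eq, hn, true_iff]
  intro h
  obtain ⟨r, hr⟩ := exists_not_Q h1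
  have := ((mem_Iv h1 h0 hr).1 h).1
  rw [show c ^ n * (t⁻¹ * q) * (q⁻¹ * p) = c ^ n * (t⁻¹ * p) by group, Q_zpow] at this
  exact a this

lemma fam_cl {c : F g} (h1 : c ≠ 1) (h2 : Prim c) : Fam (cl c) := by
  refine ⟨fun h => cl_inv, fun h => cl_conj, ?_, ?_, ?_⟩
  · rintro h ⟨t, rfl | rfl⟩ <;> simpa [mul_inv_eq_one] using h1
  · rintro h ⟨t, rfl | rfl⟩
    · exact h2.conj t
    · exact (h2.inv h1).conj t
  · intro p q
    refine ((lf_conj h1 p q).union (lf_conj (c := c⁻¹) (by simpa using h1) p q)).subset ?_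
    rintro h ⟨⟨t, e | e⟩, a⟩
    · exact Or.inl ⟨⟨t, e⟩, a⟩
    · exact Or.inr ⟨⟨t, e⟩, a⟩

structure Simple (c : F g) : Prop where
  ne : c ≠ 1
  prim : Prim c
  nc : ∀ t, ¬ Cross c (t * c * t⁻¹)

lemma Simple.fam {c : F g} (H : Simple c) : Fam (cl c) := fam_cl H.ne H.prim

lemma Simple.nest {c : F g} (H : Simple c) : Nest (cl c) := by
  have key : ∀ s t, ¬ Cross (s * c * s⁻¹) (t * c * t⁻¹) := by
    intro s t h
    apply H.nc (s⁻¹ * t)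
    rw [← cross_conj s]
    convert h using 1; group
  have ne : ∀ s : F g, s * c⁻¹ * s⁻¹ ≠ 1 := fun s => by simpa [mul_inv_eq_one] using H.ne
  have e : ∀ s : F g, (s * c⁻¹ * s⁻¹)⁻¹ = s * c * s⁻¹ := fun s => by group
  rintro h ⟨s, rfl | rfl⟩ h' ⟨t, rfl | rfl⟩ hc
  · exact key s t hc
  · exact key s t (e t ▸ hc.inv_right (ne t))
  · exact key s t (e s ▸ hc.inv_left (ne s))
  · exact key s t (e s ▸ e t ▸ (hc.inv_left (ne s)).inv_right (ne t))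

lemma Simple.of_mem {c h : F g} (H : Simple c) (hh : h ∈ cl c) : Simple h :=
  ⟨H.fam.ne _ hh, H.fam.prim _ hh, fun t => H.nest _ hh _ (cl_conj hh t)⟩

/-! ### strictly descending walls -/

def SD (t h : F g) : Prop := (∀ x ∈ Q h, t * x ∈ Q h) ∧ ∃ x, x ∉ Q h ∧ t * x ∈ Q h

lemma SD.ne {t h : F g} (H : SD t h) : t ≠ 1 := by
  rintro rfl
  obtain ⟨x, a, b⟩ := H.2
  exact a (by simpa using b)

lemma SD.pow_mem {t h : F g} (H : SD t h) (n : ℕ) {x : F g} (hx : x ∈ Q h) :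
    t ^ n * x ∈ Q h := by
  induction n with
  | zero => simpa using hx
  | succ n ih => rw [pow_succ', mul_assoc]; exact H.1 _ ih

lemma SD.zpow_mem {t h : F g} (H : SD t h) {m n : ℤ} (hmn : m ≤ n) {x : F g}
    (hx : t ^ m * x ∈ Q h) : t ^ n * x ∈ Q h := by
  obtain ⟨k, rfl⟩ := Int.le.dest hmn
  have := H.pow_mem k hx
  rwa [show t ^ k * (t ^ m * x) = t ^ (m + k) * x by group] at this

lemma SD.inv {t h : F g} (h1 : h ≠ 1) (H : SD t h) : SD t⁻¹ h⁻¹ := by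
  refine ⟨fun x hx => ?_, ?_⟩
  · rw [Q_inv h1] at *
    intro h'
    exact hx (by simpa using H.1 _ h')
  · obtain ⟨x, a, b⟩ := H.2
    exact ⟨t * x, by simpa [Q_inv h1] using b, by simpa [Q_inv h1] using a⟩

lemma SD.conj {t h : F g} (H : SD t h) (s : F g) : SD (s * t * s⁻¹) (s * h * s⁻¹) := by
  refine ⟨fun x hx => ?_, ?_⟩
  · rw [Q_conj'] at *
    simpa [mul_assoc] using H.1 _ hx
  · obtain ⟨x, a, b⟩ := H.2
    exact ⟨s * x, by rwa [Q_conj], by rw [Q_conj']; simpa [mul_assoc] using b⟩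

lemma SD.conj_zpow {t h : F g} (H : SD t h) (n : ℤ) : SD t (t ^ n * h * (t ^ n)⁻¹) := by
  have := H.conj (t ^ n)
  rwa [show t ^ n * t * (t ^ n)⁻¹ = t by group] at this

/-- the chain is decreasing -/
lemma SD.chain {t h : F g} (H : SD t h) {m n : ℤ} (hmn : m ≤ n) :
    Q (t ^ n * h * (t ^ n)⁻¹) ⊆ Q (t ^ m * h * (t ^ m)⁻¹) := by
  intro x hx
  rw [Q_conj', ← zpow_neg] at *
  exact H.zpow_mem (by omega) hx

lemma SD.chain_lt {t h : F g} (H : SD t h) {m n : ℤ} (hmn : m < n) :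
    ¬ Q (t ^ m * h * (t ^ m)⁻¹) ⊆ Q (t ^ n * h * (t ^ n)⁻¹) := by
  intro hs
  obtain ⟨x, a, b⟩ := H.2
  have := hs (a := t ^ (m + 1) * x) (by
    rw [Q_conj', show (t ^ m)⁻¹ * (t ^ (m + 1) * x) = t * x by group]; exact b)
  rw [Q_conj', show (t ^ n)⁻¹ * (t ^ (m + 1) * x) = t ^ (m + 1 - n) * x by group] at this
  exact a (by simpa using H.zpow_mem (n := 0) (by omega) this)

lemma SD.chain_inj {t h : F g} (H : SD t h) {m n : ℤ}
    (e : t ^ m * h * (t ^ m)⁻¹ = t ^ n * h * (t ^ n)⁻¹) : m = n := by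
  by_contra hne
  rcases lt_or_gt_of_ne hne with h1 | h1
  · exact H.chain_lt h1 (e ▸ subset_rfl)
  · exact H.chain_lt h1 (e ▸ subset_rfl)

lemma SD.absorb {H : Set (F g)} (hH : Fam H) {t h : F g} (hh : h ∈ H) (S : SD t h) (x : F g) :
    ∃ n : ℕ, t ^ n * x ∈ Q h := by
  by_contra hc
  push Not at hc
  obtain ⟨y, hy⟩ := Q_nonempty (hH.ne _ hh)
  refine Set.infinite_of_injective_forall_mem
    (f := fun n : ℕ => t ^ (-(n : ℤ)) * h * (t ^ (-(n : ℤ)))⁻¹) ?_ ?_ (hH.lf x y)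
  · intro m n e
    have := S.chain_inj e
    omega
  · intro n
    refine ⟨hH.conj _ hh _, ?_, ?_⟩
    · rw [Q_conj']; simpa using hc n
    · rw [Q_conj']; simpa using S.pow_mem n hy

lemma SD.escape {H : Set (F g)} (hH : Fam H) {t h : F g} (hh : h ∈ H) (S : SD t h) (x : F g) :
    ∃ n : ℕ, (t ^ n)⁻¹ * x ∉ Q h := by
  obtain ⟨n, hn⟩ := (S.inv (hH.ne _ hh)).absorb hH (hH.inv _ hh) x
  exact ⟨n, by simpa [Q_inv (hH.ne _ hh)] using hn⟩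

lemma SD.cross {H : Set (F g)} (hH : Fam H) {t h : F g} (hh : h ∈ H) (S : SD t h) :
    Cross t h := by
  obtain ⟨x, hx⟩ := Q_nonempty S.ne
  obtain ⟨y, hy⟩ := exists_not_Q S.ne
  have e : ∀ (n : ℕ) x, (t ^ n)⁻¹ * x ∈ Q t ↔ x ∈ Q t := fun n => Q_comm (by group)
  obtain ⟨n1, h1⟩ := S.absorb hH hh x
  obtain ⟨n2, h2⟩ := S.escape hH hh x
  obtain ⟨n3, h3⟩ := S.absorb hH hh y
  obtain ⟨n4, h4⟩ := S.escape hH hh y
  exact ⟨⟨_, (Q_pow _ _ _).2 hx, h1⟩, ⟨_, (e _ _).2 hx, h2⟩, ⟨_, mt (Q_pow _ _ _).1 hy, h3⟩,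
    _, mt (e _ _).1 hy, h4⟩

lemma cross_sd {t h : F g} (h1 : t ≠ 1) (h2 : h ≠ 1) (hn : ¬ Cross h (t * h * t⁻¹))
    (H : Cross t h) : SD t h ∨ SD t⁻¹ h := by
  have key : ∀ {h : F g}, h ≠ 1 → Cross t h → ∃ x, x ∈ Q h ∧ t * x ∈ Q h := by
    intro h h2 H
    by_contra hc
    push Not at hc
    obtain ⟨⟨y, y1, y2⟩, -, ⟨p, p1, p2⟩, -⟩ := H
    refine (Q_arc h2).compl.conv (p := p) (by simpa using p2) (hc y y2) ?_ (Q_step h1 y1 p1)
      (Q_step' h1 y1 p1) y2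
    intro h'
    exact hc _ h' (by simpa using y2)
  obtain ⟨x, x1, x2⟩ := key h2 H
  obtain ⟨p, p1, p2⟩ := key (by simpa using h2) (H.inv_right h2)
  rw [Q_inv h2] at p1 p2
  have ni : ¬ ∀ x, t * x ∈ Q h ↔ x ∈ Q h := by
    intro hi
    obtain ⟨⟨y, y1, y2⟩, ⟨z, z1, z2⟩, -⟩ := H
    exact z2 (inv_arc h1 (Q_arc h2) hi y1 z1 y2)
  rcases comparable hn x2 ((Q_conj _ _ _).2 x1) p2 (mt (Q_conj _ _ _).1 p1) with hs | hs
  · right
    have a : ∀ x ∈ Q h, t⁻¹ * x ∈ Q h := fun x hx => (Q_conj' _ _ _).1 (hs hx)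
    refine ⟨a, ?_⟩
    by_contra hc
    push Not at hc
    exact ni fun x => ⟨fun hx => by simpa using a _ hx, fun hx => by
      by_contra h'; exact hc _ h' (by simpa using hx)⟩
  · left
    have a : ∀ x ∈ Q h, t * x ∈ Q h := fun x hx => hs ((Q_conj _ _ _).2 hx)
    refine ⟨a, ?_⟩
    by_contra hc
    push Not at hc
    exact ni fun x => ⟨fun hx => by by_contra h'; exact hc _ h' hx, a x⟩

lemma Simple.cross_sd {t h : F g} (S : Simple h) (h1 : t ≠ 1) (H : Cross t h) :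
    SD t h ∨ SD t⁻¹ h := MP_294da1_gt.cross_sd h1 S.ne (S.nc t) H

lemma not_sd_sd {t h : F g} (H : Cross t h) (s1 : SD t h) (s2 : SD h t) : False := by
  obtain ⟨⟨x, x1, x2⟩, ⟨y, y1, y2⟩, ⟨z, z1, z2⟩, p, p1, p2⟩ := H
  obtain ⟨n, hn⟩ := (Q_cof s1.ne x1 y1 p1).exists
  obtain ⟨m, hm⟩ := (Q_cof s2.ne x2 z2 p2).exists
  rcases o_total (x := p) (y := y) (z := z) (fun e => p1 (e ▸ y1)) (fun e => z1 (e ▸ y1))
    (fun e => p2 (e ▸ z2)) with h | h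
  · exact y2 ((Q_arc s2.ne).conv p2 (s1.pow_mem n x2) z2 hn h)
  · exact z1 ((Q_arc s1.ne).conv p1 (s2.pow_mem m x1) y1 hm h)

lemma SD.flip {t h : F g} (St : Simple t) (Sh : Simple h) (s : SD t h) : SD h⁻¹ t := by
  have c := s.cross Sh.fam (self_mem_cl h)
  exact (St.cross_sd Sh.ne c.symm).resolve_left (not_sd_sd c s)

end Pool.Agent.Lib.MP_294da1_gt
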